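import Pool.Agent.LTS.Defs

/-!
# Sharp Lieb-Thirring (MP_4c716f_mp), module ALGW: algebraic identities for `W`, `G`  (helper37)

`T = G⁻¹`, `D = Re W - T`, `P = i F`: `D G + G D + P G - G P = 0`, `T D + D T + T P - P T = 0`,
`T² + D² + D P - P D = A - F²`.
-/

set_option autoImplicit false

namespace Pool.Agent.LTS

open MeasureTheory Matrix Finset
open scoped ComplexConjugate ComplexOrder

section ring

variable {R : Type*} [Ring R]

theorem aw_a {T G D P : R} (h1 : G * T = 1) (h2 : T * G = 1)
    (h : (T + D + P) * G + G * (T + D - P) = 1 + 1) : D * G + G * D + P * G - G * P = 0 := by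
  have e : (T + D + P) * G + G * (T + D - P) =
      T * G + G * T + (D * G + G * D + P * G - G * P) := by noncomm_ring
  rw [e, h1, h2] at h
  exact add_eq_left.1 h

theorem aw_b {T G D P : R} (h1 : G * T = 1) (h2 : T * G = 1)
    (h : D * G + G * D + P * G - G * P = 0) : T * D + D * T + T * P - P * T = 0 := by
  have e : T * (D * G + G * D + P * G - G * P) * T =
      T * D * (G * T) + (T * G) * D * T + T * P * (G * T) - (T * G) * P * T := by noncomm_ring
  rw [h, h1, h2] at e
  simp only [mul_zero, zero_mul, mul_one, one_mul] at e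
  exact e.symm

theorem aw_c {T D P : R} (h : T * D + D * T + T * P - P * T = 0) :
    (T + D - P) * (T + D + P) + P * P = T * T + D * D + (D * P - P * D) := by
  have e : (T + D - P) * (T + D + P) + P * P =
      T * T + D * D + (D * P - P * D) + (T * D + D * T + T * P - P * T) := by noncomm_ring
  rw [e, h, add_zero]

end ring

section tr

variable {N : ℕ}

theorem aw_trD {T G D P : Mat N} (h1 : G * T = 1) (h2 : T * G = 1)
    (h : T * D + D * T + T * P - P * T = 0) : Matrix.trace D = 0 := by
  have e : G * (T * D + D * T + T * P - P * T) = G * T * D + G * (D * T) + G * T * P - G * (P * T) := by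
    noncomm_ring
  rw [h, mul_zero, h1, one_mul, one_mul] at e
  have e1 := congrArg Matrix.trace e
  have e2 : Matrix.trace (G * (D * T)) = Matrix.trace D := by
    rw [← mul_assoc, Matrix.trace_mul_comm, ← mul_assoc, h2, one_mul]
  have e3 : Matrix.trace (G * (P * T)) = Matrix.trace P := by
    rw [← mul_assoc, Matrix.trace_mul_comm, ← mul_assoc, h2, one_mul]
  rw [Matrix.trace_sub, Matrix.trace_add, Matrix.trace_add, Matrix.trace_zero, e2, e3] at e1
  linear_combination (-1 / 2 : ℂ) * e1

theorem aw_tr1 {T G D P : Mat N} (h1 : G * T = 1)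
    (h : D * G + G * D + P * G - G * P = 0) :
    Matrix.trace (G * (T * T + D * D + (D * P - P * D))) =
      Matrix.trace T - Matrix.trace (D * G * D) := by
  have e : G * (T * T + D * D + (D * P - P * D)) =
      G * T * T + G * D * D + G * D * P - G * P * D := by noncomm_ring
  rw [e, h1, one_mul, Matrix.trace_sub, Matrix.trace_add, Matrix.trace_add]
  have e1 : (D * G + G * D + P * G - G * P) * D = D * G * D + G * D * D + P * G * D - G * P * D := by
    noncomm_ring
  rw [h, zero_mul] at e1
  have e2 := congrArg Matrix.trace e1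
  rw [Matrix.trace_sub, Matrix.trace_add, Matrix.trace_add, Matrix.trace_zero] at e2
  have e3 : Matrix.trace (G * D * P) = Matrix.trace (P * G * D) := Matrix.trace_mul_cycle G D P
  rw [e3]
  linear_combination -e2

theorem aw_nonneg {G X : Mat N} (hG : G.PosSemidef) (hX : X.IsHermitian) :
    0 ≤ (Matrix.trace (X * G * X)).re := by
  have h := (hG.conjTranspose_mul_mul_same X).trace_nonneg
  rw [hX.eq] at h
  exact (Complex.le_def.1 h).1

theorem aw_sq_nonneg {X : Mat N} (hX : X.IsHermitian) : 0 ≤ (Matrix.trace (X * X)).re := by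
  have h := aw_nonneg (Matrix.PosSemidef.one (n := Fin N) (R := ℂ)) hX
  rwa [mul_one] at h

/-- `W` is invertible -/
theorem aw_unit {W G : Mat N} (hW : W * G + G * Wᴴ = (2 : ℂ) • (1 : Mat N)) : IsUnit W.det := by
  rw [isUnit_iff_ne_zero]
  intro h0
  have h1 : Wᴴ.det = 0 := by rw [Matrix.det_conjTranspose, h0, star_zero]
  obtain ⟨v, hv, hv0⟩ := Matrix.exists_mulVec_eq_zero_iff.2 h1
  have e := congrArg (fun M : Mat N => star v ⬝ᵥ (M *ᵥ v)) hW
  simp only [Matrix.add_mulVec, Matrix.smul_mulVec, Matrix.one_mulVec, dotProduct_add,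
    ← Matrix.mulVec_mulVec, hv0, Matrix.mulVec_zero, dotProduct_zero, add_zero,
    dotProduct_smul] at e
  rw [Matrix.dotProduct_mulVec, ← Matrix.conjTranspose_conjTranspose W, ← Matrix.star_mulVec,
    hv0, star_zero, zero_dotProduct] at e
  have e2 : star v ⬝ᵥ v = 0 := by
    rcases smul_eq_zero.1 e.symm with h | h
    · exact absurd h (by norm_num)
    · exact h
  exact hv (dotProduct_star_self_eq_zero.1 e2)

end tr

theorem algW : AlgStmt := by
  intro N A F W G hA hF ⟨hWA, hWF, _⟩ ⟨hGp, hWG⟩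
  have hGH : Gᴴ = G := hGp.isHermitian.eq
  have hu : IsUnit G.det := hGp.det_pos.ne'.isUnit
  set T : Mat N := G⁻¹ with hT
  have hGT : G * T = 1 := Matrix.mul_nonsing_inv G hu
  have hTG : T * G = 1 := Matrix.nonsing_inv_mul G hu
  have hTp : T.PosDef := hGp.inv
  have hTH : Tᴴ = T := hTp.isHermitian.eq
  set P : Mat N := Complex.I • F with hP
  have hPH : Pᴴ = -P := by
    rw [hP, Matrix.conjTranspose_smul, hF.eq, ← neg_smul]
    simp
  have hPP : P * P = -(F * F) := by
    rw [hP, smul_mul_smul_comm, Complex.I_mul_I, neg_smul, one_smul]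
  have hWH : Wᴴ = W - (P + P) := by
    have : (2 * Complex.I) • F = P + P := by
      rw [hP, ← two_smul ℂ, smul_smul]
    rw [this] at hWF
    rw [← hWF]; abel
  obtain ⟨D, hD⟩ : ∃ D : Mat N, D = W - P - T := ⟨_, rfl⟩
  have hW1 : W = T + D + P := by rw [hD]; abel
  have hW2 : Wᴴ = T + D - P := by rw [hWH, hW1]; abel
  have hDH : Dᴴ = D := by
    rw [hD, Matrix.conjTranspose_sub, Matrix.conjTranspose_sub, hPH, hTH, hW2, hW1]
    abel
  have two : (2 : ℂ) • (1 : Mat N) = 1 + 1 := two_smul ℂ 1
  have ha : D * G + G * D + P * G - G * P = 0 := by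
    refine aw_a hGT hTG ?_
    rw [← hW1, ← hW2, hWG, two]
  have hb := aw_b hGT hTG ha
  have hc : A - F * F = T * T + D * D + (D * P - P * D) := by
    rw [← aw_c hb, ← hW1, ← hW2, hWA, hPP, sub_eq_add_neg]
  have htD := aw_trD hGT hTG hb
  have htP : (Matrix.trace P).re = 0 := by
    have h1 : star (Matrix.trace P) = Matrix.trace Pᴴ := (Matrix.trace_conjTranspose P).symm
    rw [hPH, Matrix.trace_neg] at h1
    have h2 := congrArg Complex.re h1
    simp at h2
    linarith
  have htW : (Matrix.trace W).re = (Matrix.trace T).re := by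
    rw [hW1, Matrix.trace_add, Matrix.trace_add, htD, Complex.add_re, htP]
    simp
  have htT : 0 ≤ (Matrix.trace T).re := (Complex.le_def.1 hTp.posSemidef.trace_nonneg).1
  refine ⟨?_, ?_, ?_, ?_, ?_, ?_⟩
  · rw [hc, aw_tr1 hGT ha, htW, Complex.sub_re]
    have := aw_nonneg hGp.posSemidef (show D.IsHermitian from hDH)
    linarith
  · rw [htW]; exact htT
  · intro m hm
    have hs : 0 < √m := Real.sqrt_pos.2 hm
    rw [htW, le_div_iff₀ (by positivity)]
    have h1 : (Matrix.trace (A - F * F)).re = (Matrix.trace (T * T)).re + (Matrix.trace (D * D)).re := by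
      rw [hc, Matrix.trace_add, Matrix.trace_add, Matrix.trace_sub, Matrix.trace_mul_comm D P,
        sub_self, add_zero, Complex.add_re]
    have h2 := aw_sq_nonneg (show D.IsHermitian from hDH)
    have hX : (T - ((√m : ℝ) : ℂ) • (1 : Mat N)).IsHermitian := by
      unfold Matrix.IsHermitian
      rw [Matrix.conjTranspose_sub, hTH, Matrix.conjTranspose_smul, Matrix.conjTranspose_one]
      simp
    have h3 := aw_sq_nonneg hX
    have h4 : (T - ((√m : ℝ) : ℂ) • (1 : Mat N)) * (T - ((√m : ℝ) : ℂ) • (1 : Mat N)) =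
        T * T - ((2 * √m : ℝ) : ℂ) • T + ((m : ℝ) : ℂ) • (1 : Mat N) := by
      have hm2 : ((√m : ℝ) : ℂ) * ((√m : ℝ) : ℂ) = ((m : ℝ) : ℂ) := by
        rw [← Complex.ofReal_mul, Real.mul_self_sqrt hm.le]
      rw [sub_mul, mul_sub, mul_sub, smul_mul_smul_comm, one_mul, hm2, smul_mul_assoc, one_mul,
        mul_smul_comm, mul_one, Complex.ofReal_mul, mul_smul, Complex.ofReal_ofNat, two_smul]
      abel
    rw [h4, Matrix.trace_add, Matrix.trace_sub, Matrix.trace_smul, Matrix.trace_smul,
      Matrix.trace_one, Complex.add_re, Complex.sub_re] at h3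
    simp only [smul_eq_mul, Complex.re_ofReal_mul, Fintype.card_fin, Complex.natCast_re] at h3
    rw [h1]
    linarith
  · intro S hS
    have hX : (T - S).IsHermitian := Matrix.IsHermitian.sub hTH hS
    have h3 := aw_nonneg hGp.posSemidef hX
    have h4 : (T - S) * G * (T - S) = T * G * T - (T * G) * S - S * (G * T) + S * G * S := by
      noncomm_ring
    rw [h4, hTG, hGT, one_mul, one_mul, mul_one, Matrix.trace_add, Matrix.trace_sub,
      Matrix.trace_sub, Complex.add_re, Complex.sub_re, Complex.sub_re,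
      Matrix.trace_mul_cycle S G S, Matrix.trace_mul_comm (S * S) G] at h3
    rw [htW]
    linarith
  · intro W' h1 h2
    have h3 : W'ᴴ = W' := (sub_eq_zero.1 h2).symm
    rw [h3] at h1
    have h4 : W' * (W * G + G * Wᴴ) = W' * W * G + W' * G * Wᴴ := by noncomm_ring
    have h5 := congrArg Matrix.trace h4
    rw [hWG, Matrix.mul_smul, mul_one, Matrix.trace_smul, Matrix.trace_add,
      Matrix.trace_mul_cycle W' G Wᴴ, ← Matrix.trace_add, ← add_mul, h1, one_mul] at h5
    have h6 := congrArg Complex.re h5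
    simp at h6
    linarith
  · intro W' F' hF' h1 h2
    have huW := aw_unit hWG
    have hWi : W * W⁻¹ = 1 := Matrix.mul_nonsing_inv W huW
    have hiW : W⁻¹ * W = 1 := Matrix.nonsing_inv_mul W huW
    set K : Mat N := W' * W⁻¹ with hK
    have hKW : K * W = W' := by rw [hK, mul_assoc, hiW, mul_one]
    have hKW' : Wᴴ * Kᴴ = W'ᴴ := by rw [← Matrix.conjTranspose_mul, hKW]
    have hWiH : (W⁻¹)ᴴ * Wᴴ = 1 := by rw [← Matrix.conjTranspose_mul, hWi, Matrix.conjTranspose_one]
    have hKK : Kᴴ = -K := by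
      have e1 : Wᴴ * (Kᴴ + K) * W = 0 := by
        have : Wᴴ * (Kᴴ + K) * W = (Wᴴ * Kᴴ) * W + Wᴴ * (K * W) := by noncomm_ring
        rw [this, hKW, hKW', h1]
      have e2 : (W⁻¹)ᴴ * (Wᴴ * (Kᴴ + K) * W) * W⁻¹ = Kᴴ + K := by
        have : (W⁻¹)ᴴ * (Wᴴ * (Kᴴ + K) * W) * W⁻¹ = ((W⁻¹)ᴴ * Wᴴ) * (Kᴴ + K) * (W * W⁻¹) := by
          noncomm_ring
        rw [this, hWi, hWiH, one_mul, mul_one]
      rw [e1, mul_zero, zero_mul] at e2
      exact eq_neg_of_add_eq_zero_left e2.symm
    have h3 : Matrix.trace (W⁻¹ * W') = Matrix.trace K := Matrix.trace_mul_comm _ _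
    have h4 : Complex.I * Matrix.trace (G * F') = Matrix.trace K := by
      have e1 : Matrix.trace (G * (W' - W'ᴴ)) = 2 * Complex.I * Matrix.trace (G * F') := by
        rw [h2, Matrix.mul_smul, Matrix.trace_smul, smul_eq_mul]
      have e2 : G * (W' - W'ᴴ) = G * K * W + G * Wᴴ * K := by
        rw [← hKW', hKK, ← hKW]; noncomm_ring
      have e3 : K * (W * G + G * Wᴴ) = K * W * G + K * (G * Wᴴ) := by noncomm_ring
      have e4 := congrArg Matrix.trace e3
      rw [hWG, Matrix.mul_smul, mul_one, Matrix.trace_smul, Matrix.trace_add,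
        Matrix.trace_mul_comm K (G * Wᴴ), Matrix.trace_mul_cycle K W G, ← Matrix.trace_add,
        ← e2, e1, smul_eq_mul] at e4
      linear_combination (-1 / 2 : ℂ) * e4
    refine ⟨by rw [h3, h4], ?_⟩
    have h5 : star (Matrix.trace (G * F')) = Matrix.trace (G * F') := by
      rw [← Matrix.trace_conjTranspose, Matrix.conjTranspose_mul, hF'.eq, hGH,
        Matrix.trace_mul_comm]
    exact Complex.conj_eq_iff_im.1 h5

end Pool.Agent.LTS
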