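import Pool.Agent.LTS.Defs

/-!
# (ARG) `∫ tr (G F') = -2 ∑ arctan (k_i / √μ)` (MP_4c716f_mp)
-/

set_option autoImplicit false

namespace Pool.Agent.LTS

open MeasureTheory Matrix Finset
open scoped ComplexConjugate ComplexOrder

namespace Arg

/-! ### trace bounds -/

/-- the sum of the absolute values of the entries -/
noncomputable def ent {N : ℕ} (M : Mat N) : ℝ := ∑ i, ∑ j, ‖M i j‖

lemma ent_nonneg {N : ℕ} (M : Mat N) : 0 ≤ ent M :=
  Finset.sum_nonneg fun _ _ => Finset.sum_nonneg fun _ _ => norm_nonneg _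

lemma exists_factor {N : ℕ} {G : Mat N} (hG : G.PosSemidef) : ∃ B : Mat N, G = Bᴴ * B := by
  open scoped MatrixOrder in
  have h0 : (0 : Mat N) ≤ G := hG.nonneg
  obtain ⟨B, hB⟩ := CStarAlgebra.nonneg_iff_eq_star_mul_self.mp h0
  exact ⟨B, hB⟩

lemma entry_le_trace {N : ℕ} {G : Mat N} (hG : G.PosSemidef) (i j : Fin N) :
    ‖G i j‖ ≤ (Matrix.trace G).re := by
  obtain ⟨B, rfl⟩ := exists_factor hG
  have h1 : ‖(Bᴴ * B) i j‖ ≤ ∑ k, ‖B k i‖ * ‖B k j‖ := by
    rw [Matrix.mul_apply]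
    refine (norm_sum_le _ _).trans (le_of_eq (Finset.sum_congr rfl fun k _ => ?_))
    rw [Matrix.conjTranspose_apply, norm_mul, norm_star]
  have h2 : (Matrix.trace (Bᴴ * B)).re = ∑ k, ∑ l, ‖B k l‖ ^ 2 := by
    rw [Matrix.trace, Complex.re_sum, Finset.sum_comm]
    refine Finset.sum_congr rfl fun l _ => ?_
    rw [Matrix.diag_apply, Matrix.mul_apply, Complex.re_sum]
    refine Finset.sum_congr rfl fun k _ => ?_
    rw [Matrix.conjTranspose_apply, ← Complex.normSq_eq_norm_sq]
    simp [Complex.normSq_apply]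
  rw [h2]
  refine h1.trans (Finset.sum_le_sum fun k _ => ?_)
  have h3 : ‖B k i‖ ^ 2 ≤ ∑ l, ‖B k l‖ ^ 2 :=
    Finset.single_le_sum (f := fun l => ‖B k l‖ ^ 2) (fun _ _ => by positivity)
      (Finset.mem_univ i)
  have h4 : ‖B k j‖ ^ 2 ≤ ∑ l, ‖B k l‖ ^ 2 :=
    Finset.single_le_sum (f := fun l => ‖B k l‖ ^ 2) (fun _ _ => by positivity)
      (Finset.mem_univ j)
  nlinarith [sq_nonneg (‖B k i‖ - ‖B k j‖)]

lemma trace_mul_le {N : ℕ} {G : Mat N} (hG : G.PosSemidef) (M : Mat N) :
    ‖Matrix.trace (G * M)‖ ≤ (Matrix.trace G).re * ent M := by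
  have h0 : Matrix.trace (G * M) = ∑ i, ∑ j, G j i * M i j := by
    rw [Matrix.trace_mul_comm, Matrix.trace]
    refine Finset.sum_congr rfl fun i _ => ?_
    rw [Matrix.diag_apply, Matrix.mul_apply]
    exact Finset.sum_congr rfl fun j _ => mul_comm _ _
  rw [h0, ent, Finset.mul_sum]
  refine (norm_sum_le _ _).trans (Finset.sum_le_sum fun i _ => ?_)
  rw [Finset.mul_sum]
  refine (norm_sum_le _ _).trans (Finset.sum_le_sum fun j _ => ?_)
  rw [norm_mul]
  exact mul_le_mul_of_nonneg_right (entry_le_trace hG _ _) (norm_nonneg _)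

lemma trace_le_ent {N : ℕ} (M : Mat N) : |(Matrix.trace M).re| ≤ ent M := by
  refine (Complex.abs_re_le_norm _).trans ?_
  rw [Matrix.trace]
  refine (norm_sum_le _ _).trans (Finset.sum_le_sum fun i _ => ?_)
  exact Finset.single_le_sum (f := fun j => ‖M i j‖) (fun _ _ => norm_nonneg _)
    (Finset.mem_univ i)

lemma trace_nonneg {N : ℕ} {G : Mat N} (hG : G.PosSemidef) : 0 ≤ (Matrix.trace G).re := by
  have := hG.trace_nonneg
  exact (Complex.nonneg_iff.mp this).1

/-! ### the determinant of `a + b κ` -/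

lemma det_affine {N : ℕ} {κ : Mat N} (hκ : κ.IsHermitian) (a b : ℂ) :
    (a • (1 : Mat N) + b • κ).det = ∏ i, (a + b * (hκ.eigenvalues i : ℂ)) := by
  set U : Mat N := (hκ.eigenvectorUnitary : Mat N) with hU
  have hUU : U * star U = 1 := Unitary.coe_mul_star_self hκ.eigenvectorUnitary
  have hUU' : star U * U = 1 := Unitary.coe_star_mul_self hκ.eigenvectorUnitary
  have hs : κ = U * Matrix.diagonal (fun i => (hκ.eigenvalues i : ℂ)) * star U := by
    have := hκ.spectral_theorem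
    rw [Unitary.conjStarAlgAut_apply] at this
    exact this
  have h1 : a • (1 : Mat N) + b • κ =
      U * Matrix.diagonal (fun i => a + b * (hκ.eigenvalues i : ℂ)) * star U := by
    have h2 : Matrix.diagonal (fun i => a + b * (hκ.eigenvalues i : ℂ)) =
        a • (1 : Mat N) + b • Matrix.diagonal (fun i => (hκ.eigenvalues i : ℂ)) := by
      ext i j
      by_cases hij : i = j
      · subst hij; simp
      · simp [hij]
    rw [h2, mul_add, add_mul, mul_smul_comm, mul_smul_comm, smul_mul_assoc, smul_mul_assoc,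
      mul_one, hUU]
    congr 1
    rw [← hs]
  rw [h1, Matrix.det_mul, Matrix.det_mul, Matrix.det_diagonal, mul_right_comm, ← Matrix.det_mul,
    hUU, Matrix.det_one, one_mul]

/-- `√m - i k = (√m + i k) exp (-2 i arctan (k/√m))` -/
lemma sub_eq_exp (r k : ℝ) (hr : 0 < r) :
    (r : ℂ) + (-Complex.I) * (k : ℂ) =
      ((r : ℂ) + Complex.I * (k : ℂ)) *
        Complex.exp (((-(2 * Real.arctan (k / r)) : ℝ) : ℂ) * Complex.I) := by
  set t : ℝ := k / r with ht
  have hk : k = r * t := by rw [ht]; field_simp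
  set a : ℝ := Real.arctan t with ha
  have hs : (0 : ℝ) < √(1 + t ^ 2) := Real.sqrt_pos.mpr (by positivity)
  have hs2 : √(1 + t ^ 2) ^ 2 = 1 + t ^ 2 := Real.sq_sqrt (by positivity)
  have hc : Real.cos (2 * a) = (1 - t ^ 2) / (1 + t ^ 2) := by
    rw [Real.cos_two_mul, ha, Real.cos_arctan, div_pow, hs2]
    field_simp
    ring
  have hsn : Real.sin (2 * a) = 2 * t / (1 + t ^ 2) := by
    rw [Real.sin_two_mul, ha, Real.cos_arctan, Real.sin_arctan]
    have h2 : 2 * (t / √(1 + t ^ 2)) * (1 / √(1 + t ^ 2)) = 2 * t / √(1 + t ^ 2) ^ 2 := by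
      field_simp
    rw [h2, hs2]
  have h1 : (1 + t ^ 2 : ℝ) ≠ 0 := by positivity
  have e1 : r = r * Real.cos (2 * a) + k * Real.sin (2 * a) := by
    rw [hc, hsn, hk]; field_simp; ring
  have e2 : -k = k * Real.cos (2 * a) - r * Real.sin (2 * a) := by
    rw [hc, hsn, hk]; field_simp; ring
  rw [Complex.exp_mul_I, ← Complex.ofReal_cos, ← Complex.ofReal_sin, Real.cos_neg, Real.sin_neg]
  generalize Real.cos (2 * a) = c at e1 e2 ⊢
  generalize Real.sin (2 * a) = d at e1 e2 ⊢
  apply Complex.ext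
  · simp
    linarith
  · simp
    linarith

/-! ### the path lemma -/

lemma det_path {X : ℝ} (hX : 0 < X) {d : ℝ → ℂ} {g : ℝ → ℝ}
    (hd : ContinuousOn d (Set.Icc (-X) X)) (hg : ContinuousOn g (Set.Icc (-X) X))
    (hder : ∀ x ∈ Set.Ioo (-X) X, HasDerivAt d (d x * (Complex.I * (g x : ℂ))) x) :
    d X = d (-X) * Complex.exp (((∫ x in (-X)..X, g x : ℝ) : ℂ) * Complex.I) := by
  have hle : -X ≤ X := by linarith
  have hgi : IntervalIntegrable g volume (-X) X := hg.intervalIntegrable_of_Icc hle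
  have hgi' : ∀ x ∈ Set.Icc (-X) X, IntervalIntegrable g volume (-X) x := fun x hx =>
    (hg.mono (Set.Icc_subset_Icc_right hx.2)).intervalIntegrable_of_Icc hx.1
  have hθc : ContinuousOn (fun x => ∫ y in (-X)..x, g y) (Set.Icc (-X) X) := by
    have := intervalIntegral.continuousOn_primitive_interval' hgi (Set.left_mem_uIcc)
    rwa [Set.uIcc_of_le hle] at this
  have hθd : ∀ x ∈ Set.Ioo (-X) X, HasDerivAt (fun x => ∫ y in (-X)..x, g y) (g x) x := by
    intro x hx
    refine intervalIntegral.integral_hasDerivAt_right (hgi' x (Set.Ioo_subset_Icc_self hx)) ?_ ?_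
    · exact (hg.mono Set.Ioo_subset_Icc_self).stronglyMeasurableAtFilter isOpen_Ioo x hx
    · exact hg.continuousAt (Icc_mem_nhds hx.1 hx.2)
  set θ : ℝ → ℝ := fun x => ∫ y in (-X)..x, g y with hθ
  set h : ℝ → ℂ := fun x => d x * Complex.exp (-(θ x : ℂ) * Complex.I) with hh
  have hhc : ContinuousOn h (Set.Icc (-X) X) := by
    refine hd.mul (Complex.continuous_exp.comp_continuousOn ?_)
    exact ((Complex.continuous_ofReal.comp_continuousOn hθc).neg).mul continuousOn_const
  have hhd : ∀ x ∈ Set.Ioo (-X) X, HasDerivAt h 0 x := by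
    intro x hx
    have h1 : HasDerivAt (fun x => -(θ x : ℂ) * Complex.I) (-(g x : ℂ) * Complex.I) x :=
      ((hθd x hx).ofReal_comp.neg).mul_const _
    have h2 := (hder x hx).mul h1.cexp
    refine h2.congr_deriv ?_
    ring
  have h0 := intervalIntegral.integral_eq_sub_of_hasDerivAt_of_le hle hhc hhd
    (by simp)
  rw [intervalIntegral.integral_zero] at h0
  have h1 : h X = h (-X) := (sub_eq_zero.mp h0.symm)
  have h2 : θ (-X) = 0 := by simp [hθ]
  have h3 : h (-X) = d (-X) := by simp [hh, h2]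
  rw [h3] at h1
  rw [← h1, hh]
  simp only
  rw [mul_assoc, ← Complex.exp_add]
  have h4 : -(θ X : ℂ) * Complex.I + ((∫ x in (-X)..X, g x : ℝ) : ℂ) * Complex.I = 0 := by
    simp [hθ]
  rw [h4, Complex.exp_zero, mul_one]

/-! ### the end points -/

lemma isW_end {N : ℕ} {κ : Mat N} (hκ : κ.IsHermitian) {m : ℝ} (hm : 0 < m) {c : ℂ}
    (h1 : conj c = -c) (h2 : c * c = -1) :
    IsW (κ * κ + (m : ℂ) • (1 : Mat N)) ((-Complex.I * c) • κ)
      (((√m : ℝ) : ℂ) • (1 : Mat N) + c • κ) := by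
  set r : ℝ := √m with hr
  have hr0 : 0 < r := Real.sqrt_pos.mpr hm
  have hr2 : (r : ℂ) * (r : ℂ) = (m : ℂ) := by
    rw [← Complex.ofReal_mul, Real.mul_self_sqrt hm.le]
  have hstar : ((r : ℂ) • (1 : Mat N) + c • κ)ᴴ = (r : ℂ) • (1 : Mat N) - c • κ := by
    rw [Matrix.conjTranspose_add, Matrix.conjTranspose_smul, Matrix.conjTranspose_smul,
      Matrix.conjTranspose_one, hκ.eq]
    have h3 : star c = -c := h1
    have h4 : star (r : ℂ) = (r : ℂ) := Complex.conj_ofReal r
    rw [h3, h4, neg_smul, sub_eq_add_neg]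
  refine ⟨?_, ?_, 1, Matrix.PosDef.one, ?_⟩
  · rw [hstar]
    have h5 : ((r : ℂ) • (1 : Mat N) - c • κ) * ((r : ℂ) • (1 : Mat N) + c • κ) =
        ((r : ℂ) * (r : ℂ)) • (1 : Mat N) - (c * c) • (κ * κ) := by
      rw [sub_mul, mul_add, mul_add]
      simp only [smul_mul_assoc, mul_smul_comm, one_mul, mul_one, smul_smul]
      rw [mul_comm c (r : ℂ)]
      abel
    rw [h5, hr2, h2, neg_smul, one_smul]
    abel
  · rw [hstar, smul_smul]
    have h6 : 2 * Complex.I * (-Complex.I * c) = 2 * c := by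
      linear_combination (-2 * c) * Complex.I_mul_I
    rw [h6, mul_smul, two_smul]
    abel
  · rw [hstar, mul_one, one_mul]
    have h7 : (r : ℂ) • (1 : Mat N) + c • κ + ((r : ℂ) • (1 : Mat N) - c • κ) =
        ((2 * r : ℝ) : ℂ) • (1 : Mat N) := by
      push_cast
      rw [mul_smul, two_smul]
      abel
    rw [h7]
    refine Matrix.PosDef.one.smul ?_
    rw [Complex.zero_lt_real]
    linarith

lemma det_path' {N : ℕ} {κ : Mat N} (hκ : κ.IsHermitian) {r : ℝ} (hr : 0 < r) :
    ((r : ℂ) • (1 : Mat N) + (-Complex.I) • κ).det =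
      ((r : ℂ) • (1 : Mat N) + Complex.I • κ).det *
        Complex.exp (((-(2 * ∑ i, Real.arctan (hκ.eigenvalues i / r)) : ℝ) : ℂ) * Complex.I) := by
  rw [det_affine hκ, det_affine hκ]
  have h1 : Complex.exp (((-(2 * ∑ i, Real.arctan (hκ.eigenvalues i / r)) : ℝ) : ℂ) *
      Complex.I) =
      ∏ i, Complex.exp (((-(2 * Real.arctan (hκ.eigenvalues i / r)) : ℝ) : ℂ) * Complex.I) := by
    rw [← Complex.exp_sum]
    congr 1
    rw [← Finset.sum_mul]
    congr 1
    rw [← Complex.ofReal_sum]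
    congr 1
    rw [Finset.mul_sum, ← Finset.sum_neg_distrib]
  rw [h1, ← Finset.prod_mul_distrib]
  exact Finset.prod_congr rfl fun i _ => sub_eq_exp r _ hr

lemma det_ne_zero {N : ℕ} {κ : Mat N} (hκ : κ.IsHermitian) {r : ℝ} (hr : 0 < r) :
    ((r : ℂ) • (1 : Mat N) + Complex.I • κ).det ≠ 0 := by
  rw [det_affine hκ, Finset.prod_ne_zero_iff]
  intro i _ h
  have := congrArg Complex.re h
  simp at this
  linarith

/-! ### one value of the parameter -/

lemma ric_herm {N : ℕ} {X : ℝ} {κ : Mat N} {F V : ℝ → Mat N} (hdom : DomRStmt)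
    (hR : IsRic X κ F V) (hV : ∀ x ∈ Set.Icc (-X) X, (V x).PosSemidef) :
    ∀ x ∈ Set.Icc (-X) X, (κ * κ - F x * F x - V x).IsHermitian := by
  intro x hx
  have h1 := hdom N X 1 κ F V hR one_pos x hx
  have hF : (F x).IsHermitian := h1.2.1
  have hκ : κ.IsHermitian := hR.1.1
  have h2 : (κ * κ).IsHermitian := by
    rw [Matrix.IsHermitian, Matrix.conjTranspose_mul, hκ.eq]
  have h3 : (F x * F x).IsHermitian := by
    rw [Matrix.IsHermitian, Matrix.conjTranspose_mul, hF.eq]
  exact (h2.sub h3).sub (hV x hx).1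

lemma ric_cont {N : ℕ} {X : ℝ} {κ : Mat N} {F V : ℝ → Mat N}
    (hR : IsRic X κ F V) (hVc : ContinuousOn V (Set.Icc (-X) X)) :
    ContinuousOn (fun x => κ * κ - F x * F x - V x) (Set.Icc (-X) X) := by
  have hF := hR.2.2.2.1
  exact (continuousOn_const.sub (hF.mul hF)).sub hVc

lemma cont1 (hc : RegCStmt) {N : ℕ} {X m : ℝ} {κ : Mat N} {F V W G : ℝ → Mat N}
    (hR : IsRic X κ F V)
    (hD : ∀ x ∈ Set.Icc (-X) X, Dom (κ * κ + (m : ℂ) • (1 : Mat N)) (F x))
    (hW : ∀ x ∈ Set.Icc (-X) X, IsW (κ * κ + (m : ℂ) • (1 : Mat N)) (F x) (W x))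
    (hG : ∀ x ∈ Set.Icc (-X) X, IsG (W x) (G x)) :
    ContinuousOn W (Set.Icc (-X) X) ∧ ContinuousOn G (Set.Icc (-X) X) := by
  have hmaps : Set.MapsTo (fun p : ℝ × ℝ => p.1) {p : ℝ × ℝ | p.1 ∈ Set.Icc (-X) X}
      (Set.Icc (-X) X) := fun p hp => hp
  have h := hc N {p : ℝ × ℝ | p.1 ∈ Set.Icc (-X) X} (fun _ => κ * κ + (m : ℂ) • (1 : Mat N))
    (fun p => F p.1) (fun p => W p.1) (fun p => G p.1) continuousOn_const
    (hR.2.2.2.1.comp continuous_fst.continuousOn hmaps) (fun p hp => hD _ hp)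
    (fun p hp => hW _ hp) (fun p hp => hG _ hp)
  have hj : ContinuousOn (fun x : ℝ => (x, (0 : ℝ))) (Set.Icc (-X) X) := by fun_prop
  have hj' : Set.MapsTo (fun x : ℝ => (x, (0 : ℝ))) (Set.Icc (-X) X)
      {p : ℝ × ℝ | p.1 ∈ Set.Icc (-X) X} := fun x hx => hx
  exact ⟨h.1.comp hj hj', h.2.comp hj hj'⟩

lemma exp_J (hs : StabStmt) (hc : RegCStmt) (hd : RegDStmt) (ha : AlgStmt) (hdet : DetStmt)
    (hdom : DomRStmt) {N : ℕ} {X m : ℝ} {κ : Mat N} (hκ : κ.IsHermitian) {F V W G : ℝ → Mat N}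
    (hX : 0 < X) (hm : 0 < m) (hR : IsRic X κ F V) (hVc : ContinuousOn V (Set.Icc (-X) X))
    (hV : ∀ x ∈ Set.Icc (-X) X, (V x).PosSemidef)
    (hW : ∀ x ∈ Set.Icc (-X) X, IsW (κ * κ + (m : ℂ) • (1 : Mat N)) (F x) (W x))
    (hG : ∀ x ∈ Set.Icc (-X) X, IsG (W x) (G x)) :
    Complex.exp ((((∫ x in (-X)..X, (Matrix.trace (G x * (κ * κ - F x * F x - V x))).re) +
      2 * ∑ i, Real.arctan (hκ.eigenvalues i / √m) : ℝ) : ℂ) * Complex.I) = 1 := by
  have hD : ∀ x ∈ Set.Icc (-X) X, Dom (κ * κ + (m : ℂ) • (1 : Mat N)) (F x) :=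
    hdom N X m κ F V hR hm
  obtain ⟨hWc, hGc⟩ := cont1 hc hR hD hW hG
  have hF'c := ric_cont hR hVc
  have hF'h := ric_herm hdom hR hV
  have hle : -X ≤ X := by linarith
  have hgc : ContinuousOn (fun x => (Matrix.trace (G x * (κ * κ - F x * F x - V x))).re)
      (Set.Icc (-X) X) := by
    refine Complex.continuous_re.comp_continuousOn ?_
    exact (continuous_id.matrix_trace).comp_continuousOn (hGc.mul hF'c)
  have hdc : ContinuousOn (fun x => (W x).det) (Set.Icc (-X) X) :=
    (continuous_id.matrix_det).comp_continuousOn hWc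
  have hder : ∀ x ∈ Set.Ioo (-X) X, HasDerivAt (fun x => (W x).det) ((W x).det *
      (Complex.I * (((Matrix.trace (G x * (κ * κ - F x * F x - V x))).re : ℝ) : ℂ))) x := by
    intro x hx
    have hx' := Set.Ioo_subset_Icc_self hx
    obtain ⟨W', hW', h1, h2⟩ := hd N (Set.Ioo (-X) X)
      (fun _ => κ * κ + (m : ℂ) • (1 : Mat N)) F W x 0 (κ * κ - F x * F x - V x) isOpen_Ioo hx
      (fun y hy => hD y (Set.Ioo_subset_Icc_self hy))
      (fun y hy => hW y (Set.Ioo_subset_Icc_self hy))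
      (fun i j => by simpa using hasDerivAt_const x _) (hR.2.2.2.2.1 x hx)
    have hWx := hW x hx'
    have hinv : IsUnit (W x).det := (hs N).2.2.1 (W x) hWx.2.2
    have h3 := (ha N _ (F x) (W x) (G x) (hD x hx').1 (hD x hx').2.1 hWx (hG x hx')).2.2.2.2.2
      W' (κ * κ - F x * F x - V x) (hF'h x hx') h1 h2
    have h4 := hdet N W W' x hinv hW'
    refine h4.congr_deriv ?_
    rw [h3.1]
    congr 2
    exact Complex.ext (by simp) (by simp [h3.2])
  have h5 := det_path hX hdc hgc hder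
  have hWl : W (-X) = ((√m : ℝ) : ℂ) • (1 : Mat N) + Complex.I • κ := by
    refine (hs N).2.2.2.2.2 (κ * κ + (m : ℂ) • (1 : Mat N)) κ _ _ ?_ ?_
    · have := hW (-X) (Set.left_mem_Icc.mpr hle)
      rwa [hR.2.1] at this
    · have := isW_end hκ hm (c := Complex.I) Complex.conj_I Complex.I_mul_I
      rwa [neg_mul, Complex.I_mul_I, neg_neg, one_smul] at this
  have hWr : W X = ((√m : ℝ) : ℂ) • (1 : Mat N) + (-Complex.I) • κ := by
    refine (hs N).2.2.2.2.2 (κ * κ + (m : ℂ) • (1 : Mat N)) (-κ) _ _ ?_ ?_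
    · have := hW X (Set.right_mem_Icc.mpr hle)
      rwa [hR.2.2.1] at this
    · have := isW_end hκ hm (c := -Complex.I) (by simp) (by simp)
      rwa [neg_mul_neg, Complex.I_mul_I, neg_one_smul] at this
  have hr : 0 < √m := Real.sqrt_pos.mpr hm
  have h6 : (W X).det = (W (-X)).det *
      Complex.exp (((-(2 * ∑ i, Real.arctan (hκ.eigenvalues i / √m)) : ℝ) : ℂ) * Complex.I) := by
    rw [hWl, hWr]
    exact det_path' hκ hr
  have h7 : (W (-X)).det ≠ 0 := by
    rw [hWl]
    exact det_ne_zero hκ hr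
  have h8 := mul_left_cancel₀ h7 (h5.symm.trans h6)
  rw [Complex.ofReal_add, add_mul, Complex.exp_add, h8, ← Complex.exp_add]
  rw [← add_mul, ← Complex.ofReal_add, neg_add_cancel, Complex.ofReal_zero, zero_mul,
    Complex.exp_zero]

/-! ### large `m` -/

lemma trG_le (ha : AlgStmt) {N : ℕ} {κ F W G : Mat N} {m : ℝ} (hm : 0 < m)
    (hA : (κ * κ + (m : ℂ) • (1 : Mat N)).IsHermitian) (hF : F.IsHermitian)
    (hW : IsW (κ * κ + (m : ℂ) • (1 : Mat N)) F W) (hG : IsG W G) :
    (m - ent (κ * κ - F * F)) * (Matrix.trace G).re ≤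
      (ent (κ * κ - F * F) + 2 * N * m) / (2 * √m) := by
  obtain ⟨h1, -, h3, -⟩ := ha N _ F W G hA hF hW hG
  have h4 : κ * κ + (m : ℂ) • (1 : Mat N) - F * F =
      (κ * κ - F * F) + (m : ℂ) • (1 : Mat N) := by abel
  have h5 : (Matrix.trace (G * (κ * κ + (m : ℂ) • (1 : Mat N) - F * F))).re =
      (Matrix.trace (G * (κ * κ - F * F))).re + m * (Matrix.trace G).re := by
    rw [h4, mul_add, Matrix.trace_add, Complex.add_re, mul_smul_comm, mul_one,
      Matrix.trace_smul, smul_eq_mul, Complex.re_ofReal_mul]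
  have h6 : (Matrix.trace (κ * κ + (m : ℂ) • (1 : Mat N) - F * F)).re =
      (Matrix.trace (κ * κ - F * F)).re + m * N := by
    rw [h4, Matrix.trace_add, Complex.add_re, Matrix.trace_smul, smul_eq_mul,
      Complex.re_ofReal_mul, Matrix.trace_one]
    simp
  have h7 := abs_le.mp ((Complex.abs_re_le_norm _).trans
    (trace_mul_le hG.1.posSemidef (κ * κ - F * F)))
  have h8 := abs_le.mp (trace_le_ent (κ * κ - F * F))
  have h9 := h1.trans (h3 m hm)
  rw [h5, h6] at h9
  have hr : 0 < √m := Real.sqrt_pos.mpr hm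
  calc (m - ent (κ * κ - F * F)) * (Matrix.trace G).re
      ≤ (Matrix.trace (G * (κ * κ - F * F))).re + m * (Matrix.trace G).re := by
        linarith [h7.1]
    _ ≤ _ := h9
    _ ≤ _ := by
        apply div_le_div_of_nonneg_right _ (by positivity)
        linarith [h8.2]

lemma trG_le' (ha : AlgStmt) {N : ℕ} {κ F W G : Mat N} {m C : ℝ} (hC : 0 ≤ C)
    (hm : 2 * C + 1 ≤ m) (hCe : ent (κ * κ - F * F) ≤ C)
    (hA : (κ * κ + (m : ℂ) • (1 : Mat N)).IsHermitian) (hF : F.IsHermitian)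
    (hW : IsW (κ * κ + (m : ℂ) • (1 : Mat N)) F W) (hG : IsG W G) :
    (Matrix.trace G).re ≤ (2 * N + 1 / 2) / √m := by
  have hm0 : 0 < m := by linarith
  have h := trG_le ha hm0 hA hF hW hG
  have hr : 0 < √m := Real.sqrt_pos.mpr hm0
  have ht := trace_nonneg hG.1.posSemidef
  have h1 : m / 2 * (Matrix.trace G).re ≤ (m / 2 + 2 * N * m) / (2 * √m) := by
    refine le_trans ?_ (h.trans ?_)
    · exact mul_le_mul_of_nonneg_right (by linarith) ht
    · apply div_le_div_of_nonneg_right _ (by positivity)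
      linarith
  have h2 : (m / 2 + 2 * N * m) / (2 * √m) = m / 2 * ((2 * N + 1 / 2) / √m) := by
    field_simp
    ring
  rw [h2] at h1
  exact le_of_mul_le_mul_left h1 (by linarith)

lemma exists_ent_bound {N : ℕ} {X : ℝ} {M : ℝ → Mat N}
    (hM : ContinuousOn M (Set.Icc (-X) X)) :
    ∃ C : ℝ, 0 ≤ C ∧ ∀ x ∈ Set.Icc (-X) X, ent (M x) ≤ C := by
  have h1 : ContinuousOn (fun x => ent (M x)) (Set.Icc (-X) X) := by
    unfold ent
    refine continuousOn_finsetSum _ fun i _ => continuousOn_finsetSum _ fun j _ => ?_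
    exact ((continuous_id.matrix_elem i j).comp_continuousOn hM).norm
  obtain ⟨C, hC⟩ := isCompact_Icc.exists_bound_of_continuousOn h1
  refine ⟨max C 0, le_max_right _ _, fun x hx => ?_⟩
  exact ((le_abs_self _).trans (hC x hx)).trans (le_max_left _ _)

end Arg

open Arg in
/-- (ARG) -/
theorem arg (hs : StabStmt) (hx : ExWStmt) (hc : RegCStmt) (hd : RegDStmt) (ha : AlgStmt)
    (hdet : DetStmt) (hdom : DomRStmt) : ArgStmt := by
  intro N X m κ hκ F V W G hX hm hR hVc hV hW hG
  classical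
  have hle : -X ≤ X := by linarith
  set S : Set (ℝ × ℝ) := {p | p.1 ∈ Set.Icc (-X) X} with hS
  have hDS : ∀ p ∈ S, Dom (κ * κ + ((Real.exp p.2 : ℝ) : ℂ) • (1 : Mat N)) (F p.1) :=
    fun p hp => hdom N X (Real.exp p.2) κ F V hR (Real.exp_pos _) p.1 hp
  have hex : ∀ p : ℝ × ℝ, ∃ W : Mat N, p ∈ S →
      IsW (κ * κ + ((Real.exp p.2 : ℝ) : ℂ) • (1 : Mat N)) (F p.1) W := by
    intro p
    by_cases hp : p ∈ S
    · obtain ⟨W, hW⟩ := hx N _ _ (hDS p hp)
      exact ⟨W, fun _ => hW⟩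
    · exact ⟨0, fun h => absurd h hp⟩
  choose W2 hW2 using hex
  have hex' : ∀ p : ℝ × ℝ, ∃ G : Mat N, p ∈ S → IsG (W2 p) G := by
    intro p
    by_cases hp : p ∈ S
    · obtain ⟨G, hG⟩ := (hs N).2.2.2.1 _ (hW2 p hp).2.2
      exact ⟨G, fun _ => hG⟩
    · exact ⟨0, fun h => absurd h hp⟩
  choose G2 hG2 using hex'
  have hF1 : ContinuousOn (fun p : ℝ × ℝ => F p.1) S :=
    hR.2.2.2.1.comp continuous_fst.continuousOn fun p hp => hp
  have hA1 : ContinuousOn (fun p : ℝ × ℝ => κ * κ + ((Real.exp p.2 : ℝ) : ℂ) • (1 : Mat N)) S := by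
    have h1 : Continuous (fun p : ℝ × ℝ => ((Real.exp p.2 : ℝ) : ℂ)) :=
      Complex.continuous_ofReal.comp (Real.continuous_exp.comp continuous_snd)
    have h2 : Continuous (fun p : ℝ × ℝ => κ * κ + ((Real.exp p.2 : ℝ) : ℂ) • (1 : Mat N)) :=
      continuous_const.add (h1.smul continuous_const)
    exact h2.continuousOn
  have hcont := (hc N S _ (fun p => F p.1) W2 G2 hA1 hF1 hDS hW2 hG2).2
  set F' : ℝ → Mat N := fun x => κ * κ - F x * F x - V x with hF'
  have hF'c : ContinuousOn F' (Set.Icc (-X) X) := ric_cont hR hVc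
  set J : ℝ → ℝ := fun t => ∫ x in (-X)..X, (Matrix.trace (G2 (x, t) * F' x)).re with hJ
  -- continuity of J
  have hJc : Continuous J := by
    set c : ℝ → ℝ := fun x => max (-X) (min X x) with hcdef
    have hcc : Continuous c := continuous_const.max (continuous_const.min continuous_id)
    have hcm : ∀ x, c x ∈ Set.Icc (-X) X := fun x =>
      ⟨le_max_left _ _, max_le hle (min_le_left _ _)⟩
    have hcx : ∀ x ∈ Set.Icc (-X) X, c x = x := fun x hx => by
      simp only [hcdef]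
      rw [min_eq_right hx.2, max_eq_right hx.1]
    have h1 : Continuous (fun p : ℝ × ℝ => (Matrix.trace (G2 (c p.2, p.1) * F' (c p.2))).re) := by
      refine Complex.continuous_re.comp (Continuous.matrix_trace ?_)
      refine Continuous.matrix_mul ?_ ?_
      · exact hcont.comp_continuous (by fun_prop) fun p => hcm p.2
      · exact hF'c.comp_continuous (by fun_prop) fun p => hcm p.2
    have h2 : J = fun t => ∫ x in (-X)..X, (Matrix.trace (G2 (c x, t) * F' (c x))).re := by
      funext t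
      refine intervalIntegral.integral_congr fun x hx => ?_
      rw [Set.uIcc_of_le hle] at hx
      rw [hcx x hx]
    rw [h2]
    exact intervalIntegral.continuous_parametric_intervalIntegral_of_continuous'
      (f := fun t x => (Matrix.trace (G2 (c x, t) * F' (c x))).re) h1 _ _
  set f : ℝ → ℝ := fun t => J t + 2 * ∑ i, Real.arctan (hκ.eigenvalues i / √(Real.exp t))
    with hf
  have hfc : Continuous f := by
    refine hJc.add (continuous_const.mul (continuous_finsetSum _ fun i _ => ?_))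
    refine Real.continuous_arctan.comp (continuous_const.div ?_ fun t => ?_)
    · exact Real.continuous_sqrt.comp Real.continuous_exp
    · exact (Real.sqrt_pos.mpr (Real.exp_pos t)).ne'
  have hfint : ∀ t, ∃ n : ℤ, f t = n * (2 * Real.pi) := by
    intro t
    have h1 := exp_J hs hc hd ha hdet hdom hκ (m := Real.exp t) (W := fun x => W2 (x, t))
      (G := fun x => G2 (x, t)) hX (Real.exp_pos t) hR hVc hV (fun x hx => hW2 (x, t) hx)
      (fun x hx => hG2 (x, t) hx)
    obtain ⟨n, hn⟩ := Complex.exp_eq_one_iff.mp h1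
    refine ⟨n, ?_⟩
    have h2 : ((f t : ℝ) : ℂ) = (n : ℂ) * (2 * Real.pi) := by
      apply mul_right_cancel₀ Complex.I_ne_zero
      rw [hf]
      simp only [hJ, hF']
      rw [hn]
      ring
    exact_mod_cast h2
  choose n hn using hfint
  have hnc : Continuous n := by
    rw [Int.isClosedEmbedding_coe_real.isInducing.continuous_iff]
    have h1 : ((fun z : ℤ => (z : ℝ)) ∘ n) = fun t => f t / (2 * Real.pi) := by
      funext t
      simp only [Function.comp]
      rw [hn t]
      field_simp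
    rw [h1]
    exact hfc.div_const _
  have hconst : ∀ t, n t = n (Real.log m) := fun t =>
    PreconnectedSpace.constant inferInstance hnc
  -- the limit
  have hlim : Filter.Tendsto f Filter.atTop (nhds 0) := by
    have hsq : Filter.Tendsto (fun t => √(Real.exp t)) Filter.atTop Filter.atTop :=
      Real.tendsto_sqrt_atTop.comp Real.tendsto_exp_atTop
    obtain ⟨C, hC0, hC⟩ := exists_ent_bound
      (M := fun x => κ * κ - F x * F x) (X := X)
      (continuousOn_const.sub (hR.2.2.2.1.mul hR.2.2.2.1))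
    obtain ⟨C₁, hC₁0, hC₁⟩ := exists_ent_bound hF'c
    have hJ0 : Filter.Tendsto J Filter.atTop (nhds 0) := by
      refine squeeze_zero_norm' (a := fun t => ((2 * N + 1 / 2) * C₁ * (2 * X)) /
        √(Real.exp t)) ?_ (hsq.const_div_atTop _)
      filter_upwards [Real.tendsto_exp_atTop.eventually_ge_atTop (2 * C + 1)] with t ht
      have h1 : ‖J t‖ ≤ ((2 * N + 1 / 2) / √(Real.exp t) * C₁) * |X - -X| := by
        refine intervalIntegral.norm_integral_le_of_norm_le_const fun x hx => ?_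
        rw [Set.uIoc_of_le hle] at hx
        have hx' := Set.Ioc_subset_Icc_self hx
        have hDx := hDS (x, t) hx'
        have hGx := hG2 (x, t) hx'
        have h2 := trG_le' ha hC0 ht (hC x hx') hDx.1 hDx.2.1 (hW2 (x, t) hx') hGx
        have h3 := (Complex.abs_re_le_norm _).trans (trace_mul_le hGx.1.posSemidef (F' x))
        rw [Real.norm_eq_abs]
        refine h3.trans ?_
        have h4 := trace_nonneg hGx.1.posSemidef
        exact mul_le_mul h2 (hC₁ x hx') (ent_nonneg _) (h4.trans h2)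
      refine h1.trans (le_of_eq ?_)
      rw [abs_of_nonneg (by linarith)]
      ring
    have hS0 : Filter.Tendsto
        (fun t => 2 * ∑ i, Real.arctan (hκ.eigenvalues i / √(Real.exp t))) Filter.atTop
        (nhds (2 * ∑ _i : Fin N, (0 : ℝ))) := by
      refine (tendsto_finsetSum _ fun i _ => ?_).const_mul 2
      have h5 : Filter.Tendsto (fun t => hκ.eigenvalues i / √(Real.exp t)) Filter.atTop
          (nhds 0) := hsq.const_div_atTop _
      have h6 := (Real.continuous_arctan.tendsto 0).comp h5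
      rwa [Real.arctan_zero] at h6
    have := hJ0.add hS0
    simpa using this
  have hf0 : f (Real.log m) = 0 := by
    have h1 : f = fun _ => f (Real.log m) := by
      funext t
      rw [hn t, hconst t, ← hn (Real.log m)]
    rw [h1] at hlim
    exact tendsto_nhds_unique tendsto_const_nhds hlim
  have hJm : J (Real.log m) = ∫ x in (-X)..X,
      (Matrix.trace (G x * (κ * κ - F x * F x - V x))).re := by
    simp only [hJ]
    refine intervalIntegral.integral_congr fun x hx => ?_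
    rw [Set.uIcc_of_le hle] at hx
    have hW1 := hW2 (x, Real.log m) hx
    have hG1 := hG2 (x, Real.log m) hx
    simp only [Real.exp_log hm] at hW1
    have hWe : W2 (x, Real.log m) = W x := (hs N).2.2.2.2.2 _ _ _ _ hW1 (hW x hx)
    rw [hWe] at hG1
    have hGe : G2 (x, Real.log m) = G x := by
      have hst := (hW x hx).2.2
      have h2 := (hs N).2.1 (W x) (W x) (G2 (x, Real.log m) - G x) hst hst (by
        rw [mul_sub, sub_mul]
        have := hG1.2.trans (hG x hx).2.symm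
        calc _ = (W x * G2 (x, Real.log m) + G2 (x, Real.log m) * (W x)ᴴ) -
            (W x * G x + G x * (W x)ᴴ) := by abel
          _ = 0 := by rw [this, sub_self])
      exact sub_eq_zero.mp h2
    simp only [hF']
    rw [hGe]
  rw [← hJm]
  have h9 : f (Real.log m) = J (Real.log m) +
      2 * ∑ i, Real.arctan (hκ.eigenvalues i / √m) := by
    simp only [hf, Real.exp_log hm]
  rw [h9] at hf0
  linarith

end Pool.Agent.LTS
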