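import Pool.Agent.LTS.Defs

/-!
# Continuity of the functional calculus of Hermitian matrices (module CFC)
-/

set_option autoImplicit false

namespace Pool.Agent.LTS

open Matrix
open scoped ComplexConjugate ComplexOrder Matrix.Norms.L2Operator

/-- `κ ↦ f(κ)` (functional calculus) is continuous on the Hermitian matrices. -/
theorem cfc_continuousOn (N : ℕ) (f : ℝ → ℝ) (hf : Continuous f) :
    ContinuousOn (fun κ : Mat N => cfc f κ) {κ | κ.IsHermitian} := by
  refine ContinuousOn.cfc_of_mem_nhdsSet (s := Set.univ) f Filter.univ_mem continuousOn_id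
    (fun x hx => ?_) hf.continuousOn
  exact hx

theorem cfc_formula (N : ℕ) (f : ℝ → ℝ) (κ : Mat N) (hκ : κ.IsHermitian) :
    cfc f κ = (hκ.eigenvectorUnitary : Mat N) *
      Matrix.diagonal (fun i => ((f (hκ.eigenvalues i) : ℝ) : ℂ)) *
        (hκ.eigenvectorUnitary : Mat N)ᴴ := by
  rw [hκ.cfc_eq f, Matrix.IsHermitian.cfc, Unitary.conjStarAlgAut_apply]
  rfl

theorem funCalc : FunStmt := by
  intro N f hf
  exact ⟨fun κ => cfc f κ, cfc_continuousOn N f hf, fun κ hκ => cfc_formula N f κ hκ⟩

end Pool.Agent.LTS
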