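import Pool.Agent.LTS.Defs

/-!
# Closedness of the set of stable factors (MP_4c716f_mp, module LTS_CLOS; helper22)

A limit `W₀` of stable factors `W n` (`(W n)ᴴ * W n = A n`, `Im (W n) = F n`) is stable as long as
`l² + 2 l F₀ + A₀ > 0` for all real `l`. The Lyapunov certificates `G n` (`W G + G W* = 2`) are
normalised by `1 + tr (G n)`; in the limit there is a certificate, or an eigenvector of `W₀` with a
purely imaginary eigenvalue.
-/

set_option autoImplicit false

namespace Pool.Agent.LTS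

open Filter Topology Matrix
open scoped ComplexConjugate ComplexOrder MatrixOrder

namespace Clos

variable {N : ℕ}

/-- the trace of `B* B` -/
theorem trace_star_mul (B : Mat N) :
    (trace (star B * B)).re = ∑ i, ∑ k, ‖B k i‖ ^ 2 := by
  simp only [trace, diag_apply, Matrix.mul_apply, star_apply, Complex.re_sum]
  refine Finset.sum_congr rfl fun i _ => Finset.sum_congr rfl fun k _ => ?_
  rw [RCLike.star_def, ← Complex.normSq_eq_conj_mul_self, Complex.ofReal_re,
    Complex.normSq_eq_norm_sq]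

/-- entries of a positive semidefinite matrix are bounded by its trace -/
theorem norm_entry_le {G : Mat N} (hG : G.PosSemidef) (i j : Fin N) :
    ‖G i j‖ ≤ (trace G).re := by
  obtain ⟨B, rfl⟩ := CStarAlgebra.nonneg_iff_eq_star_mul_self.mp hG.nonneg
  rw [trace_star_mul]
  have h1 : ∀ i, ∑ k, ‖B k i‖ ^ 2 ≤ ∑ i, ∑ k, ‖B k i‖ ^ 2 := fun i =>
    Finset.single_le_sum (f := fun i => ∑ k, ‖B k i‖ ^ 2)
      (fun _ _ => Finset.sum_nonneg fun _ _ => sq_nonneg _) (Finset.mem_univ i)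
  have h2 : ‖(star B * B) i j‖ ≤ ∑ k, (‖B k i‖ ^ 2 + ‖B k j‖ ^ 2) / 2 := by
    rw [Matrix.mul_apply]
    refine (norm_sum_le _ _).trans (Finset.sum_le_sum fun k _ => ?_)
    rw [norm_mul, star_apply, norm_star]
    nlinarith [sq_nonneg (‖B k i‖ - ‖B k j‖)]
  rw [← Finset.sum_div, Finset.sum_add_distrib] at h2
  linarith [h1 i, h1 j]

/-- limits of positive semidefinite matrices -/
theorem psd_lim {G : ℕ → Mat N} {G₀ : Mat N} (h : ∀ n, (G n).PosSemidef)
    (hG : Tendsto G atTop (𝓝 G₀)) : G₀.PosSemidef := by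
  refine Matrix.PosSemidef.of_dotProduct_mulVec_nonneg ?_ fun x => ?_
  · have hc : Continuous fun G : Mat N => Gᴴ := by fun_prop
    refine tendsto_nhds_unique ((hc.tendsto _).comp hG) (hG.congr fun n => ?_)
    exact ((h n).1).symm
  · have hc : Continuous fun G : Mat N => star x ⬝ᵥ (G *ᵥ x) := by fun_prop
    exact ge_of_tendsto' ((hc.tendsto _).comp hG) fun n => (h n).dotProduct_mulVec_nonneg x

theorem star_form (M : Mat N) (c : Fin N → ℂ) :
    star (star c ⬝ᵥ (M *ᵥ c)) = star c ⬝ᵥ (Mᴴ *ᵥ c) := by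
  rw [← star_dotProduct, star_mulVec, ← dotProduct_mulVec]

/-- the quadratic form of `W G + G W*` at a vector `c` with `W (G c) = lam (G c)` -/
theorem form_eigen {W G : Mat N} (hG : G.IsHermitian) {c : Fin N → ℂ} {lam : ℂ}
    (h : W *ᵥ (G *ᵥ c) = lam • (G *ᵥ c)) :
    star c ⬝ᵥ ((W * G + G * Wᴴ) *ᵥ c) = (lam + conj lam) * (star c ⬝ᵥ (G *ᵥ c)) := by
  have h1 : star c ⬝ᵥ ((W * G) *ᵥ c) = lam * (star c ⬝ᵥ (G *ᵥ c)) := by
    rw [← mulVec_mulVec, h, dotProduct_smul, smul_eq_mul]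
  have h2 : star c ⬝ᵥ ((G * Wᴴ) *ᵥ c) = conj lam * (star c ⬝ᵥ (G *ᵥ c)) := by
    have e1 : (G * Wᴴ) = (W * G)ᴴ := by rw [conjTranspose_mul, hG.eq]
    rw [e1, ← star_form, h1, star_mul', star_form, hG.eq]
    rfl
  rw [add_mulVec, dotProduct_add, h1, h2, add_mul]

/-- no eigenvector of `W₀` for an imaginary eigenvalue -/
theorem no_eigen {A F W : Mat N} (h1 : Wᴴ * W = A) (h2 : W - Wᴴ = (2 * Complex.I) • F)
    (hD : Dom A F) {w : Fin N → ℂ} (hw : w ≠ 0) {t : ℝ} (h : W *ᵥ w = (t * Complex.I) • w) :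
    False := by
  have h3 := (hD.2.2 (-t)).dotProduct_mulVec_pos hw
  have e : ((((-t) ^ 2 : ℝ) : ℂ) • (1 : Mat N) + ((2 * (-t) : ℝ) : ℂ) • F + A) =
      ((-t : ℂ) • (1 : Mat N) + Complex.I • Wᴴ) * ((-t : ℂ) • (1 : Mat N) - Complex.I • W) := by
    have h4 : (2 : ℂ) • F = -(Complex.I • (W - Wᴴ)) := by
      rw [h2, smul_smul, ← mul_assoc, mul_comm Complex.I 2, mul_assoc, Complex.I_mul_I]
      simp
    have h5 : ((2 * (-t) : ℝ) : ℂ) • F = (-t : ℂ) • ((2 : ℂ) • F) := by
      rw [smul_smul]; congr 1; push_cast; ring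
    rw [h5, h4, ← h1]
    simp only [add_mul, mul_sub, smul_mul_assoc, mul_smul_comm, one_mul, mul_one]
    have e1 : (((-t) ^ 2 : ℝ) : ℂ) = (-t : ℂ) * (-t : ℂ) := by push_cast; ring
    have e2 : Complex.I • Complex.I • (Wᴴ * W) = -(Wᴴ * W) := by
      rw [smul_smul, Complex.I_mul_I, neg_one_smul]
    rw [e1, smul_sub, smul_add Complex.I, e2]
    module
  have h6 : ((-t : ℂ) • (1 : Mat N) - Complex.I • W) *ᵥ w = 0 := by
    rw [sub_mulVec, smul_mulVec, smul_mulVec, one_mulVec, h, smul_smul]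
    have : Complex.I * (t * Complex.I) = (-t : ℂ) := by
      rw [mul_comm, mul_assoc, Complex.I_mul_I]; ring
    rw [this, sub_self]
  rw [e, ← mulVec_mulVec, h6, mulVec_zero, dotProduct_zero] at h3
  exact lt_irrefl _ h3

/-- the second case: a nonzero solution of `W G + G W* = 0` with `G ≥ 0` is impossible -/
theorem no_certificate {A F W G : Mat N} (h1 : Wᴴ * W = A) (h2 : W - Wᴴ = (2 * Complex.I) • F)
    (hD : Dom A F) (hG : G.PosSemidef) (hG0 : G ≠ 0) (h : W * G + G * Wᴴ = 0) : False := by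
  -- the range of `G` is invariant
  have hinv : ∀ x ∈ LinearMap.range (toLin' G), toLin' W x ∈ LinearMap.range (toLin' G) := by
    rintro x ⟨c, rfl⟩
    refine ⟨-(Wᴴ *ᵥ c), ?_⟩
    have h3 : W * G = -(G * Wᴴ) := eq_neg_of_add_eq_zero_left h
    rw [toLin'_apply, toLin'_apply, toLin'_apply, mulVec_mulVec, h3, mulVec_neg, neg_mulVec,
      mulVec_mulVec]
  have hnt : Nontrivial (LinearMap.range (toLin' G)) := by
    rw [Submodule.nontrivial_iff_ne_bot]
    intro h4
    apply hG0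
    rw [LinearMap.range_eq_bot] at h4
    exact (toLin').injective (by rw [h4, map_zero])
  obtain ⟨lam, hlam⟩ := Module.End.exists_eigenvalue ((toLin' W).restrict hinv)
  obtain ⟨w, hw⟩ := hlam.exists_hasEigenvector
  have hw1 : W *ᵥ (w : Fin N → ℂ) = lam • (w : Fin N → ℂ) := by
    have := congrArg Subtype.val hw.apply_eq_smul
    simpa using this
  have hw0 : (w : Fin N → ℂ) ≠ 0 := fun h5 => hw.2 (Subtype.ext h5)
  obtain ⟨c, hc⟩ := w.2
  rw [toLin'_apply] at hc
  rw [← hc] at hw1 hw0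
  have h6 := form_eigen hG.1 hw1
  rw [h, zero_mulVec, dotProduct_zero] at h6
  have h7 : star c ⬝ᵥ (G *ᵥ c) ≠ 0 := fun h8 => hw0 ((hG.dotProduct_mulVec_zero_iff c).1 h8)
  have h8 : lam + conj lam = 0 := by
    rcases mul_eq_zero.1 h6.symm with h9 | h9
    · exact h9
    · exact absurd h9 h7
  have h9 : lam.re = 0 := by
    rw [Complex.add_conj] at h8
    have : (2 * lam.re : ℝ) = 0 := by exact_mod_cast h8
    linarith
  have h10 : lam = (lam.im : ℂ) * Complex.I := by
    apply Complex.ext <;> simp [h9]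
  rw [h10] at hw1
  exact no_eigen h1 h2 hD hw0 hw1

/-- the first case: a positive semidefinite solution of `W G + G W* = ε > 0` -/
theorem stab_of {W G : Mat N} {ε : ℝ} (hε : 0 < ε) (hG : G.PosSemidef)
    (h : W * G + G * Wᴴ = ((2 * ε : ℝ) : ℂ) • (1 : Mat N)) : Stab W := by
  have hpos : (((2 * ε : ℝ) : ℂ) • (1 : Mat N)).PosDef :=
    Matrix.PosDef.one.smul (by exact_mod_cast (by linarith : 0 < 2 * ε))
  refine ⟨G, Matrix.PosDef.of_dotProduct_mulVec_pos hG.1 fun {v} hv => ?_, by rw [h]; exact hpos⟩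
  refine lt_of_le_of_ne (hG.dotProduct_mulVec_nonneg v) fun h0 => ?_
  have h1 : G *ᵥ v = 0 := (hG.dotProduct_mulVec_zero_iff v).1 h0.symm
  have h2 := hpos.dotProduct_mulVec_pos hv
  rw [← h, form_eigen hG.1 (lam := 0) (by rw [h1]; simp), h1, dotProduct_zero, mul_zero] at h2
  exact lt_irrefl _ h2

end Clos

open Clos

/-- (CLOS) the closedness lemma -/
theorem clos (hs : StabStmt) : ClosStmt := by
  intro N A F A₀ F₀ W₀ W hW hD hA hF hW0
  obtain ⟨-, -, -, hs4, -, -⟩ := hs N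
  have e1 : W₀ᴴ * W₀ = A₀ := by
    have hc : Continuous fun W : Mat N => Wᴴ * W := by fun_prop
    exact tendsto_nhds_unique ((hc.tendsto _).comp hW0) (hA.congr fun n => (hW n).1.symm)
  have e2 : W₀ - W₀ᴴ = (2 * Complex.I) • F₀ := by
    have hc : Continuous fun W : Mat N => W - Wᴴ := by fun_prop
    exact tendsto_nhds_unique ((hc.tendsto _).comp hW0)
      ((hF.const_smul (2 * Complex.I)).congr fun n => (hW n).2.1.symm)
  refine ⟨e1, e2, ?_⟩
  choose G hG using fun n => hs4 (W n) (hW n).2.2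
  set r : ℕ → ℝ := fun n => (trace (G n)).re with hr_def
  have hr : ∀ n, 0 ≤ r n := fun n => (Complex.le_def.1 (hG n).1.posSemidef.trace_nonneg).1
  set c : ℕ → ℝ := fun n => 1 / (1 + r n) with hc_def
  have hc0 : ∀ n, 0 < c n := fun n => by
    have := hr n
    positivity
  have hcr : ∀ n, c n * r n = 1 - c n := fun n => by
    have := hr n
    simp only [hc_def]
    field_simp
    ring
  have hc1 : ∀ n, c n ≤ 1 := fun n => by
    have := mul_nonneg (hc0 n).le (hr n)
    linarith [hcr n]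
  set H : ℕ → Mat N := fun n => (c n : ℂ) • G n with hH_def
  have hH : ∀ n, (H n).PosSemidef := fun n =>
    (hG n).1.posSemidef.smul (by exact_mod_cast (hc0 n).le)
  have hHt : ∀ n, (trace (H n)).re = 1 - c n := fun n => by
    rw [← hcr n]
    simp [hH_def, trace_smul, hr_def]
  have hHe : ∀ n i j, ‖H n i j‖ ≤ 1 := fun n i j =>
    (norm_entry_le (hH n) i j).trans (by rw [hHt]; linarith [hc0 n])
  have hHL : ∀ n, W n * H n + H n * (W n)ᴴ = ((2 * c n : ℝ) : ℂ) • (1 : Mat N) := fun n => by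
    simp only [hH_def, mul_smul_comm, smul_mul_assoc, ← smul_add]
    rw [(hG n).2, smul_smul]
    congr 1
    push_cast
    ring
  have hK : IsCompact (Set.Icc (0 : ℝ) 1 ×ˢ (Set.pi Set.univ fun _ : Fin N =>
      Set.pi Set.univ fun _ : Fin N => Metric.closedBall (0 : ℂ) 1)) :=
    isCompact_Icc.prod (isCompact_univ_pi fun _ => isCompact_univ_pi fun _ =>
      isCompact_closedBall _ _)
  obtain ⟨p, hp0, φ, hφ, hp⟩ := hK.tendsto_subseq
    (x := fun n => (c n, (fun i j => H n i j : Fin N → Fin N → ℂ))) (by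
      intro n
      refine ⟨⟨(hc0 n).le, hc1 n⟩, fun i _ j _ => ?_⟩
      rw [mem_closedBall_zero_iff]
      exact hHe n i j)
  obtain ⟨ε, H₀⟩ := p
  have hε : Tendsto (fun n => c (φ n)) atTop (𝓝 ε) := (continuous_fst.tendsto _).comp hp
  have hH₀ : Tendsto (fun n => H (φ n)) atTop (𝓝 (Matrix.of H₀)) :=
    (continuous_snd.tendsto _).comp hp
  have hε0 : 0 ≤ ε := hp0.1.1
  have hP : (Matrix.of H₀ : Mat N).PosSemidef := psd_lim (fun n => hH (φ n)) hH₀
  have hWφ : Tendsto (fun n => W (φ n)) atTop (𝓝 W₀) := hW0.comp hφ.tendsto_atTop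
  have hL : W₀ * Matrix.of H₀ + Matrix.of H₀ * W₀ᴴ = ((2 * ε : ℝ) : ℂ) • (1 : Mat N) := by
    have hc : Continuous fun q : Mat N × Mat N => q.1 * q.2 + q.2 * q.1ᴴ := by fun_prop
    have hd : Continuous fun t : ℝ => ((2 * t : ℝ) : ℂ) • (1 : Mat N) := by fun_prop
    have h1 := (hc.tendsto (W₀, Matrix.of H₀)).comp (hWφ.prodMk_nhds hH₀)
    have h2 := (hd.tendsto ε).comp hε
    exact tendsto_nhds_unique h1 (h2.congr fun n => (hHL (φ n)).symm)
  have hT : (trace (Matrix.of H₀ : Mat N)).re = 1 - ε := by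
    have hc : Continuous fun G : Mat N => (trace G).re := by fun_prop
    have h1 := (hc.tendsto (Matrix.of H₀)).comp hH₀
    exact tendsto_nhds_unique h1 ((hε.const_sub 1).congr fun n => (hHt (φ n)).symm)
  rcases hε0.eq_or_lt with h0 | h0
  · exfalso
    rw [← h0] at hL hT
    refine no_certificate e1 e2 hD hP ?_ (by rw [hL]; simp)
    intro h3
    rw [h3] at hT
    simp at hT
  · exact stab_of h0 hP hL

end Pool.Agent.LTS
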