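import Pool.Agent.LTS.Defs

/-!
# (CONST): the Beta integral and the one bound state constant
-/

set_option autoImplicit false

namespace Pool.Agent.LTS

open MeasureTheory Real

/-- the Beta integral `∫₀¹ u^s (1-u)^s` -/
theorem const_beta {s : ℝ} (hs : 0 < s) :
    ∫ u in (0 : ℝ)..1, u ^ s * (1 - u) ^ s =
      Gamma (s + 1) * Gamma (s + 1) / Gamma (s + 1 + (s + 1)) := by
  have h1 : (ProbabilityTheory.beta (s + 1) (s + 1) : ℝ) =
      (Complex.betaIntegral ((s + 1 : ℝ) : ℂ) ((s + 1 : ℝ) : ℂ)).re :=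
    ProbabilityTheory.beta_eq_betaIntegralReal (s + 1) (s + 1) (by linarith) (by linarith)
  have h2 : Complex.betaIntegral ((s + 1 : ℝ) : ℂ) ((s + 1 : ℝ) : ℂ) =
      ((∫ u in (0 : ℝ)..1, u ^ s * (1 - u) ^ s : ℝ) : ℂ) := by
    unfold Complex.betaIntegral
    rw [← intervalIntegral.integral_ofReal]
    refine intervalIntegral.integral_congr fun u hu => ?_
    rw [Set.uIcc_of_le zero_le_one] at hu
    have e1 : (((s + 1 : ℝ) : ℂ) - 1) = ((s : ℝ) : ℂ) := by push_cast; ring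
    simp only [e1]
    rw [Complex.ofReal_mul, Complex.ofReal_cpow hu.1, Complex.ofReal_cpow (by linarith [hu.2])]
    push_cast
    rfl
  rw [h2, Complex.ofReal_re] at h1
  rw [← h1]
  rfl

/-- the value of `cS` -/
theorem cS_eq {s : ℝ} (hs : 0 < s) :
    cS s = √π * Gamma (s + 1) / Gamma (s + 3 / 2) := by
  have h1 : cS s = 2 * ∫ u in (0 : ℝ)..1, (4 : ℝ) ^ s * (u ^ s * (1 - u) ^ s) := by
    unfold cS
    have h2 := intervalIntegral.integral_comp_mul_add (a := 0) (b := 1)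
      (fun f : ℝ => (1 - f ^ 2) ^ s) (c := 2) (by norm_num) (-1)
    norm_num at h2
    have h3 : ∫ u in (0 : ℝ)..1, (4 : ℝ) ^ s * (u ^ s * (1 - u) ^ s) =
        ∫ x in (0 : ℝ)..1, (1 - (2 * x + -1) ^ 2) ^ s := by
      refine intervalIntegral.integral_congr fun u hu => ?_
      rw [Set.uIcc_of_le zero_le_one] at hu
      have h4 : (1 - (2 * u + -1) ^ 2) = 4 * (u * (1 - u)) := by ring
      simp only [h4]
      rw [mul_rpow (by norm_num) (mul_nonneg hu.1 (by linarith [hu.2])),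
        mul_rpow hu.1 (by linarith [hu.2])]
    rw [h3, h2]
    ring
  rw [h1, intervalIntegral.integral_const_mul, const_beta hs]
  have h5 := Gamma_mul_Gamma_add_half (s + 1)
  have e1 : s + 1 + 1 / 2 = s + 3 / 2 := by ring
  have e2 : 2 * (s + 1) = s + 1 + (s + 1) := by ring
  rw [e1, e2] at h5
  have g1 : 0 < Gamma (s + 1) := Gamma_pos_of_pos (by linarith)
  have g2 : 0 < Gamma (s + 3 / 2) := Gamma_pos_of_pos (by linarith)
  have g3 : 0 < Gamma (s + 1 + (s + 1)) := Gamma_pos_of_pos (by linarith)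
  have g4 : 0 < √π := sqrt_pos.mpr pi_pos
  have e3 : (2 : ℝ) ^ (1 - (s + 1 + (s + 1))) * (2 * 4 ^ s) = 1 := by
    have h6 : (4 : ℝ) ^ s = 2 ^ (2 * s) := by
      rw [rpow_mul (by norm_num)]
      norm_num
    have h7 : (2 : ℝ) * 2 ^ (2 * s) = 2 ^ (1 + 2 * s) := by
      rw [rpow_add (by norm_num), rpow_one]
    rw [h6, h7, ← rpow_add (by norm_num)]
    have h8 : 1 - (s + 1 + (s + 1)) + (1 + 2 * s) = 0 := by ring
    rw [h8, rpow_zero]
  rw [eq_div_iff g2.ne', ← mul_div_assoc, ← mul_div_assoc, div_mul_eq_mul_div, div_eq_iff g3.ne']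
  calc 2 * (4 ^ s * (Gamma (s + 1) * Gamma (s + 1))) * Gamma (s + 3 / 2)
      = (2 * 4 ^ s) * Gamma (s + 1) * (Gamma (s + 1) * Gamma (s + 3 / 2)) := by ring
    _ = (2 ^ (1 - (s + 1 + (s + 1))) * (2 * 4 ^ s)) *
        (√π * Gamma (s + 1) * Gamma (s + 1 + (s + 1))) := by rw [h5]; ring
    _ = _ := by rw [e3, one_mul]

theorem constS : ConstSStmt := by
  intro γ h1 h2
  set s : ℝ := γ - 1 / 2 with hs
  have hs0 : 0 < s := by rw [hs]; linarith
  have g1 : 0 < Gamma (s + 1) := Gamma_pos_of_pos (by linarith)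
  have g2 : 0 < Gamma (s + 3 / 2) := Gamma_pos_of_pos (by linarith)
  have g4 : 0 < √π := sqrt_pos.mpr pi_pos
  have hc := cS_eq hs0
  have e1 : γ + 1 = s + 3 / 2 := by rw [hs]; ring
  have e2 : γ + 1 / 2 = s + 1 := by rw [hs]; ring
  have hL : Lone γ = s ^ s / (s + 1) ^ (s + 1) * (Gamma (s + 3 / 2) / (√π * Gamma (s + 1))) := by
    unfold Lone
    rw [e1, e2]
  have hp1 : 0 < s ^ s := rpow_pos_of_pos hs0 _
  have hp2 : 0 < (s + 1) ^ (s + 1) := rpow_pos_of_pos (by linarith) _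
  refine ⟨?_, ?_, ?_⟩
  · rw [hc]
    positivity
  · rw [hL]
    positivity
  · rw [hc, hL, div_rpow hs0.le (by linarith), rpow_add hs0, rpow_one, add_comm 1 s]
    field_simp
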