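import Pool.Agent.LTS.Defs

/-!
# (DET) derivative of the determinant (Jacobi's formula)
-/

set_option autoImplicit false

namespace Pool.Agent.LTS

open Matrix Finset

/-- the derivative of the determinant, by the Leibniz formula -/
noncomputable def detD {N : ℕ} (Z Z' : Mat N) : ℂ :=
  ∑ σ : Equiv.Perm (Fin N), (Equiv.Perm.sign σ : ℤ) *
    ∑ i, (∏ j ∈ univ.erase i, Z (σ j) j) • Z' (σ i) i

theorem detD_hasDerivAt {N : ℕ} (W : ℝ → Mat N) (W' : Mat N) (x : ℝ)
    (h : ∀ i j, HasDerivAt (fun y => W y i j) (W' i j) x) :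
    HasDerivAt (fun y => (W y).det) (detD (W x) W') x := by
  have e : (fun y => (W y).det) = fun y => ∑ σ : Equiv.Perm (Fin N),
      ((Equiv.Perm.sign σ : ℤ) : ℂ) * ∏ i, W y (σ i) i := by
    funext y
    rw [Matrix.det_apply']
  rw [e]
  unfold detD
  refine HasDerivAt.fun_sum (fun σ _ => ?_)
  refine HasDerivAt.const_mul _ ?_
  exact HasDerivAt.fun_finsetProd (fun i _ => h (σ i) i)

theorem det_line {N : ℕ} (Z Z' : Mat N) (hZ : IsUnit Z.det) :
    HasDerivAt (fun h : ℝ => (Z + (h : ℂ) • Z').det) (Z.det * Matrix.trace (Z⁻¹ * Z')) 0 := by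
  have e : (fun h : ℝ => (Z + (h : ℂ) • Z').det) = fun h : ℝ =>
      Z.det * (1 + Matrix.trace (Z⁻¹ * Z') * (h : ℂ) +
        (det (1 + (Polynomial.X : Polynomial ℂ) • (Z⁻¹ * Z').map Polynomial.C)).divX.divX.eval (h : ℂ)
          * (h : ℂ) ^ 2) := by
    funext h
    have h1 : Z + (h : ℂ) • Z' = Z * (1 + (h : ℂ) • (Z⁻¹ * Z')) := by
      rw [mul_add, mul_one, Matrix.mul_smul, Matrix.mul_nonsing_inv_cancel_left _ _ hZ]
    rw [h1, Matrix.det_mul, Matrix.det_one_add_smul]
  rw [e]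
  set P := (det (1 + (Polynomial.X : Polynomial ℂ) • (Z⁻¹ * Z').map Polynomial.C)).divX.divX
  have hc : HasDerivAt (fun h : ℝ => (h : ℂ)) 1 0 := by
    have := (hasDerivAt_id (0 : ℝ)).ofReal_comp
    simpa using this
  have hP : HasDerivAt (fun h : ℝ => P.eval (h : ℂ)) (P.derivative.eval ((0 : ℝ) : ℂ) * 1) 0 := by
    exact (P.hasDerivAt ((0 : ℝ) : ℂ)).comp (0 : ℝ) hc
  have := (((hc.const_mul (Matrix.trace (Z⁻¹ * Z'))).const_add 1).add (hP.mul (hc.pow 2))).const_mul Z.det
  refine this.congr_deriv ?_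
  simp

theorem det_deriv : DetStmt := by
  intro N W W' x hu h
  have h1 := detD_hasDerivAt W W' x h
  have h2 : detD (W x) W' = (W x).det * Matrix.trace ((W x)⁻¹ * W') := by
    have hl := det_line (W x) W' hu
    have hl2 := detD_hasDerivAt (fun h : ℝ => W x + (h : ℂ) • W') W' 0 (by
      intro i j
      have hc : HasDerivAt (fun h : ℝ => (h : ℂ)) 1 0 := by
        have := (hasDerivAt_id (0 : ℝ)).ofReal_comp
        simpa using this
      have h3 := (hc.mul_const (W' i j)).const_add (W x i j)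
      rw [one_mul] at h3
      exact h3)
    have := hl.unique hl2
    rw [this]
    simp
  rw [← h2]
  exact h1

end Pool.Agent.LTS
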