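import Pool.Agent.LTS.Defs

/-!
# (DOMR) `l² + 2 l F + κ² + m > 0` along a solution of the Riccati equation (helper56)

For `l ≥ 0` the matrix is `2 l (κ + F) + (l - κ)² + m`, for `l ≤ 0` it is
`-2 l (κ - F) + (l + κ)² + m`.
-/

set_option autoImplicit false

namespace Pool.Agent.LTS

open Matrix
open scoped ComplexConjugate ComplexOrder

theorem dom_of_bounds {N : ℕ} {m : ℝ} {κ F : Mat N} (hκ : κ.PosSemidef) (h1 : (κ - F).PosSemidef)
    (h2 : (κ + F).PosSemidef) (hm : 0 < m) :
    Dom (κ * κ + (m : ℂ) • (1 : Mat N)) F := by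
  have hκh : κᴴ = κ := hκ.1
  have hF : Fᴴ = F := by
    have h := h2.1
    have h' : (κ + F)ᴴ = κ + F := h
    rw [conjTranspose_add, hκh] at h'
    exact add_left_cancel h'
  have hmP : ((m : ℂ) • (1 : Mat N)).PosDef := PosDef.one.smul (by exact_mod_cast hm)
  refine ⟨?_, hF, fun l => ?_⟩
  · have h := hmP.1
    have h' : ((m : ℂ) • (1 : Mat N))ᴴ = (m : ℂ) • (1 : Mat N) := h
    show (κ * κ + (m : ℂ) • (1 : Mat N))ᴴ = _
    rw [conjTranspose_add, conjTranspose_mul, hκh, h']
  · have hstar : ∀ c : ℝ, (((c : ℂ)) • (1 : Mat N))ᴴ = ((c : ℂ)) • (1 : Mat N) := by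
      intro c
      rw [conjTranspose_smul, conjTranspose_one]
      simp
    rcases le_total 0 l with hl | hl
    · have hA : (((2 * l : ℝ) : ℂ) • (κ + F)).PosSemidef := h2.smul (by exact_mod_cast (by linarith))
      have hB : ((((l : ℝ) : ℂ) • (1 : Mat N) - κ)ᴴ * (((l : ℝ) : ℂ) • (1 : Mat N) - κ)).PosSemidef :=
        posSemidef_conjTranspose_mul_self _
      have h := PosDef.posSemidef_add (hA.add hB) hmP
      convert h using 1
      rw [conjTranspose_sub, hstar, hκh]
      push_cast
      simp only [sub_mul, mul_sub, smul_mul_assoc, mul_smul_comm, one_mul, mul_one,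
        smul_add]
      module
    · have hA : (((-(2 * l) : ℝ) : ℂ) • (κ - F)).PosSemidef :=
        h1.smul (by exact_mod_cast (by linarith))
      have hB : ((((l : ℝ) : ℂ) • (1 : Mat N) + κ)ᴴ * (((l : ℝ) : ℂ) • (1 : Mat N) + κ)).PosSemidef :=
        posSemidef_conjTranspose_mul_self _
      have h := PosDef.posSemidef_add (hA.add hB) hmP
      convert h using 1
      rw [conjTranspose_add, hstar, hκh]
      push_cast
      simp only [add_mul, mul_add, smul_mul_assoc, mul_smul_comm, one_mul, mul_one,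
        smul_sub]
      module

theorem domR : DomRStmt := by
  intro N X m κ F V h hm x hx
  exact dom_of_bounds h.1 (h.2.2.2.2.2 x hx).1 (h.2.2.2.2.2 x hx).2 hm

end Pool.Agent.LTS
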