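import Pool.Agent.LTS.Defs

/-!
# LTS_EXW: existence of the stable factor `W` (continuity method)
-/

set_option autoImplicit false

namespace Pool.Agent.LTS

open MeasureTheory Matrix Finset Filter Topology
open scoped ComplexConjugate ComplexOrder

namespace ExWAux

variable {N : ℕ}

theorem dom_posDef {A F : Mat N} (h : Dom A F) : A.PosDef := by
  have := h.2.2 0
  simpa using this

theorem dom_smul {A F : Mat N} (h : Dom A F) {t : ℝ} (h0 : 0 ≤ t) (h1 : t ≤ 1) :
    Dom A ((t : ℂ) • F) := by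
  have hA := dom_posDef h
  refine ⟨h.1, ?_, fun l => ?_⟩
  · have := h.2.1
    unfold Matrix.IsHermitian at this ⊢
    rw [conjTranspose_smul, this]
    simp
  · have hM1 := h.2.2 l
    have hl : (((l ^ 2 : ℝ) : ℂ) • (1 : Mat N)).PosSemidef := by
      refine Matrix.PosSemidef.one.smul ?_
      exact_mod_cast sq_nonneg l
    have hM0 : (((l ^ 2 : ℝ) : ℂ) • (1 : Mat N) + A).PosDef := Matrix.PosDef.posSemidef_add hl hA
    have e : ((l ^ 2 : ℝ) : ℂ) • (1 : Mat N) + ((2 * l : ℝ) : ℂ) • ((t : ℂ) • F) + A =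
        (t : ℂ) • (((l ^ 2 : ℝ) : ℂ) • (1 : Mat N) + ((2 * l : ℝ) : ℂ) • F + A) +
          ((1 - t : ℝ) : ℂ) • (((l ^ 2 : ℝ) : ℂ) • (1 : Mat N) + A) := by
      ext i j
      simp only [Matrix.add_apply, Matrix.smul_apply, smul_eq_mul]
      push_cast
      ring
    rw [e]
    rcases h0.eq_or_lt with rfl | h0'
    · simpa using hM0
    · refine Matrix.PosDef.add_posSemidef (hM1.smul ?_) (hM0.posSemidef.smul ?_)
      · exact_mod_cast h0'
      · exact_mod_cast (by linarith : (0 : ℝ) ≤ 1 - t)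

open scoped MatrixOrder in
theorem exists_sqrt {A : Mat N} (hA : A.PosDef) : ∃ Y : Mat N, Y.PosDef ∧ Y * Y = A := by
  have h2 : CFC.sqrt A * CFC.sqrt A = A := by
    have := CFC.sq_sqrt A hA.posSemidef.nonneg
    rwa [sq] at this
  refine ⟨CFC.sqrt A, ?_, h2⟩
  have hs : (CFC.sqrt A).PosSemidef := (CFC.sqrt_nonneg A).posSemidef
  rw [hs.posDef_iff_isUnit]
  have hu : IsUnit A := hA.isUnit
  rw [← h2] at hu
  exact isUnit_of_mul_isUnit_left hu

theorem entry_bound {A F W : Mat N} (h : IsW A F W) (i j : Fin N) :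
    ‖W i j‖ ≤ 1 + ∑ k, ‖A k k‖ := by
  have h1 : ∑ i, ‖W i j‖ ^ 2 = (A j j).re := by
    rw [← h.1, Matrix.mul_apply, Complex.re_sum]
    refine Finset.sum_congr rfl fun i _ => ?_
    rw [conjTranspose_apply, ← Complex.normSq_eq_norm_sq, Complex.star_def,
      ← Complex.normSq_eq_conj_mul_self, Complex.ofReal_re]
  have h2 : ‖W i j‖ ^ 2 ≤ ∑ i, ‖W i j‖ ^ 2 :=
    Finset.single_le_sum (f := fun i => ‖W i j‖ ^ 2) (fun _ _ => sq_nonneg _) (Finset.mem_univ i)
  have h3 : (A j j).re ≤ ‖A j j‖ := Complex.re_le_norm _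
  have h4 : ‖A j j‖ ≤ ∑ k, ‖A k k‖ :=
    Finset.single_le_sum (f := fun k => ‖A k k‖) (fun _ _ => norm_nonneg _) (Finset.mem_univ j)
  have h5 : 0 ≤ ∑ k, ‖A k k‖ := Finset.sum_nonneg fun _ _ => norm_nonneg _
  nlinarith [norm_nonneg (W i j)]

theorem closed_part (hc : ClosStmt) {A F : Mat N} (h : Dom A F) :
    IsClosed ({t : ℝ | ∃ W : Mat N, IsW A ((t : ℂ) • F) W} ∩ Set.Icc 0 1) := by
  refine IsSeqClosed.isClosed fun u t hu hlim => ?_
  have ht : t ∈ Set.Icc (0 : ℝ) 1 := isClosed_Icc.mem_of_tendsto hlim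
    (Eventually.of_forall fun n => (hu n).2)
  choose W hW using fun n => (hu n).1
  have hK : IsCompact (Set.pi Set.univ (fun _ : Fin N => Set.pi Set.univ (fun _ : Fin N =>
      Metric.closedBall (0 : ℂ) (1 + ∑ k, ‖A k k‖)))) :=
    isCompact_univ_pi fun _ => isCompact_univ_pi fun _ => isCompact_closedBall _ _
  obtain ⟨W₀, -, φ, hφ, hφl⟩ := hK.tendsto_subseq (x := fun n i j => W n i j) (fun n => by
    intro i _ j _
    rw [mem_closedBall_zero_iff]
    exact entry_bound (hW n) i j)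
  refine ⟨⟨W₀, ?_⟩, ht⟩
  refine hc N (fun _ => A) (fun n => ((u (φ n) : ℝ) : ℂ) • F) A ((t : ℂ) • F) W₀
    (fun n => W (φ n)) (fun n => hW (φ n)) (dom_smul h ht.1 ht.2) tendsto_const_nhds ?_ hφl
  have h1 : Tendsto (fun n => ((u (φ n) : ℝ) : ℂ)) atTop (nhds (t : ℂ)) :=
    (Complex.continuous_ofReal.tendsto t).comp (hlim.comp hφ.tendsto_atTop)
  exact h1.smul_const F

/-- the left side of the equation for the Hermitian part -/
noncomputable def lhs (F : Mat N) (p : Mat N × ℝ) : Mat N :=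
  p.1 * p.1 + p.2 • (Complex.I • (p.1 * F - F * p.1)) + (p.2 * p.2) • (F * F)

section Deriv

attribute [local instance] Matrix.linftyOpNormedRing Matrix.linftyOpNormedAlgebra

theorem map_nhds (hs : StabStmt) {F Y : Mat N} {t : ℝ} (hF : F.IsHermitian) (hY : Y.IsHermitian)
    (hW : Stab (Y + ((t : ℂ) * Complex.I) • F)) :
    Filter.map (fun p : Mat N × ℝ => (lhs F p, p.2)) (nhds (Y, t)) = nhds (lhs F (Y, t), t) := by
  set W := Y + ((t : ℂ) * Complex.I) • F with hWd
  have h1 : HasStrictFDerivAt (fun p : Mat N × ℝ => p.1)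
      (ContinuousLinearMap.fst ℝ (Mat N) ℝ) (Y, t) := hasStrictFDerivAt_fst
  have h2 : HasStrictFDerivAt (fun p : Mat N × ℝ => p.2)
      (ContinuousLinearMap.snd ℝ (Mat N) ℝ) (Y, t) := hasStrictFDerivAt_snd
  have h3 := h1.mul' h1
  have h4 := h1.mul_const' F
  have h5 := h1.const_mul F
  have h6 := h2.smul ((h4.sub h5).const_smul Complex.I)
  have h7 := (h2.mul h2).smul_const (F * F)
  have h8 := ((h3.add h6).add h7).prodMk h2
  have hWt : Wᴴ = Y - ((t : ℂ) * Complex.I) • F := by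
    rw [hWd, conjTranspose_add, conjTranspose_smul, hF, hY]
    simp [sub_eq_add_neg]
  have hinj : Function.Injective
      (LinearMap.mulRight ℂ W + LinearMap.mulLeft ℂ Wᴴ : Mat N →ₗ[ℂ] Mat N) := by
    rw [← LinearMap.ker_eq_bot, LinearMap.ker_eq_bot']
    intro H hH
    exact (hs N).1 W W H hW hW (by simpa using hH)
  have hsurj := LinearMap.injective_iff_surjective.1 hinj
  have h9 := h8.map_nhds_eq_of_surj (by
    rw [LinearMap.range_eq_top]
    rintro ⟨R, τ⟩
    obtain ⟨H, hH⟩ := hsurj (R - (τ • (Complex.I • (Y * F - F * Y)) + (2 * t * τ) • (F * F)))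
    refine ⟨(H, τ), ?_⟩
    have hH' : H * W + Wᴴ * H =
      R - (τ • (Complex.I • (Y * F - F * Y)) + (2 * t * τ) • (F * F)) := by simpa using hH
    refine Prod.ext ?_ ?_
    · change Y * H + H * Y + (t • (Complex.I • (H * F - F * H)) +
        τ • (Complex.I • (Y * F - F * Y))) + (t * τ + t * τ) • (F * F) = R
      rw [hWt, hWd] at hH'
      rw [eq_sub_iff_add_eq] at hH'
      rw [← hH']
      simp only [mul_add, sub_mul, Matrix.mul_smul, Matrix.smul_mul, smul_sub]
      have e : ∀ (r : ℝ) (Z : Mat N), r • Z = (r : ℂ) • Z := fun r Z => by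
        ext i j; simp
      simp only [e, smul_smul]
      push_cast
      module
    · rfl)
  exact h9

end Deriv

theorem lhs_eq {F Y : Mat N} (t : ℝ) (hF : F.IsHermitian) (hY : Y.IsHermitian) :
    (Y + ((t : ℂ) * Complex.I) • F)ᴴ * (Y + ((t : ℂ) * Complex.I) • F) = lhs F (Y, t) := by
  have hWt : (Y + ((t : ℂ) * Complex.I) • F)ᴴ = Y - ((t : ℂ) * Complex.I) • F := by
    rw [conjTranspose_add, conjTranspose_smul, hF, hY]
    simp [sub_eq_add_neg]
  rw [hWt]
  have e : ∀ (r : ℝ) (Z : Mat N), r • Z = (r : ℂ) • Z := fun r Z => by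
    ext i j; simp
  simp only [lhs, e, mul_add, sub_mul, Matrix.mul_smul, Matrix.smul_mul, smul_sub, smul_smul]
  have hI : (t : ℂ) * Complex.I * ((t : ℂ) * Complex.I) = -((t : ℂ) * (t : ℂ)) := by
    linear_combination ((t : ℂ) * (t : ℂ)) * Complex.I_mul_I
  rw [hI]
  push_cast
  module

/-- a solution near a Hermitian stable solution is Hermitian -/
theorem herm (hs : StabStmt) {A F Y : Mat N} {t : ℝ} (hA : A.IsHermitian) (hF : F.IsHermitian)
    (hW : Stab (Y + ((t : ℂ) * Complex.I) • F)) (h : lhs F (Y, t) = A) : Y.IsHermitian := by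
  have e : ∀ (r : ℝ) (Z : Mat N), r • Z = (r : ℂ) • Z := fun r Z => by
    ext i j; simp
  have h' : lhs F (Yᴴ, t) = A := by
    rw [← hA, ← h]
    simp only [lhs, e, conjTranspose_add, conjTranspose_sub, conjTranspose_smul,
      conjTranspose_mul, hF.eq, Complex.star_def, Complex.conj_ofReal, Complex.conj_I]
    rw [neg_smul, ← smul_neg, neg_sub]
  have h0 : (Y - Yᴴ) * (Y + ((t : ℂ) * Complex.I) • F) +
      (Y + ((t : ℂ) * Complex.I) • F)ᴴ * (Y - Yᴴ) = 0 := by
    have hWt : (Y + ((t : ℂ) * Complex.I) • F)ᴴ = Yᴴ - ((t : ℂ) * Complex.I) • F := by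
      rw [conjTranspose_add, conjTranspose_smul, hF]
      simp [sub_eq_add_neg]
    rw [hWt]
    have h2 : lhs F (Y, t) - lhs F (Yᴴ, t) = 0 := by rw [h, h', sub_self]
    rw [← h2]
    simp only [lhs, e, mul_add, mul_sub, sub_mul, Matrix.mul_smul, Matrix.smul_mul, smul_sub,
      smul_smul]
    module
  have := (hs N).1 _ _ _ hW hW h0
  exact (sub_eq_zero.1 this).symm

end ExWAux

open ExWAux in
theorem exW (hs : StabStmt) (hc : ClosStmt) : ExWStmt := by
  intro N A F h
  set S := {t : ℝ | ∃ W : Mat N, IsW A ((t : ℂ) • F) W} with hS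
  have hA := dom_posDef h
  have h1 : Set.Icc (0 : ℝ) 1 ⊆ S := by
    refine IsClosed.Icc_subset_of_forall_exists_gt (closed_part hc h) ?_ ?_
    · obtain ⟨Y, hY, hYA⟩ := exists_sqrt hA
      refine ⟨Y, ?_, ?_, 1, Matrix.PosDef.one, ?_⟩
      · rw [hY.isHermitian.eq, hYA]
      · rw [hY.isHermitian.eq]; simp
      · rw [hY.isHermitian.eq, mul_one, one_mul]
        exact hY.add hY
    · rintro t ⟨⟨W, hW⟩, ht⟩ y hy
      obtain ⟨hW1, hW2, hW3⟩ := hW
      set Y := W - ((t : ℂ) * Complex.I) • F with hYd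
      have hWt : Wᴴ = W - (2 * Complex.I) • ((t : ℂ) • F) := by
        rw [← hW2]; abel
      have hF : F.IsHermitian := h.2.1
      have hY : Y.IsHermitian := by
        unfold Matrix.IsHermitian
        rw [hYd, conjTranspose_sub, conjTranspose_smul, hF.eq, hWt]
        simp only [star_mul', Complex.star_def, Complex.conj_ofReal, Complex.conj_I, smul_smul]
        module
      have hWY : W = Y + ((t : ℂ) * Complex.I) • F := by rw [hYd]; abel
      have hW3' : Stab (Y + ((t : ℂ) * Complex.I) • F) := by rwa [← hWY]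
      have hl : lhs F (Y, t) = A := by rw [← lhs_eq t hF hY, ← hWY, hW1]
      have hm := map_nhds hs hF hY hW3'
      rw [hl] at hm
      have hopen : ∀ᶠ p : Mat N × ℝ in nhds (Y, t),
          Stab (p.1 + ((p.2 : ℂ) * Complex.I) • F) := by
        have hcont : Continuous (fun p : Mat N × ℝ => p.1 + ((p.2 : ℂ) * Complex.I) • F) := by
          fun_prop
        exact hcont.continuousAt.eventually ((hs N).2.2.2.2.1.mem_nhds hW3')
      have h2 : ∀ᶠ q : Mat N × ℝ in nhds (A, t), ∃ p : Mat N × ℝ, (lhs F p, p.2) = q ∧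
          Stab (p.1 + ((p.2 : ℂ) * Complex.I) • F) := by
        rw [← hm, Filter.eventually_map]
        exact hopen.mono fun p hp => ⟨p, rfl, hp⟩
      have h3 : ∀ᶠ t' : ℝ in nhds t, ∃ p : Mat N × ℝ, (lhs F p, p.2) = (A, t') ∧
          Stab (p.1 + ((p.2 : ℂ) * Complex.I) • F) :=
        (Continuous.prodMk_right A).continuousAt.eventually h2
      have h4 : ∀ᶠ t' : ℝ in nhds t, t' ∈ S := by
        refine h3.mono ?_
        rintro t' ⟨⟨Z, t''⟩, he, hst⟩
        rw [Prod.mk.injEq] at he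
        obtain ⟨he1, he2⟩ := he
        simp only at he2 hst
        subst he2
        have hZ := herm hs h.1 hF hst he1
        refine ⟨Z + ((t'' : ℂ) * Complex.I) • F, ?_, ?_, hst⟩
        · rw [lhs_eq t'' hF hZ, he1]
        · rw [conjTranspose_add, conjTranspose_smul, hF.eq, hZ.eq]
          simp only [star_mul', Complex.star_def, Complex.conj_ofReal, Complex.conj_I, smul_smul]
          module
      have h5 : ∀ᶠ t' : ℝ in nhdsWithin t (Set.Ioi t), t' ∈ S := h4.filter_mono nhdsWithin_le_nhds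
      have h6 : ∀ᶠ t' : ℝ in nhdsWithin t (Set.Ioi t), t' ∈ Set.Ioc t y :=
        Ioc_mem_nhdsGT hy
      exact (h5.and h6).exists
  obtain ⟨W, hW⟩ := h1 (Set.right_mem_Icc.2 zero_le_one)
  refine ⟨W, ?_⟩
  simpa using hW

end Pool.Agent.LTS
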