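import Pool.Agent.LT.Defs

/-!
# Sharp Lieb-Thirring inequality on the line for all exponents `1/2 < γ < 3/2`
(MP_4c716f_mp; definitions and module statements; architect: helper5)

Mathematics: the trace inequality for constant `E = κ²` is helper45's, the vertex lemma (unfolding
by Brouwer's theorem) is due to helper13 and helper5. See README.md.
-/

set_option autoImplicit false

namespace Pool.Agent.LTS

open MeasureTheory Matrix Finset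
open scoped ComplexConjugate ComplexOrder

abbrev Mat (N : ℕ) := Matrix (Fin N) (Fin N) ℂ

/-! ## Factorisation of `l² + 2 l F + A` -/

/-- Stable matrices (spectrum in the open right half plane), with a Lyapunov certificate. -/
def Stab {N : ℕ} (W : Mat N) : Prop := ∃ G : Mat N, G.PosDef ∧ (W * G + G * Wᴴ).PosDef

/-- `l² + 2 l F + A > 0` for all real `l`. -/
def Dom {N : ℕ} (A F : Mat N) : Prop :=
  A.IsHermitian ∧ F.IsHermitian ∧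
    ∀ l : ℝ, (((l ^ 2 : ℝ) : ℂ) • (1 : Mat N) + ((2 * l : ℝ) : ℂ) • F + A).PosDef

/-- `W* W = A`, `Im W = F`, `W` stable; then `l² + 2 l F + A = (l + i W*) (l - i W)`. -/
def IsW {N : ℕ} (A F W : Mat N) : Prop :=
  Wᴴ * W = A ∧ W - Wᴴ = (2 * Complex.I) • F ∧ Stab W

/-- `G > 0`, `W G + G W* = 2`. -/
def IsG {N : ℕ} (W G : Mat N) : Prop := G.PosDef ∧ W * G + G * Wᴴ = (2 : ℂ) • (1 : Mat N)

/-- (STAB) uniqueness for Sylvester equations with stable matrices, the Lyapunov equation, the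
stable matrices are open. -/
def StabStmt : Prop :=
  ∀ N : ℕ,
    (∀ W₁ W₂ Y : Mat N, Stab W₁ → Stab W₂ → Y * W₁ + W₂ᴴ * Y = 0 → Y = 0) ∧
    (∀ W₁ W₂ Z : Mat N, Stab W₁ → Stab W₂ → W₁ * Z + Z * W₂ᴴ = 0 → Z = 0) ∧
    (∀ W : Mat N, Stab W → IsUnit W.det) ∧
    (∀ W : Mat N, Stab W → ∃ G : Mat N, IsG W G) ∧
    IsOpen {W : Mat N | Stab W} ∧
    (∀ A F W₁ W₂ : Mat N, IsW A F W₁ → IsW A F W₂ → W₁ = W₂)

/-- (CLOS) the closedness lemma: a limit of stable factors is stable as long as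
`l² + 2 l F + A > 0`. -/
def ClosStmt : Prop :=
  ∀ (N : ℕ) (A F : ℕ → Mat N) (A₀ F₀ W₀ : Mat N) (W : ℕ → Mat N),
    (∀ n, IsW (A n) (F n) (W n)) → Dom A₀ F₀ →
    Filter.Tendsto A Filter.atTop (nhds A₀) → Filter.Tendsto F Filter.atTop (nhds F₀) →
    Filter.Tendsto W Filter.atTop (nhds W₀) → IsW A₀ F₀ W₀

/-- (EXW) existence. -/
def ExWStmt : Prop := ∀ (N : ℕ) (A F : Mat N), Dom A F → ∃ W : Mat N, IsW A F W

/-- (REGC) continuity in two real parameters. -/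
def RegCStmt : Prop :=
  ∀ (N : ℕ) (S : Set (ℝ × ℝ)) (A F W G : ℝ × ℝ → Mat N), ContinuousOn A S → ContinuousOn F S →
    (∀ p ∈ S, Dom (A p) (F p)) → (∀ p ∈ S, IsW (A p) (F p) (W p)) →
    (∀ p ∈ S, IsG (W p) (G p)) → ContinuousOn W S ∧ ContinuousOn G S

/-- (REGD) differentiability along curves. -/
def RegDStmt : Prop :=
  ∀ (N : ℕ) (S : Set ℝ) (A F W : ℝ → Mat N) (x : ℝ) (A' F' : Mat N), IsOpen S → x ∈ S →
    (∀ y ∈ S, Dom (A y) (F y)) → (∀ y ∈ S, IsW (A y) (F y) (W y)) →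
    (∀ i j, HasDerivAt (fun y => A y i j) (A' i j) x) →
    (∀ i j, HasDerivAt (fun y => F y i j) (F' i j) x) →
    ∃ W' : Mat N, (∀ i j, HasDerivAt (fun y => W y i j) (W' i j) x) ∧
      W'ᴴ * W x + (W x)ᴴ * W' = A' ∧ W' - W'ᴴ = (2 * Complex.I) • F'

/-- (ALGW) algebraic identities. With `T = G⁻¹`, `Δ = Re W - T`: `T² + Δ² + i[Δ, F] = A - F²`,
`{T, Δ} + i[T, F] = 0`, `{Δ, G} + i[F, G] = 0`. -/
def AlgStmt : Prop :=
  ∀ (N : ℕ) (A F W G : Mat N), A.IsHermitian → F.IsHermitian → IsW A F W → IsG W G →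
    (Matrix.trace (G * (A - F * F))).re ≤ (Matrix.trace W).re ∧
    0 ≤ (Matrix.trace W).re ∧
    (∀ m : ℝ, 0 < m →
      (Matrix.trace W).re ≤ ((Matrix.trace (A - F * F)).re + N * m) / (2 * √m)) ∧
    (∀ S : Mat N, S.IsHermitian →
      2 * (Matrix.trace S).re ≤ (Matrix.trace W).re + (Matrix.trace (G * (S * S))).re) ∧
    (∀ W' : Mat N, W'ᴴ * W + Wᴴ * W' = 1 → W' - W'ᴴ = 0 →
      (Matrix.trace W').re = (Matrix.trace G).re / 2) ∧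
    (∀ W' F' : Mat N, F'.IsHermitian → W'ᴴ * W + Wᴴ * W' = 0 → W' - W'ᴴ = (2 * Complex.I) • F' →
      Matrix.trace (W⁻¹ * W') = Complex.I * Matrix.trace (G * F') ∧
      (Matrix.trace (G * F')).im = 0)

/-- (DET) derivative of the determinant along a curve of invertible matrices. -/
def DetStmt : Prop :=
  ∀ (N : ℕ) (W : ℝ → Mat N) (W' : Mat N) (x : ℝ), IsUnit (W x).det →
    (∀ i j, HasDerivAt (fun y => W y i j) (W' i j) x) →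
    HasDerivAt (fun y => (W y).det) ((W x).det * Matrix.trace ((W x)⁻¹ * W')) x

/-! ## The Riccati equation with an `N`-dimensional kernel -/

/-- `F' = κ² - F² - V` on `[-X, X]`, `F(-X) = κ`, `F(X) = -κ`, `-κ ≤ F ≤ κ`. -/
def IsRic {N : ℕ} (X : ℝ) (κ : Mat N) (F V : ℝ → Mat N) : Prop :=
  κ.PosSemidef ∧ F (-X) = κ ∧ F X = -κ ∧ ContinuousOn F (Set.Icc (-X) X) ∧
    (∀ x ∈ Set.Ioo (-X) X, ∀ i j,
      HasDerivAt (fun y => F y i j) ((κ * κ - F x * F x - V x) i j) x) ∧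
    ∀ x ∈ Set.Icc (-X) X, (κ - F x).PosSemidef ∧ (κ + F x).PosSemidef

/-- (VERTEX) the vertex lemma; the potential may depend continuously on `κ`. -/
def VertexStmt : Prop :=
  ∀ (N : ℕ) (X v₀ : ℝ) (V : Mat N → ℝ → Mat N), 0 < X →
    ContinuousOn (fun p : Mat N × ℝ => V p.1 p.2) {p | p.1.IsHermitian} →
    (∀ κ : Mat N, κ.IsHermitian → ∀ x, (V κ x).PosSemidef) →
    (∀ κ : Mat N, κ.IsHermitian → ∫ x in (-X)..X, (Matrix.trace (V κ x)).re ≤ v₀) →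
    ∃ (κ : Mat N) (F : ℝ → Mat N), IsRic X κ F (V κ)

/-- (DOMR) -/
def DomRStmt : Prop :=
  ∀ (N : ℕ) (X m : ℝ) (κ : Mat N) (F V : ℝ → Mat N), IsRic X κ F V → 0 < m →
    ∀ x ∈ Set.Icc (-X) X, Dom (κ * κ + (m : ℂ) • (1 : Mat N)) (F x)

/-- (ARG) `∫ tr (G_μ F') = -2 ∑ arctan (k_i / √μ)`. -/
def ArgStmt : Prop :=
  ∀ (N : ℕ) (X m : ℝ) (κ : Mat N) (hκ : κ.IsHermitian) (F V W G : ℝ → Mat N), 0 < X → 0 < m →
    IsRic X κ F V → ContinuousOn V (Set.Icc (-X) X) →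
    (∀ x ∈ Set.Icc (-X) X, (V x).PosSemidef) →
    (∀ x ∈ Set.Icc (-X) X, IsW (κ * κ + (m : ℂ) • (1 : Mat N)) (F x) (W x)) →
    (∀ x ∈ Set.Icc (-X) X, IsG (W x) (G x)) →
    ∫ x in (-X)..X, (Matrix.trace (G x * (κ * κ - F x * F x - V x))).re =
      -(2 * ∑ i, Real.arctan (hκ.eigenvalues i / √m))

/-! ## Scalar integrals -/

/-- `Φ(x) = ∫_{m₀}^M μ^(s-1/2) (μ^(-1/2) - (x+μ)^(-1/2)) dμ` -/
noncomputable def Phi (s m₀ M x : ℝ) : ℝ :=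
  ∫ μ in m₀..M, μ ^ (s - 1 / 2) * (1 / √μ - 1 / √(x + μ))

/-- (SCAL) -/
def ScalStmt : Prop :=
  ∀ s : ℝ, 0 < s → s < 1 → ∃ k : ℝ, 0 < k ∧
    (∀ m₀ M x : ℝ, 0 < m₀ → m₀ ≤ M → 0 ≤ x → 0 ≤ Phi s m₀ M x ∧ Phi s m₀ M x ≤ k * x ^ s) ∧
    (∀ x : ℝ, 0 ≤ x → Filter.Tendsto (fun n : ℕ => Phi s (1 / ((n : ℝ) + 1)) ((n : ℝ) + 1) x)
      Filter.atTop (nhds (k * x ^ s))) ∧
    (∀ m₀ M : ℝ, 0 < m₀ → m₀ ≤ M → ContinuousOn (Phi s m₀ M) (Set.Ici 0)) ∧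
    (∀ m₀ M κ : ℝ, 0 < m₀ → m₀ ≤ M → 0 ≤ κ →
      2 * ∫ μ in m₀..M, μ ^ (s - 1 / 2) * (κ / √μ - Real.arctan (κ / √μ)) =
        ∫ f in (-κ)..κ, Phi s m₀ M (κ ^ 2 - f ^ 2)) ∧
    (∀ m₀ M y : ℝ, 0 < m₀ → m₀ ≤ M → 0 ≤ y →
      ∫ μ in m₀..M, μ ^ (s - 1 / 2) * √(y + μ) =
        (M ^ (s + 1) - m₀ ^ (s + 1)) / (s + 1) + y * (M ^ s - m₀ ^ s) / (2 * s) -
          1 / 2 * ∫ t in (0 : ℝ)..y, Phi s m₀ M t)

/-- `∫_{-1}^1 (1 - f²)^s` -/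
noncomputable def cS (s : ℝ) : ℝ := ∫ f in (-1 : ℝ)..1, (1 - f ^ 2) ^ s

/-- (MUINT) the `μ`-integrated pointwise inequality. -/
def MuStmt : Prop :=
  ∀ (N : ℕ) (s m₀ M : ℝ) (E F V : Mat N) (hV : V.IsHermitian) (W G : ℝ → Mat N),
    0 < s → s < 1 → 0 < m₀ → m₀ ≤ M → E.IsHermitian → F.IsHermitian → V.PosSemidef →
    (∀ m : ℝ, 0 < m → Dom (E + (m : ℂ) • (1 : Mat N)) F) →
    (∀ m : ℝ, 0 < m → IsW (E + (m : ℂ) • (1 : Mat N)) F (W m)) →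
    (∀ m : ℝ, 0 < m → IsG (W m) (G m)) →
    s * ∫ m in m₀..M, m ^ (s - 1 / 2) * (Matrix.trace (G m * (E - F * F - V))).re ≤
      M ^ s * (Matrix.trace (E - F * F)).re + 2 * N * M ^ (s + 1) -
        2 * (1 + s) * ∑ i, ∫ m in m₀..M, m ^ (s - 1 / 2) *
          √(s / (1 + s) * hV.eigenvalues i + m)

/-- (TRACE) the trace inequality (sharp Lieb-Thirring inequality for the vertex `κ²`). -/
def TraceStmt : Prop :=
  ∀ (N : ℕ) (X s : ℝ) (κ : Mat N) (hκ : κ.IsHermitian) (F V : ℝ → Mat N) (h : ℝ → ℝ),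
    0 < X → 0 < s → s < 1 → IsRic X κ F V → ContinuousOn V (Set.Icc (-X) X) →
    (∀ x ∈ Set.Icc (-X) X, (V x).PosSemidef) → ContinuousOn h (Set.Icc (-X) X) →
    (∀ x ∈ Set.Icc (-X) X, ∀ hx : (V x).IsHermitian, ∑ i, hx.eigenvalues i ^ (1 + s) ≤ h x) →
    cS s * ∑ i, hκ.eigenvalues i ^ (2 * s + 1) ≤
      (s / (1 + s)) ^ (1 + s) / s * ∫ x in (-X)..X, h x

/-! ## From the vertex to the inequality for scalar potentials -/

open Pool.Agent.LT in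
/-- (TEST) `-d² + κ² - V ≥ 0` on `H¹(ℝ; H^N)`, `H` a Hilbert space. -/
def TestStmt : Prop :=
  ∀ (H : Type) [NormedAddCommGroup H] [InnerProductSpace ℂ H] [CompleteSpace H],
  ∀ (N : ℕ) (X : ℝ) (κ : Mat N) (F V : ℝ → Mat N) (φ φ' : Fin N → ℝ → H), 0 < X →
    IsRic X κ F V → ContinuousOn V (Set.Icc (-X) X) → (∀ i, IsH1v (φ i) (φ' i)) →
    ∫ x in (-X)..X, (∑ i, ∑ j, V x i j * inner ℂ (φ i x) (φ j x)).re ≤
      (∑ i, ∫ x, ‖φ' i x‖ ^ 2) +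
        ∫ x, (∑ i, ∑ j, (κ * κ) i j * inner ℂ (φ i x) (φ j x)).re

/-- (CFC) continuity of the functional calculus. -/
def FunStmt : Prop :=
  ∀ (N : ℕ) (f : ℝ → ℝ), Continuous f → ∃ Ψ : Mat N → Mat N,
    ContinuousOn Ψ {κ | κ.IsHermitian} ∧
    ∀ (κ : Mat N) (hκ : κ.IsHermitian), Ψ κ = (hκ.eigenvectorUnitary : Mat N) *
      Matrix.diagonal (fun i => ((f (hκ.eigenvalues i) : ℝ) : ℂ)) *
        (hκ.eigenvectorUnitary : Mat N)ᴴ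

open Pool.Agent.LT in
/-- the inequality for orthonormal functions in `H¹(ℝ)`, a continuous potential `u ≥ 0` supported in
`[-X, X]` and lower bounds `b` of the form matrix. -/
def ESfin (γ L : ℝ) : Prop :=
  ∀ (X : ℝ) (u : ℝ → ℝ) (N : ℕ) (ψ ψ' : Fin N → ℝ → ℂ) (b : Fin N → ℝ), 0 < X → Continuous u →
    (∀ x, 0 ≤ u x) → (∀ x, X ≤ |x| → u x = 0) → (∀ j, IsH1v (ψ j) (ψ' j)) →
    (∀ i j, ∫ x, ψ i x * conj (ψ j x) = if i = j then 1 else 0) → (∀ j, 0 < b j) →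
    ((Matrix.of fun i j => (∫ x, (u x : ℂ) * (ψ i x * conj (ψ j x))) -
      ∫ x, ψ' i x * conj (ψ' j x)) - Matrix.diagonal (fun j => (b j : ℂ)) :
        Mat N).PosSemidef →
    ∑ j, b j ^ γ ≤ L * ∫ x, u x ^ (γ + 1 / 2)

/-- the one bound state constant, `s = γ - 1/2` -/
noncomputable def Lone (γ : ℝ) : ℝ :=
  (γ - 1 / 2) ^ (γ - 1 / 2) / (γ + 1 / 2) ^ (γ + 1 / 2) * (Real.Gamma (γ + 1) /
    (√Real.pi * Real.Gamma (γ + 1 / 2)))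

/-- (CONST) -/
def ConstSStmt : Prop :=
  ∀ γ : ℝ, 1 / 2 < γ → γ < 3 / 2 → 0 < cS (γ - 1 / 2) ∧ 0 < Lone γ ∧
    ((γ - 1 / 2) / (1 + (γ - 1 / 2))) ^ (1 + (γ - 1 / 2)) / (γ - 1 / 2) / cS (γ - 1 / 2) = Lone γ

/-- (UNF1) unfolding, `γ ≥ 1`. -/
def Unf1Stmt : Prop :=
  VertexStmt → TraceStmt → TestStmt → ConstSStmt → ∀ γ : ℝ, 1 ≤ γ → γ < 3 / 2 → ESfin γ (Lone γ)

/-- (UNF2) unfolding, `γ < 1`. -/
def Unf2Stmt : Prop :=
  VertexStmt → TraceStmt → TestStmt → ConstSStmt → FunStmt →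
    ∀ γ : ℝ, 1 / 2 < γ → γ < 1 → ESfin γ (Lone γ)

/-- (APPR) from `ESfin` to real potentials in `L^(γ+1/2)`. -/
def ApprStmt : Prop := ∀ γ L : ℝ, 1 / 2 < γ → 0 ≤ L → ESfin γ L → LT.LTBound γ L

/-- (LOW) optimality. -/
def LowStmt : Prop := ∀ γ L : ℝ, 1 / 2 < γ → γ < 3 / 2 → LT.LTBound γ L → Lone γ ≤ L

end Pool.Agent.LTS
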