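import Pool.Agent.LT.Lower
import Pool.Agent.LTS.Defs

/-!
# Optimality: the potential `-(γ² - 1/4) sech²`
(MP_4c716f_mp, module LOW; helper15)

`s = γ - 1/2`, `V = -s(s+1) / cosh²`, `ψ = c cosh^(-s)`, `-ψ'' + V ψ = -s² ψ`,
`∫ cosh^(-2s-2) = ∫_{-1}^1 (1-t²)^s dt` (`t = tanh x`).
-/

set_option autoImplicit false

namespace Pool.Agent.LTS.Low

open MeasureTheory Set Filter Topology
open scoped ComplexConjugate ComplexOrder
open Pool.Agent.LT (IsH1v ACv IsEigenfunction LTBound)
open Pool.Agent.LT.Low (acv_of_hasDerivAt ibp conj_isH1v tendsto_cosh_atTop' tendsto_cosh_atBot'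
  cosh_rpow_cont tendsto_sinh_atTop)

/-! ### Integrability of powers of `cosh` -/

theorem integrable_cosh_rpow {p : ℝ} (hp : 0 < p) :
    Integrable (fun x : ℝ => Real.cosh x ^ (-p)) volume := by
  have hI : IntegrableOn (fun x : ℝ => Real.cosh x ^ (-p)) (Ioi 0) volume := by
    have h1 : IntegrableOn (fun x : ℝ => (2 : ℝ) ^ p * Real.exp (-p * x)) (Ioi 0) volume :=
      (exp_neg_integrableOn_Ioi 0 hp).const_mul _
    refine Integrable.mono h1 (cosh_rpow_cont _).aestronglyMeasurable ?_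
    refine Eventually.of_forall fun x => ?_
    have hc := Real.cosh_pos x
    rw [Real.norm_eq_abs, Real.norm_eq_abs, abs_of_pos (Real.rpow_pos_of_pos hc _),
      abs_of_pos (by positivity)]
    have h2 : Real.exp x / 2 ≤ Real.cosh x := by
      rw [Real.cosh_eq]
      have := Real.exp_pos (-x)
      linarith
    have h3 : Real.cosh x ^ (-p) ≤ (Real.exp x / 2) ^ (-p) :=
      Real.rpow_le_rpow_of_nonpos (by positivity) h2 (by linarith)
    refine h3.trans (le_of_eq ?_)
    rw [Real.div_rpow (Real.exp_pos x).le (by norm_num), ← Real.exp_mul, Real.rpow_neg (by norm_num),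
      div_inv_eq_mul, mul_comm]
    congr 2
    ring
  have hJ : IntegrableOn (fun x : ℝ => Real.cosh x ^ (-p)) (Iic 0) volume := by
    have := ((Measure.measurePreserving_neg (volume : Measure ℝ)).integrableOn_comp_preimage
      (Homeomorph.neg ℝ).measurableEmbedding (f := fun x : ℝ => Real.cosh x ^ (-p))
      (s := Ioi 0)).2 hI
    have h3 : IntegrableOn (fun x : ℝ => Real.cosh x ^ (-p)) (Iio 0) volume := by
      refine (integrableOn_congr_fun ?_ measurableSet_Iio).1
        (this.mono_set (s := Iio 0) ?_)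
      · intro x _
        simp [Real.cosh_neg]
      · intro x hx
        simpa using hx
    exact (integrableOn_Iic_iff_integrableOn_Iio).2 h3
  rw [← integrableOn_univ, ← Set.Iic_union_Ioi (a := (0:ℝ))]
  exact hJ.union hI

/-! ### `∫ cosh^(-2s-2)` -/

theorem tanh_hasDerivAt (x : ℝ) :
    HasDerivAt (fun x => Real.sinh x / Real.cosh x) (1 / Real.cosh x ^ 2) x := by
  have hc := Real.cosh_pos x
  refine ((Real.hasDerivAt_sinh x).div (Real.hasDerivAt_cosh x) hc.ne').congr_deriv ?_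
  have e3 := Real.cosh_sq x
  congr 1
  nlinarith

theorem tanh_sq (x : ℝ) : 1 - (Real.sinh x / Real.cosh x) ^ 2 = 1 / Real.cosh x ^ 2 := by
  have hc := Real.cosh_pos x
  have e3 := Real.cosh_sq x
  rw [div_pow, eq_div_iff (by positivity), sub_mul, div_mul_cancel₀ _ (by positivity)]
  linarith

theorem tanh_mem (x : ℝ) : Real.sinh x / Real.cosh x ∈ Ioo (-1 : ℝ) 1 := by
  have hc := Real.cosh_pos x
  have h := tanh_sq x
  have h2 : 0 < 1 / Real.cosh x ^ 2 := by positivity
  constructor <;> nlinarith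

theorem tanh_top : Tendsto (fun x => Real.sinh x / Real.cosh x) atTop (𝓝 1) := by
  have h1 : Tendsto (fun x : ℝ => 1 / Real.cosh x ^ 2) atTop (𝓝 0) := by
    have : Tendsto (fun x : ℝ => Real.cosh x ^ 2) atTop atTop :=
      (tendsto_pow_atTop (by norm_num)).comp tendsto_cosh_atTop'
    exact this.inv_tendsto_atTop.congr (fun x => by simp)
  have h2 : Tendsto (fun x : ℝ => √(1 - 1 / Real.cosh x ^ 2)) atTop (𝓝 (√(1 - 0))) :=
    (Real.continuous_sqrt.tendsto _).comp (tendsto_const_nhds.sub h1)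
  rw [sub_zero, Real.sqrt_one] at h2
  refine h2.congr' ?_
  filter_upwards [eventually_ge_atTop (0:ℝ)] with x hx
  rw [← tanh_sq x, sub_sub_cancel, Real.sqrt_sq]
  exact div_nonneg (Real.sinh_nonneg_iff.2 hx) (Real.cosh_pos x).le

theorem tanh_bot : Tendsto (fun x => Real.sinh x / Real.cosh x) atBot (𝓝 (-1)) := by
  have := (tanh_top.comp tendsto_neg_atBot_atTop).neg
  refine this.congr (fun x => ?_)
  simp [neg_div]

theorem integral_cosh_rpow {s : ℝ} (hs : 0 < s) :
    ∫ x : ℝ, Real.cosh x ^ (-(2 * s + 2)) = cS s := by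
  have hcont : Continuous fun t : ℝ => (1 - t ^ 2) ^ s :=
    (continuous_const.sub (continuous_pow 2)).rpow_const fun _ => Or.inr hs.le
  set G : ℝ → ℝ := fun y => ∫ t in (0 : ℝ)..y, (1 - t ^ 2) ^ s with hG
  have hGd : ∀ y, HasDerivAt G ((1 - y ^ 2) ^ s) y := fun y =>
    intervalIntegral.integral_hasDerivAt_right (hcont.intervalIntegrable _ _)
      (hcont.stronglyMeasurableAtFilter _ _) hcont.continuousAt
  have hd : ∀ x, HasDerivAt (fun x => G (Real.sinh x / Real.cosh x))
      (Real.cosh x ^ (-(2 * s + 2))) x := by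
    intro x
    refine ((hGd _).comp x (tanh_hasDerivAt x)).congr_deriv ?_
    have hc := Real.cosh_pos x
    rw [tanh_sq, one_div, Real.inv_rpow (by positivity), ← Real.rpow_natCast,
      ← Real.rpow_mul hc.le, ← Real.rpow_neg hc.le, ← Real.rpow_neg hc.le, ← Real.rpow_add hc]
    congr 1
    push_cast
    ring
  have htop : Tendsto (fun x => G (Real.sinh x / Real.cosh x)) atTop (𝓝 (G 1)) :=
    ((hGd 1).continuousAt.tendsto).comp tanh_top
  have hbot : Tendsto (fun x => G (Real.sinh x / Real.cosh x)) atBot (𝓝 (G (-1))) :=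
    ((hGd (-1)).continuousAt.tendsto).comp tanh_bot
  rw [integral_of_hasDerivAt_of_tendsto hd (integrable_cosh_rpow (by linarith)) hbot htop, hG, cS]
  exact intervalIntegral.integral_interval_sub_left (hcont.intervalIntegrable _ _)
    (hcont.intervalIntegrable _ _)

/-! ### The eigenfunction -/

variable (s : ℝ)

/-- `cosh^(-s)` -/
noncomputable def h0 (x : ℝ) : ℝ := Real.cosh x ^ (-s)

/-- its derivative -/
noncomputable def h1 (x : ℝ) : ℝ := -s * (Real.cosh x ^ (-s - 1) * Real.sinh x)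

/-- its second derivative -/
noncomputable def h2 (x : ℝ) : ℝ :=
  s ^ 2 * Real.cosh x ^ (-s) - s * (s + 1) * Real.cosh x ^ (-s - 2)

theorem hasDerivAt_h0 (x : ℝ) : HasDerivAt (h0 s) (h1 s x) x := by
  have := (Real.hasDerivAt_cosh x).rpow_const (p := -s) (Or.inl (Real.cosh_pos x).ne')
  refine this.congr_deriv ?_
  rw [h1]
  ring

theorem rpow_e1 (x : ℝ) : Real.cosh x ^ (-s) = Real.cosh x ^ (-s - 2) * Real.cosh x ^ 2 := by
  rw [← Real.rpow_natCast, ← Real.rpow_add (Real.cosh_pos x)]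
  congr 1
  push_cast
  ring

theorem rpow_e2 (x : ℝ) : Real.cosh x ^ (-s - 1) = Real.cosh x ^ (-s - 2) * Real.cosh x := by
  have := Real.rpow_add (Real.cosh_pos x) (-s - 2) 1
  rw [Real.rpow_one] at this
  rw [← this]
  congr 1
  ring

theorem rpow_e3 (x : ℝ) : Real.cosh x ^ (-s) = Real.cosh x ^ (-s - 1) * Real.cosh x := by
  have := Real.rpow_add (Real.cosh_pos x) (-s - 1) 1
  rw [Real.rpow_one] at this
  rw [← this]
  congr 1
  ring

theorem hasDerivAt_h1 (x : ℝ) : HasDerivAt (h1 s) (h2 s x) x := by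
  have a := (Real.hasDerivAt_cosh x).rpow_const (p := -s - 1) (Or.inl (Real.cosh_pos x).ne')
  have b := (a.mul (Real.hasDerivAt_sinh x)).const_mul (-s)
  refine b.congr_deriv ?_
  have e3 := Real.cosh_sq x
  have e4 : Real.sinh x ^ 2 = Real.cosh x ^ 2 - 1 := by linarith
  rw [h2, rpow_e1 s x, rpow_e2 s x, show -s - 1 - 1 = -s - 2 by ring]
  linear_combination (s * (s + 1) * Real.cosh x ^ (-s - 2)) * e4

theorem h0_cont : Continuous (h0 s) := cosh_rpow_cont _

theorem h1_cont : Continuous (h1 s) :=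
  continuous_const.mul ((cosh_rpow_cont _).mul Real.continuous_sinh)

theorem h2_cont : Continuous (h2 s) :=
  (continuous_const.mul (cosh_rpow_cont _)).sub (continuous_const.mul (cosh_rpow_cont _))

theorem h0_pos (x : ℝ) : 0 < h0 s x := Real.rpow_pos_of_pos (Real.cosh_pos x) _

theorem h0_sq (x : ℝ) : h0 s x * h0 s x = Real.cosh x ^ (-(2 * s)) := by
  rw [h0, ← Real.rpow_add (Real.cosh_pos x)]
  congr 1
  ring

theorem abs_h1_le (hs : 0 < s) (x : ℝ) : |h1 s x| ≤ s * h0 s x := by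
  have hp : 0 < Real.cosh x ^ (-s - 1) := Real.rpow_pos_of_pos (Real.cosh_pos x) _
  have hs' : |Real.sinh x| ≤ Real.cosh x := by
    rw [abs_le]
    have := Real.cosh_sq x
    have := Real.cosh_pos x
    constructor <;> nlinarith
  rw [h1, h0, rpow_e3, abs_mul, abs_mul, abs_of_pos hp, abs_neg, abs_of_pos hs]
  exact mul_le_mul_of_nonneg_left (mul_le_mul_of_nonneg_left hs' hp.le) hs.le

theorem abs_h2_le (hs : 0 < s) (x : ℝ) : |h2 s x| ≤ (s ^ 2 + s * (s + 1)) * h0 s x := by
  have hc := Real.cosh_pos x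
  have hp : 0 < Real.cosh x ^ (-s - 2) := Real.rpow_pos_of_pos hc _
  have hq : 0 < Real.cosh x ^ (-s) := Real.rpow_pos_of_pos hc _
  have hle : Real.cosh x ^ (-s - 2) ≤ Real.cosh x ^ (-s) :=
    Real.rpow_le_rpow_of_exponent_le (Real.one_le_cosh x) (by linarith)
  have h3 : s * (s + 1) * Real.cosh x ^ (-s - 2) ≤ s * (s + 1) * Real.cosh x ^ (-s) :=
    mul_le_mul_of_nonneg_left hle (by positivity)
  have h4 : 0 ≤ s ^ 2 * Real.cosh x ^ (-s) := by positivity
  have h5 : 0 ≤ s * (s + 1) * Real.cosh x ^ (-s - 2) := by positivity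
  rw [h2, h0, abs_le]
  constructor <;> nlinarith

theorem memLp_of_le {g : ℝ → ℝ} (hs : 0 < s) (C : ℝ) (hg : Continuous g)
    (hle : ∀ x, |g x| ≤ C * h0 s x) : MemLp (fun x => ((g x : ℝ) : ℂ)) 2 volume := by
  have hh : MemLp (h0 s) 2 volume := by
    rw [memLp_two_iff_integrable_sq (h0_cont s).aestronglyMeasurable]
    refine (integrable_cosh_rpow (p := 2 * s) (by linarith)).congr (Eventually.of_forall fun x => ?_)
    change Real.cosh x ^ (-(2 * s)) = h0 s x ^ 2
    rw [sq, h0_sq]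
  refine (hh.const_mul C).mono (Complex.continuous_ofReal.comp hg).aestronglyMeasurable
    (Eventually.of_forall fun x => ?_)
  rw [Complex.norm_real, Real.norm_eq_abs]
  exact (hle x).trans (le_abs_self _)

/-! ### The potential -/

/-- the potential -/
noncomputable def Vp (x : ℝ) : ℝ := -(s * (s + 1)) * Real.cosh x ^ (-(2 : ℝ))

theorem Vp_cont : Continuous (Vp s) := continuous_const.mul (cosh_rpow_cont _)

theorem Vp_nonpos (hs : 0 < s) (x : ℝ) : 0 ≤ -Vp s x := by
  rw [Vp, neg_mul, neg_neg]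
  have := Real.rpow_pos_of_pos (Real.cosh_pos x) (-(2 : ℝ))
  positivity

theorem Vp_neg (hs : 0 < s) (x : ℝ) : max (-Vp s x) 0 ^ (s + 1) =
    (s * (s + 1)) ^ (s + 1) * Real.cosh x ^ (-(2 * s + 2)) := by
  have hc := Real.cosh_pos x
  rw [max_eq_left (Vp_nonpos s hs x), Vp, neg_mul, neg_neg, Real.mul_rpow (by positivity)
    (Real.rpow_pos_of_pos hc _).le, ← Real.rpow_mul hc.le]
  congr 2
  ring

theorem Vp_memLp (hs : 0 < s) : MemLp (Vp s) (ENNReal.ofReal (s + 1)) volume := by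
  refine (integrable_norm_rpow_iff (Vp_cont s).aestronglyMeasurable
    (by simp; linarith) (by simp)).1 ?_
  rw [ENNReal.toReal_ofReal (by linarith)]
  refine (((integrable_cosh_rpow (p := 2 * s + 2) (by linarith)).const_mul
    ((s * (s + 1)) ^ (s + 1))).congr (Eventually.of_forall fun x => ?_))
  change (s * (s + 1)) ^ (s + 1) * Real.cosh x ^ (-(2 * s + 2)) = ‖Vp s x‖ ^ (s + 1)
  rw [← Vp_neg s hs, max_eq_left (Vp_nonpos s hs x), ← norm_neg, Real.norm_eq_abs,
    abs_of_nonneg (Vp_nonpos s hs x)]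

theorem integral_Vp (hs : 0 < s) :
    ∫ x, max (-Vp s x) 0 ^ (s + 1) = (s * (s + 1)) ^ (s + 1) * cS s := by
  simp_rw [Vp_neg s hs]
  rw [integral_const_mul, integral_cosh_rpow hs]

/-! ### Normalisation -/

theorem norm_pos : 0 < ∫ x : ℝ, Real.cosh x ^ (-(2 * s)) ∨ ¬ 0 < s := by
  by_cases hs : 0 < s
  · left
    refine (integral_pos_iff_support_of_nonneg (fun x => (Real.rpow_pos_of_pos
      (Real.cosh_pos x) _).le) (integrable_cosh_rpow (by linarith))).2 ?_
    have : Function.support (fun x : ℝ => Real.cosh x ^ (-(2 * s))) = univ := by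
      ext x
      simp [(Real.rpow_pos_of_pos (Real.cosh_pos x) _).ne']
    rw [this]
    simp
  · exact Or.inr hs

/-- the normalising constant -/
noncomputable def cc : ℝ := (√(∫ x : ℝ, Real.cosh x ^ (-(2 * s))))⁻¹

theorem cc_sq : cc s * cc s = (∫ x : ℝ, Real.cosh x ^ (-(2 * s)))⁻¹ := by
  rw [cc, ← mul_inv, Real.mul_self_sqrt]
  exact integral_nonneg fun x => (Real.rpow_pos_of_pos (Real.cosh_pos x) _).le

/-- the eigenfunction -/
noncomputable def psi (x : ℝ) : ℂ := ((cc s * h0 s x : ℝ) : ℂ)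

/-- its derivative -/
noncomputable def psi1 (x : ℝ) : ℂ := ((cc s * h1 s x : ℝ) : ℂ)

/-- its second derivative -/
noncomputable def psi2 (x : ℝ) : ℂ := ((cc s * h2 s x : ℝ) : ℂ)

theorem hasDerivAt_psi (x : ℝ) : HasDerivAt (psi s) (psi1 s x) x :=
  ((hasDerivAt_h0 s x).const_mul (cc s)).ofReal_comp

theorem hasDerivAt_psi1 (x : ℝ) : HasDerivAt (psi1 s) (psi2 s x) x :=
  ((hasDerivAt_h1 s x).const_mul (cc s)).ofReal_comp

theorem memLp_cc {g : ℝ → ℝ} (hs : 0 < s) (C : ℝ) (hg : Continuous g)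
    (hle : ∀ x, |g x| ≤ C * h0 s x) : MemLp (fun x => ((cc s * g x : ℝ) : ℂ)) 2 volume := by
  have := (memLp_of_le s hs C hg hle).const_mul (cc s : ℂ)
  simpa using this

theorem psi_mem (hs : 0 < s) : MemLp (psi s) 2 volume :=
  memLp_cc s hs 1 (h0_cont s) fun x => by rw [abs_of_pos (h0_pos s x), one_mul]

theorem psi1_mem (hs : 0 < s) : MemLp (psi1 s) 2 volume :=
  memLp_cc s hs s (h1_cont s) (abs_h1_le s hs)

theorem psi2_mem (hs : 0 < s) : MemLp (psi2 s) 2 volume :=
  memLp_cc s hs _ (h2_cont s) (abs_h2_le s hs)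

theorem psi1_cont : Continuous (psi1 s) :=
  Complex.continuous_ofReal.comp (continuous_const.mul (h1_cont s))

theorem psi2_cont : Continuous (psi2 s) :=
  Complex.continuous_ofReal.comp (continuous_const.mul (h2_cont s))

theorem acv_psi : ACv (psi s) (psi1 s) := acv_of_hasDerivAt (hasDerivAt_psi s) (psi1_cont s)

theorem acv_psi1 : ACv (psi1 s) (psi2 s) := acv_of_hasDerivAt (hasDerivAt_psi1 s) (psi2_cont s)

theorem isH1v_psi (hs : 0 < s) : IsH1v (psi s) (psi1 s) :=
  ⟨psi_mem s hs, psi1_mem s hs, (acv_psi s).2⟩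

/-- the eigenvalue equation `-ψ'' + V ψ = -s² ψ`. -/
theorem psi_eq (x : ℝ) : psi2 s x = (Vp s x : ℂ) * psi s x + (s : ℂ) ^ 2 * psi s x := by
  have hc := Real.cosh_pos x
  have e1 : Real.cosh x ^ (-s - 2) = Real.cosh x ^ (-(2 : ℝ)) * Real.cosh x ^ (-s) := by
    rw [← Real.rpow_add hc]
    congr 1
    ring
  have : cc s * h2 s x = Vp s x * (cc s * h0 s x) + s ^ 2 * (cc s * h0 s x) := by
    rw [h2, h0, Vp, e1]; ring
  rw [psi2, psi, this]
  push_cast
  ring

theorem isEigenfunction_psi (hs : 0 < s) : IsEigenfunction (Vp s) (psi s) (-s ^ 2) := by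
  refine ⟨psi1 s, isH1v_psi s hs, fun φ φ' hφ => ?_⟩
  have hc := conj_isH1v hφ
  have key := ibp hc (acv_psi1 s) (psi1_mem s hs) (psi2_mem s hs)
  have i1 : Integrable (fun x => conj (φ x) * psi s x) volume := hc.1.integrable_mul (psi_mem s hs)
  have i2 : Integrable (fun x => conj (φ x) * psi2 s x) volume :=
    hc.1.integrable_mul (psi2_mem s hs)
  have e : ∀ x, (Vp s x : ℂ) * (conj (φ x) * psi s x) =
      conj (φ x) * psi2 s x - (s : ℂ) ^ 2 * (conj (φ x) * psi s x) := by
    intro x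
    rw [psi_eq s x]
    ring
  simp_rw [e]
  rw [integral_sub i2 (i1.const_mul _), integral_const_mul]
  push_cast
  linear_combination key

theorem psi_norm (hs : 0 < s) : ∫ x, conj (psi s x) * psi s x = 1 := by
  have hpos := (norm_pos s).resolve_right (not_not.2 hs)
  have e : ∀ x, conj (psi s x) * psi s x =
      ((((∫ x : ℝ, Real.cosh x ^ (-(2 * s)))⁻¹ * Real.cosh x ^ (-(2 * s))) : ℝ) : ℂ) := by
    intro x
    rw [psi, Complex.conj_ofReal, ← Complex.ofReal_mul, ← h0_sq, ← cc_sq]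
    congr 1
    ring
  simp_rw [e]
  rw [integral_complex_ofReal, integral_const_mul, inv_mul_cancel₀ hpos.ne', Complex.ofReal_one]

end Pool.Agent.LTS.Low

namespace Pool.Agent.LTS

open MeasureTheory Low in
/-- (LOW) -/
theorem low (hconst : ConstSStmt) : LowStmt := by
  intro γ L h1 h2 hL
  obtain ⟨s, rfl⟩ : ∃ s, γ = s + 1 / 2 := ⟨γ - 1 / 2, by ring⟩
  have hs : 0 < s := by linarith
  have e0 : s + 1 / 2 + 1 / 2 = s + 1 := by ring
  have e1 : s + 1 / 2 - 1 / 2 = s := by ring
  obtain ⟨hc, -, hk⟩ := hconst _ h1 h2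
  have key := hL (Vp s) (by rw [e0]; exact Vp_memLp s hs) 1 (fun _ => psi s) (fun _ => -s ^ 2)
    (fun _ => isEigenfunction_psi s hs) (fun _ => by nlinarith) (fun i j => by
      rw [Subsingleton.elim i j, if_pos rfl]
      exact psi_norm s hs)
  rw [e0, integral_Vp s hs] at key
  simp only [Finset.univ_unique, Finset.sum_const, Finset.card_singleton, one_smul] at key
  rw [e1] at hc
  rw [← hk, e1]
  have e2 : |-s ^ 2| ^ (s + 1 / 2) = s ^ (2 * s + 1) := by
    rw [abs_neg, abs_of_nonneg (by positivity), ← Real.rpow_natCast, ← Real.rpow_mul hs.le]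
    congr 1
    push_cast
    ring
  rw [e2] at key
  have hpos : 0 < (s * (s + 1)) ^ (s + 1) * cS s := by positivity
  have h3 : s ^ (2 * s + 1) / ((s * (s + 1)) ^ (s + 1) * cS s) ≤ L := by
    rw [div_le_iff₀ hpos]
    exact key
  refine le_trans (le_of_eq ?_) h3
  rw [div_div, div_eq_div_iff (by positivity) (by positivity), Real.div_rpow hs.le (by linarith),
    Real.mul_rpow hs.le (by linarith), show 1 + s = s + 1 by ring]
  have e3 : s ^ (2 * s + 1) * s = s ^ (s + 1) * s ^ (s + 1) := by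
    rw [← Real.rpow_add_one hs.ne', ← Real.rpow_add hs]
    congr 1
    ring
  have h4 : 0 < (s + 1) ^ (s + 1) := by positivity
  field_simp
  rw [show s * 2 + 1 = 2 * s + 1 by ring]
  linear_combination -e3
end Pool.Agent.LTS
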