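import Pool.Agent.LTS.Defs

/-!
Module LTS_MU (MP_4c716f_mp): the `μ`-integrated pointwise inequality
-/

set_option autoImplicit false

namespace Pool.Agent.LTS

open MeasureTheory Matrix Finset
open scoped ComplexConjugate ComplexOrder

namespace MU

/-- spectral square root of `lam V + m` -/
lemma exists_S {N : ℕ} (V : Mat N) (hV : V.IsHermitian) (hp : V.PosSemidef) (lam m : ℝ)
    (hl : 0 ≤ lam) (hm : 0 < m) :
    ∃ S : Mat N, S.IsHermitian ∧ S * S = (lam : ℂ) • V + (m : ℂ) • (1 : Mat N) ∧
      (Matrix.trace S).re = ∑ i, √(lam * hV.eigenvalues i + m) := by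
  set U : Mat N := (hV.eigenvectorUnitary : Mat N) with hU
  have hUU : U * Uᴴ = 1 := Unitary.coe_mul_star_self hV.eigenvectorUnitary
  have hUU' : Uᴴ * U = 1 := Unitary.coe_star_mul_self hV.eigenvectorUnitary
  have hspec : V = U * Matrix.diagonal (fun i => ((hV.eigenvalues i : ℝ) : ℂ)) * Uᴴ := by
    conv_lhs => rw [hV.spectral_theorem, Unitary.conjStarAlgAut_apply]
    rfl
  set D : Mat N := Matrix.diagonal (fun i => ((√(lam * hV.eigenvalues i + m) : ℝ) : ℂ)) with hD
  have hDH : Dᴴ = D := by
    rw [hD, Matrix.diagonal_conjTranspose]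
    congr 1
    funext i
    simp
  have hDD : D * D = (lam : ℂ) • Matrix.diagonal (fun i => ((hV.eigenvalues i : ℝ) : ℂ)) +
      (m : ℂ) • (1 : Mat N) := by
    rw [hD, Matrix.diagonal_mul_diagonal, ← Matrix.diagonal_one, ← Matrix.diagonal_smul,
      ← Matrix.diagonal_smul, Matrix.diagonal_add]
    congr 1
    funext i
    have h0 : 0 ≤ lam * hV.eigenvalues i + m := by
      have := hp.eigenvalues_nonneg i
      positivity
    simp only [Pi.smul_apply, smul_eq_mul, mul_one]
    rw [← Complex.ofReal_mul, Real.mul_self_sqrt h0]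
    push_cast
    ring
  refine ⟨U * D * Uᴴ, ?_, ?_, ?_⟩
  · show (U * D * Uᴴ)ᴴ = U * D * Uᴴ
    rw [Matrix.conjTranspose_mul, Matrix.conjTranspose_mul, Matrix.conjTranspose_conjTranspose, hDH,
      Matrix.mul_assoc]
  · have e1 : U * D * Uᴴ * (U * D * Uᴴ) = U * (D * D) * Uᴴ := by
      calc U * D * Uᴴ * (U * D * Uᴴ) = U * D * (Uᴴ * U) * D * Uᴴ := by
            simp only [Matrix.mul_assoc]
        _ = U * (D * D) * Uᴴ := by rw [hUU', Matrix.mul_one]; simp only [Matrix.mul_assoc]
    rw [e1, hDD, Matrix.mul_add, Matrix.add_mul, Matrix.mul_smul, Matrix.smul_mul, ← hspec,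
      Matrix.mul_smul, Matrix.smul_mul, Matrix.mul_one, hUU]
  · rw [Matrix.trace_mul_comm, ← Matrix.mul_assoc, hUU', Matrix.one_mul, hD, Matrix.trace_diagonal,
      Complex.re_sum]
    apply Finset.sum_congr rfl
    intro i _
    exact Complex.ofReal_re _

lemma contOn_tr {N : ℕ} {f : ℝ → Mat N} {S : Set ℝ} (h : ContinuousOn f S) (B : Mat N) :
    ContinuousOn (fun x => (Matrix.trace (f x * B)).re) S := by
  apply Complex.continuous_re.comp_continuousOn
  simp only [Matrix.trace, Matrix.diag_apply, Matrix.mul_apply]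
  apply continuousOn_finsetSum
  intro i _
  apply continuousOn_finsetSum
  intro j _
  have h1 : ContinuousOn (fun x => f x i) S := continuousOn_pi.mp h i
  have h2 : ContinuousOn (fun x => f x i j) S := continuousOn_pi.mp h1 j
  exact h2.mul continuousOn_const

end MU

open MU

theorem muInt (_hs : StabStmt) (hc : RegCStmt) (hd : RegDStmt) (ha : AlgStmt) : MuStmt := by
  intro N s m₀ M E F V hV W G hs0 hs1 hm0 hM hE hF hVp hDom hW hG
  have hMpos : 0 < M := lt_of_lt_of_le hm0 hM
  set lam : ℝ := s / (1 + s) with hlam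
  have hlam0 : 0 < lam := by positivity
  set w : ℝ → ℝ := fun m => (Matrix.trace (W m)).re with hw
  set g : ℝ → ℝ := fun m => (Matrix.trace (G m)).re with hg
  -- continuity
  have hcont := hc N {p : ℝ × ℝ | 0 < p.1} (fun p => E + (p.1 : ℂ) • (1 : Mat N)) (fun _ => F)
    (fun p => W p.1) (fun p => G p.1)
    (by
      apply Continuous.continuousOn
      exact continuous_const.add ((Complex.continuous_ofReal.comp continuous_fst).smul continuous_const))
    continuousOn_const (fun p hp => hDom p.1 hp) (fun p hp => hW p.1 hp) (fun p hp => hG p.1 hp)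
  have hWc : ContinuousOn W (Set.Ioi 0) := by
    have h1 : ContinuousOn (fun m : ℝ => ((m, 0) : ℝ × ℝ)) (Set.Ioi 0) := by fun_prop
    exact hcont.1.comp h1 (fun m hm => hm)
  have hGc : ContinuousOn G (Set.Ioi 0) := by
    have h1 : ContinuousOn (fun m : ℝ => ((m, 0) : ℝ × ℝ)) (Set.Ioi 0) := by fun_prop
    exact hcont.2.comp h1 (fun m hm => hm)
  have hsub : Set.uIcc m₀ M ⊆ Set.Ioi 0 := by
    rw [Set.uIcc_of_le hM]
    intro x hx
    exact lt_of_lt_of_le hm0 hx.1
  -- the Hermitian matrix `E + m`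
  have hEm : ∀ m : ℝ, (E + (m : ℂ) • (1 : Mat N)).IsHermitian := by
    intro m
    apply hE.add
    show ((m : ℂ) • (1 : Mat N))ᴴ = (m : ℂ) • (1 : Mat N)
    rw [Matrix.conjTranspose_smul, Matrix.conjTranspose_one]
    simp
  have halg := fun (m : ℝ) (hm : 0 < m) =>
    ha N (E + (m : ℂ) • (1 : Mat N)) F (W m) (G m) (hEm m) hF (hW m hm) (hG m hm)
  -- traces
  have htr1 : ∀ m : ℝ, (Matrix.trace (G m * (E + (m : ℂ) • (1 : Mat N) - F * F))).re =
      (Matrix.trace (G m * (E - F * F))).re + m * g m := by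
    intro m
    have e : G m * (E + (m : ℂ) • (1 : Mat N) - F * F) = G m * (E - F * F) + (m : ℂ) • G m := by
      rw [add_sub_right_comm, Matrix.mul_add, Matrix.mul_smul, Matrix.mul_one]
    rw [e, Matrix.trace_add, Matrix.trace_smul, Complex.add_re, smul_eq_mul, Complex.re_ofReal_mul]
  have htr2 : ∀ m : ℝ, (Matrix.trace (E + (m : ℂ) • (1 : Mat N) - F * F)).re =
      (Matrix.trace (E - F * F)).re + N * m := by
    intro m
    rw [add_sub_right_comm, Matrix.trace_add, Matrix.trace_smul, Complex.add_re, smul_eq_mul,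
      Complex.re_ofReal_mul, Matrix.trace_one, Fintype.card_fin, Complex.natCast_re]
    ring
  -- derivative of `w`
  have hder : ∀ m : ℝ, 0 < m → HasDerivAt w (g m / 2) m := by
    intro m hm
    obtain ⟨W', h1, h2, h3⟩ := hd N (Set.Ioi 0) (fun y => E + (y : ℂ) • (1 : Mat N)) (fun _ => F) W m
      1 0 isOpen_Ioi hm (fun y hy => hDom y hy) (fun y hy => hW y hy)
      (by
        intro i j
        have h := ((Complex.ofRealCLM.hasDerivAt (x := m)).mul_const ((1 : Mat N) i j)).const_add
          (E i j)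
        simp only [Complex.ofRealCLM_apply, Complex.ofReal_one, one_mul] at h
        exact h)
      (by
        intro i j
        exact hasDerivAt_const m (F i j))
    rw [smul_zero] at h3
    have h4 := (halg m hm).2.2.2.2.1 W' h2 h3
    have h5 : HasDerivAt (fun y => ∑ i, W y i i) (∑ i, W' i i) m := by
      have := HasDerivAt.fun_sum (u := Finset.univ) (fun i (_ : i ∈ Finset.univ) => h1 i i)
      exact this
    have h6 : HasDerivAt (fun y => (∑ i, W y i i).re) (∑ i, W' i i).re m := by
      have := Complex.reCLM.hasFDerivAt.comp_hasDerivAt m h5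
      exact this
    have h7 : (∑ i, W' i i).re = g m / 2 := h4
    rw [h7] at h6
    exact h6
  -- pointwise inequality
  have hpt : ∀ m : ℝ, 0 < m → s * (Matrix.trace (G m * (E - F * F - V))).re ≤
      (1 + 2 * s) * w m + m * g m - 2 * (1 + s) * ∑ i, √(lam * hV.eigenvalues i + m) := by
    intro m hm
    obtain ⟨S, hS1, hS2, hS3⟩ := exists_S V hV hVp lam m hlam0.le hm
    have a1 := (halg m hm).1
    rw [htr1 m] at a1
    have a4 := (halg m hm).2.2.2.1 S hS1
    rw [hS2, hS3] at a4
    have e4 : (Matrix.trace (G m * ((lam : ℂ) • V + (m : ℂ) • (1 : Mat N)))).re =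
        lam * (Matrix.trace (G m * V)).re + m * g m := by
      rw [Matrix.mul_add, Matrix.mul_smul, Matrix.mul_smul, Matrix.mul_one, Matrix.trace_add,
        Matrix.trace_smul, Matrix.trace_smul, Complex.add_re, smul_eq_mul, smul_eq_mul,
        Complex.re_ofReal_mul, Complex.re_ofReal_mul]
    rw [e4] at a4
    have e5 : (Matrix.trace (G m * (E - F * F - V))).re =
        (Matrix.trace (G m * (E - F * F))).re - (Matrix.trace (G m * V)).re := by
      rw [Matrix.mul_sub, Matrix.trace_sub, Complex.sub_re]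
    rw [e5]
    set X := (Matrix.trace (G m * (E - F * F))).re with hX
    set Y := (Matrix.trace (G m * V)).re with hY
    set T := ∑ i, √(lam * hV.eigenvalues i + m) with hT
    have a1' : X ≤ w m - m * g m := by
      have : X + m * g m ≤ w m := a1
      linarith
    have a4' : 2 * T - w m - m * g m ≤ lam * Y := by
      have : 2 * T ≤ w m + (lam * Y + m * g m) := a4
      linarith
    have h1 : s * X ≤ s * (w m - m * g m) := mul_le_mul_of_nonneg_left a1' hs0.le
    have h2 : (1 + s) * (2 * T - w m - m * g m) ≤ s * Y := by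
      have h3 := mul_le_mul_of_nonneg_left a4' (by positivity : (0 : ℝ) ≤ 1 + s)
      have h4 : (1 + s) * (lam * Y) = s * Y := by
        rw [hlam]; field_simp
      rw [h4] at h3
      exact h3
    nlinarith [h1, h2]
  -- the primitive
  set H : ℝ → ℝ := fun m => 2 * m ^ (s + 1 / 2) * w m with hH
  have hHder : ∀ m : ℝ, 0 < m → HasDerivAt H (m ^ (s - 1 / 2) * ((1 + 2 * s) * w m + m * g m)) m := by
    intro m hm
    have h1 : HasDerivAt (fun y : ℝ => 2 * y ^ (s + 1 / 2)) (2 * ((s + 1 / 2) * m ^ (s + 1 / 2 - 1))) m :=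
      (Real.hasDerivAt_rpow_const (Or.inl hm.ne')).const_mul 2
    have h2 := h1.mul (hder m hm)
    have e1 : s + 1 / 2 - 1 = s - 1 / 2 := by ring
    have e2 : m ^ (s + 1 / 2) = m ^ (s - 1 / 2) * m := by
      rw [← Real.rpow_add_one hm.ne']
      congr 1
      ring
    refine h2.congr_deriv ?_
    rw [e1, e2]
    ring
  have hpow : ContinuousOn (fun m : ℝ => m ^ (s - 1 / 2)) (Set.Ioi 0) := by
    apply ContinuousOn.rpow_const continuousOn_id
    intro x hx
    exact Or.inl (ne_of_gt hx)
  have hwc : ContinuousOn w (Set.Ioi 0) := by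
    have := contOn_tr hWc 1
    simpa only [Matrix.mul_one] using this
  have hgc : ContinuousOn g (Set.Ioi 0) := by
    have := contOn_tr hGc 1
    simpa only [Matrix.mul_one] using this
  have hh : ContinuousOn (fun m : ℝ => m ^ (s - 1 / 2) * ((1 + 2 * s) * w m + m * g m)) (Set.Ioi 0) :=
    hpow.mul ((continuousOn_const.mul hwc).add (continuousOn_id.mul hgc))
  have hh_int : IntervalIntegrable (fun m : ℝ => m ^ (s - 1 / 2) * ((1 + 2 * s) * w m + m * g m))
      volume m₀ M := (hh.mono hsub).intervalIntegrable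
  have hFTC : ∫ m in m₀..M, m ^ (s - 1 / 2) * ((1 + 2 * s) * w m + m * g m) = H M - H m₀ := by
    apply intervalIntegral.integral_eq_sub_of_hasDerivAt
    · intro x hx
      exact hHder x (hsub hx)
    · exact hh_int
  -- the square roots
  have hsq : ∀ i, ContinuousOn (fun m : ℝ => m ^ (s - 1 / 2) * √(lam * hV.eigenvalues i + m))
      (Set.Ioi 0) := by
    intro i
    apply hpow.mul
    apply Continuous.continuousOn
    fun_prop
  have hsq_int : ∀ i, IntervalIntegrable
      (fun m : ℝ => m ^ (s - 1 / 2) * √(lam * hV.eigenvalues i + m)) volume m₀ M :=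
    fun i => ((hsq i).mono hsub).intervalIntegrable
  have hsum : ∫ m in m₀..M, ∑ i, m ^ (s - 1 / 2) * √(lam * hV.eigenvalues i + m) =
      ∑ i, ∫ m in m₀..M, m ^ (s - 1 / 2) * √(lam * hV.eigenvalues i + m) :=
    intervalIntegral.integral_finsetSum (fun i _ => hsq_int i)
  have hsum_int : IntervalIntegrable
      (fun m : ℝ => ∑ i, m ^ (s - 1 / 2) * √(lam * hV.eigenvalues i + m)) volume m₀ M := by
    have : ContinuousOn (fun m : ℝ => ∑ i, m ^ (s - 1 / 2) * √(lam * hV.eigenvalues i + m))
        (Set.Ioi 0) := continuousOn_finsetSum _ (fun i _ => hsq i)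
    exact (this.mono hsub).intervalIntegrable
  -- integrate
  have hf_int : IntervalIntegrable
      (fun m : ℝ => m ^ (s - 1 / 2) * (Matrix.trace (G m * (E - F * F - V))).re) volume m₀ M :=
    ((hpow.mul (contOn_tr hGc _)).mono hsub).intervalIntegrable
  have hmono : ∫ m in m₀..M, s * (m ^ (s - 1 / 2) * (Matrix.trace (G m * (E - F * F - V))).re) ≤
      ∫ m in m₀..M, (m ^ (s - 1 / 2) * ((1 + 2 * s) * w m + m * g m) -
        2 * (1 + s) * ∑ i, m ^ (s - 1 / 2) * √(lam * hV.eigenvalues i + m)) := by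
    apply intervalIntegral.integral_mono_on hM
    · exact hf_int.const_mul s
    · exact hh_int.sub (hsum_int.const_mul _)
    · intro m hm
      have hmp : 0 < m := lt_of_lt_of_le hm0 hm.1
      have h1 := mul_le_mul_of_nonneg_left (hpt m hmp) (Real.rpow_nonneg hmp.le (s - 1 / 2))
      have e1 : m ^ (s - 1 / 2) * (s * (Matrix.trace (G m * (E - F * F - V))).re) =
          s * (m ^ (s - 1 / 2) * (Matrix.trace (G m * (E - F * F - V))).re) := by ring
      have e2 : m ^ (s - 1 / 2) * ((1 + 2 * s) * w m + m * g m -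
          2 * (1 + s) * ∑ i, √(lam * hV.eigenvalues i + m)) =
          m ^ (s - 1 / 2) * ((1 + 2 * s) * w m + m * g m) -
        2 * (1 + s) * ∑ i, m ^ (s - 1 / 2) * √(lam * hV.eigenvalues i + m) := by
        rw [← Finset.mul_sum]; ring
      rw [e1, e2] at h1
      exact h1
  rw [intervalIntegral.integral_const_mul, intervalIntegral.integral_sub hh_int (hsum_int.const_mul _),
    intervalIntegral.integral_const_mul, hsum, hFTC] at hmono
  -- boundary terms
  have hH0 : 0 ≤ H m₀ := by
    have := (halg m₀ hm0).2.1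
    rw [hH]
    have h2 : 0 ≤ w m₀ := this
    have h3 : 0 ≤ m₀ ^ (s + 1 / 2) := Real.rpow_nonneg hm0.le _
    positivity
  have hHM : H M ≤ M ^ s * (Matrix.trace (E - F * F)).re + 2 * N * M ^ (s + 1) := by
    have h1 := (halg M hMpos).2.2.1 M hMpos
    rw [htr2 M] at h1
    have h2 : w M ≤ ((Matrix.trace (E - F * F)).re + N * M + N * M) / (2 * √M) := h1
    have hsM : 0 < √M := Real.sqrt_pos.mpr hMpos
    have h3 : 2 * √M * w M ≤ (Matrix.trace (E - F * F)).re + N * M + N * M := by
      rw [le_div_iff₀ (by positivity)] at h2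
      linarith
    have e1 : M ^ (s + 1 / 2) = M ^ s * √M := by
      rw [Real.rpow_add hMpos, ← Real.sqrt_eq_rpow]
    have e2 : M ^ (s + 1) = M ^ s * M := Real.rpow_add_one hMpos.ne' s
    have h4 := mul_le_mul_of_nonneg_left h3 (Real.rpow_nonneg hMpos.le s)
    rw [hH]
    beta_reduce
    rw [e1, e2]
    calc 2 * (M ^ s * √M) * w M = M ^ s * (2 * √M * w M) := by ring
      _ ≤ M ^ s * ((Matrix.trace (E - F * F)).re + N * M + N * M) := h4
      _ = M ^ s * (Matrix.trace (E - F * F)).re + 2 * N * (M ^ s * M) := by ring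
  linarith [hmono, hH0, hHM]

end Pool.Agent.LTS
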