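import Pool.Agent.LTS.Defs

set_option autoImplicit false

namespace Pool.Agent.LTS

open Matrix Filter Topology
open scoped ComplexConjugate ComplexOrder

/-- the entries of `W` are bounded by the trace of `A = W* W` -/
lemma entry_le_trace {N : ℕ} {A F W : Mat N} (h : IsW A F W) (i j : Fin N) :
    ‖W i j‖ ^ 2 ≤ (Matrix.trace A).re := by
  have hA : A = Wᴴ * W := h.1.symm
  have h1 : Matrix.trace A = ((∑ k, ∑ l, ‖W l k‖ ^ 2 : ℝ) : ℂ) := by
    rw [hA, Matrix.trace]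
    push_cast
    apply Finset.sum_congr rfl
    intro k _
    rw [Matrix.diag_apply, Matrix.mul_apply]
    apply Finset.sum_congr rfl
    intro l _
    rw [Matrix.conjTranspose_apply]
    have := Complex.conj_mul' (W l k)
    simpa using this
  rw [h1, Complex.ofReal_re]
  calc ‖W i j‖ ^ 2 ≤ ∑ l, ‖W l j‖ ^ 2 :=
        Finset.single_le_sum (f := fun l => ‖W l j‖ ^ 2) (fun l _ => by positivity) (Finset.mem_univ i)
    _ ≤ ∑ k, ∑ l, ‖W l k‖ ^ 2 :=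
        Finset.single_le_sum (f := fun k => ∑ l, ‖W l k‖ ^ 2)
          (fun k _ => Finset.sum_nonneg (fun l _ => by positivity)) (Finset.mem_univ j)

lemma entry_le_trace' {N : ℕ} {A F W : Mat N} (h : IsW A F W) (i j : Fin N) :
    ‖W i j‖ ≤ 1 + |(Matrix.trace A).re| := by
  have h1 := entry_le_trace h i j
  have h2 := le_abs_self (Matrix.trace A).re
  have h3 : 0 ≤ ‖W i j‖ := norm_nonneg _
  nlinarith

/-- bounded sequences of arrays have convergent subsequences -/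
lemma compact_seq {N : ℕ} (f : ℕ → (Fin N → Fin N → ℂ)) (R : ℝ) (hR : 0 ≤ R)
    (h : ∀ n i j, ‖f n i j‖ ≤ R) :
    ∃ (g : Fin N → Fin N → ℂ) (φ : ℕ → ℕ), StrictMono φ ∧
      Tendsto (fun n => f (φ n)) atTop (𝓝 g) := by
  have hmem : ∀ n, f n ∈ Metric.closedBall (0 : Fin N → Fin N → ℂ) R := by
    intro n
    rw [mem_closedBall_zero_iff, pi_norm_le_iff_of_nonneg hR]
    intro i
    rw [pi_norm_le_iff_of_nonneg hR]
    exact h n i
  obtain ⟨g, _, φ, hφ, hlim⟩ :=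
    (isCompact_closedBall (0 : Fin N → Fin N → ℂ) R).tendsto_subseq hmem
  exact ⟨g, φ, hφ, hlim⟩

/-- the same for matrices -/
lemma compact_seq_mat {N : ℕ} (f : ℕ → Mat N) (R : ℝ) (hR : 0 ≤ R)
    (h : ∀ n i j, ‖f n i j‖ ≤ R) :
    ∃ (g : Mat N) (φ : ℕ → ℕ), StrictMono φ ∧ Tendsto (fun n => f (φ n)) atTop (𝓝 g) :=
  compact_seq f R hR h

/-- sequential form -/
lemma seq_W (hs : StabStmt) (hc : ClosStmt) {N : ℕ} (A F W : ℕ → Mat N) (A₀ F₀ W₀ : Mat N)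
    (hA : Tendsto A atTop (𝓝 A₀)) (hF : Tendsto F atTop (𝓝 F₀)) (hD : Dom A₀ F₀)
    (hW : ∀ n, IsW (A n) (F n) (W n)) (hW₀ : IsW A₀ F₀ W₀) : Tendsto W atTop (𝓝 W₀) := by
  apply tendsto_of_subseq_tendsto
  intro ns hns
  have hAn : Tendsto (fun n => A (ns n)) atTop (𝓝 A₀) := hA.comp hns
  have hFn : Tendsto (fun n => F (ns n)) atTop (𝓝 F₀) := hF.comp hns
  -- boundedness
  have htr : Tendsto (fun n => 1 + |(Matrix.trace (A (ns n))).re|) atTop
      (𝓝 (1 + |(Matrix.trace A₀).re|)) := by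
    have hcont : Continuous (fun B : Mat N => 1 + |(Matrix.trace B).re|) := by
      have h1 : Continuous (fun B : Mat N => Matrix.trace B) := continuous_id.matrix_trace
      exact continuous_const.add (Complex.continuous_re.comp h1).abs
    exact (hcont.tendsto A₀).comp hAn
  obtain ⟨R, hR⟩ := (Metric.isBounded_range_of_tendsto _ htr).exists_norm_le
  have hb : ∀ n i j, ‖W (ns n) i j‖ ≤ max R 0 := by
    intro n i j
    refine (entry_le_trace' (hW (ns n)) i j).trans ?_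
    have := hR _ (Set.mem_range_self n)
    rw [Real.norm_eq_abs] at this
    exact (le_abs_self _).trans (this.trans (le_max_left _ _))
  obtain ⟨W₁, φ, hφ, hlim⟩ := compact_seq_mat (fun n => W (ns n)) (max R 0) (le_max_right _ _) hb
  refine ⟨φ, ?_⟩
  have h1 : IsW A₀ F₀ W₁ := hc N (fun n => A (ns (φ n))) (fun n => F (ns (φ n))) A₀ F₀ W₁
    (fun n => W (ns (φ n))) (fun n => hW _) hD (hAn.comp hφ.tendsto_atTop) (hFn.comp hφ.tendsto_atTop) hlim
  have h2 : W₁ = W₀ := (hs N).2.2.2.2.2 A₀ F₀ W₁ W₀ h1 hW₀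
  rw [← h2]
  exact hlim

/-- sum of the absolute values of the entries -/
noncomputable def asum {N : ℕ} (G : Mat N) : ℝ := ∑ i, ∑ j, ‖G i j‖

lemma asum_nonneg {N : ℕ} (G : Mat N) : 0 ≤ asum G :=
  Finset.sum_nonneg (fun _ _ => Finset.sum_nonneg (fun _ _ => norm_nonneg _))

lemma entry_le_asum {N : ℕ} (G : Mat N) (i j : Fin N) : ‖G i j‖ ≤ asum G :=
  calc ‖G i j‖ ≤ ∑ l, ‖G i l‖ :=
        Finset.single_le_sum (f := fun l => ‖G i l‖) (fun _ _ => norm_nonneg _) (Finset.mem_univ j)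
    _ ≤ ∑ k, ∑ l, ‖G k l‖ :=
        Finset.single_le_sum (f := fun k => ∑ l, ‖G k l‖)
          (fun _ _ => Finset.sum_nonneg (fun _ _ => norm_nonneg _)) (Finset.mem_univ i)

lemma asum_smul {N : ℕ} (r : ℝ) (hr : 0 ≤ r) (G : Mat N) : asum (r • G) = r * asum G := by
  unfold asum
  simp_rw [Finset.mul_sum]
  apply Finset.sum_congr rfl
  intro i _
  apply Finset.sum_congr rfl
  intro j _
  rw [Matrix.smul_apply, norm_smul, Real.norm_of_nonneg hr]

lemma continuous_asum {N : ℕ} : Continuous (fun G : Mat N => asum G) := by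
  unfold asum
  apply continuous_finsetSum
  intro i _
  apply continuous_finsetSum
  intro j _
  exact (continuous_apply_apply i j).norm

lemma lim_eq {N : ℕ} (W H : ℕ → Mat N) (W₀ H₁ : Mat N) (r : ℕ → ℝ) (r₁ : ℝ)
    (hW : Tendsto W atTop (𝓝 W₀)) (hH : Tendsto H atTop (𝓝 H₁)) (hr : Tendsto r atTop (𝓝 r₁))
    (heq : ∀ n, W n * H n + H n * (W n)ᴴ = r n • ((2 : ℂ) • (1 : Mat N))) :
    W₀ * H₁ + H₁ * W₀ᴴ = r₁ • ((2 : ℂ) • (1 : Mat N)) := by
  have hstar : Tendsto (fun n => (W n)ᴴ) atTop (𝓝 W₀ᴴ) := by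
    have hc : Continuous (fun B : Mat N => Bᴴ) := continuous_id.matrix_conjTranspose
    exact (hc.tendsto W₀).comp hW
  have hl : Tendsto (fun n => W n * H n + H n * (W n)ᴴ) atTop (𝓝 (W₀ * H₁ + H₁ * W₀ᴴ)) :=
    (hW.mul hH).add (hH.mul hstar)
  have hrr : Tendsto (fun n => r n • ((2 : ℂ) • (1 : Mat N))) atTop
      (𝓝 (r₁ • ((2 : ℂ) • (1 : Mat N)))) := hr.smul_const _
  refine tendsto_nhds_unique hl ?_
  simpa only [heq] using hrr

lemma seq_G (hs : StabStmt) {N : ℕ} (W G : ℕ → Mat N) (W₀ G₀ : Mat N)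
    (hW : Tendsto W atTop (𝓝 W₀)) (hst : Stab W₀)
    (hG : ∀ n, IsG (W n) (G n)) (hG₀ : IsG W₀ G₀) : Tendsto G atTop (𝓝 G₀) := by
  apply tendsto_of_subseq_tendsto
  intro ns hns
  have hWn : Tendsto (fun n => W (ns n)) atTop (𝓝 W₀) := hW.comp hns
  have hpos : ∀ n, 0 < 1 + asum (G (ns n)) := fun n => by linarith [asum_nonneg (G (ns n))]
  obtain ⟨r, hr⟩ : ∃ r : ℕ → ℝ, ∀ n, r n = (1 + asum (G (ns n)))⁻¹ := ⟨_, fun _ => rfl⟩
  obtain ⟨H, hH⟩ : ∃ H : ℕ → Mat N, ∀ n, H n = r n • G (ns n) := ⟨_, fun _ => rfl⟩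
  have hr0 : ∀ n, 0 < r n := fun n => by rw [hr]; exact inv_pos.mpr (hpos n)
  have hr1 : ∀ n, r n ≤ 1 := fun n => by
    rw [hr]; exact inv_le_one_of_one_le₀ (by linarith [asum_nonneg (G (ns n))])
  have hnH : ∀ n, asum (H n) = 1 - r n := by
    intro n
    rw [hH, asum_smul _ (hr0 n).le, hr]
    have := (hpos n).ne'
    field_simp
    ring
  have hb : ∀ n i j, ‖H n i j‖ ≤ 1 := by
    intro n i j
    refine (entry_le_asum (H n) i j).trans ?_
    rw [hnH n]; linarith [hr0 n]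
  obtain ⟨H₁, φ₁, hφ₁, hlim₁⟩ := compact_seq_mat H 1 zero_le_one hb
  have hrm : ∀ n, r (φ₁ n) ∈ Set.Icc (0 : ℝ) 1 := fun n => ⟨(hr0 _).le, hr1 _⟩
  obtain ⟨r₁, _, φ₂, hφ₂, hlim₂⟩ := (isCompact_Icc (a := (0 : ℝ)) (b := 1)).tendsto_subseq hrm
  obtain ⟨φ, hφdef⟩ : ∃ φ : ℕ → ℕ, ∀ n, φ n = φ₁ (φ₂ n) := ⟨_, fun _ => rfl⟩
  have hφ : Tendsto φ atTop atTop := by
    have : φ = φ₁ ∘ φ₂ := funext hφdef
    rw [this]
    exact hφ₁.tendsto_atTop.comp hφ₂.tendsto_atTop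
  have hH1 : Tendsto (fun n => H (φ n)) atTop (𝓝 H₁) := by
    have := hlim₁.comp hφ₂.tendsto_atTop
    simp only [hφdef]
    exact this
  have hr1' : Tendsto (fun n => r (φ n)) atTop (𝓝 r₁) := by
    simp only [hφdef]
    exact hlim₂
  have hW1 : Tendsto (fun n => W (ns (φ n))) atTop (𝓝 W₀) := hWn.comp hφ
  have heq : ∀ n, W (ns n) * H n + H n * (W (ns n))ᴴ = r n • ((2 : ℂ) • (1 : Mat N)) := by
    intro n
    rw [← (hG (ns n)).2, smul_add, hH, mul_smul_comm, smul_mul_assoc]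
  have hlimeq : W₀ * H₁ + H₁ * W₀ᴴ = r₁ • ((2 : ℂ) • (1 : Mat N)) :=
    lim_eq (fun n => W (ns (φ n))) (fun n => H (φ n)) W₀ H₁ (fun n => r (φ n)) r₁ hW1 hH1 hr1'
      (fun n => heq (φ n))
  have hnorm : asum H₁ = 1 - r₁ := by
    have h1 : Tendsto (fun n => asum (H (φ n))) atTop (𝓝 (asum H₁)) :=
      (continuous_asum.tendsto H₁).comp hH1
    have h2 : Tendsto (fun n => 1 - r (φ n)) atTop (𝓝 (1 - r₁)) := tendsto_const_nhds.sub hr1'
    refine tendsto_nhds_unique h1 ?_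
    simpa only [hnH] using h2
  have hrpos : r₁ ≠ 0 := by
    intro h0
    rw [h0, zero_smul] at hlimeq
    have : H₁ = 0 := (hs N).2.1 W₀ W₀ H₁ hst hst hlimeq
    rw [this, h0] at hnorm
    have hz : asum (0 : Mat N) = 0 := by unfold asum; simp
    rw [hz] at hnorm
    norm_num at hnorm
  refine ⟨φ, ?_⟩
  have hconv : Tendsto (fun n => (r (φ n))⁻¹ • H (φ n)) atTop (𝓝 (r₁⁻¹ • H₁)) :=
    (hr1'.inv₀ hrpos).smul hH1
  have hid : ∀ n, (r (φ n))⁻¹ • H (φ n) = G (ns (φ n)) := by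
    intro n
    rw [hH, smul_smul, inv_mul_cancel₀ (hr0 (φ n)).ne', one_smul]
  have hsol : W₀ * (r₁⁻¹ • H₁) + (r₁⁻¹ • H₁) * W₀ᴴ = (2 : ℂ) • (1 : Mat N) := by
    rw [mul_smul_comm, smul_mul_assoc, ← smul_add, hlimeq, smul_smul, inv_mul_cancel₀ hrpos, one_smul]
  have hz : r₁⁻¹ • H₁ - G₀ = 0 := by
    apply (hs N).2.1 W₀ W₀ _ hst hst
    rw [mul_sub, sub_mul]
    have := hG₀.2
    calc W₀ * (r₁⁻¹ • H₁) - W₀ * G₀ + ((r₁⁻¹ • H₁) * W₀ᴴ - G₀ * W₀ᴴ)
        = (W₀ * (r₁⁻¹ • H₁) + (r₁⁻¹ • H₁) * W₀ᴴ) - (W₀ * G₀ + G₀ * W₀ᴴ) := by abel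
      _ = 0 := by rw [hsol, this, sub_self]
  rw [← sub_eq_zero.mp hz]
  simpa only [hid] using hconv

/-- (REGC) -/
theorem regC (hs : StabStmt) (hc : ClosStmt) : RegCStmt := by
  intro N S A F W G hA hF hD hW hG
  have h1 : ContinuousOn W S := by
    intro p hp
    apply tendsto_of_seq_tendsto
    intro u hu
    have hu2 := tendsto_nhdsWithin_iff.mp hu
    obtain ⟨n0, hn0⟩ := Filter.eventually_atTop.mp hu2.2
    rw [← tendsto_add_atTop_iff_nat n0]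
    have hu3 : Tendsto (fun n => u (n + n0)) atTop (𝓝[S] p) := (tendsto_add_atTop_iff_nat n0).mpr hu
    exact seq_W hs hc (fun n => A (u (n + n0))) (fun n => F (u (n + n0))) (fun n => W (u (n + n0)))
      (A p) (F p) (W p) ((hA p hp).tendsto.comp hu3) ((hF p hp).tendsto.comp hu3) (hD p hp)
      (fun n => hW _ (hn0 _ (by omega))) (hW p hp)
  refine ⟨h1, ?_⟩
  intro p hp
  apply tendsto_of_seq_tendsto
  intro u hu
  have hu2 := tendsto_nhdsWithin_iff.mp hu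
  obtain ⟨n0, hn0⟩ := Filter.eventually_atTop.mp hu2.2
  rw [← tendsto_add_atTop_iff_nat n0]
  have hu3 : Tendsto (fun n => u (n + n0)) atTop (𝓝[S] p) := (tendsto_add_atTop_iff_nat n0).mpr hu
  exact seq_G hs (fun n => W (u (n + n0))) (fun n => G (u (n + n0))) (W p) (G p)
    ((h1 p hp).tendsto.comp hu3) (hW p hp).2.2 (fun n => hG _ (hn0 _ (by omega))) (hG p hp)

end Pool.Agent.LTS
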