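import Pool.Agent.LTS.Defs

/-!
# (REGD) differentiability of the stable factor along curves (MP_4c716f_mp; module of helper25)
-/

set_option autoImplicit false

namespace Pool.Agent.LTS

open MeasureTheory Matrix Finset Filter Topology
open scoped ComplexConjugate ComplexOrder
open scoped Matrix.Norms.L2Operator

namespace RegD

variable {N : ℕ}

/-- the Sylvester operator `Z ↦ Z P + Q Z` -/
noncomputable def Lop (P Q : Mat N) : Mat N →L[ℂ] Mat N :=
  (ContinuousLinearMap.mul ℂ (Mat N)).flip P + ContinuousLinearMap.mul ℂ (Mat N) Q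

theorem Lop_apply (P Q Z : Mat N) : Lop P Q Z = Z * P + Q * Z := by
  simp [Lop]

theorem Lop_cont (Q : Mat N) : Continuous (fun P : Mat N => Lop P Q) := by
  unfold Lop
  fun_prop

theorem Lop_isUnit (P Q : Mat N) (h : ∀ Z : Mat N, Z * P + Q * Z = 0 → Z = 0) :
    IsUnit (Lop P Q) := by
  rw [ContinuousLinearMap.isUnit_iff_bijective]
  have hinj : Function.Injective (Lop P Q : Mat N →ₗ[ℂ] Mat N) := by
    rw [← LinearMap.ker_eq_bot, LinearMap.ker_eq_bot']
    intro Z hZ
    apply h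
    rw [← Lop_apply]
    exact hZ
  exact ⟨hinj, LinearMap.injective_iff_surjective.1 hinj⟩

/-- the difference quotient -/
noncomputable def sl (A : ℝ → Mat N) (x y : ℝ) : Mat N := (((y - x : ℝ) : ℂ))⁻¹ • (A y - A x)

theorem sl_tendsto {A : ℝ → Mat N} {A' : Mat N} {x : ℝ}
    (h : ∀ i j, HasDerivAt (fun y => A y i j) (A' i j) x) :
    Tendsto (sl A x) (𝓝[≠] x) (𝓝 A') := by
  have h1 : ∀ i j, Tendsto (fun y => sl A x y i j) (𝓝[≠] x) (𝓝 (A' i j)) := by
    intro i j
    have h2 := hasDerivAt_iff_tendsto_slope.1 (h i j)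
    refine h2.congr ?_
    intro y
    simp only [slope, sl, vsub_eq_sub, Matrix.smul_apply, Matrix.sub_apply, smul_eq_mul]
    rw [Complex.real_smul, Complex.ofReal_inv]
  exact tendsto_pi_nhds.2 fun i => tendsto_pi_nhds.2 fun j => h1 i j

theorem of_sl {A : ℝ → Mat N} {A' : Mat N} {x : ℝ}
    (h : Tendsto (sl A x) (𝓝[≠] x) (𝓝 A')) :
    ∀ i j, HasDerivAt (fun y => A y i j) (A' i j) x := by
  intro i j
  rw [hasDerivAt_iff_tendsto_slope]
  have h1 := tendsto_pi_nhds.1 (tendsto_pi_nhds.1 h i) j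
  refine h1.congr ?_
  intro y
  simp only [slope, sl, vsub_eq_sub, Matrix.smul_apply, Matrix.sub_apply, smul_eq_mul]
  rw [Complex.real_smul, Complex.ofReal_inv]

theorem cont_of {A : ℝ → Mat N} {A' : Mat N} {x : ℝ}
    (h : ∀ i j, HasDerivAt (fun y => A y i j) (A' i j) x) : Tendsto A (𝓝 x) (𝓝 (A x)) :=
  tendsto_pi_nhds.2 fun i => tendsto_pi_nhds.2 fun j => (h i j).continuousAt

/-- continuity of the factor -/
theorem cont_W (hs : StabStmt) (hc : ClosStmt) (S : Set ℝ) (A F W : ℝ → Mat N) (x : ℝ)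
    (hS : IsOpen S) (hx : x ∈ S) (hD : ∀ y ∈ S, Dom (A y) (F y))
    (hW : ∀ y ∈ S, IsW (A y) (F y) (W y)) (hA : Tendsto A (𝓝 x) (𝓝 (A x)))
    (hF : Tendsto F (𝓝 x) (𝓝 (F x))) : Tendsto W (𝓝 x) (𝓝 (W x)) := by
  apply tendsto_of_subseq_tendsto
  intro ns hns
  have h1 : ∀ᶠ n in atTop, ns n ∈ S := hns.eventually (hS.mem_nhds hx)
  have h2 : ∀ᶠ n in atTop, ‖A (ns n)‖ < ‖A x‖ + 1 :=
    (hA.comp hns).norm.eventually (gt_mem_nhds (lt_add_one _))
  obtain ⟨n0, hn0⟩ := (h1.and h2).exists_forall_of_atTop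
  have h3 : ∀ n, ‖W (ns (n + n0))‖ ≤ ‖A x‖ + 1 := by
    intro n
    obtain ⟨ha, hb⟩ := hn0 (n + n0) (Nat.le_add_left _ _)
    have h4 := (hW _ ha).1
    have h5 : ‖W (ns (n + n0))‖ * ‖W (ns (n + n0))‖ = ‖A (ns (n + n0))‖ := by
      rw [← h4, ← Matrix.star_eq_conjTranspose, CStarRing.norm_star_mul_self]
    have h6 : 0 ≤ ‖A x‖ := norm_nonneg _
    nlinarith [norm_nonneg (W (ns (n + n0)))]
  have : ProperSpace (Mat N) := FiniteDimensional.proper ℂ (Mat N)
  have h7 : ∀ n, W (ns (n + n0)) ∈ Metric.closedBall (0 : Mat N) (‖A x‖ + 1) := by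
    intro n
    rw [mem_closedBall_zero_iff]
    exact h3 n
  obtain ⟨W₀, -, φ, hφ, hlim⟩ := (isCompact_closedBall (0 : Mat N) (‖A x‖ + 1)).tendsto_subseq h7
  have h8 : Tendsto (fun n => φ n + n0) atTop atTop :=
    tendsto_atTop_mono (fun n => Nat.le_add_right _ _) hφ.tendsto_atTop
  have h9 : Tendsto (fun n => ns (φ n + n0)) atTop (𝓝 x) := hns.comp h8
  have h10 : IsW (A x) (F x) W₀ :=
    hc N (fun n => A (ns (φ n + n0))) (fun n => F (ns (φ n + n0))) (A x) (F x) W₀
      (fun n => W (ns (φ n + n0))) (fun n => hW _ (hn0 _ (Nat.le_add_left _ _)).1) (hD x hx)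
      (hA.comp h9) (hF.comp h9) hlim
  have h11 : W₀ = W x := (hs N).2.2.2.2.2 _ _ _ _ h10 (hW x hx)
  refine ⟨fun n => φ n + n0, ?_⟩
  rw [← h11]
  exact hlim

end RegD

open RegD in
theorem regD (hs : StabStmt) (hc : ClosStmt) : RegDStmt := by
  intro N S A F W x A' F' hS hx hD hW hA hF
  have hAc := cont_of hA
  have hFc := cont_of hF
  have hWc : Tendsto W (𝓝 x) (𝓝 (W x)) := cont_W hs hc S A F W x hS hx hD hW hAc hFc
  have hFherm : ∀ y ∈ S, (F y)ᴴ = F y := fun y hy => (hD y hy).2.1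
  have hAherm : ∀ y ∈ S, (A y)ᴴ = A y := fun y hy => (hD y hy).1
  -- the Sylvester operators
  set Q : Mat N := (W x)ᴴ with hQ
  have hstab : Stab (W x) := (hW x hx).2.2
  have hunit : IsUnit (Lop (W x) Q) :=
    Lop_isUnit _ _ fun Z hZ => (hs N).1 (W x) (W x) Z hstab hstab hZ
  obtain ⟨u, hu⟩ := hunit
  have hLc : Tendsto (fun y => Lop (W y) Q) (𝓝 x) (𝓝 (Lop (W x) Q)) :=
    ((Lop_cont Q).tendsto (W x)).comp hWc
  have hinv : Tendsto (fun y => Ring.inverse (Lop (W y) Q)) (𝓝 x) (𝓝 (Ring.inverse (Lop (W x) Q))) := by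
    have h1 := NormedRing.inverse_continuousAt (R := Mat N →L[ℂ] Mat N) u
    rw [hu] at h1
    exact h1.tendsto.comp hLc
  have hunits : ∀ᶠ y in 𝓝 x, IsUnit (Lop (W y) Q) :=
    hLc.eventually ((Units.isOpen (R := Mat N →L[ℂ] Mat N)).mem_nhds ⟨u, hu⟩)
  -- limits of the difference quotients
  have hAs : Tendsto (sl A x) (𝓝[≠] x) (𝓝 A') := sl_tendsto hA
  have hFs : Tendsto (sl F x) (𝓝[≠] x) (𝓝 F') := sl_tendsto hF
  have hle : 𝓝[≠] x ≤ 𝓝 x := nhdsWithin_le_nhds
  have hR : Tendsto (fun y => sl A x y + Complex.I • (sl F x y * W y) - Complex.I • (Q * sl F x y))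
      (𝓝[≠] x) (𝓝 (A' + Complex.I • (F' * W x) - Complex.I • (Q * F'))) :=
    (hAs.add ((hFs.mul (hWc.mono_left hle)).const_smul Complex.I)).sub
      ((tendsto_const_nhds.mul hFs).const_smul Complex.I)
  set R : Mat N := A' + Complex.I • (F' * W x) - Complex.I • (Q * F') with hRdef
  set Z' : Mat N := Ring.inverse (Lop (W x) Q) R with hZ'
  -- the equation for the difference quotient of `W`
  have hS' : ∀ᶠ y in 𝓝[≠] x, y ∈ S := hle (hS.mem_nhds hx)
  have heq : ∀ᶠ y in 𝓝[≠] x, Ring.inverse (Lop (W y) Q)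
      (sl A x y + Complex.I • (sl F x y * W y) - Complex.I • (Q * sl F x y)) =
        sl W x y - Complex.I • sl F x y := by
    filter_upwards [hS', hle hunits] with y hy hyu
    have e1 : Lop (W y) Q (sl W x y - Complex.I • sl F x y) =
        sl A x y + Complex.I • (sl F x y * W y) - Complex.I • (Q * sl F x y) := by
      rw [Lop_apply]
      have a1 := (hW y hy).1
      have a2 := (hW x hx).1
      have b1 := (hW y hy).2.1
      have b2 := (hW x hx).2.1
      have key : (W y - W x - Complex.I • (F y - F x)) * W y +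
          Q * (W y - W x - Complex.I • (F y - F x)) =
          (A y - A x) + Complex.I • ((F y - F x) * W y) - Complex.I • (Q * (F y - F x)) := by
        have c1 : W y = (W y)ᴴ + (2 * Complex.I) • F y := by rw [← b1]; abel
        have c2 : W x = (W x)ᴴ + (2 * Complex.I) • F x := by rw [← b2]; abel
        have c3 : W y - W x - Complex.I • (F y - F x) =
            (W y)ᴴ - (W x)ᴴ + Complex.I • (F y - F x) := by
          conv_lhs => rw [c1, c2]
          simp only [mul_smul, two_smul, smul_sub]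
          module
        have c4 : (W y - W x - Complex.I • (F y - F x)) * W y =
            (W y)ᴴ * W y - (W x)ᴴ * W y + Complex.I • ((F y - F x) * W y) := by
          rw [c3, add_mul, sub_mul, smul_mul_assoc]
        rw [c4, ← a1, ← a2, hQ, mul_sub, mul_sub, mul_smul_comm]
        abel
      have e2 : sl W x y - Complex.I • sl F x y =
          (((y - x : ℝ) : ℂ))⁻¹ • (W y - W x - Complex.I • (F y - F x)) := by
        unfold sl
        rw [smul_sub _ (W y - W x), smul_comm Complex.I]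
      rw [e2, smul_mul_assoc, mul_smul_comm, ← smul_add, key]
      unfold sl
      rw [smul_sub, smul_add, smul_mul_assoc, mul_smul_comm, smul_comm Complex.I, smul_comm Complex.I]
    rw [← e1, ← mul_apply_eq_comp, Ring.inverse_mul_cancel _ hyu]
    rfl
  have hZlim : Tendsto (fun y => sl W x y - Complex.I • sl F x y) (𝓝[≠] x) (𝓝 Z') := by
    have h1 : Tendsto (fun y => Ring.inverse (Lop (W y) Q)
      (sl A x y + Complex.I • (sl F x y * W y) - Complex.I • (Q * sl F x y))) (𝓝[≠] x) (𝓝 Z') :=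
      ((isBoundedBilinearMap_apply (𝕜 := ℂ) (E := Mat N) (F := Mat N)).continuous.tendsto
        (Ring.inverse (Lop (W x) Q), R)).comp ((hinv.mono_left hle).prodMk_nhds hR)
    exact h1.congr' heq
  have hWs : Tendsto (sl W x) (𝓝[≠] x) (𝓝 (Z' + Complex.I • F')) := by
    have h1 := hZlim.add (hFs.const_smul Complex.I)
    refine h1.congr ?_
    intro y
    abel
  refine ⟨Z' + Complex.I • F', of_sl hWs, ?_, ?_⟩
  · -- limit of the identity
    have h1 : Tendsto (fun y => (sl W x y)ᴴ * W y + Q * sl W x y) (𝓝[≠] x)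
        (𝓝 ((Z' + Complex.I • F')ᴴ * W x + Q * (Z' + Complex.I • F'))) := by
      have hct : Tendsto (fun y => (sl W x y)ᴴ) (𝓝[≠] x) (𝓝 ((Z' + Complex.I • F')ᴴ)) :=
        ((continuous_id.matrix_conjTranspose).tendsto _).comp hWs
      exact (hct.mul (hWc.mono_left hle)).add (tendsto_const_nhds.mul hWs)
    have h2 : ∀ᶠ y in 𝓝[≠] x, (sl W x y)ᴴ * W y + Q * sl W x y = sl A x y := by
      filter_upwards [hS'] with y hy
      have a1 := (hW y hy).1
      have a2 := (hW x hx).1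
      unfold sl
      rw [Matrix.conjTranspose_smul, Matrix.conjTranspose_sub, smul_mul_assoc, mul_smul_comm,
        ← a1, ← a2]
      have hst : star (((y - x : ℝ) : ℂ))⁻¹ = (((y - x : ℝ) : ℂ))⁻¹ := by
        rw [star_inv₀]
        simp
      rw [hst, ← smul_add, sub_mul, mul_sub, hQ]
      congr 1
      abel
    exact tendsto_nhds_unique (h1.congr' h2) hAs
  · have h1 : Tendsto (fun y => sl W x y - (sl W x y)ᴴ) (𝓝[≠] x)
        (𝓝 ((Z' + Complex.I • F') - (Z' + Complex.I • F')ᴴ)) := by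
      have hct : Tendsto (fun y => (sl W x y)ᴴ) (𝓝[≠] x) (𝓝 ((Z' + Complex.I • F')ᴴ)) :=
        ((continuous_id.matrix_conjTranspose).tendsto _).comp hWs
      exact hWs.sub hct
    have h2 : ∀ᶠ y in 𝓝[≠] x, sl W x y - (sl W x y)ᴴ = (2 * Complex.I) • sl F x y := by
      filter_upwards [hS'] with y hy
      have b1 := (hW y hy).2.1
      have b2 := (hW x hx).2.1
      unfold sl
      have hst : star (((y - x : ℝ) : ℂ))⁻¹ = (((y - x : ℝ) : ℂ))⁻¹ := by
        rw [star_inv₀]
        simp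
      rw [Matrix.conjTranspose_smul, Matrix.conjTranspose_sub, hst, ← smul_sub,
        smul_comm (2 * Complex.I), smul_sub (2 * Complex.I), ← b1, ← b2]
      congr 1
      abel
    exact tendsto_nhds_unique (h1.congr' h2) (hFs.const_smul (2 * Complex.I))

end Pool.Agent.LTS
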