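import Pool.Agent.LTS.Defs

/-!
# Module SCAL: one variable integrals (MP_4c716f_mp; helper44)
-/

set_option autoImplicit false

namespace Pool.Agent.LTS

open MeasureTheory Set Filter Topology

/-- the integrand of `Phi` -/
noncomputable def gS (s x μ : ℝ) : ℝ := μ ^ (s - 1 / 2) * (1 / √μ - 1 / √(x + μ))

lemma gS_nonneg {s x μ : ℝ} (hx : 0 ≤ x) (hμ : 0 < μ) : 0 ≤ gS s x μ := by
  unfold gS
  refine mul_nonneg (Real.rpow_nonneg hμ.le _) (sub_nonneg.2 ?_)
  exact one_div_le_one_div_of_le (Real.sqrt_pos.2 hμ) (Real.sqrt_le_sqrt (by linarith))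

lemma gS_pos {s x μ : ℝ} (hx : 0 < x) (hμ : 0 < μ) : 0 < gS s x μ := by
  unfold gS
  refine mul_pos (Real.rpow_pos_of_pos hμ _) (sub_pos.2 ?_)
  exact one_div_lt_one_div_of_lt (Real.sqrt_pos.2 hμ) (Real.sqrt_lt_sqrt hμ.le (by linarith))

/-- a globally continuous extension of `gS` -/
noncomputable def gT (s m₀ x μ : ℝ) : ℝ := gS s (max x 0) (max μ m₀)

lemma continuous_gT (s : ℝ) {m₀ : ℝ} (h0 : 0 < m₀) :
    Continuous (Function.uncurry (gT s m₀)) := by
  unfold gT gS Function.uncurry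
  have h1 : ∀ p : ℝ × ℝ, 0 < max p.2 m₀ := fun p => lt_max_of_lt_right h0
  have h2 : ∀ p : ℝ × ℝ, 0 < max p.1 0 + max p.2 m₀ := fun p =>
    add_pos_of_nonneg_of_pos (le_max_right _ _) (h1 p)
  have c1 : Continuous fun p : ℝ × ℝ => max p.2 m₀ := continuous_snd.max continuous_const
  have c2 : Continuous fun p : ℝ × ℝ => max p.1 0 := continuous_fst.max continuous_const
  refine Continuous.mul (c1.rpow_const fun p => Or.inl (h1 p).ne') (Continuous.sub ?_ ?_)
  · exact continuous_const.div c1.sqrt fun p => (Real.sqrt_pos.2 (h1 p)).ne'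
  · exact continuous_const.div (c2.add c1).sqrt fun p => (Real.sqrt_pos.2 (h2 p)).ne'

lemma gT_eq {s m₀ x μ : ℝ} (hx : 0 ≤ x) (hμ : m₀ ≤ μ) : gT s m₀ x μ = gS s x μ := by
  unfold gT
  rw [max_eq_left hx, max_eq_left hμ]

lemma Phi_eq_gS (s m₀ M x : ℝ) : Phi s m₀ M x = ∫ μ in m₀..M, gS s x μ := rfl

lemma Phi_eq_gT {s m₀ M x : ℝ} (hM : m₀ ≤ M) (hx : 0 ≤ x) :
    Phi s m₀ M x = ∫ μ in m₀..M, gT s m₀ x μ := by
  rw [Phi_eq_gS]
  refine intervalIntegral.integral_congr fun μ hμ => ?_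
  rw [uIcc_of_le hM] at hμ
  exact (gT_eq hx hμ.1).symm

lemma Phi_contOn {s m₀ M : ℝ} (h0 : 0 < m₀) (hM : m₀ ≤ M) :
    ContinuousOn (Phi s m₀ M) (Ici 0) := by
  have h := intervalIntegral.continuous_parametric_intervalIntegral_of_continuous'
    (μ := volume) (continuous_gT s h0) m₀ M
  exact h.continuousOn.congr fun x hx => Phi_eq_gT hM hx

lemma gS_scale {s x u : ℝ} (hx : 0 < x) (hu : 0 < u) :
    gS s x (x * u) = x ^ (s - 1) * gS s 1 u := by
  unfold gS
  have e1 : √(x * u) = √x * √u := Real.sqrt_mul hx.le u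
  have e2 : √(x + x * u) = √x * √(1 + u) := by
    rw [← Real.sqrt_mul hx.le]; congr 1; ring
  have e3 : (x * u) ^ (s - 1 / 2) = x ^ (s - 1 / 2) * u ^ (s - 1 / 2) :=
    Real.mul_rpow hx.le hu.le
  have e4 : x ^ (s - 1 / 2) = x ^ (s - 1) * √x := by
    rw [Real.sqrt_eq_rpow, ← Real.rpow_add hx]; congr 1; ring
  have h1 : √x ≠ 0 := (Real.sqrt_pos.2 hx).ne'
  have h2 : √u ≠ 0 := (Real.sqrt_pos.2 hu).ne'
  have h3 : √(1 + u) ≠ 0 := (Real.sqrt_pos.2 (by linarith)).ne'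
  rw [e1, e2, e3, e4]
  field_simp

lemma Phi_scale {s m₀ M x : ℝ} (h0 : 0 < m₀) (hM : m₀ ≤ M) (hx : 0 < x) :
    Phi s m₀ M x = x ^ s * ∫ u in (m₀ / x)..(M / x), gS s 1 u := by
  have h := intervalIntegral.integral_comp_mul_left (a := m₀ / x) (b := M / x)
    (f := gS s x) hx.ne'
  have e1 : x * (m₀ / x) = m₀ := by field_simp
  have e2 : x * (M / x) = M := by field_simp
  rw [e1, e2] at h
  have h2 : ∫ u in (m₀ / x)..(M / x), gS s x (x * u) =
      ∫ u in (m₀ / x)..(M / x), x ^ (s - 1) * gS s 1 u := by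
    refine intervalIntegral.integral_congr fun u hu => ?_
    have hle : m₀ / x ≤ M / x := div_le_div_of_nonneg_right hM hx.le
    rw [uIcc_of_le hle] at hu
    exact gS_scale hx (lt_of_lt_of_le (div_pos h0 hx) hu.1)
  rw [h2, intervalIntegral.integral_const_mul] at h
  have e3 : x ^ s = x * x ^ (s - 1) := by
    have h := Real.rpow_add hx 1 (s - 1)
    rw [Real.rpow_one] at h
    rw [← h]
    congr 1; ring
  rw [Phi_eq_gS, e3, mul_assoc, h, smul_eq_mul, ← mul_assoc, mul_inv_cancel₀ hx.ne', one_mul]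

/-! ## the constant `k` -/

lemma gS_contOn (s : ℝ) {x : ℝ} (hx : 0 ≤ x) : ContinuousOn (gS s x) (Ioi 0) := by
  unfold gS
  refine ContinuousOn.mul (fun u hu => ?_) (ContinuousOn.sub ?_ ?_)
  · exact (Real.continuousAt_rpow_const u _ (Or.inl (ne_of_gt hu))).continuousWithinAt
  · exact continuousOn_const.div Real.continuous_sqrt.continuousOn
      fun u hu => (Real.sqrt_pos.2 hu).ne'
  · exact continuousOn_const.div
      (Real.continuous_sqrt.comp (continuous_const.add continuous_id)).continuousOn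
      fun u hu => (Real.sqrt_pos.2 (add_pos_of_nonneg_of_pos hx hu)).ne'

lemma gS_le_one {s u : ℝ} (hu : 0 < u) : gS s 1 u ≤ u ^ (s - 1) := by
  have e4 : u ^ (s - 1) = u ^ (s - 1 / 2) * (1 / √u) := by
    rw [Real.sqrt_eq_rpow, one_div (u ^ (1 / 2 : ℝ)), ← Real.rpow_neg hu.le, ← Real.rpow_add hu]
    congr 1; ring
  rw [e4]
  unfold gS
  refine mul_le_mul_of_nonneg_left ?_ (Real.rpow_nonneg hu.le _)
  have : 0 ≤ 1 / √(1 + u) := by positivity
  linarith

lemma gS_le_two {s u : ℝ} (hu : 0 < u) : gS s 1 u ≤ u ^ (s - 2) := by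
  have hq : 0 < √u := Real.sqrt_pos.2 hu
  have hr : 0 < √(1 + u) := Real.sqrt_pos.2 (by linarith)
  have q2 : √u * √u = u := Real.mul_self_sqrt hu.le
  have r2 : √(1 + u) * √(1 + u) = 1 + u := Real.mul_self_sqrt (by linarith)
  have e4 : u ^ (s - 2) = u ^ (s - 1 / 2) * (1 / (u * √u)) := by
    have : u * √u = u ^ (3 / 2 : ℝ) := by
      rw [Real.sqrt_eq_rpow]
      have h := Real.rpow_add hu 1 (1 / 2)
      rw [Real.rpow_one] at h
      rw [← h]; norm_num
    rw [this, one_div (u ^ (3 / 2 : ℝ)), ← Real.rpow_neg hu.le, ← Real.rpow_add hu]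
    congr 1; ring
  rw [e4]
  unfold gS
  refine mul_le_mul_of_nonneg_left ?_ (Real.rpow_nonneg hu.le _)
  have hqr : √u ≤ √(1 + u) := Real.sqrt_le_sqrt (by linarith)
  rw [div_sub_div _ _ hq.ne' hr.ne', div_le_div_iff₀ (by positivity) (by positivity)]
  -- `(√(1+u) - √u) u √u ≤ √u √(1+u)`
  have h1 : (√(1 + u) - √u) * (√(1 + u) + √u) = 1 := by ring_nf; nlinarith
  have h2 : (√(1 + u) - √u) * u ≤ √(1 + u) := by
    have h3 : 0 ≤ √(1 + u) - √u := sub_nonneg.2 hqr
    have h4 : (√(1 + u) - √u) * √u ≤ 1 := by nlinarith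
    calc (√(1 + u) - √u) * u = ((√(1 + u) - √u) * √u) * √u := by rw [mul_assoc, q2]
      _ ≤ 1 * √u := mul_le_mul_of_nonneg_right h4 hq.le
      _ ≤ √(1 + u) := by linarith
  calc (1 * √(1 + u) - √u * 1) * (u * √u) = ((√(1 + u) - √u) * u) * √u := by ring
    _ ≤ √(1 + u) * √u := mul_le_mul_of_nonneg_right h2 hq.le
    _ = 1 * (√u * √(1 + u)) := by ring

lemma gS_integrable {s : ℝ} (hs : 0 < s) (hs1 : s < 1) : IntegrableOn (gS s 1) (Ioi 0) := by
  have hm : AEStronglyMeasurable (gS s 1) (volume.restrict (Ioi 0)) :=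
    (gS_contOn s zero_le_one).aestronglyMeasurable measurableSet_Ioi
  have h1 : IntegrableOn (gS s 1) (Ioc 0 1) := by
    have h := (intervalIntegral.intervalIntegrable_rpow' (a := 0) (b := 1)
      (show -1 < s - 1 by linarith))
    rw [intervalIntegrable_iff_integrableOn_Ioc_of_le zero_le_one] at h
    refine Integrable.mono' h (hm.mono_measure (Measure.restrict_mono Ioc_subset_Ioi_self le_rfl)) ?_
    refine (ae_restrict_iff' measurableSet_Ioc).2 (Eventually.of_forall fun u hu => ?_)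
    rw [Real.norm_of_nonneg (gS_nonneg zero_le_one hu.1)]
    exact gS_le_one hu.1
  have h2 : IntegrableOn (gS s 1) (Ioi 1) := by
    have h := integrableOn_Ioi_rpow_of_lt (show s - 2 < -1 by linarith) (zero_lt_one (α := ℝ))
    refine Integrable.mono' h (hm.mono_measure (Measure.restrict_mono
      (Ioi_subset_Ioi zero_le_one) le_rfl)) ?_
    refine (ae_restrict_iff' measurableSet_Ioi).2 (Eventually.of_forall fun u hu => ?_)
    have hu0 : 0 < u := lt_trans zero_lt_one hu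
    rw [Real.norm_of_nonneg (gS_nonneg zero_le_one hu0)]
    exact gS_le_two hu0
  rw [← Ioc_union_Ioi_eq_Ioi (zero_le_one (α := ℝ))]
  exact h1.union h2

/-- the constant -/
noncomputable def kS (s : ℝ) : ℝ := ∫ u in Ioi (0 : ℝ), gS s 1 u

lemma kS_ge {s a b : ℝ} (hs : 0 < s) (hs1 : s < 1) (ha : 0 ≤ a) (hab : a ≤ b) :
    ∫ u in a..b, gS s 1 u ≤ kS s := by
  rw [intervalIntegral.integral_of_le hab]
  refine setIntegral_mono_set (gS_integrable hs hs1) ?_ ?_
  · exact (ae_restrict_iff' measurableSet_Ioi).2 (Eventually.of_forall fun u hu =>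
      gS_nonneg zero_le_one hu)
  · have hsub : Ioc a b ⊆ Ioi 0 := fun u hu => lt_of_le_of_lt ha hu.1
    exact hsub.eventuallyLE

lemma kS_pos {s : ℝ} (hs : 0 < s) (hs1 : s < 1) : 0 < kS s := by
  refine lt_of_lt_of_le ?_ (kS_ge hs hs1 (zero_le_one) (one_le_two))
  refine intervalIntegral.intervalIntegral_pos_of_pos_on ?_ (fun u hu => ?_) one_lt_two
  · refine ContinuousOn.intervalIntegrable ((gS_contOn s zero_le_one).mono fun u hu => ?_)
    rw [uIcc_of_le one_le_two] at hu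
    exact lt_of_lt_of_le zero_lt_one hu.1
  · exact gS_pos zero_lt_one (lt_trans zero_lt_one hu.1)

lemma Phi_zero (s m₀ M : ℝ) : Phi s m₀ M 0 = 0 := by
  unfold Phi
  simp

lemma Phi_nonneg {s m₀ M x : ℝ} (h0 : 0 < m₀) (hM : m₀ ≤ M) (hx : 0 ≤ x) :
    0 ≤ Phi s m₀ M x := by
  rw [Phi_eq_gS]
  exact intervalIntegral.integral_nonneg hM fun μ hμ => gS_nonneg hx (lt_of_lt_of_le h0 hμ.1)

lemma Phi_le {s m₀ M x : ℝ} (hs : 0 < s) (hs1 : s < 1) (h0 : 0 < m₀) (hM : m₀ ≤ M)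
    (hx : 0 ≤ x) : Phi s m₀ M x ≤ kS s * x ^ s := by
  rcases hx.eq_or_lt with rfl | hx
  · rw [Phi_zero, Real.zero_rpow hs.ne', mul_zero]
  · rw [Phi_scale h0 hM hx, mul_comm]
    refine mul_le_mul_of_nonneg_right ?_ (Real.rpow_nonneg hx.le _)
    exact kS_ge hs hs1 (div_nonneg h0.le hx.le) (div_le_div_of_nonneg_right hM hx.le)

lemma Phi_tendsto {s x : ℝ} (hs : 0 < s) (hs1 : s < 1) (hx : 0 ≤ x) :
    Tendsto (fun n : ℕ => Phi s (1 / ((n : ℝ) + 1)) ((n : ℝ) + 1) x) atTop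
      (nhds (kS s * x ^ s)) := by
  rcases hx.eq_or_lt with rfl | hx
  · simp only [Phi_zero, Real.zero_rpow hs.ne', mul_zero]
    exact tendsto_const_nhds
  have hn : ∀ n : ℕ, (0 : ℝ) < 1 / ((n : ℝ) + 1) := fun n => Nat.one_div_pos_of_nat
  have hn2 : ∀ n : ℕ, 1 / ((n : ℝ) + 1) ≤ (n : ℝ) + 1 := fun n => by
    have h : (1 : ℝ) ≤ (n : ℝ) + 1 := by
      have := Nat.cast_nonneg (α := ℝ) n
      linarith
    rw [div_le_iff₀ (by linarith)]
    nlinarith
  have hcov : AECover (volume.restrict (Ioi (0 : ℝ))) atTop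
      fun n : ℕ => Ioc (1 / ((n : ℝ) + 1) / x) (((n : ℝ) + 1) / x) := by
    refine ⟨(ae_restrict_iff' measurableSet_Ioi).2 (Eventually.of_forall fun u hu => ?_),
      fun n => measurableSet_Ioc⟩
    have t1 : Tendsto (fun n : ℕ => 1 / ((n : ℝ) + 1) / x) atTop (nhds (0 / x)) :=
      tendsto_one_div_add_atTop_nhds_zero_nat.div_const x
    rw [zero_div] at t1
    have t2 : Tendsto (fun n : ℕ => ((n : ℝ) + 1) / x) atTop atTop :=
      (tendsto_atTop_add_const_right _ _ tendsto_natCast_atTop_atTop).atTop_div_const hx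
    filter_upwards [t1.eventually_lt_const hu, t2.eventually_ge_atTop u] with n h1 h2
    exact ⟨h1, h2⟩
  have h := hcov.integral_tendsto_of_countably_generated (gS_integrable hs hs1)
  have h2 : Tendsto (fun n : ℕ => x ^ s *
      ∫ u in (1 / ((n : ℝ) + 1) / x)..(((n : ℝ) + 1) / x), gS s 1 u) atTop
      (nhds (x ^ s * kS s)) := by
    refine Tendsto.const_mul _ (h.congr fun n => ?_)
    have hsub : Ioc (1 / ((n : ℝ) + 1) / x) (((n : ℝ) + 1) / x) ⊆ Ioi (0 : ℝ) :=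
      fun u hu => lt_trans (div_pos (hn n) hx) hu.1
    rw [Measure.restrict_restrict_of_subset hsub,
      intervalIntegral.integral_of_le (div_le_div_of_nonneg_right (hn2 n) hx.le)]
  rw [mul_comm]
  exact h2.congr fun n => (Phi_scale (hn n) (hn2 n) hx).symm

/-! ## Fubini on the rectangle -/

lemma swapC {f : ℝ → ℝ → ℝ} {a b c d : ℝ} (hf : Continuous (Function.uncurry f)) :
    ∫ x in a..b, ∫ y in c..d, f x y = ∫ y in c..d, ∫ x in a..b, f x y := by
  refine intervalIntegral_intervalIntegral_swap ?_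
  have h : IntegrableOn (Function.uncurry f) (uIcc a b ×ˢ uIcc c d) :=
    hf.continuousOn.integrableOn_compact (isCompact_uIcc.prod isCompact_uIcc)
  exact h.mono_set (prod_mono uIoc_subset_uIcc uIoc_subset_uIcc)

lemma int_inv_sqrt {m κ : ℝ} (hm : 0 < m) (hκ : 0 ≤ κ) :
    ∫ f in (-κ)..κ, 1 / √(κ ^ 2 - f ^ 2 + m) = 2 * Real.arctan (κ / √m) := by
  have hpos : ∀ f ∈ uIcc (-κ) κ, 0 < κ ^ 2 - f ^ 2 + m := by
    intro f hf
    rw [uIcc_of_le (by linarith)] at hf
    have : f ^ 2 ≤ κ ^ 2 := sq_le_sq' hf.1 hf.2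
    linarith
  have hd : ∀ f ∈ uIcc (-κ) κ, HasDerivAt (fun f => Real.arctan (f / √(κ ^ 2 - f ^ 2 + m)))
      (1 / √(κ ^ 2 - f ^ 2 + m)) f := by
    intro f hf
    have h0 := hpos f hf
    have hq : 0 < √(κ ^ 2 - f ^ 2 + m) := Real.sqrt_pos.2 h0
    have q2 : √(κ ^ 2 - f ^ 2 + m) ^ 2 = κ ^ 2 - f ^ 2 + m := Real.sq_sqrt h0.le
    have d1 : HasDerivAt (fun f : ℝ => κ ^ 2 - f ^ 2 + m) (-(2 * f)) f := by
      have := ((hasDerivAt_pow 2 f).const_sub (κ ^ 2)).add_const m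
      convert this using 1
      all_goals first | rfl | (norm_num)
    have d2 := d1.sqrt h0.ne'
    have d3 : HasDerivAt (fun f => f / √(κ ^ 2 - f ^ 2 + m))
        ((1 * √(κ ^ 2 - f ^ 2 + m) - f * (-(2 * f) / (2 * √(κ ^ 2 - f ^ 2 + m)))) /
          √(κ ^ 2 - f ^ 2 + m) ^ 2) f := (hasDerivAt_id f).div d2 hq.ne'
    convert d3.arctan using 1
    set q := √(κ ^ 2 - f ^ 2 + m) with hqd
    have e : 1 + (f / q) ^ 2 = (κ ^ 2 + m) / q ^ 2 := by
      field_simp; rw [q2]; ring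
    have hk : 0 < κ ^ 2 + m := by positivity
    rw [e]
    field_simp
    rw [q2]
    ring
  rw [intervalIntegral.integral_eq_sub_of_hasDerivAt hd]
  · have e1 : κ ^ 2 - κ ^ 2 + m = m := by ring
    have e2 : κ ^ 2 - (-κ) ^ 2 + m = m := by ring
    rw [e1, e2, neg_div, Real.arctan_neg]
    ring
  · refine ContinuousOn.intervalIntegrable ?_
    refine continuousOn_const.div (Continuous.continuousOn (by fun_prop)) fun f hf => ?_
    exact (Real.sqrt_pos.2 (hpos f hf)).ne'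

lemma arctan_identity {s m₀ M κ : ℝ} (h0 : 0 < m₀) (hM : m₀ ≤ M) (hκ : 0 ≤ κ) :
    2 * ∫ μ in m₀..M, μ ^ (s - 1 / 2) * (κ / √μ - Real.arctan (κ / √μ)) =
      ∫ f in (-κ)..κ, Phi s m₀ M (κ ^ 2 - f ^ 2) := by
  have hk : -κ ≤ κ := by linarith
  have hsq : ∀ f ∈ uIcc (-κ) κ, 0 ≤ κ ^ 2 - f ^ 2 := by
    intro f hf
    rw [uIcc_of_le hk] at hf
    have : f ^ 2 ≤ κ ^ 2 := sq_le_sq' hf.1 hf.2
    linarith
  have h1 : ∫ f in (-κ)..κ, Phi s m₀ M (κ ^ 2 - f ^ 2) =
      ∫ f in (-κ)..κ, ∫ μ in m₀..M, gT s m₀ (κ ^ 2 - f ^ 2) μ :=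
    intervalIntegral.integral_congr fun f hf => Phi_eq_gT hM (hsq f hf)
  have hc : Continuous (Function.uncurry fun f μ : ℝ => gT s m₀ (κ ^ 2 - f ^ 2) μ) :=
    (continuous_gT s h0).comp
      ((continuous_const.sub (continuous_fst.pow 2)).prodMk continuous_snd)
  rw [h1, swapC hc, ← intervalIntegral.integral_const_mul]
  refine intervalIntegral.integral_congr fun μ hμ => ?_
  rw [uIcc_of_le hM] at hμ
  have hμ0 : 0 < μ := lt_of_lt_of_le h0 hμ.1
  have h2 : ∫ f in (-κ)..κ, gT s m₀ (κ ^ 2 - f ^ 2) μ =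
      ∫ f in (-κ)..κ, μ ^ (s - 1 / 2) * (1 / √μ - 1 / √(κ ^ 2 - f ^ 2 + μ)) :=
    intervalIntegral.integral_congr fun f hf => gT_eq (hsq f hf) hμ.1
  have hi : IntervalIntegrable (fun f => 1 / √(κ ^ 2 - f ^ 2 + μ)) volume (-κ) κ := by
    refine ContinuousOn.intervalIntegrable ?_
    refine continuousOn_const.div (Continuous.continuousOn (by fun_prop)) fun f hf => ?_
    exact (Real.sqrt_pos.2 (by have := hsq f hf; linarith)).ne'
  rw [h2, intervalIntegral.integral_const_mul,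
    intervalIntegral.integral_sub (intervalIntegrable_const) hi, int_inv_sqrt hμ0 hκ,
    intervalIntegral.integral_const]
  simp only [smul_eq_mul]
  ring

lemma sqrt_identity {s m₀ M y : ℝ} (hs : 0 < s) (h0 : 0 < m₀) (hM : m₀ ≤ M) (hy : 0 ≤ y) :
    ∫ μ in m₀..M, μ ^ (s - 1 / 2) * √(y + μ) =
      (M ^ (s + 1) - m₀ ^ (s + 1)) / (s + 1) + y * (M ^ s - m₀ ^ s) / (2 * s) -
        1 / 2 * ∫ t in (0 : ℝ)..y, Phi s m₀ M t := by
  have hpt : ∀ μ ∈ uIcc m₀ M, μ ^ (s - 1 / 2) * √(y + μ) =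
      μ ^ s + y / 2 * μ ^ (s - 1) - 1 / 2 * ∫ t in (0 : ℝ)..y, gT s m₀ t μ := by
    intro μ hμ
    rw [uIcc_of_le hM] at hμ
    have hμ0 : 0 < μ := lt_of_lt_of_le h0 hμ.1
    have hq : 0 < √μ := Real.sqrt_pos.2 hμ0
    have e1 : μ ^ s = μ ^ (s - 1 / 2) * √μ := by
      rw [Real.sqrt_eq_rpow, ← Real.rpow_add hμ0]; congr 1; ring
    have e2 : μ ^ (s - 1) = μ ^ (s - 1 / 2) * (1 / √μ) := by
      rw [Real.sqrt_eq_rpow, one_div (μ ^ (1 / 2 : ℝ)), ← Real.rpow_neg hμ0.le,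
        ← Real.rpow_add hμ0]
      congr 1; ring
    have h1 : ∫ t in (0 : ℝ)..y, gT s m₀ t μ =
        ∫ t in (0 : ℝ)..y, (μ ^ (s - 1) - μ ^ (s - 1 / 2) * (1 / √(t + μ))) := by
      refine intervalIntegral.integral_congr fun t ht => ?_
      rw [uIcc_of_le hy] at ht
      rw [gT_eq ht.1 hμ.1, e2]
      unfold gS
      ring
    have hpos : ∀ t ∈ uIcc 0 y, 0 < t + μ := fun t ht => by
      rw [uIcc_of_le hy] at ht
      linarith [ht.1]
    have hi : IntervalIntegrable (fun t => 1 / √(t + μ)) volume 0 y := by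
      refine ContinuousOn.intervalIntegrable ?_
      exact continuousOn_const.div (Continuous.continuousOn (by fun_prop)) fun t ht =>
        (Real.sqrt_pos.2 (hpos t ht)).ne'
    have h2 : ∫ t in (0 : ℝ)..y, 1 / √(t + μ) = 2 * √(y + μ) - 2 * √μ := by
      have hd : ∀ t ∈ uIcc 0 y, HasDerivAt (fun t => 2 * √(t + μ)) (1 / √(t + μ)) t := by
        intro t ht
        have d := (((hasDerivAt_id t).add_const μ).sqrt (hpos t ht).ne').const_mul 2
        have hne := (Real.sqrt_pos.2 (hpos t ht)).ne'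
        have e : 1 / √(t + μ) = 2 * (1 / (2 * √(t + μ))) := by field_simp
        rw [e]
        exact d
      rw [intervalIntegral.integral_eq_sub_of_hasDerivAt hd hi]
      simp
    rw [h1, intervalIntegral.integral_sub intervalIntegrable_const (hi.const_mul _),
      intervalIntegral.integral_const_mul, h2, intervalIntegral.integral_const, e1]
    simp only [smul_eq_mul, sub_zero]
    ring
  rw [intervalIntegral.integral_congr hpt]
  have c1 : IntervalIntegrable (fun μ : ℝ => μ ^ s) volume m₀ M :=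
    intervalIntegral.intervalIntegrable_rpow' (by linarith)
  have c2 : IntervalIntegrable (fun μ : ℝ => y / 2 * μ ^ (s - 1)) volume m₀ M :=
    (intervalIntegral.intervalIntegrable_rpow' (by linarith)).const_mul _
  have c3 : IntervalIntegrable (fun μ : ℝ => 1 / 2 * ∫ t in (0 : ℝ)..y, gT s m₀ t μ)
      volume m₀ M := by
    refine Continuous.intervalIntegrable (continuous_const.mul ?_) _ _
    exact intervalIntegral.continuous_parametric_intervalIntegral_of_continuous'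
      (μ := volume) (f := fun μ t => gT s m₀ t μ)
      ((continuous_gT s h0).comp continuous_swap) 0 y
  rw [intervalIntegral.integral_sub (c1.add c2) c3, intervalIntegral.integral_add c1 c2,
    intervalIntegral.integral_const_mul, intervalIntegral.integral_const_mul,
    integral_rpow (Or.inl (by linarith)), integral_rpow (Or.inl (by linarith)),
    ← swapC (continuous_gT s h0)]
  have h3 : ∫ t in (0 : ℝ)..y, Phi s m₀ M t =
      ∫ t in (0 : ℝ)..y, ∫ μ in m₀..M, gT s m₀ t μ :=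
    intervalIntegral.integral_congr fun t ht => by
      rw [uIcc_of_le hy] at ht
      exact Phi_eq_gT hM ht.1
  rw [h3]
  have e : s - 1 + 1 = s := by ring
  rw [e]
  field_simp

/-- module SCAL -/
theorem scal : ScalStmt := by
  intro s hs hs1
  refine ⟨kS s, kS_pos hs hs1, fun m₀ M x h0 hM hx => ⟨Phi_nonneg h0 hM hx,
    Phi_le hs hs1 h0 hM hx⟩, fun x hx => Phi_tendsto hs hs1 hx,
    fun m₀ M h0 hM => Phi_contOn h0 hM, fun m₀ M κ h0 hM hκ => arctan_identity h0 hM hκ,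
    fun m₀ M y h0 hM hy => sqrt_identity hs h0 hM hy⟩

end Pool.Agent.LTS
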