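import Pool.Agent.LTS.Defs
import Pool.Agent.LT.Bil
import Pool.Agent.LT.KinAux

/-!
# (TEST) the form `-d² + κ² - V` is nonnegative (MP_4c716f_mp; module LTS_TEST, helper53)
-/

set_option autoImplicit false

namespace Pool.Agent.LTS.TestM

open MeasureTheory Matrix Finset Filter Topology
open scoped ComplexConjugate ComplexOrder
open Pool.Agent.LT Pool.Agent.LT.KinAux Pool.Agent.LTS

lemma ii_sum {ι : Type} (s : Finset ι) {E : Type*} [NormedAddCommGroup E] {f : ι → ℝ → E}
    {a b : ℝ} (h : ∀ i ∈ s, IntervalIntegrable (f i) volume a b) :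
    IntervalIntegrable (fun x => ∑ i ∈ s, f i x) volume a b := by
  have h1 := IntervalIntegrable.sum s h
  have h2 : (∑ i ∈ s, f i) = fun x => ∑ i ∈ s, f i x := by
    funext x; simp
  rwa [h2] at h1

/-- product rule on an interval -/
lemma prod_rule {a b : ℝ} (hab : a ≤ b) {f d g g' : ℝ → ℂ} (hf : ContinuousOn f (Set.Icc a b))
    (hfd : ∀ x ∈ Set.Ioo a b, HasDerivAt f (d x) x) (hd : ContinuousOn d (Set.Icc a b))
    (hg : ACv g g') :
    IntervalIntegrable (fun x => d x * g x + f x * g' x) volume a b ∧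
      f b * g b - f a * g a = ∫ x in a..b, (d x * g x + f x * g' x) := by
  set G : ℝ → ℂ := Set.indicator (Set.Icc a b) d with hG
  have hdi : IntegrableOn d (Set.Icc a b) volume := hd.integrableOn_compact isCompact_Icc
  have hGi : Integrable G volume := by
    rw [hG, integrable_indicator_iff measurableSet_Icc]
    exact hdi
  have hGii : ∀ s t : ℝ, IntervalIntegrable G volume s t := fun s t => hGi.intervalIntegrable
  have hac : ACv (fun x => f a + ∫ t in a..x, G t) G := by
    refine ⟨hGii, fun s t => ?_⟩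
    rw [add_sub_add_left_eq_sub]
    exact intervalIntegral.integral_interval_sub_left (hGii a t) (hGii a s)
  have heq : ∀ x ∈ Set.Icc a b, f a + ∫ t in a..x, G t = f x := by
    intro x hx
    have h1 : ∫ t in a..x, G t = ∫ t in a..x, d t := by
      refine intervalIntegral.integral_congr fun t ht => ?_
      rw [Set.uIcc_of_le hx.1] at ht
      exact Set.indicator_of_mem (show t ∈ Set.Icc a b from ⟨ht.1, ht.2.trans hx.2⟩) _
    have h2 : ∫ t in a..x, d t = f x - f a := by
      refine intervalIntegral.integral_eq_sub_of_hasDerivAt_of_le hx.1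
        (hf.mono (Set.Icc_subset_Icc le_rfl hx.2))
        (fun t ht => hfd t ⟨ht.1, ht.2.trans_le hx.2⟩) ?_
      rw [intervalIntegrable_iff_integrableOn_Icc_of_le hx.1]
      exact hdi.mono_set (Set.Icc_subset_Icc le_rfl hx.2)
    rw [h1, h2]; ring
  have hb := bil ℂ ℂ ℂ (ContinuousLinearMap.mul ℝ ℂ) _ _ _ _ hac hg
  have hcongr : ∀ x ∈ Set.Icc a b, (ContinuousLinearMap.mul ℝ ℂ) (G x) (g x) +
      (ContinuousLinearMap.mul ℝ ℂ) (f a + ∫ t in a..x, G t) (g' x) =
        d x * g x + f x * g' x := by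
    intro x hx
    rw [heq x hx, ContinuousLinearMap.mul_apply', ContinuousLinearMap.mul_apply', hG,
      Set.indicator_of_mem hx]
  constructor
  · refine (hb.1 a b).congr_ae ?_
    rw [Set.uIoc_of_le hab]
    filter_upwards [self_mem_ae_restrict measurableSet_Ioc] with x hx
    exact hcongr x ⟨hx.1.le, hx.2⟩
  · have h3 := hb.2 a b
    simp only [ContinuousLinearMap.mul_apply'] at h3
    rw [heq b ⟨hab, le_rfl⟩, intervalIntegral.integral_same, add_zero] at h3
    rw [h3]
    refine intervalIntegral.integral_congr fun x hx => ?_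
    rw [Set.uIcc_of_le hab] at hx
    have := hcongr x hx
    simpa only [ContinuousLinearMap.mul_apply'] using this

section Alg

variable {H : Type} [NormedAddCommGroup H] [InnerProductSpace ℂ H] {N : ℕ}

/-- completing the square -/
lemma square (F : Mat N) (hF : F.IsHermitian) (u w : Fin N → H) :
    (∑ i, ∑ j, F i j * (inner ℂ (u i) (w j) + inner ℂ (w i) (u j))).re ≤
      (∑ i, ‖w i‖ ^ 2) + (∑ i, ∑ j, (F * F) i j * inner ℂ (u i) (u j)).re := by
  have hFc : ∀ i j, conj (F i j) = F j i := fun i j => by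
    have := hF.apply j i
    simpa using this
  have h0 : 0 ≤ ∑ i, ‖w i - ∑ j, F i j • u j‖ ^ 2 := Finset.sum_nonneg fun i _ => by positivity
  have h1 : ∀ i, ‖w i - ∑ j, F i j • u j‖ ^ 2 = ‖w i‖ ^ 2 -
      2 * (∑ j, F i j * inner ℂ (w i) (u j)).re +
      (∑ j, ∑ k, F j i * F i k * inner ℂ (u j) (u k)).re := by
    intro i
    rw [@norm_sub_sq ℂ]
    congr 1
    · congr 2
      rw [inner_sum]
      simp only [inner_smul_right]
      rfl
    · rw [← inner_self_eq_norm_sq (𝕜 := ℂ), sum_inner]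
      change (∑ j, inner ℂ (F i j • u j) (∑ k, F i k • u k)).re = _
      congr 1
      refine Finset.sum_congr rfl fun j _ => ?_
      rw [inner_smul_left, inner_sum, Finset.mul_sum, hFc]
      refine Finset.sum_congr rfl fun k _ => ?_
      rw [inner_smul_right]; ring
  simp only [h1, Finset.sum_add_distrib, Finset.sum_sub_distrib] at h0
  have h2 : ∑ i, 2 * (∑ j, F i j * inner ℂ (w i) (u j)).re =
      (∑ i, ∑ j, F i j * (inner ℂ (u i) (w j) + inner ℂ (w i) (u j))).re := by
    have h3 : (∑ i, ∑ j, F i j * inner ℂ (u i) (w j)).re =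
        (∑ i, ∑ j, F i j * inner ℂ (w i) (u j)).re := by
      rw [← Complex.conj_re]
      congr 1
      rw [map_sum, Finset.sum_comm]
      simp only [map_sum]
      rw [Finset.sum_comm]
      conv_lhs => rw [Finset.sum_comm]
      refine Finset.sum_congr rfl fun i _ => Finset.sum_congr rfl fun j _ => ?_
      rw [map_mul, hFc, inner_conj_symm]
    simp only [mul_add, Finset.sum_add_distrib, Complex.add_re]
    rw [h3, ← two_mul, Complex.re_sum, ← Finset.mul_sum]
  have h4 : ∑ i, (∑ j, ∑ k, F j i * F i k * inner ℂ (u j) (u k)).re =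
      (∑ i, ∑ j, (F * F) i j * inner ℂ (u i) (u j)).re := by
    rw [← Complex.re_sum]
    congr 1
    rw [Finset.sum_comm]
    refine Finset.sum_congr rfl fun j _ => ?_
    rw [Finset.sum_comm]
    refine Finset.sum_congr rfl fun k _ => ?_
    rw [Matrix.mul_apply, Finset.sum_mul]
  rw [h2, h4] at h0
  linarith

end Alg

section Main

variable {H : Type} [NormedAddCommGroup H] [InnerProductSpace ℂ H] [CompleteSpace H] {N : ℕ}

/-- `⟨φ, A φ⟩` -/
noncomputable def qf (A : Mat N) (φ : Fin N → ℝ → H) (x : ℝ) : ℝ :=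
  (∑ i, ∑ j, A i j * inner ℂ (φ i x) (φ j x)).re

omit [CompleteSpace H] in
lemma qf_int {φ : Fin N → ℝ → H} (hφ : ∀ i, MemLp (φ i) 2 volume) (A : Mat N) :
    Integrable (qf A φ) volume := by
  have h : Integrable (fun x => ∑ i, ∑ j, A i j * inner ℂ (φ i x) (φ j x)) volume :=
    integrable_finsetSum _ fun i _ => integrable_finsetSum _ fun j _ =>
      (integrable_inner (hφ i) (hφ j)).const_mul _
  exact h.re

lemma qf_top {φ φ' : Fin N → ℝ → H} (hφ : ∀ i, IsH1v (φ i) (φ' i)) (A : Mat N) :
    Tendsto (qf A φ) atTop (𝓝 0) := by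
  have h : Tendsto (fun x => ∑ i, ∑ j, A i j * inner ℂ (φ i x) (φ j x)) atTop
      (𝓝 (∑ i : Fin N, ∑ j : Fin N, A i j * 0)) := by
    refine tendsto_finsetSum _ fun i _ => tendsto_finsetSum _ fun j _ => ?_
    refine Tendsto.const_mul _ ?_
    exact tendsto_zero_atTop (acv_inner bil (acv_of_h1 (hφ i)) (acv_of_h1 (hφ j)))
      (integrable_inner (hφ i).1 (hφ j).1)
      ((integrable_inner (hφ i).1 (hφ j).2.1).add (integrable_inner (hφ i).2.1 (hφ j).1))
  have h2 := (Complex.continuous_re.tendsto _).comp h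
  have h3 : (∑ i : Fin N, ∑ j : Fin N, A i j * 0).re = 0 := by simp
  rw [h3] at h2
  exact h2

lemma qf_bot {φ φ' : Fin N → ℝ → H} (hφ : ∀ i, IsH1v (φ i) (φ' i)) (A : Mat N) :
    Tendsto (qf A φ) atBot (𝓝 0) := by
  have h : Tendsto (fun x => ∑ i, ∑ j, A i j * inner ℂ (φ i x) (φ j x)) atBot
      (𝓝 (∑ i : Fin N, ∑ j : Fin N, A i j * 0)) := by
    refine tendsto_finsetSum _ fun i _ => tendsto_finsetSum _ fun j _ => ?_
    refine Tendsto.const_mul _ ?_
    exact tendsto_zero_atBot (acv_inner bil (acv_of_h1 (hφ i)) (acv_of_h1 (hφ j)))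
      (integrable_inner (hφ i).1 (hφ j).1)
      ((integrable_inner (hφ i).1 (hφ j).2.1).add (integrable_inner (hφ i).2.1 (hφ j).1))
  have h2 := (Complex.continuous_re.tendsto _).comp h
  have h3 : (∑ i : Fin N, ∑ j : Fin N, A i j * 0).re = 0 := by simp
  rw [h3] at h2
  exact h2

/-- the inequality on an interval -/
lemma piece {a b : ℝ} (hab : a ≤ b) {F D : ℝ → Mat N} {φ φ' : Fin N → ℝ → H}
    (hF : ∀ i j, ContinuousOn (fun x => F x i j) (Set.Icc a b))
    (hFD : ∀ x ∈ Set.Ioo a b, ∀ i j, HasDerivAt (fun y => F y i j) (D x i j) x)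
    (hD : ∀ i j, ContinuousOn (fun x => D x i j) (Set.Icc a b))
    (hh : ∀ x ∈ Set.Icc a b, (F x).IsHermitian) (hφ : ∀ i, IsH1v (φ i) (φ' i)) :
    qf (F b) φ b - qf (F a) φ a ≤
      (∑ i, ∫ x in a..b, ‖φ' i x‖ ^ 2) + ∫ x in a..b, qf (F x * F x + D x) φ x := by
  have hg : ∀ i j, ACv (fun x => inner ℂ (φ i x) (φ j x))
      (fun x => inner ℂ (φ i x) (φ' j x) + inner ℂ (φ' i x) (φ j x)) := fun i j =>
    acv_inner bil (acv_of_h1 (hφ i)) (acv_of_h1 (hφ j))
  have hp := fun i j => prod_rule hab (hF i j) (fun x hx => hFD x hx i j) (hD i j) (hg i j)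
  have hgc : ∀ i j, Continuous (fun x => inner ℂ (φ i x) (φ j x)) := fun i j =>
    acv_continuous (hg i j)
  have hint1 : IntervalIntegrable (fun x => ∑ i, ∑ j, (D x i j * inner ℂ (φ i x) (φ j x) +
      F x i j * (inner ℂ (φ i x) (φ' j x) + inner ℂ (φ' i x) (φ j x)))) volume a b :=
    ii_sum _ fun i _ => ii_sum _ fun j _ => (hp i j).1
  have hint1' : IntervalIntegrable (fun x => (∑ i, ∑ j, (D x i j * inner ℂ (φ i x) (φ j x) +
      F x i j * (inner ℂ (φ i x) (φ' j x) + inner ℂ (φ' i x) (φ j x)))).re) volume a b := by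
    rw [intervalIntegrable_iff] at hint1 ⊢
    exact hint1.re
  -- left side
  have hL : qf (F b) φ b - qf (F a) φ a = ∫ x in a..b,
      (∑ i, ∑ j, (D x i j * inner ℂ (φ i x) (φ j x) +
      F x i j * (inner ℂ (φ i x) (φ' j x) + inner ℂ (φ' i x) (φ j x)))).re := by
    have h1 : (∫ x in a..b, ∑ i, ∑ j, (D x i j * inner ℂ (φ i x) (φ j x) +
        F x i j * (inner ℂ (φ i x) (φ' j x) + inner ℂ (φ' i x) (φ j x)))) =
        (∑ i, ∑ j, F b i j * inner ℂ (φ i b) (φ j b)) -
        ∑ i, ∑ j, F a i j * inner ℂ (φ i a) (φ j a) := by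
      rw [intervalIntegral.integral_finsetSum fun i _ =>
        ii_sum _ fun j _ => (hp i j).1, ← Finset.sum_sub_distrib]
      refine Finset.sum_congr rfl fun i _ => ?_
      rw [intervalIntegral.integral_finsetSum fun j _ => (hp i j).1, ← Finset.sum_sub_distrib]
      exact Finset.sum_congr rfl fun j _ => ((hp i j).2).symm
    rw [qf, qf, ← Complex.sub_re, ← h1]
    have h2 := Complex.reCLM.intervalIntegral_comp_comm hint1
    simpa using h2.symm
  rw [hL]
  -- right side
  have hw : ∀ i, IntervalIntegrable (fun x => ‖φ' i x‖ ^ 2) volume a b := fun i =>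
    ((hφ i).2.1.integrable_norm_pow (by norm_num)).intervalIntegrable
  have hq : IntervalIntegrable (fun x => qf (F x * F x + D x) φ x) volume a b := by
    refine ContinuousOn.intervalIntegrable ?_
    rw [Set.uIcc_of_le hab]
    refine Complex.continuous_re.comp_continuousOn ?_
    refine continuousOn_finsetSum _ fun i _ => continuousOn_finsetSum _ fun j _ => ?_
    refine ContinuousOn.mul ?_ (hgc i j).continuousOn
    simp only [Matrix.add_apply, Matrix.mul_apply]
    refine ContinuousOn.add ?_ (hD i j)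
    exact continuousOn_finsetSum _ fun k _ => (hF i k).mul (hF k j)
  rw [← intervalIntegral.integral_finsetSum fun i _ => hw i,
    ← intervalIntegral.integral_add (ii_sum _ fun i _ => hw i) hq]
  refine intervalIntegral.integral_mono_on hab hint1'
    ((ii_sum _ fun i _ => hw i).add hq) fun x hx => ?_
  have h3 := square (F x) (hh x hx) (fun i => φ i x) (fun i => φ' i x)
  have h4 : (∑ i, ∑ j, (D x i j * inner ℂ (φ i x) (φ j x) +
      F x i j * (inner ℂ (φ i x) (φ' j x) + inner ℂ (φ' i x) (φ j x)))).re =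
      (∑ i, ∑ j, D x i j * inner ℂ (φ i x) (φ j x)).re +
      (∑ i, ∑ j, F x i j * (inner ℂ (φ i x) (φ' j x) + inner ℂ (φ' i x) (φ j x))).re := by
    simp only [Finset.sum_add_distrib, Complex.add_re]
  have h5 : qf (F x * F x + D x) φ x =
      (∑ i, ∑ j, (F x * F x) i j * inner ℂ (φ i x) (φ j x)).re +
      (∑ i, ∑ j, D x i j * inner ℂ (φ i x) (φ j x)).re := by
    simp only [qf, Matrix.add_apply, add_mul, Finset.sum_add_distrib, Complex.add_re]
  rw [h4, h5]
  linarith

end Main

end Pool.Agent.LTS.TestM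

namespace Pool.Agent.LTS

open MeasureTheory Matrix Finset Filter Topology
open scoped ComplexConjugate ComplexOrder
open Pool.Agent.LT Pool.Agent.LT.KinAux TestM

theorem test : TestStmt := by
  intro H _ _ _ N X κ F V φ φ' hX hR hV hφ
  obtain ⟨hκ, hF1, hF2, hFc, hFd, hFb⟩ := hR
  have hκh : κ.IsHermitian := hκ.1
  have hFh : ∀ x ∈ Set.Icc (-X) X, (F x).IsHermitian := by
    intro x hx
    have h1 := (hFb x hx).1.1
    have h2 : F x = κ - (κ - F x) := by simp
    rw [h2]
    exact hκh.sub h1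
  have hFe : ∀ i j, ContinuousOn (fun x => F x i j) (Set.Icc (-X) X) := fun i j =>
    (continuous_apply_apply i j).comp_continuousOn hFc
  have hVe : ∀ i j, ContinuousOn (fun x => V x i j) (Set.Icc (-X) X) := fun i j =>
    (continuous_apply_apply i j).comp_continuousOn hV
  have hm : ∀ i, MemLp (φ i) 2 volume := fun i => (hφ i).1
  -- the middle
  have hmid := piece (a := -X) (b := X) (by linarith) (F := F)
    (D := fun x => κ * κ - F x * F x - V x) (φ := φ) (φ' := φ') hFe hFd
    (fun i j => by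
      simp only [Matrix.sub_apply, Matrix.mul_apply]
      refine ContinuousOn.sub (ContinuousOn.sub continuousOn_const ?_) (hVe i j)
      exact continuousOn_finsetSum _ fun k _ => (hFe i k).mul (hFe k j)) hFh hφ
  have hmid' : ∫ x in (-X)..X, qf (F x * F x + (κ * κ - F x * F x - V x)) φ x =
      (∫ x in (-X)..X, qf (κ * κ) φ x) - ∫ x in (-X)..X,
        (∑ i, ∑ j, V x i j * inner ℂ (φ i x) (φ j x)).re := by
    rw [← intervalIntegral.integral_sub]
    · refine intervalIntegral.integral_congr fun x _ => ?_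
      have h1 : F x * F x + (κ * κ - F x * F x - V x) = κ * κ - V x := by abel
      simp only [h1, qf, Matrix.sub_apply, sub_mul, Finset.sum_sub_distrib, Complex.sub_re]
    · exact (qf_int hm _).intervalIntegrable
    · refine ContinuousOn.intervalIntegrable ?_
      rw [Set.uIcc_of_le (by linarith)]
      refine Complex.continuous_re.comp_continuousOn ?_
      refine continuousOn_finsetSum _ fun i _ => continuousOn_finsetSum _ fun j _ => ?_
      refine ContinuousOn.mul (hVe i j) (Continuous.continuousOn ?_)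
      exact acv_continuous (acv_inner bil (acv_of_h1 (hφ i)) (acv_of_h1 (hφ j)))
  rw [hmid', hF1, hF2] at hmid
  have hneg : ∀ x, qf (-κ) φ x = - qf κ φ x := by
    intro x
    simp only [qf, Matrix.neg_apply, neg_mul, Finset.sum_neg_distrib, Complex.neg_re]
  -- the right
  have hright : ∀ R : ℝ, X ≤ R → qf κ φ X - qf κ φ R ≤
      (∑ i, ∫ x in X..R, ‖φ' i x‖ ^ 2) + ∫ x in X..R, qf (κ * κ) φ x := by
    intro R hR
    have h := piece (a := X) (b := R) hR (F := fun _ => -κ) (D := fun _ => 0) (φ := φ)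
      (φ' := φ') (fun i j => continuousOn_const) (fun x _ i j => hasDerivAt_const _ _)
      (fun i j => continuousOn_const) (fun x _ => hκh.neg) hφ
    simp only [hneg, neg_mul_neg, add_zero] at h
    linarith
  -- the left
  have hleft : ∀ R : ℝ, X ≤ R → qf κ φ (-X) - qf κ φ (-R) ≤
      (∑ i, ∫ x in (-R)..(-X), ‖φ' i x‖ ^ 2) + ∫ x in (-R)..(-X), qf (κ * κ) φ x := by
    intro R hR
    have h := piece (a := -R) (b := -X) (by linarith) (F := fun _ => κ) (D := fun _ => 0) (φ := φ)
      (φ' := φ') (fun i j => continuousOn_const) (fun x _ i j => hasDerivAt_const _ _)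
      (fun i j => continuousOn_const) (fun x _ => hκh) hφ
    simpa only [add_zero] using h
  have hw : ∀ i, Integrable (fun x => ‖φ' i x‖ ^ 2) volume := fun i =>
    (hφ i).2.1.integrable_norm_pow (by norm_num)
  have hq := qf_int hm (κ * κ)
  have hall : ∀ R : ℝ, X ≤ R → (∫ x in (-X)..X,
      (∑ i, ∑ j, V x i j * inner ℂ (φ i x) (φ j x)).re) ≤
      (∑ i, ∫ x in (-R)..R, ‖φ' i x‖ ^ 2) + (∫ x in (-R)..R, qf (κ * κ) φ x) +
        (qf κ φ R + qf κ φ (-R)) := by
    intro R hR
    have h1 := hright R hR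
    have h2 := hleft R hR
    have h3 : ∀ f : ℝ → ℝ, Integrable f volume → ∫ x in (-R)..R, f x =
        (∫ x in (-R)..(-X), f x) + (∫ x in (-X)..X, f x) + ∫ x in X..R, f x := by
      intro f hf
      rw [intervalIntegral.integral_add_adjacent_intervals hf.intervalIntegrable
        hf.intervalIntegrable, intervalIntegral.integral_add_adjacent_intervals
        hf.intervalIntegrable hf.intervalIntegrable]
    rw [h3 _ hq, Finset.sum_congr rfl fun i _ => h3 _ (hw i), Finset.sum_add_distrib,
      Finset.sum_add_distrib]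
    rw [hneg] at hmid
    linarith
  -- the limit
  have hlim : Tendsto (fun R : ℝ => (∑ i, ∫ x in (-R)..R, ‖φ' i x‖ ^ 2) +
      (∫ x in (-R)..R, qf (κ * κ) φ x) + (qf κ φ R + qf κ φ (-R))) atTop
      (𝓝 ((∑ i, ∫ x, ‖φ' i x‖ ^ 2) + (∫ x, qf (κ * κ) φ x) + (0 + 0))) := by
    refine Tendsto.add (Tendsto.add (tendsto_finsetSum _ fun i _ => ?_) ?_) (Tendsto.add ?_ ?_)
    · exact intervalIntegral_tendsto_integral (hw i) tendsto_neg_atTop_atBot tendsto_id
    · exact intervalIntegral_tendsto_integral hq tendsto_neg_atTop_atBot tendsto_id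
    · exact qf_top hφ κ
    · exact (qf_bot hφ κ).comp tendsto_neg_atTop_atBot
  have hfin := ge_of_tendsto hlim (eventually_atTop.2 ⟨X, hall⟩)
  simpa [qf] using hfin

end Pool.Agent.LTS
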