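import Pool.Agent.LTS.Defs

/-!
# Module LTS_TRACE: the trace inequality (MP_4c716f_mp)   (helper21)
-/

set_option autoImplicit false

namespace Pool.Agent.LTS

open MeasureTheory Matrix Finset Set Filter
open scoped ComplexConjugate ComplexOrder

namespace TraceAux

lemma trace_re {N : ℕ} {A : Mat N} (hA : A.IsHermitian) :
    (Matrix.trace A).re = ∑ i, hA.eigenvalues i := by
  rw [hA.trace_eq_sum_eigenvalues, Complex.re_sum]
  rfl

lemma continuousOn_trace_re {α : Type*} [TopologicalSpace α] {N : ℕ} {f : α → Mat N} {S : Set α}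
    (hf : ContinuousOn f S) : ContinuousOn (fun x => (Matrix.trace (f x)).re) S := by
  have h : Continuous fun A : Mat N => (Matrix.trace A).re :=
    Complex.continuous_re.comp (Continuous.matrix_trace continuous_id)
  exact h.comp_continuousOn hf

/-- the scalar integral over `[-k, k]` -/
lemma integral_cS (s k : ℝ) (hs : 0 < s) (hk : 0 ≤ k) :
    ∫ f in (-k)..k, (k ^ 2 - f ^ 2) ^ s = k ^ (2 * s + 1) * cS s := by
  rcases hk.eq_or_lt with rfl | hk
  · rw [neg_zero, intervalIntegral.integral_same, Real.zero_rpow (by linarith), zero_mul]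
  · have h1 := intervalIntegral.integral_comp_mul_left (fun f => (k ^ 2 - f ^ 2) ^ s) hk.ne'
      (a := -1) (b := 1)
    rw [mul_neg, mul_one, smul_eq_mul] at h1
    have h2 : ∫ f in (-k)..k, (k ^ 2 - f ^ 2) ^ s =
        k * ∫ x in (-1 : ℝ)..1, (k ^ 2 - (k * x) ^ 2) ^ s := by
      rw [h1, ← mul_assoc, mul_inv_cancel₀ hk.ne', one_mul]
    have h3 : ∫ x in (-1 : ℝ)..1, (k ^ 2 - (k * x) ^ 2) ^ s =
        ∫ x in (-1 : ℝ)..1, k ^ (2 * s) * (1 - x ^ 2) ^ s := by
      apply intervalIntegral.integral_congr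
      intro x hx
      rw [Set.uIcc_of_le (by norm_num)] at hx
      have hx2 : 0 ≤ 1 - x ^ 2 := by nlinarith [hx.1, hx.2]
      show (k ^ 2 - (k * x) ^ 2) ^ s = k ^ (2 * s) * (1 - x ^ 2) ^ s
      rw [show k ^ 2 - (k * x) ^ 2 = k ^ 2 * (1 - x ^ 2) by ring,
        Real.mul_rpow (sq_nonneg k) hx2, ← Real.rpow_natCast, ← Real.rpow_mul hk.le]
      norm_num
    rw [h2, h3, intervalIntegral.integral_const_mul, Real.rpow_add hk, Real.rpow_one]
    unfold cS
    ring

end TraceAux

open TraceAux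

/-- the inequality for finite limits of the `μ`-integral -/
theorem traceFin (hx : ExWStmt) (hs : StabStmt) (hc : RegCStmt) (hdom : DomRStmt) (harg : ArgStmt)
    (hmu : MuStmt) (N : ℕ) (X s kk : ℝ) (κ : Mat N) (hκ : κ.IsHermitian) (F V : ℝ → Mat N)
    (h : ℝ → ℝ) (hX : 0 < X) (hs0 : 0 < s) (hs1 : s < 1) (hkk : 0 < kk) (hric : IsRic X κ F V)
    (hVc : ContinuousOn V (Icc (-X) X)) (hVp : ∀ x ∈ Icc (-X) X, (V x).PosSemidef)
    (hhc : ContinuousOn h (Icc (-X) X))
    (hh : ∀ x ∈ Icc (-X) X, ∀ hx : (V x).IsHermitian, ∑ i, hx.eigenvalues i ^ (1 + s) ≤ h x)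
    (m₀ M : ℝ) (hm0 : 0 < m₀) (hM : m₀ ≤ M)
    (hPhi : ∀ x : ℝ, 0 ≤ x → 0 ≤ Phi s m₀ M x ∧ Phi s m₀ M x ≤ kk * x ^ s)
    (hPhic : ContinuousOn (Phi s m₀ M) (Ici 0))
    (hatan : ∀ k : ℝ, 0 ≤ k →
      2 * ∫ μ in m₀..M, μ ^ (s - 1 / 2) * (k / √μ - Real.arctan (k / √μ)) =
        ∫ f in (-k)..k, Phi s m₀ M (k ^ 2 - f ^ 2))
    (hsqrt : ∀ y : ℝ, 0 ≤ y → ∫ μ in m₀..M, μ ^ (s - 1 / 2) * √(y + μ) =
        (M ^ (s + 1) - m₀ ^ (s + 1)) / (s + 1) + y * (M ^ s - m₀ ^ s) / (2 * s) -
          1 / 2 * ∫ t in (0 : ℝ)..y, Phi s m₀ M t) :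
    s * ∑ i, ∫ f in (-hκ.eigenvalues i)..(hκ.eigenvalues i),
        Phi s m₀ M (hκ.eigenvalues i ^ 2 - f ^ 2) ≤
      4 * X * N * m₀ ^ (s + 1) + m₀ ^ s * (∫ x in (-X)..X, (Matrix.trace (V x)).re) +
        kk * (s / (1 + s)) ^ (1 + s) * ∫ x in (-X)..X, h x := by
  obtain ⟨hκp, hFl, hFr, hFc, hFd, hFb⟩ := hric
  have hric : IsRic X κ F V := ⟨hκp, hFl, hFr, hFc, hFd, hFb⟩
  have hk0 : ∀ i, 0 ≤ hκ.eigenvalues i := fun i => hκp.eigenvalues_nonneg i
  have hXX : -X ≤ X := by linarith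
  have hMpos : 0 < M := lt_of_lt_of_le hm0 hM
  have hDom : ∀ m x : ℝ, 0 < m → x ∈ Icc (-X) X → Dom (κ * κ + (m : ℂ) • (1 : Mat N)) (F x) :=
    fun m x hm hx' => hdom N X m κ F V hric hm x hx'
  have hWex : ∀ x m : ℝ, ∃ W : Mat N, 0 < m → x ∈ Icc (-X) X →
      IsW (κ * κ + (m : ℂ) • (1 : Mat N)) (F x) W := by
    intro x m
    by_cases hm : 0 < m ∧ x ∈ Icc (-X) X
    · obtain ⟨W, hW⟩ := hx N _ _ (hDom m x hm.1 hm.2)
      exact ⟨W, fun _ _ => hW⟩
    · exact ⟨0, fun h1 h2 => absurd ⟨h1, h2⟩ hm⟩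
  choose W hW using hWex
  have hGex : ∀ x m : ℝ, ∃ G : Mat N, 0 < m → x ∈ Icc (-X) X → IsG (W x m) G := by
    intro x m
    by_cases hm : 0 < m ∧ x ∈ Icc (-X) X
    · obtain ⟨G, hG⟩ := (hs N).2.2.2.1 (W x m) (hW x m hm.1 hm.2).2.2
      exact ⟨G, fun _ _ => hG⟩
    · exact ⟨0, fun h1 h2 => absurd ⟨h1, h2⟩ hm⟩
  choose G hG using hGex
  let D : ℝ → Mat N := fun x => κ * κ - F x * F x - V x
  have hDc : ContinuousOn D (Icc (-X) X) := (continuousOn_const.sub (hFc.mul hFc)).sub hVc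
  let g : ℝ → ℝ → ℝ := fun x m => m ^ (s - 1 / 2) * (Matrix.trace (G x m * D x)).re
  let S : Set (ℝ × ℝ) := Icc (-X) X ×ˢ Icc m₀ M
  have hmS : ∀ p ∈ S, 0 < p.2 := fun p hp => lt_of_lt_of_le hm0 hp.2.1
  have hreg := hc N S (fun p => κ * κ + (p.2 : ℂ) • (1 : Mat N)) (fun p => F p.1)
    (fun p => W p.1 p.2) (fun p => G p.1 p.2) (by
      apply Continuous.continuousOn
      exact continuous_const.add ((Complex.continuous_ofReal.comp continuous_snd).smul
        continuous_const)) (hFc.comp continuousOn_fst fun p hp => hp.1)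
    (fun p hp => hDom p.2 p.1 (hmS p hp) hp.1) (fun p hp => hW p.1 p.2 (hmS p hp) hp.1)
    (fun p hp => hG p.1 p.2 (hmS p hp) hp.1)
  have hgc : ContinuousOn (Function.uncurry g) S := by
    apply ContinuousOn.mul
    · apply ContinuousOn.rpow_const continuousOn_snd
      intro p hp
      exact Or.inl (hmS p hp).ne'
    · exact continuousOn_trace_re (hreg.2.mul (hDc.comp continuousOn_fst fun p hp => hp.1))
  have hgint : IntegrableOn (Function.uncurry g) (uIoc (-X) X ×ˢ uIoc m₀ M) := by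
    rw [Set.uIoc_of_le hXX, Set.uIoc_of_le hM]
    refine IntegrableOn.mono_set ?_ (prod_mono Ioc_subset_Icc_self Ioc_subset_Icc_self)
    exact hgc.integrableOn_compact (isCompact_Icc.prod isCompact_Icc)
  -- the pointwise inequality
  set lam : ℝ := s / (1 + s) with hlam
  have hlam0 : 0 < lam := by positivity
  let R : ℝ → ℝ := fun x => M ^ s * (Matrix.trace (D x)).re + 2 * N * m₀ ^ (s + 1) +
    m₀ ^ s * (Matrix.trace (V x)).re + kk * lam ^ (1 + s) * h x
  have hpt : ∀ x ∈ Icc (-X) X, s * ∫ m in m₀..M, g x m ≤ R x := by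
    intro x hxI
    have hVH : (V x).IsHermitian := (hVp x hxI).1
    have hFH : (F x).IsHermitian := (hDom 1 x one_pos hxI).2.1
    have hEH : (κ * κ).IsHermitian := by
      unfold Matrix.IsHermitian
      rw [Matrix.conjTranspose_mul, hκ.eq]
    have h1 := hmu N s m₀ M (κ * κ) (F x) (V x) hVH (fun m => W x m) (fun m => G x m) hs0 hs1 hm0 hM
      hEH hFH (hVp x hxI) (fun m hm => hDom m x hm hxI) (fun m hm => hW x m hm hxI)
      (fun m hm => hG x m hm hxI)
    have hv0 : ∀ i, 0 ≤ hVH.eigenvalues i := fun i => (hVp x hxI).eigenvalues_nonneg i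
    have h2 : ∀ i, ∫ m in m₀..M, m ^ (s - 1 / 2) * √(lam * hVH.eigenvalues i + m) =
        (M ^ (s + 1) - m₀ ^ (s + 1)) / (s + 1) +
          lam * hVH.eigenvalues i * (M ^ s - m₀ ^ s) / (2 * s) -
          1 / 2 * ∫ t in (0 : ℝ)..(lam * hVH.eigenvalues i), Phi s m₀ M t :=
      fun i => hsqrt _ (mul_nonneg hlam0.le (hv0 i))
    have h3 : ∀ i, ∫ t in (0 : ℝ)..(lam * hVH.eigenvalues i), Phi s m₀ M t ≤
        kk * (lam ^ (1 + s) * hVH.eigenvalues i ^ (1 + s)) / (1 + s) := by
      intro i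
      have hy : 0 ≤ lam * hVH.eigenvalues i := mul_nonneg hlam0.le (hv0 i)
      have h4 : ∫ t in (0 : ℝ)..(lam * hVH.eigenvalues i), Phi s m₀ M t ≤
          ∫ t in (0 : ℝ)..(lam * hVH.eigenvalues i), kk * t ^ s := by
        apply intervalIntegral.integral_mono_on hy
        · apply ContinuousOn.intervalIntegrable
          rw [Set.uIcc_of_le hy]
          exact hPhic.mono fun t ht => ht.1
        · apply Continuous.intervalIntegrable
          exact continuous_const.mul (Real.continuous_rpow_const hs0.le)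
        · intro t ht
          exact (hPhi t ht.1).2
      refine h4.trans (le_of_eq ?_)
      rw [intervalIntegral.integral_const_mul, integral_rpow (Or.inl (by linarith)),
        Real.zero_rpow (by linarith), sub_zero, ← Real.mul_rpow hlam0.le (hv0 i), add_comm s 1,
        mul_div_assoc]
    have h5 := hh x hxI hVH
    have htr : (Matrix.trace (D x)).re = (Matrix.trace (κ * κ - F x * F x)).re -
        ∑ i, hVH.eigenvalues i := by
      rw [← trace_re hVH]
      show (Matrix.trace (κ * κ - F x * F x - V x)).re = _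
      rw [Matrix.trace_sub, Complex.sub_re]
    have h6 : s * ∫ m in m₀..M, g x m ≤ M ^ s * (Matrix.trace (κ * κ - F x * F x)).re +
        2 * N * M ^ (s + 1) - 2 * (1 + s) * ∑ i : Fin N,
          ((M ^ (s + 1) - m₀ ^ (s + 1)) / (s + 1) +
          lam * hVH.eigenvalues i * (M ^ s - m₀ ^ s) / (2 * s) -
          1 / 2 * ∫ t in (0 : ℝ)..(lam * hVH.eigenvalues i), Phi s m₀ M t) := by
      refine h1.trans (le_of_eq ?_)
      rw [Finset.sum_congr rfl fun i _ => h2 i]
    refine h6.trans ?_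
    have h7 : ∑ i : Fin N, ((M ^ (s + 1) - m₀ ^ (s + 1)) / (s + 1) +
          lam * hVH.eigenvalues i * (M ^ s - m₀ ^ s) / (2 * s) -
          1 / 2 * ∫ t in (0 : ℝ)..(lam * hVH.eigenvalues i), Phi s m₀ M t) =
        N * ((M ^ (s + 1) - m₀ ^ (s + 1)) / (s + 1)) +
          lam * (∑ i, hVH.eigenvalues i) * (M ^ s - m₀ ^ s) / (2 * s) -
          1 / 2 * ∑ i, ∫ t in (0 : ℝ)..(lam * hVH.eigenvalues i), Phi s m₀ M t := by
      have a1 : ∑ i : Fin N, lam * hVH.eigenvalues i * (M ^ s - m₀ ^ s) / (2 * s) =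
          lam * (∑ i, hVH.eigenvalues i) * (M ^ s - m₀ ^ s) / (2 * s) := by
        rw [Finset.mul_sum, Finset.sum_mul, Finset.sum_div]
      have a2 : ∑ i : Fin N, 1 / 2 * ∫ t in (0 : ℝ)..(lam * hVH.eigenvalues i), Phi s m₀ M t =
          1 / 2 * ∑ i, ∫ t in (0 : ℝ)..(lam * hVH.eigenvalues i), Phi s m₀ M t := by
        rw [Finset.mul_sum]
      rw [Finset.sum_sub_distrib, Finset.sum_add_distrib, a1, a2]
      simp
    have h8 : ∑ i, ∫ t in (0 : ℝ)..(lam * hVH.eigenvalues i), Phi s m₀ M t ≤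
        kk * lam ^ (1 + s) * h x / (1 + s) := by
      calc ∑ i, ∫ t in (0 : ℝ)..(lam * hVH.eigenvalues i), Phi s m₀ M t
          ≤ ∑ i, kk * (lam ^ (1 + s) * hVH.eigenvalues i ^ (1 + s)) / (1 + s) :=
            Finset.sum_le_sum fun i _ => h3 i
        _ = kk * lam ^ (1 + s) * (∑ i, hVH.eigenvalues i ^ (1 + s)) / (1 + s) := by
            rw [Finset.mul_sum, Finset.sum_div]
            exact Finset.sum_congr rfl fun i _ => by ring
        _ ≤ kk * lam ^ (1 + s) * h x / (1 + s) := by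
            apply div_le_div_of_nonneg_right _ (by linarith)
            exact mul_le_mul_of_nonneg_left h5 (by positivity)
    rw [h7]
    show _ ≤ M ^ s * (Matrix.trace (D x)).re + 2 * N * m₀ ^ (s + 1) +
      m₀ ^ s * (Matrix.trace (V x)).re + kk * lam ^ (1 + s) * h x
    rw [htr, trace_re hVH]
    set T := ∑ i, hVH.eigenvalues i
    set P := ∑ i, ∫ t in (0 : ℝ)..(lam * hVH.eigenvalues i), Phi s m₀ M t
    have hs' : (1 + s) ≠ 0 := by positivity
    have e1 : 2 * (1 + s) * (N * ((M ^ (s + 1) - m₀ ^ (s + 1)) / (s + 1)) +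
          lam * T * (M ^ s - m₀ ^ s) / (2 * s) - 1 / 2 * P) =
        2 * N * (M ^ (s + 1) - m₀ ^ (s + 1)) + T * (M ^ s - m₀ ^ s) - (1 + s) * P := by
      rw [hlam]
      have hs'' : s + 1 ≠ 0 := by positivity
      field_simp
      ring
    rw [e1]
    have e2 : (1 + s) * P ≤ kk * lam ^ (1 + s) * h x := by
      have := mul_le_mul_of_nonneg_left h8 (show 0 ≤ 1 + s by linarith)
      refine this.trans (le_of_eq ?_)
      field_simp
    linarith
  -- integration
  have hRc : ContinuousOn R (Icc (-X) X) := by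
    apply ContinuousOn.add
    · apply ContinuousOn.add
      · exact (continuousOn_const.mul (continuousOn_trace_re hDc)).add continuousOn_const
      · exact continuousOn_const.mul (continuousOn_trace_re hVc)
    · exact continuousOn_const.mul hhc
  have hRi : IntervalIntegrable R volume (-X) X := by
    apply ContinuousOn.intervalIntegrable
    rwa [Set.uIcc_of_le hXX]
  have hLi : IntervalIntegrable (fun x => ∫ m in m₀..M, g x m) volume (-X) X := by
    rw [intervalIntegrable_iff]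
    have h1 := hgint
    unfold IntegrableOn at h1
    rw [Measure.volume_eq_prod, ← Measure.prod_restrict] at h1
    have h2 := h1.integral_prod_left
    refine h2.congr (Eventually.of_forall fun x => ?_)
    show ∫ y in uIoc m₀ M, g x y = ∫ m in m₀..M, g x m
    rw [intervalIntegral.integral_of_le hM, Set.uIoc_of_le hM]
  have hint := intervalIntegral.integral_mono_on hXX (hLi.const_mul s) hRi hpt
  rw [intervalIntegral.integral_const_mul, intervalIntegral_intervalIntegral_swap hgint] at hint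
  -- the left side
  have hswap : ∀ m ∈ uIcc m₀ M, ∫ x in (-X)..X, g x m =
      -(∑ i, 2 * (m ^ (s - 1 / 2) * Real.arctan (hκ.eigenvalues i / √m))) := by
    intro m hm
    rw [Set.uIcc_of_le hM] at hm
    have hmp : 0 < m := lt_of_lt_of_le hm0 hm.1
    have h1 := harg N X m κ hκ F V (fun x => W x m) (fun x => G x m) hX hmp hric hVc hVp
      (fun x hx' => hW x m hmp hx') (fun x hx' => hG x m hmp hx')
    show ∫ x in (-X)..X, m ^ (s - 1 / 2) * (Matrix.trace (G x m * D x)).re = _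
    rw [intervalIntegral.integral_const_mul, h1, Finset.mul_sum, mul_neg, Finset.mul_sum]
    congr 1
    exact Finset.sum_congr rfl fun i _ => by ring
  rw [intervalIntegral.integral_congr hswap] at hint
  have hac : ∀ k : ℝ, ContinuousOn (fun m : ℝ => m ^ (s - 1 / 2) * Real.arctan (k / √m))
      (uIcc m₀ M) := by
    intro k
    rw [Set.uIcc_of_le hM]
    apply ContinuousOn.mul
    · apply ContinuousOn.rpow_const continuousOn_id
      intro m hm
      exact Or.inl (lt_of_lt_of_le hm0 hm.1).ne'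
    · apply Real.continuous_arctan.comp_continuousOn
      apply ContinuousOn.div continuousOn_const Real.continuous_sqrt.continuousOn
      intro m hm
      exact (Real.sqrt_pos.2 (lt_of_lt_of_le hm0 hm.1)).ne'
  have hkc : ∀ k : ℝ, ContinuousOn (fun m : ℝ => m ^ (s - 1 / 2) * (k / √m)) (uIcc m₀ M) := by
    intro k
    rw [Set.uIcc_of_le hM]
    apply ContinuousOn.mul
    · apply ContinuousOn.rpow_const continuousOn_id
      intro m hm
      exact Or.inl (lt_of_lt_of_le hm0 hm.1).ne'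
    · apply ContinuousOn.div continuousOn_const Real.continuous_sqrt.continuousOn
      intro m hm
      exact (Real.sqrt_pos.2 (lt_of_lt_of_le hm0 hm.1)).ne'
  have hk1 : ∀ k : ℝ, ∫ m in m₀..M, m ^ (s - 1 / 2) * (k / √m) = k * (M ^ s - m₀ ^ s) / s := by
    intro k
    have h1 : ∫ m in m₀..M, m ^ (s - 1 / 2) * (k / √m) = ∫ m in m₀..M, k * m ^ (s - 1) := by
      apply intervalIntegral.integral_congr
      intro m hm
      rw [Set.uIcc_of_le hM] at hm
      have hmp : 0 < m := lt_of_lt_of_le hm0 hm.1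
      show m ^ (s - 1 / 2) * (k / √m) = k * m ^ (s - 1)
      have h2 : m ^ (s - 1 / 2) = m ^ (s - 1) * √m := by
        rw [Real.sqrt_eq_rpow, ← Real.rpow_add hmp]
        congr 1; ring
      rw [h2]
      have h3 : √m ≠ 0 := (Real.sqrt_pos.2 hmp).ne'
      field_simp
    rw [h1, intervalIntegral.integral_const_mul, integral_rpow (Or.inl (by linarith))]
    rw [show s - 1 + 1 = s by ring, mul_div_assoc]
  have hk2 : ∀ i, ∫ m in m₀..M, 2 * (m ^ (s - 1 / 2) * Real.arctan (hκ.eigenvalues i / √m)) =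
      2 * (hκ.eigenvalues i * (M ^ s - m₀ ^ s) / s) -
        ∫ f in (-hκ.eigenvalues i)..(hκ.eigenvalues i),
          Phi s m₀ M (hκ.eigenvalues i ^ 2 - f ^ 2) := by
    intro i
    rw [← hatan _ (hk0 i), ← hk1 (hκ.eigenvalues i), intervalIntegral.integral_const_mul, ← mul_sub]
    congr 1
    have h1 : ∫ m in m₀..M, m ^ (s - 1 / 2) * (hκ.eigenvalues i / √m -
        Real.arctan (hκ.eigenvalues i / √m)) =
        (∫ m in m₀..M, m ^ (s - 1 / 2) * (hκ.eigenvalues i / √m)) -
        ∫ m in m₀..M, m ^ (s - 1 / 2) * Real.arctan (hκ.eigenvalues i / √m) := by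
      rw [← intervalIntegral.integral_sub (hkc _).intervalIntegrable (hac _).intervalIntegrable]
      apply intervalIntegral.integral_congr
      intro m _
      show m ^ (s - 1 / 2) * (hκ.eigenvalues i / √m - Real.arctan (hκ.eigenvalues i / √m)) = _
      rw [mul_sub]
    rw [h1]
    ring
  have hleft : ∫ m in m₀..M,
      -(∑ i, 2 * (m ^ (s - 1 / 2) * Real.arctan (hκ.eigenvalues i / √m))) =
      (∑ i, ∫ f in (-hκ.eigenvalues i)..(hκ.eigenvalues i),
          Phi s m₀ M (hκ.eigenvalues i ^ 2 - f ^ 2)) -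
        2 * ((∑ i, hκ.eigenvalues i) * (M ^ s - m₀ ^ s) / s) := by
    rw [intervalIntegral.integral_neg, intervalIntegral.integral_finsetSum]
    · rw [Finset.sum_congr rfl fun i _ => hk2 i, Finset.sum_sub_distrib, ← Finset.mul_sum,
        Finset.sum_mul, Finset.sum_div]
      ring
    · intro i _
      exact ((hac _).intervalIntegrable).const_mul 2
  rw [hleft] at hint
  -- the right side
  have hDi : IntervalIntegrable (fun x => (Matrix.trace (D x)).re) volume (-X) X := by
    apply ContinuousOn.intervalIntegrable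
    rw [Set.uIcc_of_le hXX]
    exact continuousOn_trace_re hDc
  have hVi : IntervalIntegrable (fun x => (Matrix.trace (V x)).re) volume (-X) X := by
    apply ContinuousOn.intervalIntegrable
    rw [Set.uIcc_of_le hXX]
    exact continuousOn_trace_re hVc
  have hhi : IntervalIntegrable h volume (-X) X := by
    apply ContinuousOn.intervalIntegrable
    rwa [Set.uIcc_of_le hXX]
  have hftc : ∫ x in (-X)..X, (Matrix.trace (D x)).re = -(2 * ∑ i, hκ.eigenvalues i) := by
    have h1 : ∀ x ∈ Ioo (-X) X, HasDerivAt (fun y => (Matrix.trace (F y)).re)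
        (Matrix.trace (D x)).re x := by
      intro x hx'
      have h2 : HasDerivAt (fun y => Matrix.trace (F y)) (Matrix.trace (D x)) x := by
        unfold Matrix.trace
        apply HasDerivAt.fun_sum
        intro i _
        exact hFd x hx' i i
      exact Complex.reCLM.hasFDerivAt.comp_hasDerivAt x h2
    rw [intervalIntegral.integral_eq_sub_of_hasDerivAt_of_le hXX (continuousOn_trace_re hFc) h1 hDi,
      hFl, hFr, Matrix.trace_neg, Complex.neg_re, trace_re hκ]
    ring
  have hright : ∫ x in (-X)..X, R x = M ^ s * (-(2 * ∑ i, hκ.eigenvalues i)) +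
      2 * X * (2 * N * m₀ ^ (s + 1)) + m₀ ^ s * (∫ x in (-X)..X, (Matrix.trace (V x)).re) +
      kk * lam ^ (1 + s) * ∫ x in (-X)..X, h x := by
    show ∫ x in (-X)..X, (M ^ s * (Matrix.trace (D x)).re + 2 * N * m₀ ^ (s + 1) +
      m₀ ^ s * (Matrix.trace (V x)).re + kk * lam ^ (1 + s) * h x) = _
    rw [intervalIntegral.integral_add (((hDi.const_mul _).add intervalIntegrable_const).add
      (hVi.const_mul _)) (hhi.const_mul _), intervalIntegral.integral_add ((hDi.const_mul _).add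
      intervalIntegrable_const) (hVi.const_mul _), intervalIntegral.integral_add (hDi.const_mul _)
      intervalIntegrable_const, intervalIntegral.integral_const,
      intervalIntegral.integral_const_mul (kk * lam ^ (1 + s)),
      intervalIntegral.integral_const_mul (M ^ s),
      intervalIntegral.integral_const_mul (m₀ ^ s), hftc, smul_eq_mul]
    ring
  rw [hright] at hint
  have hT : 0 ≤ ∑ i, hκ.eigenvalues i := Finset.sum_nonneg fun i _ => hk0 i
  have e3 : s * ((∑ i, ∫ f in (-hκ.eigenvalues i)..(hκ.eigenvalues i),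
          Phi s m₀ M (hκ.eigenvalues i ^ 2 - f ^ 2)) -
        2 * ((∑ i, hκ.eigenvalues i) * (M ^ s - m₀ ^ s) / s)) =
      s * (∑ i, ∫ f in (-hκ.eigenvalues i)..(hκ.eigenvalues i),
          Phi s m₀ M (hκ.eigenvalues i ^ 2 - f ^ 2)) -
        2 * ((∑ i, hκ.eigenvalues i) * (M ^ s - m₀ ^ s)) := by
    field_simp
  rw [e3] at hint
  have hm0s : 0 ≤ m₀ ^ s := by positivity
  have e4 : 0 ≤ 2 * ((∑ i, hκ.eigenvalues i) * m₀ ^ s) := by positivity
  linarith

/-- **the trace inequality** -/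
theorem trace (hx : ExWStmt) (hs : StabStmt) (hc : RegCStmt) (hdom : DomRStmt) (harg : ArgStmt)
    (hsc : ScalStmt) (hmu : MuStmt) : TraceStmt := by
  intro N X s κ hκ F V h hX hs0 hs1 hric hVc hVp hhc hh
  obtain ⟨kk, hkk, hPhi, hPhil, hPhic, hatan, hsqrt⟩ := hsc s hs0 hs1
  have hk0 : ∀ i, 0 ≤ hκ.eigenvalues i := fun i => hric.1.eigenvalues_nonneg i
  have ha0 : ∀ n : ℕ, (0 : ℝ) < 1 / ((n : ℝ) + 1) := fun n => by positivity
  have haM : ∀ n : ℕ, 1 / ((n : ℝ) + 1) ≤ (n : ℝ) + 1 := by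
    intro n
    have h1 : (1 : ℝ) ≤ (n : ℝ) + 1 := by
      have : (0 : ℝ) ≤ n := Nat.cast_nonneg n
      linarith
    rw [div_le_iff₀ (by linarith)]
    nlinarith
  have hfin : ∀ n : ℕ, s * ∑ i, ∫ f in (-hκ.eigenvalues i)..(hκ.eigenvalues i),
        Phi s (1 / ((n : ℝ) + 1)) ((n : ℝ) + 1) (hκ.eigenvalues i ^ 2 - f ^ 2) ≤
      4 * X * N * (1 / ((n : ℝ) + 1)) ^ (s + 1) +
        (1 / ((n : ℝ) + 1)) ^ s * (∫ x in (-X)..X, (Matrix.trace (V x)).re) +
        kk * (s / (1 + s)) ^ (1 + s) * ∫ x in (-X)..X, h x := fun n =>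
    traceFin hx hs hc hdom harg hmu N X s kk κ hκ F V h hX hs0 hs1 hkk hric hVc hVp hhc hh _ _
      (ha0 n) (haM n) (fun x hx0 => hPhi _ _ x (ha0 n) (haM n) hx0) (hPhic _ _ (ha0 n) (haM n))
      (fun k hk => hatan _ _ k (ha0 n) (haM n) hk) (fun y hy => hsqrt _ _ y (ha0 n) (haM n) hy)
  -- limits
  have hlim0 : Tendsto (fun n : ℕ => 1 / ((n : ℝ) + 1)) atTop (nhds 0) :=
    tendsto_one_div_add_atTop_nhds_zero_nat
  have hpow : ∀ r : ℝ, 0 < r → Tendsto (fun n : ℕ => (1 / ((n : ℝ) + 1)) ^ r) atTop (nhds 0) := by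
    intro r hr
    have h1 := (Real.continuous_rpow_const hr.le).continuousAt.tendsto.comp hlim0
    rw [Real.zero_rpow hr.ne'] at h1
    exact h1
  have hR : Tendsto (fun n : ℕ => 4 * X * N * (1 / ((n : ℝ) + 1)) ^ (s + 1) +
        (1 / ((n : ℝ) + 1)) ^ s * (∫ x in (-X)..X, (Matrix.trace (V x)).re) +
        kk * (s / (1 + s)) ^ (1 + s) * ∫ x in (-X)..X, h x) atTop
      (nhds (4 * X * N * 0 + 0 * (∫ x in (-X)..X, (Matrix.trace (V x)).re) +
        kk * (s / (1 + s)) ^ (1 + s) * ∫ x in (-X)..X, h x)) :=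
    (((hpow (s + 1) (by linarith)).const_mul _).add ((hpow s hs0).mul_const _)).add
      tendsto_const_nhds
  have hL : ∀ i, Tendsto (fun n : ℕ => ∫ f in (-hκ.eigenvalues i)..(hκ.eigenvalues i),
        Phi s (1 / ((n : ℝ) + 1)) ((n : ℝ) + 1) (hκ.eigenvalues i ^ 2 - f ^ 2)) atTop
      (nhds (kk * (hκ.eigenvalues i ^ (2 * s + 1) * cS s))) := by
    intro i
    set k := hκ.eigenvalues i with hk
    have hkk0 : 0 ≤ k := hk0 i
    have hkle : -k ≤ k := by linarith
    rw [← integral_cS s k hs0 hkk0, ← intervalIntegral.integral_const_mul]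
    have hnn : ∀ f ∈ Set.uIoc (-k) k, 0 ≤ k ^ 2 - f ^ 2 := by
      intro f hf
      rw [Set.uIoc_of_le hkle] at hf
      nlinarith [hf.1, hf.2]
    apply intervalIntegral.tendsto_integral_filter_of_dominated_convergence
      (fun f => kk * (k ^ 2 - f ^ 2) ^ s)
    · refine Eventually.of_forall fun n => ?_
      apply ContinuousOn.aestronglyMeasurable _ measurableSet_uIoc
      refine (hPhic _ _ (ha0 n) (haM n)).comp (by fun_prop) ?_
      intro f hf
      exact hnn f hf
    · refine Eventually.of_forall fun n => Eventually.of_forall fun f hf => ?_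
      have h1 := hPhi _ _ _ (ha0 n) (haM n) (hnn f hf)
      rw [Real.norm_of_nonneg h1.1]
      exact h1.2
    · apply Continuous.intervalIntegrable
      exact continuous_const.mul ((Real.continuous_rpow_const hs0.le).comp (by fun_prop))
    · refine Eventually.of_forall fun f hf => ?_
      exact hPhil _ (hnn f hf)
  have hL2 := (tendsto_finset_sum (Finset.univ : Finset (Fin N)) fun i _ => hL i).const_mul s
  have hle := le_of_tendsto_of_tendsto' hL2 hR hfin
  have e1 : s * ∑ i, kk * (hκ.eigenvalues i ^ (2 * s + 1) * cS s) =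
      kk * s * (cS s * ∑ i, hκ.eigenvalues i ^ (2 * s + 1)) := by
    rw [Finset.mul_sum, Finset.mul_sum, Finset.mul_sum]
    exact Finset.sum_congr rfl fun i _ => by ring
  rw [e1, mul_zero, zero_mul, zero_add, zero_add] at hle
  have hks : 0 < kk * s := mul_pos hkk hs0
  have e2 : kk * (s / (1 + s)) ^ (1 + s) * ∫ x in (-X)..X, h x =
      kk * s * ((s / (1 + s)) ^ (1 + s) / s * ∫ x in (-X)..X, h x) := by
    field_simp
  rw [e2] at hle
  exact le_of_mul_le_mul_left hle hks

end Pool.Agent.LTS
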