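import Pool.Agent.LTS.Unf2

/-!
# Unfolding for `1 ≤ γ < 3/2` (module UNF1, MP_4c716f_mp)
-/

set_option autoImplicit false

namespace Pool.Agent.LTS.Unf1

open MeasureTheory Matrix Finset Filter Topology
open scoped ComplexConjugate ComplexOrder
open Pool.Agent.LT Pool.Agent.LT.KinAux Pool.Agent.LTS.Unf2

/-- Bernoulli: the tangent of `x ↦ x^γ`, `γ ≥ 1`. -/
lemma tangent1 {γ x y : ℝ} (h1 : 1 ≤ γ) (hx : 0 < x) (hy : 0 ≤ y) :
    x ^ γ + γ * (x ^ (γ - 1) * (y - x)) ≤ y ^ γ := by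
  have hb := one_add_mul_self_le_rpow_one_add (s := y / x - 1)
    (by have : 0 ≤ y / x := by positivity
        linarith) h1
  have e1 : (1 + (y / x - 1)) = y / x := by ring
  rw [e1, Real.div_rpow hy hx.le] at hb
  have hxg : 0 < x ^ γ := Real.rpow_pos_of_pos hx γ
  have h2 : x ^ γ * (1 + γ * (y / x - 1)) ≤ y ^ γ := by
    have := mul_le_mul_of_nonneg_left hb hxg.le
    rwa [mul_div_cancel₀ _ hxg.ne'] at this
  have h3 : x ^ (γ - 1) = x ^ γ / x := by
    rw [Real.rpow_sub_one hx.ne']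
  rw [h3]
  have h4 : x ^ γ * (1 + γ * (y / x - 1)) = x ^ γ + γ * (x ^ γ / x * (y - x)) := by
    field_simp
  rw [← h4]
  exact h2

/-- Klein's inequality for `x ↦ x^γ`, `γ ≥ 1`, and a diagonal matrix. -/
lemma klein1 {N : ℕ} {κ : Mat N} (hκ : κ.IsHermitian) (b : Fin N → ℝ) (hb : ∀ j, 0 < b j) {γ : ℝ}
    (h1 : 1 ≤ γ) :
    ∑ j, b j ^ γ + γ * ((Matrix.trace (κ * κ *
      Matrix.diagonal (fun j => ((b j ^ (γ - 1) : ℝ) : ℂ)))).re - ∑ j, b j ^ γ) ≤
        ∑ i, (hκ.eigenvalues i ^ 2) ^ γ := by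
  set k := hκ.eigenvalues with hk
  set p : Fin N → Fin N → ℝ := fun j i => ‖(hκ.eigenvectorUnitary : Mat N) j i‖ ^ 2 with hp
  have hT : (Matrix.trace (κ * κ * Matrix.diagonal (fun j => ((b j ^ (γ - 1) : ℝ) : ℂ)))).re =
      ∑ j, ∑ i, p j i * (b j ^ (γ - 1) * k i ^ 2) := by
    have e0 : κ * κ = fn hκ (fun i => k i * k i) := by
      rw [← fn_mul, hk, fn_self]
    rw [e0]
    simp only [Matrix.trace, Matrix.diag_apply, Matrix.mul_diagonal, fn_diag]
    rw [Complex.re_sum]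
    refine Finset.sum_congr rfl fun j _ => ?_
    rw [← Complex.ofReal_mul, Complex.ofReal_re, Finset.sum_mul]
    refine Finset.sum_congr rfl fun i _ => ?_
    ring
  have hL : ∑ j, b j ^ γ = ∑ j, ∑ i, p j i * b j ^ γ := by
    refine Finset.sum_congr rfl fun j _ => ?_
    rw [← Finset.sum_mul, sum_p_row hκ j, one_mul]
  have hR : ∑ i, (k i ^ 2) ^ γ = ∑ j, ∑ i, p j i * (k i ^ 2) ^ γ := by
    rw [Finset.sum_comm]
    refine Finset.sum_congr rfl fun i _ => ?_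
    rw [← Finset.sum_mul, sum_p_col hκ i, one_mul]
  rw [hT, hR, hL, ← Finset.sum_sub_distrib, Finset.mul_sum, ← Finset.sum_add_distrib]
  refine Finset.sum_le_sum fun j _ => ?_
  rw [← Finset.sum_sub_distrib, Finset.mul_sum, ← Finset.sum_add_distrib]
  refine Finset.sum_le_sum fun i _ => ?_
  have ht := tangent1 (x := b j) (y := k i ^ 2) h1 (hb j) (by positivity)
  have hp0 : 0 ≤ p j i := by positivity
  have hbb : b j ^ γ = b j ^ (γ - 1) * b j := by
    rw [Real.rpow_sub_one (hb j).ne', div_mul_cancel₀ _ (hb j).ne']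
  have := mul_le_mul_of_nonneg_left ht hp0
  calc _ = p j i * (b j ^ γ + γ * (b j ^ (γ - 1) * (k i ^ 2 - b j))) := by
        have e : p j i * (b j ^ γ + γ * (b j ^ (γ - 1) * (k i ^ 2 - b j))) =
          p j i * b j ^ γ + γ * (p j i * (b j ^ (γ - 1) * k i ^ 2) -
            p j i * (b j ^ (γ - 1) * b j)) := by ring
        rw [e, ← hbb]
    _ ≤ _ := this

end Pool.Agent.LTS.Unf1

namespace Pool.Agent.LTS

open MeasureTheory Matrix Finset Filter Topology
open scoped ComplexConjugate ComplexOrder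
open Pool.Agent.LT Pool.Agent.LT.KinAux Unf2 Unf1

/-- one step of the unfolding: fixed `ζ`. -/
lemma unf1_step (hV : VertexStmt) (hT : TraceStmt) (hte : TestStmt) (hC : ConstSStmt)
    {γ : ℝ} (h1 : 1 ≤ γ) (h2 : γ < 3 / 2) {X : ℝ} {u : ℝ → ℝ} {N : ℕ}
    {ψ ψ' : Fin N → ℝ → ℂ} {b : Fin N → ℝ} (hX : 0 < X) (hu : Continuous u)
    (hu0 : ∀ x, 0 ≤ u x) (hsupp : ∀ x, X ≤ |x| → u x = 0) (hψ : ∀ j, IsH1v (ψ j) (ψ' j))
    (horth : ∀ i j, ∫ x, ψ i x * conj (ψ j x) = if i = j then 1 else 0) (hb : ∀ j, 0 < b j)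
    (hA : ((Matrix.of fun i j => (∫ x, (u x : ℂ) * (ψ i x * conj (ψ j x))) -
      ∫ x, ψ' i x * conj (ψ' j x)) - Matrix.diagonal (fun j => (b j : ℂ)) :
        Mat N).PosSemidef) {ζ : ℝ} (hζ : 0 < ζ) :
    ∑ j, b j ^ γ ≤ Lone γ * (∫ x, u x ^ (γ + 1 / 2)) + γ * (ζ * ∫ x, u x) := by
  have hψc : ∀ j, Continuous (ψ j) := fun j => h1_cont (hψ j)
  set P : Mat N := Matrix.diagonal (fun j => ((b j ^ ((γ - 1) / 2) : ℝ) : ℂ)) with hP
  -- the vertex
  obtain ⟨κ, F, hric⟩ := hV N X (∫ x in (-X)..X, u x) (fun _ x => Vm ψ u ζ P x) hX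
    ((Vm_cont1 P hψc hu hζ).comp continuous_snd).continuousOn
    (fun κ _ x => Vm_psd hu0 hζ P x) (by
      intro κ hκ
      refine intervalIntegral.integral_mono_on (by linarith) ?_ ?_
        fun x _ => Vm_trace_le hu0 hζ P x
      · exact (Complex.continuous_re.comp
          (Vm_cont1 P hψc hu hζ).matrix_trace).intervalIntegrable _ _
      · exact hu.intervalIntegrable _ _)
  have hκp : κ.PosSemidef := hric.1
  have hκ : κ.IsHermitian := hκp.1
  set k := hκ.eigenvalues with hk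
  have hk0 : ∀ i, 0 ≤ k i := fun i => hκp.eigenvalues_nonneg i
  have hPh : Pᴴ = P := by
    rw [hP, Matrix.diagonal_conjTranspose]
    congr 1
    funext j
    simp
  have hPP : P * P = Matrix.diagonal (fun j => ((b j ^ (γ - 1) : ℝ) : ℂ)) := by
    rw [hP, Matrix.diagonal_mul_diagonal]
    congr 1
    funext j
    rw [← Complex.ofReal_mul, ← Real.rpow_add (hb j)]
    congr 2
    ring
  -- the test function inequality
  have hstep := test_step hte hX hu0 hu hsupp hζ hψ horth b hA P κ F hric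
  rw [hPh, hPP, Matrix.diagonal_mul_diagonal, Matrix.trace_diagonal, Complex.re_sum] at hstep
  have hbs : ∑ j, ((b j : ℂ) * ((b j ^ (γ - 1) : ℝ) : ℂ)).re = ∑ j, b j ^ γ := by
    refine Finset.sum_congr rfl fun j _ => ?_
    rw [← Complex.ofReal_mul, Complex.ofReal_re, Real.rpow_sub_one (hb j).ne',
      mul_div_cancel₀ _ (hb j).ne']
  rw [hbs] at hstep
  -- Klein
  have hkl := klein1 hκ b hb h1
  rw [← hk] at hkl
  have hg0 : 0 ≤ γ := by linarith
  have hk1 : ∑ i, (k i ^ 2) ^ γ = ∑ i, k i ^ (2 * (γ - 1 / 2) + 1) := by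
    refine Finset.sum_congr rfl fun i _ => ?_
    rw [← Real.rpow_natCast, ← Real.rpow_mul (hk0 i)]
    congr 1
    push_cast
    ring
  rw [hk1] at hkl
  have hkl2 : ∑ j, b j ^ γ ≤ ∑ i, k i ^ (2 * (γ - 1 / 2) + 1) + γ * (ζ * ∫ x, u x) := by
    have h3 := mul_le_mul_of_nonneg_left hstep hg0
    linarith
  -- the trace inequality
  have htr := hT N X (γ - 1 / 2) κ hκ F (fun x => Vm ψ u ζ P x) (fun x => u x ^ (γ + 1 / 2)) hX
    (by linarith) (by linarith) hric (Vm_cont1 P hψc hu hζ).continuousOn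
    (fun x _ => Vm_psd hu0 hζ P x)
    (Continuous.continuousOn (hu.rpow_const fun x => Or.inr (by linarith)))
    (by
      intro x _ hx
      have h3 := Vm_eig hu0 hζ P x (s := γ - 1 / 2) (by linarith) hx
      have e : 1 + (γ - 1 / 2) = γ + 1 / 2 := by ring
      rw [e] at h3 ⊢
      exact h3)
  obtain ⟨hc0, -, hcL⟩ := hC γ (by linarith) (by linarith)
  have hint : ∫ x in (-X)..X, u x ^ (γ + 1 / 2) = ∫ x, u x ^ (γ + 1 / 2) := by
    refine int_supp hX fun x hx => ?_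
    rw [hsupp x hx, Real.zero_rpow (by linarith)]
  rw [hint] at htr
  have htr2 : ∑ i, k i ^ (2 * (γ - 1 / 2) + 1) ≤ Lone γ * ∫ x, u x ^ (γ + 1 / 2) := by
    rw [← hcL, div_mul_eq_mul_div, le_div_iff₀ hc0]
    linarith
  linarith

theorem unf1 : Unf1Stmt := by
  intro hV hT hte hC γ h1 h2 X u N ψ ψ' b hX hu hu0 hsupp hψ horth hb hA
  set I := ∫ x, u x ^ (γ + 1 / 2) with hI
  set J := ∫ x, u x with hJ
  have hstep : ∀ ζ : ℝ, 0 < ζ → ∑ j, b j ^ γ ≤ Lone γ * I + γ * (ζ * J) := fun ζ hζ =>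
    unf1_step hV hT hte hC h1 h2 hX hu hu0 hsupp hψ horth hb hA hζ
  have hlim : Tendsto (fun t : ℝ => Lone γ * I + γ * (t * J)) (𝓝[>] 0)
      (𝓝 (Lone γ * I + γ * (0 * J))) := by
    have hc : Continuous (fun t : ℝ => Lone γ * I + γ * (t * J)) := by fun_prop
    exact (hc.tendsto 0).mono_left nhdsWithin_le_nhds
  simp only [mul_zero, zero_mul, add_zero] at hlim
  refine ge_of_tendsto hlim ?_
  filter_upwards [self_mem_nhdsWithin] with t ht
  exact hstep t ht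

end Pool.Agent.LTS
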