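import Pool.Agent.LTS.Defs
import Pool.Agent.LT.KinAux

/-!
# Unfolding for `1/2 < γ < 1` (module UNF2, MP_4c716f_mp)
-/

set_option autoImplicit false

namespace Pool.Agent.LTS.Unf2

open MeasureTheory Matrix Finset Filter Topology
open scoped ComplexConjugate ComplexOrder
open Pool.Agent.LT Pool.Agent.LT.KinAux

/-! ### scalar lemmas -/

lemma tangent {γ x y : ℝ} (h0 : 0 ≤ γ) (h1 : γ ≤ 1) (hx : 0 < x) (hy : 0 ≤ y) :
    y ^ γ ≤ x ^ γ + γ * (x ^ (γ - 1) * (y - x)) := by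
  have hb := rpow_one_add_le_one_add_mul_self (s := y / x - 1)
    (by have : 0 ≤ y / x := by positivity
        linarith) h0 h1
  have e1 : (1 + (y / x - 1)) = y / x := by ring
  rw [e1, Real.div_rpow hy hx.le] at hb
  have hxg : 0 < x ^ γ := Real.rpow_pos_of_pos hx γ
  have h2 : y ^ γ ≤ x ^ γ * (1 + γ * (y / x - 1)) := by
    have := mul_le_mul_of_nonneg_left hb hxg.le
    rwa [mul_div_cancel₀ _ hxg.ne'] at this
  have h3 : x ^ (γ - 1) = x ^ γ / x := by
    rw [Real.rpow_sub_one hx.ne']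
  rw [h3]
  have h4 : x ^ γ * (1 + γ * (y / x - 1)) = x ^ γ + γ * (x ^ γ / x * (y - x)) := by
    field_simp
  rw [← h4]
  exact h2

lemma sum_rpow_le {ι : Type*} (s : Finset ι) (y : ι → ℝ) (hy : ∀ i ∈ s, 0 ≤ y i) {p : ℝ}
    (hp : 0 < p) {S : ℝ} (hS : ∑ i ∈ s, y i ≤ S) :
    ∑ i ∈ s, y i ^ (1 + p) ≤ S ^ (1 + p) := by
  have h0 : 0 ≤ ∑ i ∈ s, y i := Finset.sum_nonneg hy
  have hS0 : 0 ≤ S := h0.trans hS
  have h1 : ∀ i ∈ s, y i ^ (1 + p) ≤ y i * S ^ p := by
    intro i hi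
    have hyS : y i ≤ S := (Finset.single_le_sum hy hi).trans hS
    rcases (hy i hi).eq_or_lt with h | h
    · rw [← h, Real.zero_rpow (by positivity)]
      simp
    · rw [Real.rpow_add h, Real.rpow_one]
      exact mul_le_mul_of_nonneg_left (Real.rpow_le_rpow h.le hyS hp.le) h.le
  calc ∑ i ∈ s, y i ^ (1 + p) ≤ ∑ i ∈ s, y i * S ^ p := Finset.sum_le_sum h1
    _ = (∑ i ∈ s, y i) * S ^ p := (Finset.sum_mul _ _ _).symm
    _ ≤ S * S ^ p := mul_le_mul_of_nonneg_right hS (Real.rpow_nonneg hS0 _)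
    _ = S ^ (1 + p) := by
      rcases hS0.eq_or_lt with h | h
      · rw [← h, Real.zero_rpow (by positivity), Real.zero_rpow (by positivity), mul_zero]
      · rw [Real.rpow_add h, Real.rpow_one]

/-! ### `H¹` functions -/

lemma ii_of_memLp {E : Type*} [NormedAddCommGroup E] {f : ℝ → E} (hf : MemLp f 2 volume)
    (a b : ℝ) : IntervalIntegrable f volume a b := by
  have h1 : LocallyIntegrable f volume := hf.locallyIntegrable one_le_two
  exact (h1.integrableOn_isCompact isCompact_uIcc).intervalIntegrable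

lemma h1_cont {f f' : ℝ → ℂ} (h : IsH1v f f') : Continuous f := by
  have h1 : f = fun b => f 0 + ∫ x in (0 : ℝ)..b, f' x := by
    funext b
    rw [← h.2.2 0 b]
    ring
  rw [h1]
  exact continuous_const.add
    (intervalIntegral.continuous_primitive (fun a b => ii_of_memLp h.2.1 a b) 0)

lemma h1_sum {N : ℕ} {ψ ψ' : Fin N → ℝ → ℂ} (h : ∀ j, IsH1v (ψ j) (ψ' j)) (c : Fin N → ℂ) :
    IsH1v (fun x => ∑ j, c j * ψ j x) (fun x => ∑ j, c j * ψ' j x) := by
  refine ⟨?_, ?_, ?_⟩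
  · exact memLp_finsetSum _ fun j _ => (h j).1.const_mul (c j)
  · exact memLp_finsetSum _ fun j _ => (h j).2.1.const_mul (c j)
  · intro a b
    rw [intervalIntegral.integral_finsetSum]
    · simp_rw [intervalIntegral.integral_const_mul]
      rw [← Finset.sum_sub_distrib]
      refine Finset.sum_congr rfl fun j _ => ?_
      rw [← (h j).2.2 a b]
      ring
    · intro j _
      exact (ii_of_memLp (h j).2.1 a b).const_mul _

lemma int_mul_conj {f g : ℝ → ℂ} (hf : MemLp f 2 volume) (hg : MemLp g 2 volume) :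
    Integrable (fun x => f x * conj (g x)) volume := by
  have hg' : MemLp (fun x => conj (g x)) 2 volume := by
    refine ⟨Complex.continuous_conj.comp_aestronglyMeasurable hg.1, ?_⟩
    have : eLpNorm (fun x => conj (g x)) 2 volume = eLpNorm g 2 volume := by
      refine eLpNorm_congr_norm_ae (Eventually.of_forall fun x => ?_)
      simp
    rw [this]
    exact hg.2
  exact hf.integrable_mul hg'

/-- integral of a quadratic form. -/
lemma quad_int {N : ℕ} (P : Mat N) (w : ℝ → ℝ) (a : Fin N → ℝ → ℂ)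
    (hint : ∀ k l, Integrable (fun x => (w x : ℂ) * (a k x * conj (a l x))) volume) :
    ∫ x, w x * ∑ i, ‖∑ k, P i k * a k x‖ ^ 2 =
      (Matrix.trace ((Matrix.of fun k l => ∫ x, (w x : ℂ) * (a k x * conj (a l x)) : Mat N) *
        (Pᴴ * P))).re := by
  have h1 : ∀ x, ((w x * ∑ i, ‖∑ k, P i k * a k x‖ ^ 2 : ℝ) : ℂ) =
      ∑ i, ∑ k, ∑ l, P i k * conj (P i l) * ((w x : ℂ) * (a k x * conj (a l x))) := by
    intro x
    push_cast
    rw [Finset.mul_sum]
    refine Finset.sum_congr rfl fun i _ => ?_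
    rw [← Complex.ofReal_pow, ← Complex.normSq_eq_norm_sq, ← Complex.mul_conj, map_sum,
      Finset.sum_mul_sum, Finset.mul_sum]
    refine Finset.sum_congr rfl fun k _ => ?_
    rw [Finset.mul_sum]
    refine Finset.sum_congr rfl fun l _ => ?_
    rw [map_mul]
    ring
  have h2 : ((∫ x, w x * ∑ i, ‖∑ k, P i k * a k x‖ ^ 2 : ℝ) : ℂ) =
      ∑ i, ∑ k, ∑ l, P i k * conj (P i l) * ∫ x, ((w x : ℂ) * (a k x * conj (a l x))) := by
    rw [← integral_complex_ofReal]
    simp_rw [h1]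
    rw [integral_finsetSum]
    · refine Finset.sum_congr rfl fun i _ => ?_
      rw [integral_finsetSum]
      · refine Finset.sum_congr rfl fun k _ => ?_
        rw [integral_finsetSum]
        · refine Finset.sum_congr rfl fun l _ => ?_
          rw [integral_const_mul]
        · intro l _
          exact (hint k l).const_mul _
      · intro k _
        exact integrable_finsetSum _ fun l _ => (hint k l).const_mul _
    · intro i _
      exact integrable_finsetSum _ fun k _ =>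
        integrable_finsetSum _ fun l _ => (hint k l).const_mul _
  have h3 : (Matrix.trace ((Matrix.of fun k l => ∫ x, (w x : ℂ) * (a k x * conj (a l x)) : Mat N) *
        (Pᴴ * P))) =
      ∑ i, ∑ k, ∑ l, P i k * conj (P i l) * ∫ x, ((w x : ℂ) * (a k x * conj (a l x))) := by
    simp only [Matrix.trace, Matrix.diag_apply, Matrix.mul_apply, Matrix.of_apply,
      Matrix.conjTranspose_apply, Finset.mul_sum]
    calc _ = ∑ k, ∑ i, ∑ l, (∫ x, (w x : ℂ) * (a k x * conj (a l x))) *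
          (star (P i l) * P i k) := Finset.sum_congr rfl fun k _ => Finset.sum_comm
      _ = ∑ i, ∑ k, ∑ l, (∫ x, (w x : ℂ) * (a k x * conj (a l x))) *
          (star (P i l) * P i k) := Finset.sum_comm
      _ = _ := by
        refine Finset.sum_congr rfl fun i _ => Finset.sum_congr rfl fun k _ =>
          Finset.sum_congr rfl fun l _ => ?_
        rw [starRingEnd_apply]
        ring
  rw [h3, ← h2, Complex.ofReal_re]

/-! ### spectral computations -/

section Spec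

variable {N : ℕ} {κ : Mat N} (hκ : κ.IsHermitian)

/-- the matrix with eigenvalues `z i` in the eigenbasis of `κ`. -/
noncomputable def fn (z : Fin N → ℝ) : Mat N :=
  (hκ.eigenvectorUnitary : Mat N) * Matrix.diagonal (fun i => ((z i : ℝ) : ℂ)) *
    (hκ.eigenvectorUnitary : Mat N)ᴴ

lemma fn_mul (y z : Fin N → ℝ) : fn hκ y * fn hκ z = fn hκ (fun i => y i * z i) := by
  unfold fn
  have h := U_star_mul hκ
  calc _ = (hκ.eigenvectorUnitary : Mat N) * Matrix.diagonal (fun i => ((y i : ℝ) : ℂ)) *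
      ((hκ.eigenvectorUnitary : Mat N)ᴴ * (hκ.eigenvectorUnitary : Mat N)) *
        Matrix.diagonal (fun i => ((z i : ℝ) : ℂ)) * (hκ.eigenvectorUnitary : Mat N)ᴴ := by
        simp only [Matrix.mul_assoc]
    _ = _ := by
      rw [h, Matrix.mul_one, Matrix.mul_assoc (hκ.eigenvectorUnitary : Mat N),
        Matrix.diagonal_mul_diagonal]
      congr 2
      ext i j
      simp

lemma fn_herm (z : Fin N → ℝ) : (fn hκ z)ᴴ = fn hκ z := by
  unfold fn
  rw [Matrix.conjTranspose_mul, Matrix.conjTranspose_mul, Matrix.conjTranspose_conjTranspose,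
    Matrix.diagonal_conjTranspose, Matrix.mul_assoc]
  congr 3
  funext i
  simp

lemma fn_self : fn hκ hκ.eigenvalues = κ := by
  have h := U_conj hκ
  have h1 := U_mul_star hκ
  unfold fn
  rw [← h]
  calc _ = ((hκ.eigenvectorUnitary : Mat N) * (hκ.eigenvectorUnitary : Mat N)ᴴ) * κ *
      ((hκ.eigenvectorUnitary : Mat N) * (hκ.eigenvectorUnitary : Mat N)ᴴ) := by
        simp only [Matrix.mul_assoc]
    _ = _ := by rw [h1, Matrix.one_mul, Matrix.mul_one]

lemma trace_fn (z : Fin N → ℝ) : Matrix.trace (fn hκ z) = ((∑ i, z i : ℝ) : ℂ) := by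
  unfold fn
  rw [Matrix.trace_mul_comm, ← Matrix.mul_assoc, U_star_mul, Matrix.one_mul,
    Matrix.trace_diagonal]
  push_cast
  rfl

lemma fn_diag (z : Fin N → ℝ) (j : Fin N) :
    fn hκ z j j = ((∑ i, ‖(hκ.eigenvectorUnitary : Mat N) j i‖ ^ 2 * z i : ℝ) : ℂ) := by
  unfold fn
  rw [Matrix.mul_apply]
  push_cast
  refine Finset.sum_congr rfl fun i _ => ?_
  rw [Matrix.mul_diagonal, Matrix.conjTranspose_apply, Complex.star_def,
    mul_right_comm, Complex.mul_conj, Complex.normSq_eq_norm_sq]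
  push_cast
  rfl

lemma sum_p_row (j : Fin N) : ∑ i, ‖(hκ.eigenvectorUnitary : Mat N) j i‖ ^ 2 = 1 := by
  have h := congrFun (congrFun (U_mul_star hκ) j) j
  rw [Matrix.mul_apply, Matrix.one_apply_eq] at h
  have h2 : ((∑ i, ‖(hκ.eigenvectorUnitary : Mat N) j i‖ ^ 2 : ℝ) : ℂ) = 1 := by
    rw [← h]
    push_cast
    refine Finset.sum_congr rfl fun i _ => ?_
    rw [Matrix.conjTranspose_apply, Complex.star_def, Complex.mul_conj,
      Complex.normSq_eq_norm_sq]
    push_cast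
    rfl
  exact_mod_cast h2

lemma sum_p_col (i : Fin N) : ∑ j, ‖(hκ.eigenvectorUnitary : Mat N) j i‖ ^ 2 = 1 := by
  have h := congrFun (congrFun (U_star_mul hκ) i) i
  rw [Matrix.mul_apply, Matrix.one_apply_eq] at h
  have h2 : ((∑ j, ‖(hκ.eigenvectorUnitary : Mat N) j i‖ ^ 2 : ℝ) : ℂ) = 1 := by
    rw [← h]
    push_cast
    refine Finset.sum_congr rfl fun j _ => ?_
    rw [Matrix.conjTranspose_apply, Complex.star_def, mul_comm, Complex.mul_conj,
      Complex.normSq_eq_norm_sq]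
    push_cast
    rfl
  exact_mod_cast h2

/-- Klein's inequality for `x ↦ (x + δ)^γ`, `0 < γ < 1`. -/
lemma klein (b : Fin N → ℝ) (hb : ∀ j, 0 < b j) {γ δ : ℝ} (h0 : 0 < γ) (h1 : γ < 1)
    (hδ : 0 < δ) :
    ∑ j, (b j + δ) ^ γ ≤ ∑ i, (hκ.eigenvalues i ^ 2 + δ) ^ γ +
      γ * ((Matrix.trace (Matrix.diagonal (fun j => (b j : ℂ)) *
        fn hκ (fun i => (hκ.eigenvalues i ^ 2 + δ) ^ (γ - 1)))).re -
        (Matrix.trace (κ * κ * fn hκ (fun i => (hκ.eigenvalues i ^ 2 + δ) ^ (γ - 1)))).re) := by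
  set k := hκ.eigenvalues with hk
  set z : Fin N → ℝ := fun i => (k i ^ 2 + δ) ^ (γ - 1) with hz
  set p : Fin N → Fin N → ℝ := fun j i => ‖(hκ.eigenvectorUnitary : Mat N) j i‖ ^ 2 with hp
  have hT1 : (Matrix.trace (Matrix.diagonal (fun j => (b j : ℂ)) * fn hκ z)).re =
      ∑ j, ∑ i, p j i * (z i * b j) := by
    simp only [Matrix.trace, Matrix.diag_apply, Matrix.diagonal_mul, fn_diag]
    rw [Complex.re_sum]
    refine Finset.sum_congr rfl fun j _ => ?_
    rw [← Complex.ofReal_mul, Complex.ofReal_re, Finset.mul_sum]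
    refine Finset.sum_congr rfl fun i _ => ?_
    ring
  have hT2 : (Matrix.trace (κ * κ * fn hκ z)).re = ∑ j, ∑ i, p j i * (z i * k i ^ 2) := by
    have e0 : κ * κ = fn hκ (fun i => k i * k i) := by
      rw [← fn_mul, hk, fn_self]
    have e1 : κ * κ * fn hκ z = fn hκ (fun i => k i * k i * z i) := by
      rw [e0, fn_mul]
    rw [e1, trace_fn, Complex.ofReal_re, Finset.sum_comm]
    refine Finset.sum_congr rfl fun i _ => ?_
    rw [← Finset.sum_mul, sum_p_col hκ i]
    ring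
  have hL : ∑ j, (b j + δ) ^ γ = ∑ j, ∑ i, p j i * (b j + δ) ^ γ := by
    refine Finset.sum_congr rfl fun j _ => ?_
    rw [← Finset.sum_mul, sum_p_row hκ j, one_mul]
  have hR : ∑ i, (k i ^ 2 + δ) ^ γ = ∑ j, ∑ i, p j i * (k i ^ 2 + δ) ^ γ := by
    rw [Finset.sum_comm]
    refine Finset.sum_congr rfl fun i _ => ?_
    rw [← Finset.sum_mul, sum_p_col hκ i, one_mul]
  rw [hT1, hT2, hL, hR, ← Finset.sum_sub_distrib, Finset.mul_sum, ← Finset.sum_add_distrib]
  refine Finset.sum_le_sum fun j _ => ?_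
  rw [← Finset.sum_sub_distrib, Finset.mul_sum, ← Finset.sum_add_distrib]
  refine Finset.sum_le_sum fun i _ => ?_
  have ht := tangent (γ := γ) (x := k i ^ 2 + δ) (y := b j + δ) h0.le h1.le (by positivity)
    (by have := hb j; linarith)
  have hp0 : 0 ≤ p j i := by positivity
  have := mul_le_mul_of_nonneg_left ht hp0
  calc p j i * (b j + δ) ^ γ ≤ _ := this
    _ = _ := by
      simp only [hz]
      ring

end Spec

/-! ### the potential -/

section Pot

variable {N : ℕ} (ψ : Fin N → ℝ → ℂ) (u : ℝ → ℝ) (ζ : ℝ)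

noncomputable def ph (P : Mat N) (x : ℝ) (i : Fin N) : ℂ := ∑ j, P i j * ψ j x

noncomputable def n2 (P : Mat N) (x : ℝ) : ℝ := ∑ i, ‖ph ψ P x i‖ ^ 2

noncomputable def Vm (P : Mat N) (x : ℝ) : Mat N :=
  ((u x / (n2 ψ P x + ζ) : ℝ) : ℂ) • Matrix.vecMulVec (ph ψ P x) (star (ph ψ P x))

lemma n2_nonneg (P : Mat N) (x : ℝ) : 0 ≤ n2 ψ P x := Finset.sum_nonneg fun i _ => by positivity

variable {ψ u ζ}

lemma Vm_psd (hu : ∀ x, 0 ≤ u x) (hζ : 0 < ζ) (P : Mat N) (x : ℝ) : (Vm ψ u ζ P x).PosSemidef := by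
  unfold Vm
  refine (Matrix.posSemidef_vecMulVec_self_star _).smul ?_
  have h1 := n2_nonneg ψ P x
  have h2 := hu x
  have : 0 ≤ u x / (n2 ψ P x + ζ) := by positivity
  exact_mod_cast this

lemma Vm_trace (P : Mat N) (x : ℝ) :
    Matrix.trace (Vm ψ u ζ P x) = ((u x / (n2 ψ P x + ζ) * n2 ψ P x : ℝ) : ℂ) := by
  unfold Vm
  rw [Matrix.trace_smul, Matrix.trace]
  simp only [Matrix.diag_apply, Matrix.vecMulVec_apply, Pi.star_apply, Complex.star_def,
    Complex.mul_conj, Complex.normSq_eq_norm_sq, smul_eq_mul, n2]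
  push_cast
  rfl

lemma frac_le {u n ζ : ℝ} (hu : 0 ≤ u) (hn : 0 ≤ n) (hζ : 0 < ζ) : u / (n + ζ) * n ≤ u := by
  rw [div_mul_eq_mul_div, div_le_iff₀ (by positivity)]
  nlinarith

lemma Vm_trace_le (hu : ∀ x, 0 ≤ u x) (hζ : 0 < ζ) (P : Mat N) (x : ℝ) :
    (Matrix.trace (Vm ψ u ζ P x)).re ≤ u x := by
  rw [Vm_trace, Complex.ofReal_re]
  exact frac_le (hu x) (n2_nonneg ψ P x) hζ

lemma Vm_eig (hu : ∀ x, 0 ≤ u x) (hζ : 0 < ζ) (P : Mat N) (x : ℝ) {s : ℝ} (hs : 0 < s)
    (hx : (Vm ψ u ζ P x).IsHermitian) : ∑ i, hx.eigenvalues i ^ (1 + s) ≤ u x ^ (1 + s) := by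
  refine sum_rpow_le _ _ (fun i _ => (Vm_psd hu hζ P x).eigenvalues_nonneg i) hs ?_
  have h1 := hx.trace_eq_sum_eigenvalues
  have h2 := Vm_trace_le (ψ := ψ) hu hζ P x
  rw [h1] at h2
  simpa using h2

lemma ph_cont {S : Set (Mat N)} {Ψ : Mat N → Mat N} (hΨ : ContinuousOn Ψ S)
    (hψ : ∀ j, Continuous (ψ j)) (i : Fin N) :
    ContinuousOn (fun p : Mat N × ℝ => ph ψ (Ψ p.1) p.2 i) {p | p.1 ∈ S} := by
  unfold ph
  refine continuousOn_finsetSum _ fun j _ => ?_
  refine ContinuousOn.mul ?_ ?_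
  · have h1 : ContinuousOn (fun p : Mat N × ℝ => Ψ p.1) {p | p.1 ∈ S} :=
      hΨ.comp continuousOn_fst (fun p hp => hp)
    exact (continuous_apply_apply i j).comp_continuousOn h1
  · exact ((hψ j).comp continuous_snd).continuousOn

lemma Vm_cont {S : Set (Mat N)} {Ψ : Mat N → Mat N} (hΨ : ContinuousOn Ψ S)
    (hψ : ∀ j, Continuous (ψ j)) (hu : Continuous u) (hζ : 0 < ζ) :
    ContinuousOn (fun p : Mat N × ℝ => Vm ψ u ζ (Ψ p.1) p.2) {p | p.1 ∈ S} := by
  have hph := fun i => ph_cont hΨ hψ i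
  have hn : ContinuousOn (fun p : Mat N × ℝ => n2 ψ (Ψ p.1) p.2) {p | p.1 ∈ S} := by
    unfold n2
    exact continuousOn_finsetSum _ fun i _ => ((hph i).norm).pow 2
  refine continuousOn_pi.2 fun i => continuousOn_pi.2 fun j => ?_
  simp only [Vm, Matrix.smul_apply, Matrix.vecMulVec_apply, Pi.star_apply, Complex.star_def,
    smul_eq_mul]
  refine ContinuousOn.mul ?_ ?_
  · refine Complex.continuous_ofReal.comp_continuousOn ?_
    refine ContinuousOn.div (hu.comp continuous_snd).continuousOn (hn.add continuousOn_const) ?_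
    intro p _
    have := n2_nonneg ψ (Ψ p.1) p.2
    positivity
  · exact (hph i).mul (Complex.continuous_conj.comp_continuousOn (hph j))

lemma Vm_cont1 (P : Mat N) (hψ : ∀ j, Continuous (ψ j)) (hu : Continuous u) (hζ : 0 < ζ) :
    Continuous (fun x => Vm ψ u ζ P x) := by
  have h := Vm_cont (S := Set.univ) (Ψ := fun _ => P) (ψ := ψ) (u := u) (ζ := ζ)
    continuousOn_const hψ hu hζ
  have h' : Continuous (fun p : Mat N × ℝ => Vm ψ u ζ P p.2) := by
    rw [← continuousOn_univ]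
    exact h.mono (fun _ _ => trivial)
  exact h'.comp (Continuous.prodMk (continuous_const (y := P)) continuous_id)

lemma form_eq (P : Mat N) (x : ℝ) :
    (∑ i, ∑ j, Vm ψ u ζ P x i j * inner ℂ (ph ψ P x i) (ph ψ P x j)) =
      ((u x / (n2 ψ P x + ζ) * (n2 ψ P x) ^ 2 : ℝ) : ℂ) := by
  unfold Vm
  have h1 : ∀ i j, (((u x / (n2 ψ P x + ζ) : ℝ) : ℂ) •
      Matrix.vecMulVec (ph ψ P x) (star (ph ψ P x))) i j * inner ℂ (ph ψ P x i) (ph ψ P x j) =
      ((u x / (n2 ψ P x + ζ) : ℝ) : ℂ) * (((‖ph ψ P x i‖ ^ 2 : ℝ) : ℂ) *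
        ((‖ph ψ P x j‖ ^ 2 : ℝ) : ℂ)) := by
    intro i j
    rw [← Complex.normSq_eq_norm_sq, ← Complex.normSq_eq_norm_sq, ← Complex.mul_conj,
      ← Complex.mul_conj]
    simp only [Matrix.smul_apply, Matrix.vecMulVec_apply, Pi.star_apply, Complex.star_def,
      smul_eq_mul, RCLike.inner_apply]
    ring
  simp_rw [h1]
  simp_rw [← Finset.mul_sum]
  rw [← Finset.sum_mul]
  simp only [n2]
  push_cast
  ring

lemma form_ge (hu : ∀ x, 0 ≤ u x) (hζ : 0 < ζ) (P : Mat N) (x : ℝ) :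
    u x * n2 ψ P x - ζ * u x ≤
      (∑ i, ∑ j, Vm ψ u ζ P x i j * inner ℂ (ph ψ P x i) (ph ψ P x j)).re := by
  rw [form_eq, Complex.ofReal_re]
  have h1 := n2_nonneg ψ P x
  have h2 := hu x
  rw [div_mul_eq_mul_div, le_div_iff₀ (by positivity)]
  nlinarith [mul_nonneg h2 (mul_self_nonneg ζ)]

lemma int_supp {X : ℝ} (hX : 0 < X) {f : ℝ → ℝ} (hf : ∀ x, X ≤ |x| → f x = 0) :
    ∫ x in (-X)..X, f x = ∫ x, f x := by
  rw [intervalIntegral.integral_of_le (by linarith)]
  refine setIntegral_eq_integral_of_forall_compl_eq_zero fun x hx => hf x ?_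
  rw [Set.mem_Ioc, not_and_or, not_lt, not_le] at hx
  rcases hx with h | h
  · rw [abs_of_nonpos (by linarith)]; linarith
  · rw [abs_of_nonneg (by linarith)]; linarith

lemma cross_int {N : ℕ} (K P : Mat N) {ψ : Fin N → ℝ → ℂ}
    (hint : ∀ k l, Integrable (fun x => ψ k x * conj (ψ l x)) volume)
    (horth : ∀ i j, ∫ x, ψ i x * conj (ψ j x) = if i = j then 1 else 0) :
    ∫ x, (∑ i, ∑ j, K i j * inner ℂ (ph ψ P x i) (ph ψ P x j)).re =
      (Matrix.trace (K * (P * Pᴴ))).re := by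
  have h1 : ∀ x, (∑ i, ∑ j, K i j * inner ℂ (ph ψ P x i) (ph ψ P x j)) =
      ∑ i, ∑ j, ∑ k, ∑ l, K i j * (conj (P i k) * P j l) * (ψ l x * conj (ψ k x)) := by
    intro x
    refine Finset.sum_congr rfl fun i _ => Finset.sum_congr rfl fun j _ => ?_
    have : inner ℂ (ph ψ P x i) (ph ψ P x j) = conj (ph ψ P x i) * ph ψ P x j := by
      rw [RCLike.inner_apply]
      ring
    rw [this]
    unfold ph
    rw [map_sum, Finset.sum_mul_sum, Finset.mul_sum]
    refine Finset.sum_congr rfl fun k _ => ?_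
    rw [Finset.mul_sum]
    refine Finset.sum_congr rfl fun l _ => ?_
    rw [map_mul]
    ring
  have hi4 : ∀ i j k, Integrable (fun x => ∑ l, K i j * (conj (P i k) * P j l) *
      (ψ l x * conj (ψ k x))) volume := fun i j k =>
    integrable_finsetSum _ fun l _ => (hint l k).const_mul _
  have hi3 : ∀ i j, Integrable (fun x => ∑ k, ∑ l, K i j * (conj (P i k) * P j l) *
      (ψ l x * conj (ψ k x))) volume := fun i j =>
    integrable_finsetSum _ fun k _ => hi4 i j k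
  have hi2 : ∀ i, Integrable (fun x => ∑ j, ∑ k, ∑ l, K i j * (conj (P i k) * P j l) *
      (ψ l x * conj (ψ k x))) volume := fun i =>
    integrable_finsetSum _ fun j _ => hi3 i j
  have hi1 : Integrable (fun x => ∑ i, ∑ j, ∑ k, ∑ l, K i j * (conj (P i k) * P j l) *
      (ψ l x * conj (ψ k x))) volume :=
    integrable_finsetSum _ fun i _ => hi2 i
  have h2 : ∫ x, (∑ i, ∑ j, K i j * inner ℂ (ph ψ P x i) (ph ψ P x j)).re =
      (∫ x, ∑ i, ∑ j, ∑ k, ∑ l, K i j * (conj (P i k) * P j l) * (ψ l x * conj (ψ k x))).re := by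
    simp_rw [h1]
    exact integral_re (𝕜 := ℂ) hi1
  rw [h2, integral_finsetSum _ fun i _ => hi2 i]
  simp_rw [integral_finsetSum _ fun j _ => hi3 _ j, integral_finsetSum _ fun k _ => hi4 _ _ k,
    integral_finsetSum _ fun l _ => (hint l _).const_mul _, integral_const_mul, horth]
  congr 1
  simp only [Matrix.trace, Matrix.diag_apply, Matrix.mul_apply, Matrix.conjTranspose_apply,
    Finset.mul_sum]
  refine Finset.sum_congr rfl fun i _ => Finset.sum_congr rfl fun j _ =>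
    Finset.sum_congr rfl fun k _ => ?_
  rw [Finset.sum_eq_single k]
  · rw [if_pos rfl, mul_one, starRingEnd_apply]
    ring
  · intro l _ hl
    rw [if_neg hl, mul_zero]
  · intro h
    exact absurd (Finset.mem_univ k) h

lemma test_step (hte : TestStmt) {X : ℝ} (hX : 0 < X) (hu0 : ∀ x, 0 ≤ u x) (hu : Continuous u)
    (hsupp : ∀ x, X ≤ |x| → u x = 0) (hζ : 0 < ζ) {ψ' : Fin N → ℝ → ℂ}
    (hψ : ∀ j, IsH1v (ψ j) (ψ' j))
    (horth : ∀ i j, ∫ x, ψ i x * conj (ψ j x) = if i = j then 1 else 0) (b : Fin N → ℝ)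
    (hA : ((Matrix.of fun i j => (∫ x, (u x : ℂ) * (ψ i x * conj (ψ j x))) -
      ∫ x, ψ' i x * conj (ψ' j x)) - Matrix.diagonal (fun j => (b j : ℂ)) :
        Mat N).PosSemidef) (P κ : Mat N) (F : ℝ → Mat N)
    (hric : IsRic X κ F (fun x => Vm ψ u ζ P x)) :
    (Matrix.trace (Matrix.diagonal (fun j => (b j : ℂ)) * (Pᴴ * P))).re - ζ * ∫ x, u x ≤
      (Matrix.trace (κ * κ * (P * Pᴴ))).re := by
  have hψc : ∀ j, Continuous (ψ j) := fun j => h1_cont (hψ j)
  have hcV : Continuous (fun x => Vm ψ u ζ P x) := Vm_cont1 P hψc hu hζ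
  have hphc : ∀ i, Continuous (fun x => ph ψ P x i) := fun i =>
    continuous_finsetSum _ fun j _ => continuous_const.mul (hψc j)
  have hn2c : Continuous (fun x => n2 ψ P x) :=
    continuous_finsetSum _ fun i _ => ((hphc i).norm).pow 2
  have hT := hte ℂ N X κ F (fun x => Vm ψ u ζ P x) (fun i x => ph ψ P x i)
    (fun i x => ph ψ' P x i) hX hric hcV.continuousOn (fun i => h1_sum hψ (P i))
  -- left side
  have hint1 : ∀ k l, Integrable (fun x => ψ k x * conj (ψ l x)) volume := fun k l =>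
    int_mul_conj (hψ k).1 (hψ l).1
  have hint2 : ∀ k l, Integrable (fun x => ψ' k x * conj (ψ' l x)) volume := fun k l =>
    int_mul_conj (hψ k).2.1 (hψ l).2.1
  have hcs : HasCompactSupport u := HasCompactSupport.intro (isCompact_Icc (a := -X) (b := X))
    (fun x hx => by
      refine hsupp x ?_
      rw [Set.mem_Icc, not_and_or, not_le, not_le] at hx
      rcases hx with h | h
      · rw [abs_of_nonpos (by linarith)]; linarith
      · rw [abs_of_nonneg (by linarith)]; linarith)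
  have hintu : ∀ k l, Integrable (fun x => (u x : ℂ) * (ψ k x * conj (ψ l x))) volume := by
    intro k l
    refine Continuous.integrable_of_hasCompactSupport ?_ ?_
    · exact (Complex.continuous_ofReal.comp hu).mul
        ((hψc k).mul (Complex.continuous_conj.comp (hψc l)))
    · refine HasCompactSupport.mul_right ?_
      exact hcs.comp_left (g := fun y : ℝ => (y : ℂ)) (by simp)
  have hL : ∫ x in (-X)..X, (u x * n2 ψ P x - ζ * u x) ≤
      ∫ x in (-X)..X, (∑ i, ∑ j, Vm ψ u ζ P x i j * inner ℂ (ph ψ P x i) (ph ψ P x j)).re := by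
    refine intervalIntegral.integral_mono_on (by linarith) ?_ ?_ fun x _ => form_ge hu0 hζ P x
    · exact ((hu.mul hn2c).sub (continuous_const.mul hu)).intervalIntegrable _ _
    · refine Continuous.intervalIntegrable ?_ _ _
      simp_rw [form_eq, Complex.ofReal_re]
      refine (hu.div (hn2c.add continuous_const) fun x => ?_).mul (hn2c.pow 2)
      have h5 := n2_nonneg ψ P x
      have h6 : n2 ψ P x + ζ ≠ 0 := ne_of_gt (by linarith)
      exact h6
  have hL2 : ∫ x in (-X)..X, (u x * n2 ψ P x - ζ * u x) =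
      (∫ x, u x * n2 ψ P x) - ζ * ∫ x, u x := by
    rw [int_supp hX (fun x hx => by rw [hsupp x hx]; ring), integral_sub, integral_const_mul]
    · refine Continuous.integrable_of_hasCompactSupport (hu.mul hn2c) hcs.mul_right
    · exact (hu.integrable_of_hasCompactSupport hcs).const_mul ζ
  have hQ1 : ∫ x, u x * n2 ψ P x =
      (Matrix.trace ((Matrix.of fun k l => ∫ x, (u x : ℂ) * (ψ k x * conj (ψ l x)) : Mat N) *
        (Pᴴ * P))).re := quad_int P u ψ hintu
  have hQ2 : ∑ i, ∫ x, ‖ph ψ' P x i‖ ^ 2 =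
      (Matrix.trace ((Matrix.of fun k l => ∫ x, ψ' k x * conj (ψ' l x) : Mat N) *
        (Pᴴ * P))).re := by
    have h := quad_int P (fun _ => 1) ψ' (by simpa using hint2)
    simp only [one_mul, Complex.ofReal_one] at h
    rw [← h, integral_finsetSum]
    · rfl
    · intro i _
      exact (memLp_two_iff_integrable_sq_norm ((h1_sum hψ (P i)).2.1.1)).1 (h1_sum hψ (P i)).2.1
  have hQ3 := cross_int (κ * κ) P hint1 horth
  have hZ : 0 ≤ (Matrix.trace ((Matrix.of fun i j => (∫ x, (u x : ℂ) * (ψ i x * conj (ψ j x))) -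
      ∫ x, ψ' i x * conj (ψ' j x)) * (Pᴴ * P) -
        Matrix.diagonal (fun j => (b j : ℂ)) * (Pᴴ * P))).re := by
    rw [← Matrix.sub_mul]
    have h := (hA.mul_mul_conjTranspose_same P).trace_nonneg
    rw [Matrix.mul_assoc, Matrix.trace_mul_comm, Matrix.mul_assoc] at h
    exact (Complex.le_def.1 h).1
  have hsub : (Matrix.of fun i j => (∫ x, (u x : ℂ) * (ψ i x * conj (ψ j x))) -
      ∫ x, ψ' i x * conj (ψ' j x) : Mat N) =
      (Matrix.of fun i j => ∫ x, (u x : ℂ) * (ψ i x * conj (ψ j x))) -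
        (Matrix.of fun i j => ∫ x, ψ' i x * conj (ψ' j x)) := by
    ext i j
    simp
  rw [hsub, Matrix.sub_mul, Matrix.trace_sub, Matrix.trace_sub, Complex.sub_re, Complex.sub_re,
    ← hQ1, ← hQ2] at hZ
  rw [hQ3] at hT
  linarith [hT, hL, hL2, hZ]

end Pot

end Pool.Agent.LTS.Unf2

namespace Pool.Agent.LTS

open MeasureTheory Matrix Finset Filter Topology
open scoped ComplexConjugate ComplexOrder
open Pool.Agent.LT Pool.Agent.LT.KinAux Unf2

/-- one step of the unfolding: fixed `δ`, `ζ`. -/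
lemma unf2_step (hV : VertexStmt) (hT : TraceStmt) (hte : TestStmt) (hC : ConstSStmt)
    (hF : FunStmt) {γ : ℝ} (h1 : 1 / 2 < γ) (h2 : γ < 1) {X : ℝ} {u : ℝ → ℝ} {N : ℕ}
    {ψ ψ' : Fin N → ℝ → ℂ} {b : Fin N → ℝ} (hX : 0 < X) (hu : Continuous u)
    (hu0 : ∀ x, 0 ≤ u x) (hsupp : ∀ x, X ≤ |x| → u x = 0) (hψ : ∀ j, IsH1v (ψ j) (ψ' j))
    (horth : ∀ i j, ∫ x, ψ i x * conj (ψ j x) = if i = j then 1 else 0) (hb : ∀ j, 0 < b j)
    (hA : ((Matrix.of fun i j => (∫ x, (u x : ℂ) * (ψ i x * conj (ψ j x))) -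
      ∫ x, ψ' i x * conj (ψ' j x)) - Matrix.diagonal (fun j => (b j : ℂ)) :
        Mat N).PosSemidef) {δ ζ : ℝ} (hδ : 0 < δ) (hζ : 0 < ζ) :
    ∑ j, b j ^ γ ≤ Lone γ * (∫ x, u x ^ (γ + 1 / 2)) + N * δ ^ γ + γ * (ζ * ∫ x, u x) := by
  have hψc : ∀ j, Continuous (ψ j) := fun j => h1_cont (hψ j)
  have hf : Continuous (fun t : ℝ => (t ^ 2 + δ) ^ ((γ - 1) / 2)) := by
    refine Continuous.rpow_const (by fun_prop) fun t => Or.inl ?_
    positivity
  obtain ⟨Ψ, hΨc, hΨ⟩ := hF N _ hf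
  -- the vertex
  obtain ⟨κ, F, hric⟩ := hV N X (∫ x in (-X)..X, u x) (fun κ x => Vm ψ u ζ (Ψ κ) x) hX
    (Vm_cont hΨc hψc hu hζ) (fun κ _ x => Vm_psd hu0 hζ (Ψ κ) x) (by
      intro κ hκ
      refine intervalIntegral.integral_mono_on (by linarith) ?_ ?_
        fun x _ => Vm_trace_le hu0 hζ (Ψ κ) x
      · exact (Complex.continuous_re.comp
          (Vm_cont1 (Ψ κ) hψc hu hζ).matrix_trace).intervalIntegrable _ _
      · exact hu.intervalIntegrable _ _)
  have hκp : κ.PosSemidef := hric.1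
  have hκ : κ.IsHermitian := hκp.1
  set P := Ψ κ with hP
  set k := hκ.eigenvalues with hk
  have hk0 : ∀ i, 0 ≤ k i := fun i => hκp.eigenvalues_nonneg i
  have hPfn : P = fn hκ (fun i => (k i ^ 2 + δ) ^ ((γ - 1) / 2)) := hΨ κ hκ
  have hPP : P * P = fn hκ (fun i => (k i ^ 2 + δ) ^ (γ - 1)) := by
    rw [hPfn, fn_mul]
    congr 1
    funext i
    rw [← Real.rpow_add (by positivity)]
    congr 1
    ring
  have hPh : Pᴴ = P := by rw [hPfn, fn_herm]
  -- the test function inequality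
  have hstep := test_step hte hX hu0 hu hsupp hζ hψ horth b hA P κ F hric
  rw [hPh, hPP] at hstep
  -- Klein
  have hkl := klein hκ b hb (γ := γ) (by linarith) h2 hδ
  rw [← hk] at hkl
  have hg0 : 0 ≤ γ := by linarith
  have hkl2 : ∑ j, (b j + δ) ^ γ ≤ ∑ i, (k i ^ 2 + δ) ^ γ + γ * (ζ * ∫ x, u x) := by
    refine hkl.trans ?_
    refine add_le_add_right ?_ _
    refine mul_le_mul_of_nonneg_left ?_ hg0
    linarith
  have hb1 : ∑ j, b j ^ γ ≤ ∑ j, (b j + δ) ^ γ := by
    refine Finset.sum_le_sum fun j _ => ?_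
    exact Real.rpow_le_rpow (hb j).le (by linarith) hg0
  have hk1 : ∑ i, (k i ^ 2 + δ) ^ γ ≤ ∑ i, k i ^ (2 * (γ - 1 / 2) + 1) + N * δ ^ γ := by
    have h3 : ∀ i, (k i ^ 2 + δ) ^ γ ≤ k i ^ (2 * (γ - 1 / 2) + 1) + δ ^ γ := by
      intro i
      have h4 := Real.rpow_add_le_add_rpow (sq_nonneg (k i)) hδ.le hg0 h2.le
      refine h4.trans (le_of_eq ?_)
      congr 1
      rw [← Real.rpow_natCast, ← Real.rpow_mul (hk0 i)]
      congr 1
      push_cast
      ring
    calc ∑ i, (k i ^ 2 + δ) ^ γ ≤ ∑ i, (k i ^ (2 * (γ - 1 / 2) + 1) + δ ^ γ) :=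
        Finset.sum_le_sum fun i _ => h3 i
      _ = _ := by
        rw [Finset.sum_add_distrib]
        simp
  -- the trace inequality
  have htr := hT N X (γ - 1 / 2) κ hκ F (fun x => Vm ψ u ζ P x) (fun x => u x ^ (γ + 1 / 2)) hX
    (by linarith) (by linarith) hric (Vm_cont1 P hψc hu hζ).continuousOn
    (fun x _ => Vm_psd hu0 hζ P x)
    (Continuous.continuousOn (hu.rpow_const fun x => Or.inr (by linarith)))
    (by
      intro x _ hx
      have h3 := Vm_eig hu0 hζ P x (s := γ - 1 / 2) (by linarith) hx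
      have e : 1 + (γ - 1 / 2) = γ + 1 / 2 := by ring
      rw [e] at h3 ⊢
      exact h3)
  obtain ⟨hc0, -, hcL⟩ := hC γ h1 (by linarith)
  have hint : ∫ x in (-X)..X, u x ^ (γ + 1 / 2) = ∫ x, u x ^ (γ + 1 / 2) := by
    refine int_supp hX fun x hx => ?_
    rw [hsupp x hx, Real.zero_rpow (by linarith)]
  rw [hint] at htr
  have htr2 : ∑ i, k i ^ (2 * (γ - 1 / 2) + 1) ≤ Lone γ * ∫ x, u x ^ (γ + 1 / 2) := by
    rw [← hcL, div_mul_eq_mul_div, le_div_iff₀ hc0]
    linarith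
  linarith

theorem unf2 : Unf2Stmt := by
  intro hV hT hte hC hF γ h1 h2 X u N ψ ψ' b hX hu hu0 hsupp hψ horth hb hA
  set I := ∫ x, u x ^ (γ + 1 / 2) with hI
  set J := ∫ x, u x with hJ
  have hstep : ∀ δ ζ : ℝ, 0 < δ → 0 < ζ →
      ∑ j, b j ^ γ ≤ Lone γ * I + N * δ ^ γ + γ * (ζ * J) := fun δ ζ hδ hζ =>
    unf2_step hV hT hte hC hF h1 h2 hX hu hu0 hsupp hψ horth hb hA hδ hζ
  have hlim : Tendsto (fun t : ℝ => Lone γ * I + N * t ^ γ + γ * (t * J)) (𝓝[>] 0)
      (𝓝 (Lone γ * I + N * 0 ^ γ + γ * (0 * J))) := by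
    have hc : Continuous (fun t : ℝ => Lone γ * I + N * t ^ γ + γ * (t * J)) := by
      have : Continuous (fun t : ℝ => t ^ γ) :=
        continuous_id.rpow_const fun x => Or.inr (by linarith)
      fun_prop
    exact (hc.tendsto 0).mono_left nhdsWithin_le_nhds
  rw [Real.zero_rpow (by linarith)] at hlim
  simp only [mul_zero, zero_mul, add_zero] at hlim
  refine ge_of_tendsto hlim ?_
  filter_upwards [self_mem_nhdsWithin] with t ht
  exact hstep t t ht ht

end Pool.Agent.LTS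

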