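import Pool.Agent.LTS.Defs
import Pool.Agent.LTV.Vert

/-!
# The vertex lemma (module VERTEX of MP_4c716f_mp)

Unfolding by Brouwer's theorem: for every positive semidefinite matrix potential `V (κ, x)` on
`[-X, X]`, depending continuously on `κ`, there are `κ ≥ 0` and a solution of
`F' = κ² - F² - V (κ, x)`, `F (-X) = κ`, `F X = -κ`, `-κ ≤ F ≤ κ`.
-/

set_option autoImplicit false

namespace Pool.Agent.LTS

open MeasureTheory Matrix Finset
open scoped ComplexConjugate ComplexOrder InnerProductSpace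

lemma cont_quad {E : Type*} [NormedAddCommGroup E] [InnerProductSpace ℂ E] {W : ℝ → E →L[ℂ] E}
    (hW : Continuous W) (v : E) : Continuous fun t => (⟪W t v, v⟫_ℂ).re := by
  have h2 : Continuous fun t => W t v := (ContinuousLinearMap.apply ℂ E v).continuous.comp hW
  exact Complex.continuous_re.comp (h2.inner continuous_const)

lemma cont_fst {A B C : Type*} [TopologicalSpace A] [TopologicalSpace B] [TopologicalSpace C]
    {f : A → B → C} (h : Continuous fun p : A × B => f p.1 p.2) (a : A) : Continuous (f a) :=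
  h.comp (Continuous.prodMk continuous_const continuous_id)

/-- operators on `ℂ^N` -/
abbrev Op (N : ℕ) := EuclideanSpace ℂ (Fin N) →L[ℂ] EuclideanSpace ℂ (Fin N)

/-- matrices as operators -/
noncomputable def toE (N : ℕ) (M : Mat N) : Op N := Matrix.toEuclideanCLM (𝕜 := ℂ) (n := Fin N) M

/-- operators as matrices -/
noncomputable def ofE (N : ℕ) (C : Op N) : Mat N :=
  (Matrix.toEuclideanCLM (𝕜 := ℂ) (n := Fin N)).symm C

lemma toE_ofE {N : ℕ} (C : Op N) : toE N (ofE N C) = C := StarAlgEquiv.apply_symm_apply _ C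

lemma ofE_toE {N : ℕ} (M : Mat N) : ofE N (toE N M) = M := StarAlgEquiv.symm_apply_apply _ M

lemma toE_injective {N : ℕ} : Function.Injective (toE N) :=
  (Matrix.toEuclideanCLM (𝕜 := ℂ) (n := Fin N)).injective

lemma toE_add {N : ℕ} (A B : Mat N) : toE N (A + B) = toE N A + toE N B := map_add _ A B

lemma toE_smul {N : ℕ} (c : ℂ) (A : Mat N) : toE N (c • A) = c • toE N A := map_smul _ c A

lemma toE_mul {N : ℕ} (A B : Mat N) : toE N (A * B) = toE N A * toE N B := map_mul _ A B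

lemma toE_sum {N m : ℕ} (f : Fin m → Mat N) : toE N (∑ i, f i) = ∑ i, toE N (f i) :=
  map_sum (Matrix.toEuclideanCLM (𝕜 := ℂ) (n := Fin N)) f Finset.univ

lemma toE_star {N : ℕ} (A : Mat N) : toE N (star A) = star (toE N A) := map_star _ A

lemma ofE_add {N : ℕ} (A B : Op N) : ofE N (A + B) = ofE N A + ofE N B := by
  apply toE_injective
  rw [toE_add, toE_ofE, toE_ofE, toE_ofE]

lemma ofE_smul {N : ℕ} (c : ℂ) (A : Op N) : ofE N (c • A) = c • ofE N A := by
  apply toE_injective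
  rw [toE_smul, toE_ofE, toE_ofE]

lemma ofE_mul {N : ℕ} (A B : Op N) : ofE N (A * B) = ofE N A * ofE N B := by
  apply toE_injective
  rw [toE_mul, toE_ofE, toE_ofE, toE_ofE]

lemma ofE_star {N : ℕ} (A : Op N) : ofE N (star A) = star (ofE N A) := by
  apply toE_injective
  rw [toE_star, toE_ofE, toE_ofE]

lemma ofE_neg {N : ℕ} (A : Op N) : ofE N (-A) = -ofE N A := by
  apply toE_injective
  have h : toE N (-(ofE N A)) = -(toE N (ofE N A)) :=
    map_neg (Matrix.toEuclideanCLM (𝕜 := ℂ) (n := Fin N)) _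
  rw [h, toE_ofE, toE_ofE]

lemma ofE_sub {N : ℕ} (A B : Op N) : ofE N (A - B) = ofE N A - ofE N B := by
  rw [sub_eq_add_neg, ofE_add, ofE_neg, ← sub_eq_add_neg]

/-- `toE` as a linear map -/
noncomputable def toEL (N : ℕ) : Mat N →ₗ[ℂ] Op N where
  toFun := toE N
  map_add' := toE_add
  map_smul' := toE_smul

/-- `ofE` as a linear map -/
noncomputable def ofEL (N : ℕ) : Op N →ₗ[ℂ] Mat N where
  toFun := ofE N
  map_add' := ofE_add
  map_smul' := ofE_smul

lemma continuous_toE (N : ℕ) : Continuous (toE N) :=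
  LinearMap.continuous_of_finiteDimensional (toEL N)

lemma continuous_ofE (N : ℕ) : Continuous (ofE N) :=
  LinearMap.continuous_of_finiteDimensional (ofEL N)

/-- an entry of `ofE` as a continuous real linear map -/
noncomputable def entryL (N : ℕ) (i j : Fin N) : Op N →L[ℝ] ℂ :=
  (LinearMap.toContinuousLinearMap ((Matrix.entryLinearMap ℂ ℂ i j).comp (ofEL N))).restrictScalars ℝ

lemma entryL_apply {N : ℕ} (i j : Fin N) (C : Op N) : entryL N i j C = ofE N C i j := rfl

lemma toE_rank_one {N : ℕ} (v : Fin N → ℂ) (x : EuclideanSpace ℂ (Fin N)) :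
    toE N (vecMulVec v (star v)) x = (⟪WithLp.toLp 2 v, x⟫_ℂ) • WithLp.toLp 2 v := by
  ext i
  change ((vecMulVec v (star v)) *ᵥ (WithLp.ofLp x)) i = _
  simp only [PiLp.smul_apply, smul_eq_mul, Matrix.mulVec, dotProduct, vecMulVec_apply,
    Pi.star_apply, RCLike.star_def, EuclideanSpace.inner_eq_star_dotProduct]
  rw [Finset.sum_mul]
  apply Finset.sum_congr rfl
  intro j _
  ring

lemma quad_le_trace {N : ℕ} {M : Mat N} (hM : M.PosSemidef) (x : EuclideanSpace ℂ (Fin N))
    (hx : ‖x‖ = 1) : (⟪toE N M x, x⟫_ℂ).re ≤ (Matrix.trace M).re := by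
  obtain ⟨m, v, rfl⟩ := Matrix.posSemidef_iff_eq_sum_vecMulVec.mp hM
  rw [toE_sum, _root_.sum_apply, sum_inner, Complex.re_sum, Matrix.trace_sum, Complex.re_sum]
  apply Finset.sum_le_sum
  intro k _
  rw [toE_rank_one, inner_smul_left, Complex.conj_mul']
  have h1 : ‖⟪WithLp.toLp 2 (v k), x⟫_ℂ‖ ≤ ‖(WithLp.toLp 2 (v k) : EuclideanSpace ℂ (Fin N))‖ := by
    have := norm_inner_le_norm (𝕜 := ℂ) (WithLp.toLp 2 (v k) : EuclideanSpace ℂ (Fin N)) x
    rwa [hx, mul_one] at this
  have h2 : (Matrix.trace (vecMulVec (v k) (star (v k)))).re =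
      ‖(WithLp.toLp 2 (v k) : EuclideanSpace ℂ (Fin N))‖ ^ 2 := by
    rw [EuclideanSpace.norm_sq_eq, Matrix.trace, Complex.re_sum]
    apply Finset.sum_congr rfl
    intro i _
    rw [Matrix.diag_apply, vecMulVec_apply, Pi.star_apply, RCLike.star_def, Complex.mul_conj']
    norm_cast
  rw [h2]
  have h3 : ((‖⟪WithLp.toLp 2 (v k), x⟫_ℂ‖ : ℂ) ^ 2).re = ‖⟪WithLp.toLp 2 (v k), x⟫_ℂ‖ ^ 2 := by
    norm_cast
  rw [h3]
  gcongr

lemma quad_nonneg {N : ℕ} {M : Mat N} (hM : M.PosSemidef) (x : EuclideanSpace ℂ (Fin N)) :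
    0 ≤ (⟪toE N M x, x⟫_ℂ).re := by
  have h := (Matrix.isPositive_toEuclideanLin_iff.mpr hM).re_inner_nonneg_left x
  exact h

lemma isHermitian_ofE {N : ℕ} {C : Op N} (hC : IsSelfAdjoint C) : (ofE N C).IsHermitian := by
  have h : star (ofE N C) = ofE N C := by
    rw [← ofE_star, hC.star_eq]
  exact h

lemma posSemidef_ofE {N : ℕ} {C : Op N} (hC : IsSelfAdjoint C)
    (hp : ∀ v, 0 ≤ (⟪C v, v⟫_ℂ).re) : (ofE N C).PosSemidef := by
  rw [← Matrix.isPositive_toEuclideanLin_iff]
  have h1 : C.IsPositive := ContinuousLinearMap.isPositive_def'.mpr ⟨hC, hp⟩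
  have h2 : (Matrix.toEuclideanLin (ofE N C)) = (C : EuclideanSpace ℂ (Fin N) →ₗ[ℂ] _) := by
    have h3 : (toE N (ofE N C) : EuclideanSpace ℂ (Fin N) →ₗ[ℂ] EuclideanSpace ℂ (Fin N)) =
        Matrix.toEuclideanLin (ofE N C) := Matrix.coe_toEuclideanCLM_eq_toEuclideanLin _
    rw [← h3, toE_ofE]
  rw [h2]
  exact (ContinuousLinearMap.isPositive_toLinearMap_iff C).mpr h1

theorem vertex : VertexStmt := by
  intro N X v₀ V hX hVc hVp hV0
  set Vo : Op N → ℝ → Op N := fun κ t => toE N (V (ofE N (LTV.sap κ)) (t - X)) with hVo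
  have hherm : ∀ κ : Op N, (ofE N (LTV.sap κ)).IsHermitian := fun κ => isHermitian_ofE (LTV.sap_sa κ)
  have hVoc : Continuous fun p : Op N × ℝ => Vo p.1 p.2 := by
    apply (continuous_toE N).comp
    have h1 : Continuous fun p : Op N × ℝ => ((ofE N (LTV.sap p.1), p.2 - X) : Mat N × ℝ) :=
      ((continuous_ofE N).comp (LTV.continuous_sap.comp continuous_fst)).prodMk
        (continuous_snd.sub continuous_const)
    exact hVc.comp_continuous h1 (fun p => hherm p.1)
  have hVos : ∀ κ t, IsSelfAdjoint (Vo κ t) := by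
    intro κ t
    have h1 : star (V (ofE N (LTV.sap κ)) (t - X)) = V (ofE N (LTV.sap κ)) (t - X) :=
      (hVp _ (hherm κ) (t - X)).1
    rw [isSelfAdjoint_iff]
    simp only [hVo]
    rw [← toE_star, h1]
  have hVop : ∀ κ t v, 0 ≤ (⟪Vo κ t v, v⟫_ℂ).re := fun κ t v =>
    quad_nonneg (hVp _ (hherm κ) (t - X)) v
  have hVo0 : ∀ κ v, ‖v‖ = 1 → ∫ t in (0:ℝ)..(2 * X), (⟪Vo κ t v, v⟫_ℂ).re ≤ v₀ := by
    intro κ v hv
    set W : ℝ → Mat N := V (ofE N (LTV.sap κ)) with hW
    have hc0 : Continuous W := hVc.comp_continuous (continuous_const.prodMk continuous_id)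
      (fun _ => hherm κ)
    have hc2' : Continuous fun t => (Matrix.trace (W t)).re :=
      Complex.continuous_re.comp (Continuous.matrix_trace hc0)
    have hc2 : Continuous fun t => (Matrix.trace (W (t - X))).re :=
      hc2'.comp (continuous_id.sub continuous_const)
    have hc3 : Continuous fun t => (⟪Vo κ t v, v⟫_ℂ).re := cont_quad (cont_fst hVoc κ) v
    have h1 : ∫ t in (0:ℝ)..(2 * X), (⟪Vo κ t v, v⟫_ℂ).re ≤
        ∫ t in (0:ℝ)..(2 * X), (Matrix.trace (W (t - X))).re := by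
      apply intervalIntegral.integral_mono_on (by linarith) (hc3.intervalIntegrable _ _)
        (hc2.intervalIntegrable _ _)
      intro t _
      exact quad_le_trace (hVp _ (hherm κ) (t - X)) v hv
    have h2 : ∫ t in (0:ℝ)..(2 * X), (Matrix.trace (W (t - X))).re =
        ∫ t in (-X)..X, (Matrix.trace (W t)).re := by
      rw [intervalIntegral.integral_comp_sub_right (fun t => (Matrix.trace (W t)).re) X]
      congr 1 <;> ring
    rw [h2] at h1
    exact h1.trans (hV0 _ (hherm κ))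
  obtain ⟨κ, F, hκs, hκp, hF0, hFT, hFd, hFb⟩ :=
    LTV.vertexO (T := 2 * X) (by linarith) hVoc hVos hVop hVo0
  have hsκ : LTV.sap κ = κ := LTV.sap_of_sa hκs
  have hmem : ∀ x ∈ Set.Icc (-X) X, x + X ∈ Set.Icc 0 (2 * X) := fun x hx =>
    ⟨by linarith [hx.1], by linarith [hx.2]⟩
  have hFc : ContinuousOn F (Set.Icc 0 (2 * X)) := fun t ht => (hFd t ht).continuousWithinAt
  refine ⟨ofE N κ, fun x => ofE N (F (x + X)), posSemidef_ofE hκs hκp, ?_, ?_, ?_, ?_, ?_⟩
  · simp only [neg_add_cancel, hF0]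
  · have : X + X = 2 * X := by ring
    simp only [this, hFT, ofE_neg]
  · apply (continuous_ofE N).comp_continuousOn
    exact hFc.comp (continuous_id.add continuous_const).continuousOn hmem
  · intro x hx i j
    have ht : x + X ∈ Set.Ioo 0 (2 * X) := ⟨by linarith [hx.1], by linarith [hx.2]⟩
    have h1 : HasDerivAt F (κ * κ - F (x + X) * F (x + X) - Vo κ (x + X)) (x + X) :=
      (hFd _ ⟨ht.1.le, ht.2.le⟩).hasDerivAt (Icc_mem_nhds ht.1 ht.2)
    have h2 : HasDerivAt (fun y => F (y + X)) (κ * κ - F (x + X) * F (x + X) - Vo κ (x + X)) x :=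
      h1.comp_add_const x X
    have h3 : HasDerivAt (fun y => entryL N i j (F (y + X)))
        (entryL N i j (κ * κ - F (x + X) * F (x + X) - Vo κ (x + X))) x :=
      (entryL N i j).hasFDerivAt.comp_hasDerivAt x h2
    have h4 : entryL N i j (κ * κ - F (x + X) * F (x + X) - Vo κ (x + X)) =
        (ofE N κ * ofE N κ - ofE N (F (x + X)) * ofE N (F (x + X)) - V (ofE N κ) x) i j := by
      rw [entryL_apply, ofE_sub, ofE_sub, ofE_mul, ofE_mul]
      simp only [hVo, hsκ, ofE_toE, add_sub_cancel_right]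
    rw [h4] at h3
    exact h3
  · intro x hx
    obtain ⟨hs, hp1, hp2⟩ := hFb (x + X) (hmem x hx)
    constructor
    · rw [← ofE_sub]
      exact posSemidef_ofE (hκs.sub hs) hp1
    · rw [← ofE_add]
      exact posSemidef_ofE (hκs.add hs) hp2

end Pool.Agent.LTS
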