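import Pool.Agent.LTS.Stab
import Pool.Agent.LTS.Clos
import Pool.Agent.LTS.ExW
import Pool.Agent.LTS.RegC
import Pool.Agent.LTS.RegD
import Pool.Agent.LTS.AlgW
import Pool.Agent.LTS.Det
import Pool.Agent.LTS.DomR
import Pool.Agent.LTS.Arg
import Pool.Agent.LTS.Scal
import Pool.Agent.LTS.Mu
import Pool.Agent.LTS.Trace
import Pool.Agent.LTS.Test
import Pool.Agent.LTS.Cfc
import Pool.Agent.LTS.Const
import Pool.Agent.LTS.Unf1
import Pool.Agent.LTS.Unf2
import Pool.Agent.LTS.Appr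
import Pool.Agent.LTS.Low
import Pool.Agent.LTS.Vertex

/-!
# Assembly (MP_4c716f_mp)
-/

set_option autoImplicit false

namespace Pool.Agent.LTS

theorem closAll : ClosStmt := clos stab

theorem exWAll : ExWStmt := exW stab closAll

theorem regCAll : RegCStmt := regC stab closAll

theorem regDAll : RegDStmt := regD stab closAll

theorem argAll : ArgStmt := arg stab exWAll regCAll regDAll algW det_deriv domR

theorem muAll : MuStmt := muInt stab regCAll regDAll algW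

theorem traceAll : TraceStmt := trace exWAll stab regCAll domR argAll scal muAll

theorem lowAll : LowStmt := low constS

theorem esAll (hv : VertexStmt) (γ : ℝ) (h1 : 1 / 2 < γ) (h2 : γ < 3 / 2) : ESfin γ (Lone γ) := by
  rcases le_or_gt 1 γ with h | h
  · exact unf1 hv traceAll test constS γ h h2
  · exact unf2 hv traceAll test constS funCalc γ h1 h

theorem upperAll (hv : VertexStmt) (γ : ℝ) (h1 : 1 / 2 < γ) (h2 : γ < 3 / 2) :
    LT.LTBound γ (Lone γ) :=
  appr γ (Lone γ) h1 (constS γ h1 h2).2.1.le (esAll hv γ h1 h2)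

/-- the sharp one dimensional inequality, `1/2 < γ < 3/2` -/
theorem upper1 (γ : ℝ) (h1 : 1 / 2 < γ) (h2 : γ < 3 / 2) : LT.LTBound γ (Lone γ) :=
  upperAll vertex γ h1 h2

/-- `Lone γ = 2 ((γ-1/2)/(γ+1/2))^(γ-1/2) L^cl_{γ,1}` -/
theorem lone_eq (γ : ℝ) (h1 : 1 / 2 < γ) :
    Lone γ = 2 * ((γ - 1 / 2) / (γ + 1 / 2)) ^ (γ - 1 / 2) *
      (Real.Gamma (γ + 1) / ((4 * Real.pi) ^ ((1 : ℝ) / 2) * Real.Gamma (γ + 3 / 2))) := by
  have h0 : 0 < γ + 1 / 2 := by linarith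
  have hs : 0 < γ - 1 / 2 := by linarith
  have hG : Real.Gamma (γ + 3 / 2) = (γ + 1 / 2) * Real.Gamma (γ + 1 / 2) := by
    rw [← Real.Gamma_add_one h0.ne']
    congr 1
    ring
  have h4 : (4 * Real.pi) ^ ((1 : ℝ) / 2) = 2 * √Real.pi := by
    rw [← Real.sqrt_eq_rpow, Real.sqrt_mul (by norm_num)]
    congr 1
    rw [show (4 : ℝ) = 2 ^ 2 by norm_num]
    exact Real.sqrt_sq (by norm_num)
  have hp : (γ + 1 / 2) ^ (γ + 1 / 2) = (γ + 1 / 2) ^ (γ - 1 / 2) * (γ + 1 / 2) := by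
    rw [← Real.rpow_add_one h0.ne']
    congr 1
    ring
  have hG0 : 0 < Real.Gamma (γ + 1 / 2) := Real.Gamma_pos_of_pos h0
  have hpi : 0 < √Real.pi := Real.sqrt_pos.2 Real.pi_pos
  have hp0 : 0 < (γ + 1 / 2) ^ (γ - 1 / 2) := Real.rpow_pos_of_pos h0 _
  unfold Lone
  rw [hG, h4, hp, Real.div_rpow hs.le h0.le]
  field_simp

end Pool.Agent.LTS
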