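import Pool.Agent.LTS.DefsL

/-!
# (CONSTL) relations between the constants
-/

set_option autoImplicit false

namespace Pool.Agent.LTS

open Pool.Agent.LT (Lcl)

theorem constL_rpow_pos {s : ℝ} (hs : 0 ≤ s) : 0 < s ^ s := by
  rcases hs.eq_or_lt with h | h
  · rw [← h, Real.rpow_zero]
    exact one_pos
  · exact Real.rpow_pos_of_pos h _

theorem constL : ConstLStmt := by
  intro γ d hγ
  have hpi := Real.pi_pos
  have hs : 0 ≤ γ - 1 / 2 := by linarith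
  have ht : 0 < γ + 1 / 2 := by linarith
  have hss : 0 < (γ - 1 / 2) ^ (γ - 1 / 2) := constL_rpow_pos hs
  have hts : 0 < (γ + 1 / 2) ^ (γ - 1 / 2) := Real.rpow_pos_of_pos ht _
  have hG1 : 0 < Real.Gamma (γ + 1) := Real.Gamma_pos_of_pos (by linarith)
  have hG2 : 0 < Real.Gamma (γ + 1 / 2) := Real.Gamma_pos_of_pos ht
  have hd : (0 : ℝ) ≤ d := Nat.cast_nonneg d
  have hG3 : 0 < Real.Gamma (γ + 1 / 2 + 1 + d / 2) := Real.Gamma_pos_of_pos (by linarith)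
  have hG4 : 0 < Real.Gamma (γ + 1 + d / 2) := Real.Gamma_pos_of_pos (by linarith)
  have hsp : 0 < √Real.pi := Real.sqrt_pos.2 hpi
  have h4p : 0 < (4 * Real.pi) ^ ((d : ℝ) / 2) := by positivity
  have hdiv : ((γ - 1 / 2) / (γ + 1 / 2)) ^ (γ - 1 / 2) =
      (γ - 1 / 2) ^ (γ - 1 / 2) / (γ + 1 / 2) ^ (γ - 1 / 2) := Real.div_rpow hs ht.le _
  have htt : (γ + 1 / 2) ^ (γ + 1 / 2) = (γ + 1 / 2) ^ (γ - 1 / 2) * (γ + 1 / 2) := by
    have : (γ + 1 / 2 : ℝ) ^ (γ + 1 / 2) = (γ + 1 / 2) ^ ((γ - 1 / 2) + 1) := by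
      congr 1
      ring
    rw [this, Real.rpow_add_one ht.ne']
  refine ⟨?_, ?_, ?_, ?_⟩
  · unfold Rg
    rw [hdiv]
    positivity
  · unfold Lone
    have : 0 < (γ + 1 / 2) ^ (γ + 1 / 2) := Real.rpow_pos_of_pos ht _
    positivity
  · unfold Lcl
    positivity
  · unfold Lone Rg Lcl
    rw [hdiv, htt]
    have e1 : Real.Gamma (γ + 1 / 2 + 1) = (γ + 1 / 2) * Real.Gamma (γ + 1 / 2) :=
      Real.Gamma_add_one ht.ne'
    have e2 : γ + 1 + ((d + 1 : ℕ) : ℝ) / 2 = γ + 1 / 2 + 1 + d / 2 := by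
      push_cast
      ring
    have e3 : (4 * Real.pi) ^ (((d + 1 : ℕ) : ℝ) / 2) =
        (4 * Real.pi) ^ ((d : ℝ) / 2) * (2 * √Real.pi) := by
      rw [show (((d + 1 : ℕ) : ℝ) / 2) = (d : ℝ) / 2 + 1 / 2 by push_cast; ring,
        Real.rpow_add (by positivity), ← Real.sqrt_eq_rpow, Real.sqrt_mul (by norm_num)]
      congr 2
      rw [show (4 : ℝ) = 2 ^ 2 by norm_num]
      exact Real.sqrt_sq (by norm_num)
    rw [e1, e2, e3]
    field_simp

end Pool.Agent.LTS
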