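import Pool.Agent.LTS.Defs

/-!
# Functions of Hermitian matrices: elementary facts
-/

set_option autoImplicit false

namespace Pool.Agent.LTS

open Matrix Finset
open scoped ComplexConjugate ComplexOrder

variable {N : ℕ}

section

variable {A : Mat N} (hA : A.IsHermitian)

lemma eU_left : (hA.eigenvectorUnitary : Mat N)ᴴ * (hA.eigenvectorUnitary : Mat N) = 1 := by
  have h := (Unitary.mem_iff.1 hA.eigenvectorUnitary.2).1
  rwa [Matrix.star_eq_conjTranspose] at h

lemma eU_right : (hA.eigenvectorUnitary : Mat N) * (hA.eigenvectorUnitary : Mat N)ᴴ = 1 := by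
  have h := (Unitary.mem_iff.1 hA.eigenvectorUnitary.2).2
  rwa [Matrix.star_eq_conjTranspose] at h

/-- `f(A)` -/
noncomputable def fm (f : ℝ → ℝ) : Mat N :=
  (hA.eigenvectorUnitary : Mat N) *
    Matrix.diagonal (fun i => ((f (hA.eigenvalues i) : ℝ) : ℂ)) *
      (hA.eigenvectorUnitary : Mat N)ᴴ

lemma fm_congr {f g : ℝ → ℝ} (h : ∀ i, f (hA.eigenvalues i) = g (hA.eigenvalues i)) :
    fm hA f = fm hA g := by
  unfold fm
  congr 2
  congr 1
  funext i
  rw [h i]

lemma fm_mul (f g : ℝ → ℝ) : fm hA f * fm hA g = fm hA fun t => f t * g t := by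
  unfold fm
  have e : (hA.eigenvectorUnitary : Mat N) *
      Matrix.diagonal (fun i => ((f (hA.eigenvalues i) : ℝ) : ℂ)) *
      (hA.eigenvectorUnitary : Mat N)ᴴ * ((hA.eigenvectorUnitary : Mat N) *
      Matrix.diagonal (fun i => ((g (hA.eigenvalues i) : ℝ) : ℂ)) *
      (hA.eigenvectorUnitary : Mat N)ᴴ) = (hA.eigenvectorUnitary : Mat N) *
      (Matrix.diagonal (fun i => ((f (hA.eigenvalues i) : ℝ) : ℂ)) *
      ((hA.eigenvectorUnitary : Mat N)ᴴ * (hA.eigenvectorUnitary : Mat N)) *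
      Matrix.diagonal (fun i => ((g (hA.eigenvalues i) : ℝ) : ℂ))) *
      (hA.eigenvectorUnitary : Mat N)ᴴ := by noncomm_ring
  rw [e, eU_left, Matrix.mul_one, Matrix.diagonal_mul_diagonal]
  congr 3
  funext i
  push_cast
  ring

lemma fm_id : fm hA (fun t => t) = A := by
  have h := hA.spectral_theorem
  rw [Unitary.conjStarAlgAut_apply] at h
  conv_rhs => rw [h]
  rfl

lemma fm_one : fm hA (fun _ => 1) = 1 := by
  unfold fm
  simp only [Complex.ofReal_one]
  rw [Matrix.diagonal_one, Matrix.mul_one, eU_right]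

lemma fm_sub (f g : ℝ → ℝ) : fm hA f - fm hA g = fm hA fun t => f t - g t := by
  unfold fm
  rw [← Matrix.sub_mul, ← Matrix.mul_sub, Matrix.diagonal_sub]
  congr 3
  funext i
  push_cast
  ring

lemma fm_add (f g : ℝ → ℝ) : fm hA f + fm hA g = fm hA fun t => f t + g t := by
  unfold fm
  rw [← Matrix.add_mul, ← Matrix.mul_add, Matrix.diagonal_add]
  congr 3
  funext i
  push_cast
  ring

lemma fm_smul (c : ℝ) (f : ℝ → ℝ) : (c : ℂ) • fm hA f = fm hA fun t => c * f t := by
  unfold fm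
  rw [← Matrix.smul_mul, ← Matrix.mul_smul, ← Matrix.diagonal_smul]
  congr 3
  funext i
  simp

lemma fm_isHermitian (f : ℝ → ℝ) : (fm hA f).IsHermitian := by
  unfold fm
  refine Matrix.isHermitian_mul_mul_conjTranspose _ ?_
  rw [Matrix.IsHermitian, Matrix.diagonal_conjTranspose]
  congr 1
  funext i
  simp

lemma fm_posSemidef {f : ℝ → ℝ} (h : ∀ i, 0 ≤ f (hA.eigenvalues i)) :
    (fm hA f).PosSemidef := by
  unfold fm
  refine Matrix.PosSemidef.mul_mul_conjTranspose_same ?_ _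
  refine Matrix.PosSemidef.diagonal ?_
  intro i
  simpa using h i

lemma trace_fm (f : ℝ → ℝ) : (fm hA f).trace = ∑ i, ((f (hA.eigenvalues i) : ℝ) : ℂ) := by
  unfold fm
  rw [Matrix.trace_mul_cycle, eU_left, Matrix.one_mul, Matrix.trace_diagonal]

lemma trace_fm_re (f : ℝ → ℝ) : (fm hA f).trace.re = ∑ i, f (hA.eigenvalues i) := by
  rw [trace_fm, Complex.re_sum]
  simp

end

/-- eigenvalues of `U diag(r) U*` -/
lemma sum_eig_of_eq {B U : Mat N} (hB : B.IsHermitian) (hU : Uᴴ * U = 1) (r : Fin N → ℝ)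
    (h : B = U * Matrix.diagonal (fun i => (r i : ℂ)) * Uᴴ) (φ : ℝ → ℝ) :
    ∑ i, φ (hB.eigenvalues i) = ∑ i, φ (r i) := by
  have h1 : B.charpoly = ∏ i, (Polynomial.X - Polynomial.C ((r i : ℝ) : ℂ)) := by
    rw [h, Matrix.charpoly_mul_comm, ← Matrix.mul_assoc, hU, Matrix.one_mul,
      Matrix.charpoly_diagonal]
  have h2 := hB.roots_charpoly_eq_eigenvalues
  rw [h1, Polynomial.roots_prod _ _ (Finset.prod_ne_zero_iff.2 fun i _ =>
    Polynomial.X_sub_C_ne_zero _)] at h2
  simp only [Polynomial.roots_X_sub_C, Multiset.bind_singleton] at h2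
  have h3 : Multiset.map (fun i => r i) Finset.univ.val =
      Multiset.map (fun i => hB.eigenvalues i) Finset.univ.val := by
    have h4 := congrArg (Multiset.map Complex.re) h2
    rw [Multiset.map_map, Multiset.map_map] at h4
    simpa [Function.comp_def] using h4
  have h5 := congrArg (fun s => (Multiset.map φ s).sum) h3
  simp only [Multiset.map_map] at h5
  exact h5.symm

lemma sum_eig_fm {A : Mat N} (hA : A.IsHermitian) (f : ℝ → ℝ) (hB : (fm hA f).IsHermitian)
    (φ : ℝ → ℝ) : ∑ i, φ (hB.eigenvalues i) = ∑ i, φ (f (hA.eigenvalues i)) :=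
  sum_eig_of_eq hB (eU_left hA) (fun i => f (hA.eigenvalues i)) rfl φ

lemma trace_conj_nonneg {P : Mat N} (hP : P.PosSemidef) (K : Mat N) :
    0 ≤ (K * P * Kᴴ).trace.re :=
  (Complex.le_def.1 (hP.mul_mul_conjTranspose_same K).trace_nonneg).1

/-- `U* B U` diagonal entries for `B = diag b`. -/
lemma conj_diag_entry (U : Mat N) (b : Fin N → ℝ) (i : Fin N) :
    (Uᴴ * Matrix.diagonal (fun j => (b j : ℂ)) * U) i i = ((∑ j, ‖U j i‖ ^ 2 * b j : ℝ) : ℂ) := by
  rw [Matrix.mul_apply]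
  push_cast
  refine Finset.sum_congr rfl fun j _ => ?_
  rw [Matrix.mul_diagonal, Matrix.conjTranspose_apply]
  have h : ((‖U j i‖ : ℝ) : ℂ) ^ 2 = star (U j i) * U j i := by
    have := Complex.conj_mul' (U j i)
    rw [← this]
    rfl
  rw [h]
  ring

lemma diag_conj_entry (U : Mat N) (e : Fin N → ℝ) (j : Fin N) :
    (U * Matrix.diagonal (fun i => (e i : ℂ)) * Uᴴ) j j = ((∑ i, ‖U j i‖ ^ 2 * e i : ℝ) : ℂ) := by
  rw [Matrix.mul_apply]
  push_cast
  refine Finset.sum_congr rfl fun i _ => ?_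
  rw [Matrix.mul_diagonal, Matrix.conjTranspose_apply]
  have h : ((‖U j i‖ : ℝ) : ℂ) ^ 2 = U j i * star (U j i) := by
    have := Complex.mul_conj' (U j i)
    rw [← this]
    rfl
  rw [h]
  ring

lemma row_sum {U : Mat N} (hU : U * Uᴴ = 1) (j : Fin N) : ∑ i, ‖U j i‖ ^ 2 = 1 := by
  have h := diag_conj_entry U (fun _ => 1) j
  simp only [Complex.ofReal_one, Matrix.diagonal_one, Matrix.mul_one, hU, Matrix.one_apply_eq]
    at h
  have h' := h.symm
  simp only [mul_one] at h'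
  exact_mod_cast h'

lemma col_sum {U : Mat N} (hU : Uᴴ * U = 1) (i : Fin N) : ∑ j, ‖U j i‖ ^ 2 = 1 := by
  have h := conj_diag_entry U (fun _ => 1) i
  simp only [Complex.ofReal_one, Matrix.diagonal_one, Matrix.mul_one, hU, Matrix.one_apply_eq]
    at h
  have h' := h.symm
  simp only [mul_one] at h'
  exact_mod_cast h'

end Pool.Agent.LTS
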