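import Pool.Agent.LTS.DefsL
import Pool.Agent.LTS.Spc
import Pool.Agent.LTS.Unf2
import Pool.Agent.LT.Lift1

/-!
# (CORE): operator valued unfolding for a Hermitian matrix function `T` of the vertex `κ`
(MP_4c716f_mp, module LTL_CORE; architect: helper15; Lean: helper20)
-/

set_option autoImplicit false

namespace Pool.Agent.LTS

open MeasureTheory Matrix Finset
open scoped ComplexConjugate ComplexOrder ContDiff
open Pool.Agent.LT (TestFn PotFn gramF kinE formE form1 ES ES' Lcl IsH1v gram IsH1d LTBoundD)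
open Pool.Agent.LT.AL (act QM)

namespace Core

lemma Lone_nonneg {γ : ℝ} (h : 1 / 2 ≤ γ) : 0 ≤ Lone γ := by
  unfold Lone
  have h1 : 0 < Real.Gamma (γ + 1) := Real.Gamma_pos_of_pos (by linarith)
  have h2 : 0 < Real.Gamma (γ + 1 / 2) := Real.Gamma_pos_of_pos (by linarith)
  have h3 : 0 ≤ (γ - 1 / 2) ^ (γ - 1 / 2) := Real.rpow_nonneg (by linarith) _
  have h4 : 0 < (γ + 1 / 2) ^ (γ + 1 / 2) := Real.rpow_pos_of_pos (by linarith) _
  positivity

variable {N : ℕ}

lemma trace_conj_le (C : Mat N) {G : Mat N} (hG : (1 - G).PosSemidef) :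
    (Matrix.trace (Cᴴ * C * G)).re ≤ (Matrix.trace (Cᴴ * C)).re := by
  have h1 := trace_conj_nonneg hG C
  have h2 : Matrix.trace (C * (1 - G) * Cᴴ) =
      Matrix.trace (Cᴴ * C) - Matrix.trace (Cᴴ * C * G) := by
    rw [Matrix.trace_mul_comm, ← Matrix.trace_sub]
    congr 1
    noncomm_ring
  rw [h2, Complex.sub_re] at h1
  linarith

/-- `t ≤ 1 + t^s` -/
lemma le_one_add_rpow {t s : ℝ} (ht : 0 ≤ t) (hs : 1 ≤ s) : t ≤ 1 + t ^ s := by
  rcases le_total t 1 with h | h
  · have := Real.rpow_nonneg ht s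
    linarith
  · have h1 : t ^ (1 : ℝ) ≤ t ^ s := Real.rpow_le_rpow_of_exponent_le h hs
    rw [Real.rpow_one] at h1
    linarith

lemma trace_le_of_eig {A : Mat N} (hA : A.PosSemidef) {s h : ℝ} (hs : 1 ≤ s)
    (hx : ∀ hA' : A.IsHermitian, ∑ i, hA'.eigenvalues i ^ s ≤ h) :
    (Matrix.trace A).re ≤ N + h := by
  have h1 := hA.1.trace_eq_sum_eigenvalues
  have h2 : (Matrix.trace A).re = ∑ i, hA.1.eigenvalues i := by
    rw [h1]
    simp
  rw [h2]
  calc ∑ i, hA.1.eigenvalues i ≤ ∑ i, (1 + hA.1.eigenvalues i ^ s) :=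
        Finset.sum_le_sum fun i _ => le_one_add_rpow (hA.eigenvalues_nonneg i) hs
    _ = N + ∑ i, hA.1.eigenvalues i ^ s := by
        rw [Finset.sum_add_distrib]
        simp
    _ ≤ N + h := by
        have := hx hA.1
        linarith

lemma herm_conj {T P : Mat N} (hT : T.IsHermitian) (hP : P.IsHermitian) :
    (T * P * T).IsHermitian := by
  unfold Matrix.IsHermitian at *
  rw [Matrix.conjTranspose_mul, Matrix.conjTranspose_mul, hT, hP, Matrix.mul_assoc]

lemma sum_gram {H : Type*} [NormedAddCommGroup H] [InnerProductSpace ℂ H] (K : Mat N)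
    (v : Fin N → H) : (∑ i, ∑ j, K i j * inner ℂ (v i) (v j)) = Matrix.trace (K * LT.gram v) := by
  simp only [Matrix.trace, Matrix.diag_apply, Matrix.mul_apply, LT.gram, Matrix.of_apply]

lemma cont_sec {A B C : Type*} [TopologicalSpace A] [TopologicalSpace B] [TopologicalSpace C]
    {W : A → B → C} {S : A → Prop} (h : ContinuousOn (fun p : A × B => W p.1 p.2) {p | S p.1})
    {a : A} (ha : S a) : Continuous (W a) := by
  rw [← continuousOn_univ]
  have h3 : ContinuousOn (fun x : B => ((a, x) : A × B)) Set.univ :=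
    (Continuous.prodMk_right a).continuousOn
  exact h.comp h3 fun x _ => ha

lemma comp_cont {T : Mat N → Mat N} {P M : ℝ → Mat N} {Ω : Mat N → Mat N → Mat N}
    (hTc : ContinuousOn T {κ | κ.IsHermitian})
    (hTh : ∀ κ : Mat N, κ.IsHermitian → (T κ).IsHermitian) (hPc : Continuous P)
    (hMc : Continuous M) (hPh : ∀ x, (P x).IsHermitian) (hMh : ∀ x, (M x).IsHermitian)
    (hΩc : ContinuousOn (fun p : Mat N × Mat N => Ω p.1 p.2)
      {p | p.1.IsHermitian ∧ p.2.IsHermitian}) :
    ContinuousOn (fun p : Mat N × ℝ => Ω (T p.1 * P p.2 * T p.1) (T p.1 * M p.2 * T p.1))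
      {p | p.1.IsHermitian} := by
  have hT1 : ContinuousOn (fun p : Mat N × ℝ => T p.1) {p | p.1.IsHermitian} :=
    hTc.comp continuousOn_fst (fun p hp => hp)
  have hP1 : ContinuousOn (fun p : Mat N × ℝ => P p.2) {p | p.1.IsHermitian} :=
    (hPc.comp continuous_snd).continuousOn
  have hM1 : ContinuousOn (fun p : Mat N × ℝ => M p.2) {p | p.1.IsHermitian} :=
    (hMc.comp continuous_snd).continuousOn
  have h2 : ContinuousOn (fun p : Mat N × ℝ => ((T p.1 * P p.2 * T p.1, T p.1 * M p.2 * T p.1) :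
      Mat N × Mat N)) {p | p.1.IsHermitian} :=
    ((hT1.mul hP1).mul hT1).prodMk ((hT1.mul hM1).mul hT1)
  exact hΩc.comp h2 fun p hp => ⟨herm_conj (hTh p.1 hp) (hPh p.2),
    herm_conj (hTh p.1 hp) (hMh p.2)⟩

end Core

open Pool.Agent.LTS.Core in
theorem core (hv : VertexStmt) (ht : TraceEStmt) (hte : TestStmt) (hfib : FibStmt)
    (hslc : SlcStmt) (hfub : FubStmt) : CoreStmt := by
  intro d γ L hγ1 hγ2 hL hES N g V hg hV hG T hTc hTh ε hε
  obtain ⟨hPc, hMc, hgs, hVs, hVint, X, hX, hXz⟩ := hslc d N g V hg hV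
  have hs1 : (1 : ℝ) ≤ γ + 1 / 2 := by linarith
  have hp0 : 0 < γ + 1 / 2 + (d : ℝ) / 2 := by positivity
  obtain ⟨hhc, hhi, hhI⟩ := hVint _ hp0
  set h : ℝ → ℝ := fun x => L * ∫ y, slV V x y ^ (γ + 1 / 2 + (d : ℝ) / 2) with hh
  have hhc' : Continuous h := continuous_const.mul hhc
  have hhi' : Integrable h volume := hhi.const_mul L
  have hh0 : ∀ x, 0 ≤ h x := fun x =>
    mul_nonneg hL (integral_nonneg fun y => Real.rpow_nonneg ((hVs x).2.2 y) _)
  set v₀ : ℝ := ∫ x in (-X)..X, ((N : ℝ) + h x) with hv0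
  have hv00 : 0 ≤ v₀ := intervalIntegral.integral_nonneg (by linarith) fun x _ => by
    have := hh0 x
    positivity
  set η : ℝ := ε / (v₀ + 1) with hη
  have hη0 : 0 < η := by positivity
  obtain ⟨Ω, hΩc, hΩp, hΩt, hΩe⟩ := hfib N η hη0
  set P : ℝ → Mat N := fun x => gramF (slF g x) with hP
  set M : ℝ → Mat N := fun x => QM (slV V x) (slF g x) with hM
  have hPh : ∀ x, (P x).IsHermitian := fun x => by
    rw [hP]
    simp only
    rw [LT.AL.gramF_eq]
    exact LT.AL.wM_herm _ _
  have hMh : ∀ x, (M x).IsHermitian := fun x => LT.AL.QM_herm _ _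
  have hgact : ∀ κ : Mat N, κ.IsHermitian → ∀ x,
      gramF (act (T κ) (slF g x)) = T κ * P x * T κ := fun κ hκ x => by
    rw [LT.AL.gramF_act (T κ) (hgs x), hTh κ hκ]
  have hQact : ∀ κ : Mat N, κ.IsHermitian → ∀ x,
      QM (slV V x) (act (T κ) (slF g x)) = T κ * M x * T κ := fun κ hκ x => by
    rw [LT.AL.QM_act (slV V x) (hVs x).1 (T κ) (hgs x), hTh κ hκ]
  set W : Mat N → ℝ → Mat N := fun κ x => Ω (T κ * P x * T κ) (T κ * M x * T κ) with hW
  have hWp : ∀ κ : Mat N, κ.IsHermitian → ∀ x, (W κ x).PosSemidef := fun κ hκ x =>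
    hΩp _ _ (herm_conj (hTh κ hκ) (hPh x)) (herm_conj (hTh κ hκ) (hMh x))
  have hWe : ∀ κ : Mat N, κ.IsHermitian → ∀ x, ∀ hx : (W κ x).IsHermitian,
      ∑ i, hx.eigenvalues i ^ (γ + 1 / 2) ≤ h x := by
    intro κ hκ x
    have h1 := hΩe d (γ + 1 / 2) L (act (T κ) (slF g x)) (slV V x) (by linarith) hES
      (fun j => LT.AL.test_act (T κ) (hgs x) j) (hVs x)
    rw [hgact κ hκ x, hQact κ hκ x] at h1
    exact h1
  have hWt : ∀ κ : Mat N, κ.IsHermitian → ∀ x, (Matrix.trace (W κ x)).re ≤ N + h x :=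
    fun κ hκ x => trace_le_of_eig (hWp κ hκ x) hs1 (hWe κ hκ x)
  have hWc : ContinuousOn (fun p : Mat N × ℝ => W p.1 p.2) {p | p.1.IsHermitian} :=
    comp_cont hTc hTh hPc hMc hPh hMh hΩc
  have hWc1 : ∀ κ : Mat N, κ.IsHermitian → Continuous (W κ) := fun κ hκ =>
    cont_sec (S := fun κ : Mat N => κ.IsHermitian) hWc hκ
  obtain ⟨κ, F, hric⟩ := hv N X v₀ W hX hWc hWp (by
    intro κ hκ
    refine intervalIntegral.integral_mono_on (by linarith) ?_ ?_ fun x _ => hWt κ hκ x
    · exact (Complex.continuous_re.comp (hWc1 κ hκ).matrix_trace).intervalIntegrable _ _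
    · exact (continuous_const.add hhc').intervalIntegrable _ _)
  have hκp : κ.PosSemidef := hric.1
  have hκ : κ.IsHermitian := hκp.1
  have hTκ : (T κ)ᴴ = T κ := hTh κ hκ
  refine ⟨κ, hκ, hκp, ?_, ?_⟩
  · obtain ⟨v, w, hvw, hgram, hform, hfubi⟩ := hfub d N g V hg hV (T κ)
    have hT := hte (Lp ℂ 2 (volume : Measure (Fin d → ℝ))) N X κ F (W κ) v w hX hric
      (hWc1 κ hκ).continuousOn hvw
    simp only [sum_gram, hgram, hTκ] at hT hform
    -- the last integral
    have hB : ∀ x, (Matrix.trace (κ * κ * (T κ * gramF (slF g x) * T κ))).re =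
        (Matrix.trace (T κ * (κ * κ) * T κ * gramF (slF g x))).re := by
      intro x
      congr 1
      rw [show T κ * gramF (slF g x) * T κ = T κ * (gramF (slF g x) * T κ) by
        rw [Matrix.mul_assoc], ← Matrix.mul_assoc, Matrix.trace_mul_comm,
        Matrix.mul_assoc, Matrix.trace_mul_comm]
      congr 1
      simp only [Matrix.mul_assoc]
    simp only [hB] at hT
    rw [(hfubi (T κ * (κ * κ) * T κ)).2] at hT
    have hB2 : (Matrix.trace (T κ * (κ * κ) * T κ * gramF g)).re ≤
        (Matrix.trace (T κ * (κ * κ) * T κ)).re := by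
      have h3 := trace_conj_le (κ * T κ) hG
      have h4 : (κ * T κ)ᴴ * (κ * T κ) = T κ * (κ * κ) * T κ := by
        rw [Matrix.conjTranspose_mul, hTκ, hκ.eq]
        simp only [Matrix.mul_assoc]
      rwa [h4] at h3
    -- the pointwise inequality
    have hpt : ∀ x, -(Matrix.trace (T κ * M x * T κ)).re ≤
        (Matrix.trace (W κ x * (T κ * P x * T κ))).re + η * (N + h x) := by
      intro x
      have hPp : (T κ * P x * T κ).PosSemidef := by
        have h5 := LT.Lift1.gram_posSemidef (fun j => v j x)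
        rw [hgram x, hTκ] at h5
        exact h5
      have h6 := hΩt _ _ hPp (herm_conj (hTh κ hκ) (hMh x))
      have h7 := mul_le_mul_of_nonneg_left (hWt κ hκ x) hη0.le
      linarith
    have hTP : Continuous fun x => T κ * P x * T κ :=
      (continuous_const.matrix_mul hPc).matrix_mul continuous_const
    have hTM : Continuous fun x => T κ * M x * T κ :=
      (continuous_const.matrix_mul hMc).matrix_mul continuous_const
    have hc1 : Continuous fun x => (Matrix.trace (T κ * M x * T κ)).re :=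
      Complex.continuous_re.comp hTM.matrix_trace
    have hc2 : Continuous fun x => (Matrix.trace (W κ x * (T κ * P x * T κ))).re :=
      Complex.continuous_re.comp ((hWc1 κ hκ).matrix_mul hTP).matrix_trace
    have hc3 : Continuous fun x => (N : ℝ) + h x := continuous_const.add hhc'
    have hI : ∫ x in (-X)..X, -(Matrix.trace (T κ * M x * T κ)).re ≤
        ∫ x in (-X)..X, ((Matrix.trace (W κ x * (T κ * P x * T κ))).re + η * (N + h x)) :=
      intervalIntegral.integral_mono_on (by linarith) (hc1.neg.intervalIntegrable _ _)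
        ((hc2.add (continuous_const.mul hc3)).intervalIntegrable _ _) fun x _ => hpt x
    have hI2 : ∫ x in (-X)..X,
        ((Matrix.trace (W κ x * (T κ * P x * T κ))).re + η * (N + h x)) =
        (∫ x in (-X)..X, (Matrix.trace (W κ x * (T κ * P x * T κ))).re) + η * v₀ := by
      rw [hv0, ← intervalIntegral.integral_const_mul]
      exact intervalIntegral.integral_add (hc2.intervalIntegrable _ _)
        ((continuous_const.mul hc3).intervalIntegrable _ _)
    have hI3 : ∫ x in (-X)..X, (Matrix.trace (T κ * M x * T κ)).re =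
        ∫ x, (Matrix.trace (T κ * M x * T κ)).re := by
      refine Unf2.int_supp hX fun x hx => ?_
      have h8 : M x = 0 := (hXz x hx).2
      rw [h8]
      simp
    rw [intervalIntegral.integral_neg, hI2, hI3] at hI
    have hηv : η * v₀ ≤ ε := by
      rw [hη, div_mul_eq_mul_div, div_le_iff₀ (by positivity)]
      nlinarith
    linarith
  · have h1 := ht N X γ κ hκ F (W κ) h hX hγ1 hγ2 hric (hWc1 κ hκ).continuousOn
      (fun x _ => hWp κ hκ x) hhc'.continuousOn (fun x _ hx => hWe κ hκ x hx)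
    refine h1.trans ?_
    rw [mul_assoc]
    refine mul_le_mul_of_nonneg_left ?_ (Lone_nonneg hγ1)
    have h2 : ∫ x in (-X)..X, h x ≤ ∫ x, h x := by
      rw [intervalIntegral.integral_of_le (by linarith)]
      exact setIntegral_le_integral hhi' (Filter.Eventually.of_forall hh0)
    have e1 : γ + 1 / 2 + (d : ℝ) / 2 = γ + ((d + 1 : ℕ) : ℝ) / 2 := by
      push_cast
      ring
    have h3 : ∫ x, h x = L * ∫ y, V y ^ (γ + ((d + 1 : ℕ) : ℝ) / 2) := by
      rw [hh]
      simp only
      rw [integral_const_mul, hhI, e1]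
    linarith

end Pool.Agent.LTS
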