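import Pool.Agent.LT.AL
import Pool.Agent.LT.Defs3
import Pool.Agent.LTS.Defs

/-!
# Lifting to all dimensions, all exponents `1/2 ≤ γ < 3/2`: definitions and module statements
(MP_4c716f_mp; architect of this part: helper15)

Operator valued unfolding: `ES' d (γ+1/2) L → ESF (d+1) γ (Lone γ * L)` for `1/2 ≤ γ < 3/2`.
Proofs: README_L.md.
-/

set_option autoImplicit false

namespace Pool.Agent.LTS

open MeasureTheory Matrix Finset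
open scoped ComplexConjugate ComplexOrder ContDiff
open Pool.Agent.LT (TestFn PotFn gramF kinE formE form1 ES ES' Lcl IsH1v gram IsH1d LTBoundD)
open Pool.Agent.LT.AL (act QM)

/-- the inequality with exponent `γ` for test functions with Gram matrix `≤ 1` and form matrix
`≤ -diag b`, `b > 0`. -/
def ESF (d : ℕ) (γ L : ℝ) : Prop :=
  ∀ (N : ℕ) (g : Fin N → (Fin d → ℝ) → ℂ) (V : (Fin d → ℝ) → ℝ) (b : Fin N → ℝ),
    (∀ j, TestFn d (g j)) → PotFn d V → (1 - gramF g).PosSemidef → (∀ j, 0 < b j) →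
    (-QM V g - Matrix.diagonal (fun j => (b j : ℂ)) : Mat N).PosSemidef →
    ∑ j, b j ^ γ ≤ L * ∫ y, V y ^ (γ + d / 2)

/-! ## Trace inequality including the endpoint `γ = 1/2` -/

/-- (TRE) -/
def TraceEStmt : Prop :=
  ∀ (N : ℕ) (X γ : ℝ) (κ : Mat N) (hκ : κ.IsHermitian) (F V : ℝ → Mat N) (h : ℝ → ℝ),
    0 < X → 1 / 2 ≤ γ → γ < 3 / 2 → IsRic X κ F V → ContinuousOn V (Set.Icc (-X) X) →
    (∀ x ∈ Set.Icc (-X) X, (V x).PosSemidef) → ContinuousOn h (Set.Icc (-X) X) →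
    (∀ x ∈ Set.Icc (-X) X, ∀ hx : (V x).IsHermitian,
      ∑ i, hx.eigenvalues i ^ (γ + 1 / 2) ≤ h x) →
    ∑ i, hκ.eigenvalues i ^ (2 * γ) ≤ Lone γ * ∫ x in (-X)..X, h x

/-! ## The fibre potential -/

/-- (FIB) `Ω P M = ((P+η)^(-1/2) M (P+η)^(-1/2))₋`. -/
def FibStmt : Prop :=
  ∀ (N : ℕ) (η : ℝ), 0 < η → ∃ Ω : Mat N → Mat N → Mat N,
    ContinuousOn (fun p : Mat N × Mat N => Ω p.1 p.2) {p | p.1.IsHermitian ∧ p.2.IsHermitian} ∧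
    (∀ P M : Mat N, P.IsHermitian → M.IsHermitian → (Ω P M).PosSemidef) ∧
    (∀ P M : Mat N, P.PosSemidef → M.IsHermitian →
      -(Matrix.trace M).re ≤ (Matrix.trace (Ω P M * P)).re + η * (Matrix.trace (Ω P M)).re) ∧
    ∀ (d : ℕ) (s L : ℝ) (f : Fin N → (Fin d → ℝ) → ℂ) (W : (Fin d → ℝ) → ℝ), 0 < s →
      ES' d s L → (∀ j, TestFn d (f j)) → PotFn d W →
      ∀ h : (Ω (gramF f) (QM W f)).IsHermitian,
        ∑ i, h.eigenvalues i ^ s ≤ L * ∫ y, W y ^ (s + d / 2)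

/-! ## Slices -/

/-- slices of a family of functions on `ℝ × ℝ^d` -/
def slF {d N : ℕ} (f : Fin N → (Fin (d + 1) → ℝ) → ℂ) (x : ℝ) : Fin N → (Fin d → ℝ) → ℂ :=
  fun j y => f j (Fin.cons x y)

/-- slices of a potential -/
def slV {d : ℕ} (V : (Fin (d + 1) → ℝ) → ℝ) (x : ℝ) : (Fin d → ℝ) → ℝ := fun y => V (Fin.cons x y)

/-- (SLC) continuity and vanishing of the slice matrices, Fubini for the potential. -/
def SlcStmt : Prop :=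
  ∀ (d N : ℕ) (f : Fin N → (Fin (d + 1) → ℝ) → ℂ) (V : (Fin (d + 1) → ℝ) → ℝ),
    (∀ j, TestFn (d + 1) (f j)) → PotFn (d + 1) V →
    (Continuous fun x => gramF (slF f x)) ∧ (Continuous fun x => QM (slV V x) (slF f x)) ∧
    (∀ x j, TestFn d (slF f x j)) ∧ (∀ x, PotFn d (slV V x)) ∧
    (∀ p : ℝ, 0 < p → (Continuous fun x => ∫ y, slV V x y ^ p) ∧
      Integrable (fun x => ∫ y, slV V x y ^ p) volume ∧
      ∫ x, ∫ y, slV V x y ^ p = ∫ z, V z ^ p) ∧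
    ∃ X : ℝ, 0 < X ∧ ∀ x, X ≤ |x| → gramF (slF f x) = 0 ∧ QM (slV V x) (slF f x) = 0

/-- (FUB) the slices of `T • f` as `H¹` functions with values in `L²(ℝ^d)`, Fubini for the form and
for the Gram matrix. -/
def FubStmt : Prop :=
  ∀ (d N : ℕ) (f : Fin N → (Fin (d + 1) → ℝ) → ℂ) (V : (Fin (d + 1) → ℝ) → ℝ),
    (∀ j, TestFn (d + 1) (f j)) → PotFn (d + 1) V → ∀ T : Mat N,
    ∃ v w : Fin N → ℝ → Lp ℂ 2 (volume : Measure (Fin d → ℝ)), (∀ j, IsH1v (v j) (w j)) ∧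
      (∀ x, gram (fun j => v j x) = T * gramF (slF f x) * Tᴴ) ∧
      (∑ j, ∫ x, ‖w j x‖ ^ 2) +
          ∫ x, (Matrix.trace (T * QM (slV V x) (slF f x) * Tᴴ)).re =
        (Matrix.trace (T * QM V f * Tᴴ)).re ∧
      ∀ B : Mat N, Integrable (fun x => (Matrix.trace (B * gramF (slF f x))).re) volume ∧
        ∫ x, (Matrix.trace (B * gramF (slF f x))).re = (Matrix.trace (B * gramF f)).re

/-! ## The core -/

/-- (CORE) for a Hermitian matrix function `T` of `κ`. -/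
def CoreStmt : Prop :=
  ∀ (d : ℕ) (γ L : ℝ), 1 / 2 ≤ γ → γ < 3 / 2 → 0 ≤ L → ES' d (γ + 1 / 2) L →
  ∀ (N : ℕ) (g : Fin N → (Fin (d + 1) → ℝ) → ℂ) (V : (Fin (d + 1) → ℝ) → ℝ),
    (∀ j, TestFn (d + 1) (g j)) → PotFn (d + 1) V → (1 - gramF g).PosSemidef →
  ∀ T : Mat N → Mat N, ContinuousOn T {κ | κ.IsHermitian} →
    (∀ κ : Mat N, κ.IsHermitian → (T κ).IsHermitian) → ∀ ε : ℝ, 0 < ε →
    ∃ (κ : Mat N) (hκ : κ.IsHermitian), κ.PosSemidef ∧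
      -(Matrix.trace (T κ * QM V g * T κ)).re ≤ (Matrix.trace (T κ * (κ * κ) * T κ)).re + ε ∧
      ∑ i, hκ.eigenvalues i ^ (2 * γ) ≤
        Lone γ * L * ∫ y, V y ^ (γ + ((d + 1 : ℕ) : ℝ) / 2)

/-- (KLEIN) trace inequalities for the convex function `x^γ`, `γ ≥ 1`, and for the concave function
`(x+δ)^γ - δ^γ`, `γ ≤ 1`. -/
def KleinStmt : Prop :=
  (∀ (N : ℕ) (γ : ℝ) (κ : Mat N) (hκ : κ.IsHermitian) (b : Fin N → ℝ), 1 ≤ γ → κ.PosSemidef →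
    (∀ j, 0 < b j) →
    ∑ j, b j ^ γ + γ * ((Matrix.trace (Matrix.diagonal (fun j => ((b j ^ ((γ - 1) / 2) : ℝ) : ℂ)) *
      (κ * κ) * Matrix.diagonal (fun j => ((b j ^ ((γ - 1) / 2) : ℝ) : ℂ)))).re - ∑ j, b j ^ γ) ≤
      ∑ i, hκ.eigenvalues i ^ (2 * γ)) ∧
  ∀ (N : ℕ) (γ δ : ℝ) (κ : Mat N) (hκ : κ.IsHermitian) (T : Mat N) (b : Fin N → ℝ), 0 < γ →
    γ ≤ 1 → 0 < δ → κ.PosSemidef → (∀ j, 0 < b j) →
    T = (hκ.eigenvectorUnitary : Mat N) *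
      Matrix.diagonal (fun i => (((hκ.eigenvalues i ^ 2 + δ) ^ ((γ - 1) / 2) : ℝ) : ℂ)) *
        (hκ.eigenvectorUnitary : Mat N)ᴴ →
    ∑ j, ((b j + δ) ^ γ - δ ^ γ) ≤ ∑ i, hκ.eigenvalues i ^ (2 * γ) +
      γ * ((Matrix.trace (T * Matrix.diagonal (fun j => (b j : ℂ)) * T)).re -
        (Matrix.trace (T * (κ * κ) * T)).re)

/-- (UNFL) operator valued unfolding. -/
def UnfLStmt : Prop :=
  ∀ (d : ℕ) (γ L : ℝ), 1 / 2 ≤ γ → γ < 3 / 2 → 0 ≤ L → ES' d (γ + 1 / 2) L →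
    ESF (d + 1) γ (Lone γ * L)

/-! ## Relations between the inequalities for test functions -/

/-- (ESP) for exponents `s ≥ 1`. -/
def EspStmt : Prop :=
  (∀ (d : ℕ) (s L : ℝ), 1 ≤ s → 0 ≤ L → ES d s L → ES' d s L) ∧
    ∀ (d : ℕ) (s L : ℝ), 1 ≤ s → 0 ≤ L → ESF d s L → ES' d s L

/-- (POTA) approximation of a potential by continuous potentials with compact support. -/
def PotAStmt : Prop :=
  ∀ (d N : ℕ) (p : ℝ) (ψ : Fin N → (Fin d → ℝ) → ℂ) (U : (Fin d → ℝ) → ℝ), 1 ≤ p →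
    (∀ j, MemLp (ψ j) 2 volume) → MemLp U (ENNReal.ofReal p) volume → (∀ y, 0 ≤ U y) →
    (∀ j, Integrable (fun y => U y * ‖ψ j y‖ ^ 2) volume) → ∀ ε : ℝ, 0 < ε →
    ∃ W : (Fin d → ℝ) → ℝ, PotFn d W ∧ ∫ y, W y ^ p ≤ (∫ y, U y ^ p) + ε ∧
      ∀ i j, ‖(∫ y, (W y : ℂ) * (ψ i y * conj (ψ j y))) -
        ∫ y, (U y : ℂ) * (ψ i y * conj (ψ j y))‖ ≤ ε

/-- (SPECL) from test functions to eigenfunctions. -/
def SpecLStmt : Prop :=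
  ∀ (d : ℕ) (γ L : ℝ), 0 < d → 1 / 2 ≤ γ → 0 ≤ L → ESF d γ L → LTBoundD d γ L

/-- `R_γ = L_{γ,1} / L^cl_{γ,1}` -/
noncomputable def Rg (γ : ℝ) : ℝ := 2 * ((γ - 1 / 2) / (γ + 1 / 2)) ^ (γ - 1 / 2)

/-- (CONSTL) -/
def ConstLStmt : Prop :=
  ∀ (γ : ℝ) (d : ℕ), 1 / 2 ≤ γ → 0 < Rg γ ∧ 0 < Lone γ ∧ 0 < Lcl γ d ∧
    Lone γ * Lcl (γ + 1 / 2) d = Rg γ * Lcl γ (d + 1)

/-- final statement: all dimensions -/
def AllDimLStmt : Prop :=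
  (∀ (d : ℕ) (γ : ℝ), 0 < d → 1 ≤ γ → γ < 3 / 2 → LTBoundD d γ (Rg γ * Lcl γ d)) ∧
    ∀ (d : ℕ) (γ : ℝ), 1 < d → 1 / 2 ≤ γ → γ < 1 →
      LTBoundD d γ (Rg γ * Rg (γ + 1 / 2) * Lcl γ d)

end Pool.Agent.LTS
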