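import Pool.Agent.LT.SliceJ
import Pool.Agent.LTS.DefsL

/-!
# Relations between the inequalities for test functions, exponents `s ≥ 1`
(MP_4c716f_mp, module ESP; mathematics: helper15; Lean: helper51)
-/

set_option autoImplicit false

namespace Pool.Agent.LTS

open MeasureTheory Matrix Finset
open scoped ComplexConjugate ComplexOrder ContDiff
open Pool.Agent.LT (TestFn PotFn gramF kinE formE form1 ES ES')
open Pool.Agent.LT.AL (act QM wM pd)

namespace Esp

/-- Jensen's inequality for weights of total mass at most one -/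
theorem jensen {m : ℕ} (s : ℝ) (hs : 1 ≤ s) (w x : Fin m → ℝ) (hw : ∀ a, 0 ≤ w a)
    (hx : ∀ a, 0 ≤ x a) (h1 : ∑ a, w a ≤ 1) : (∑ a, w a * x a) ^ s ≤ ∑ a, w a * x a ^ s := by
  have hs0 : s ≠ 0 := by linarith
  have h := Real.rpow_arith_mean_le_arith_mean_rpow (Finset.univ : Finset (Option (Fin m)))
    (fun o => o.elim (1 - ∑ a, w a) w) (fun o => o.elim 0 x) ?_ ?_ ?_ hs
  · simpa [Fintype.sum_option, Real.zero_rpow hs0] using h
  · rintro (_ | a) _
    · simpa using h1
    · exact hw a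
  · simp [Fintype.sum_option]
  · rintro (_ | a) _
    · simp
    · exact hx a

theorem row {N m : ℕ} (T : Matrix (Fin N) (Fin m) ℂ) (h : (1 - T * Tᴴ).PosSemidef) (j : Fin N) :
    ∑ a, ‖T j a‖ ^ 2 ≤ 1 := by
  have h1 := h.diag_nonneg (i := j)
  have h2 : (T * Tᴴ) j j = ((∑ a, ‖T j a‖ ^ 2 : ℝ) : ℂ) := by
    rw [Matrix.mul_apply]
    push_cast
    refine Finset.sum_congr rfl fun a _ => ?_
    rw [Matrix.conjTranspose_apply, RCLike.star_def, Complex.mul_conj, Complex.normSq_eq_norm_sq]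
    push_cast
    rfl
  rw [Matrix.sub_apply, Matrix.one_apply_eq, h2] at h1
  have h3 : (0 : ℝ) ≤ 1 - ∑ a, ‖T j a‖ ^ 2 := by
    rw [← Complex.ofReal_one, ← Complex.ofReal_sub] at h1
    exact Complex.zero_le_real.1 h1
  linarith

theorem col {N m : ℕ} (T : Matrix (Fin N) (Fin m) ℂ) (h : (1 - T * Tᴴ).PosSemidef) (a : Fin m) :
    ∑ j, ‖T j a‖ ^ 2 ≤ 1 := by
  set P : Matrix (Fin m) (Fin m) ℂ := Tᴴ * T with hP
  have h0 := h.conjTranspose_mul_mul_same T
  have h1 : Tᴴ * (1 - T * Tᴴ) * T = P - P * P := by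
    rw [hP, Matrix.mul_sub, Matrix.mul_one, Matrix.sub_mul]
    simp only [Matrix.mul_assoc]
  rw [h1] at h0
  have h2 := h0.diag_nonneg (i := a)
  set c : ℝ := ∑ j, ‖T j a‖ ^ 2 with hc
  have h3 : P a a = (c : ℂ) := by
    rw [hP, Matrix.mul_apply, hc]
    push_cast
    refine Finset.sum_congr rfl fun j _ => ?_
    rw [Matrix.conjTranspose_apply, RCLike.star_def, mul_comm, Complex.mul_conj,
      Complex.normSq_eq_norm_sq]
    push_cast
    rfl
  have hPP : Pᴴ = P := by
    rw [hP, Matrix.conjTranspose_mul, Matrix.conjTranspose_conjTranspose]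
  have h4 : (P * P) a a = ((∑ b, ‖P a b‖ ^ 2 : ℝ) : ℂ) := by
    rw [Matrix.mul_apply]
    push_cast
    refine Finset.sum_congr rfl fun b _ => ?_
    have : P b a = conj (P a b) := by
      conv_lhs => rw [← hPP]
      rw [Matrix.conjTranspose_apply, RCLike.star_def]
    rw [this, Complex.mul_conj, Complex.normSq_eq_norm_sq]
    push_cast
    rfl
  rw [Matrix.sub_apply, h3, h4] at h2
  have h5 : (0 : ℝ) ≤ c - ∑ b, ‖P a b‖ ^ 2 := by
    rw [← Complex.ofReal_sub] at h2
    exact Complex.zero_le_real.1 h2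
  have h6 : c ^ 2 ≤ ∑ b, ‖P a b‖ ^ 2 := by
    have := Finset.single_le_sum (f := fun b => ‖P a b‖ ^ 2) (fun b _ => by positivity)
      (Finset.mem_univ a)
    refine le_trans (le_of_eq ?_) this
    simp only [h3, Complex.norm_real, Real.norm_eq_abs, sq_abs]
  have h7 : 0 ≤ c := Finset.sum_nonneg fun j _ => by positivity
  nlinarith

theorem form_act {d N m : ℕ} (V : (Fin d → ℝ) → ℝ) (hV : Continuous V)
    (h : Fin m → (Fin d → ℝ) → ℂ) (e : Fin m → ℝ) (T : Matrix (Fin N) (Fin m) ℂ)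
    (hh : ∀ a, TestFn d (h a)) (hQ : QM V h = Matrix.diagonal (fun a => (e a : ℂ))) (j : Fin N) :
    form1 V (act T h j) = ∑ a, ‖T j a‖ ^ 2 * e a := by
  rw [Pool.Agent.LT.SJ.QM_diag V (act T h) j, Pool.Agent.LT.AL.QM_act V hV T hh, hQ]
  have : (T * Matrix.diagonal (fun a => (e a : ℂ)) * Tᴴ) j j =
      ((∑ a, ‖T j a‖ ^ 2 * e a : ℝ) : ℂ) := by
    rw [Matrix.mul_apply]
    push_cast
    refine Finset.sum_congr rfl fun a _ => ?_
    rw [Matrix.mul_diagonal, Matrix.conjTranspose_apply, RCLike.star_def]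
    have h2 : T j a * conj (T j a) = ((‖T j a‖ ^ 2 : ℝ) : ℂ) := by
      rw [Complex.mul_conj, Complex.normSq_eq_norm_sq]
    push_cast at h2
    linear_combination (e a : ℂ) * h2
  rw [this, Complex.ofReal_re]

theorem key {d N m : ℕ} (s : ℝ) (hs : 1 ≤ s) (V : (Fin d → ℝ) → ℝ) (hV : Continuous V)
    (g : Fin N → (Fin d → ℝ) → ℂ) (h : Fin m → (Fin d → ℝ) → ℂ) (e : Fin m → ℝ)
    (T : Matrix (Fin N) (Fin m) ℂ) (hh : ∀ a, TestFn d (h a)) (hG : gramF h = 1)
    (hQ : QM V h = Matrix.diagonal (fun a => (e a : ℂ))) (hg : g = act T h)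
    (hgr : (1 - gramF g).PosSemidef) :
    ∑ j, max (-form1 V (g j)) 0 ^ s ≤ ∑ a, max (-e a) 0 ^ s := by
  have h1 : (1 - T * Tᴴ).PosSemidef := by
    rw [hg, Pool.Agent.LT.AL.gramF_act _ hh, hG, Matrix.mul_one] at hgr
    exact hgr
  have hx : ∀ a, 0 ≤ max (-e a) 0 := fun a => le_max_right _ _
  have h2 : ∀ j, max (-form1 V (g j)) 0 ^ s ≤ ∑ a, ‖T j a‖ ^ 2 * max (-e a) 0 ^ s := by
    intro j
    refine le_trans (Real.rpow_le_rpow (le_max_right _ _) ?_ (by linarith))
      (jensen s hs (fun a => ‖T j a‖ ^ 2) (fun a => max (-e a) 0) (fun a => by positivity) hx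
        (row T h1 j))
    refine max_le ?_ (Finset.sum_nonneg fun a _ => mul_nonneg (by positivity) (hx a))
    rw [hg, form_act V hV h e T hh hQ j, ← Finset.sum_neg_distrib]
    refine Finset.sum_le_sum fun a _ => ?_
    rw [← mul_neg]
    exact mul_le_mul_of_nonneg_left (le_max_left _ _) (by positivity)
  calc ∑ j, max (-form1 V (g j)) 0 ^ s ≤ ∑ j, ∑ a, ‖T j a‖ ^ 2 * max (-e a) 0 ^ s :=
        Finset.sum_le_sum fun j _ => h2 j
    _ = ∑ a, (∑ j, ‖T j a‖ ^ 2) * max (-e a) 0 ^ s := by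
        rw [Finset.sum_comm]
        exact Finset.sum_congr rfl fun a _ => (Finset.sum_mul _ _ _).symm
    _ ≤ ∑ a, max (-e a) 0 ^ s := by
        refine Finset.sum_le_sum fun a _ => ?_
        have := Real.rpow_nonneg (hx a) s
        have := col T h1 a
        nlinarith

theorem QM_sub {d k m : ℕ} (V : (Fin d → ℝ) → ℝ) (h : Fin m → (Fin d → ℝ) → ℂ)
    (φ : Fin k → Fin m) : QM V (fun i => h (φ i)) = (QM V h).submatrix φ φ := by
  ext i j
  simp [QM, wM, Matrix.sum_apply]

end Esp

open Esp in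
theorem esp : EspStmt := by
  refine ⟨?_, ?_⟩
  · intro d s L hs hL hE N g V hg hV hgr
    obtain ⟨m, h, e, T, hh, hG, hQ, hgT⟩ := Pool.Agent.LT.AL.exists_diag V hV.1 g hg
    refine (key s hs V hV.1 g h e T hh hG hQ hgT hgr).trans ?_
    have h1 := hE m h V hh hV hG
    have h2 : ∀ a, form1 V (h a) = e a := by
      intro a
      rw [Pool.Agent.LT.SJ.QM_diag V h a, hQ, Matrix.diagonal_apply_eq, Complex.ofReal_re]
    simpa only [h2] using h1
  · intro d s L hs hL hE N g V hg hV hgr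
    obtain ⟨m, h, e, T, hh, hG, hQ, hgT⟩ := Pool.Agent.LT.AL.exists_diag V hV.1 g hg
    refine (key s hs V hV.1 g h e T hh hG hQ hgT hgr).trans ?_
    set S : Finset (Fin m) := Finset.univ.filter fun a => e a < 0 with hS
    set φ : Fin S.card → Fin m := fun i => S.orderEmbOfFin rfl i with hφ
    have hφi : Function.Injective φ := (S.orderEmbOfFin rfl).injective
    have hφS : ∀ i, e (φ i) < 0 := fun i => by
      exact (Finset.mem_filter.1 (Finset.orderEmbOfFin_mem S rfl i)).2
    have hG' : gramF (fun i => h (φ i)) = 1 := by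
      have : gramF (fun i => h (φ i)) = (gramF h).submatrix φ φ := by
        ext i j
        simp [gramF]
      rw [this, hG]
      exact Matrix.submatrix_one φ hφi
    have hQ' : QM V (fun i => h (φ i)) = Matrix.diagonal (fun i => (e (φ i) : ℂ)) := by
      rw [QM_sub V h φ, hQ, Matrix.submatrix_diagonal _ φ hφi]
      rfl
    have h1 := hE S.card (fun i => h (φ i)) V (fun i => -e (φ i)) (fun i => hh (φ i)) hV
      (by rw [hG', sub_self]; exact Matrix.PosSemidef.zero)
      (fun i => neg_pos.2 (hφS i))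
      (by
        rw [hQ']
        have : (-Matrix.diagonal (fun i => (e (φ i) : ℂ)) -
            Matrix.diagonal (fun i => ((-e (φ i) : ℝ) : ℂ)) : Mat S.card) = 0 := by
          ext i j
          by_cases hij : i = j
          · subst hij
            simp
          · simp [Matrix.diagonal_apply_ne _ hij]
        rw [this]
        exact Matrix.PosSemidef.zero)
    refine le_trans (le_of_eq ?_) h1
    have h2 : ∑ a, max (-e a) 0 ^ s = ∑ a ∈ S, (-e a) ^ s := by
      rw [hS, Finset.sum_filter]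
      refine Finset.sum_congr rfl fun a _ => ?_
      split_ifs with ha
      · rw [max_eq_left (by linarith)]
      · rw [max_eq_right (by linarith), Real.zero_rpow (by linarith)]
    rw [h2]
    have h3 : S = Finset.univ.map ⟨φ, hφi⟩ := by
      ext a
      rw [Finset.mem_map]
      constructor
      · intro ha
        have : a ∈ Set.range (S.orderEmbOfFin rfl) := by
          rw [Finset.range_orderEmbOfFin]
          exact ha
        obtain ⟨i, hi⟩ := this
        exact ⟨i, Finset.mem_univ _, hi⟩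
      · rintro ⟨i, _, hi⟩
        rw [← hi]
        exact Finset.orderEmbOfFin_mem S rfl i
    conv_lhs => rw [h3]
    rw [Finset.sum_map]
    rfl

end Pool.Agent.LTS
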