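import Pool.Agent.LT.SliceJ
import Pool.Agent.LTS.DefsL

/-!
# The fibre potential `((P+η)^(-1/2) M (P+η)^(-1/2))₋` (module LTL_FIB)
-/

set_option autoImplicit false

namespace Pool.Agent.LTS

open MeasureTheory Matrix Finset
open scoped ComplexConjugate ComplexOrder ContDiff
open Pool.Agent.LT (TestFn PotFn gramF kinE formE form1 ES ES' Lcl IsH1v gram IsH1d LTBoundD)
open Pool.Agent.LT.AL (act QM)

namespace FibAux

/-- `U diag(a) U*` -/
noncomputable def cj {N : ℕ} (U : Mat N) (a : Fin N → ℝ) : Mat N :=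
  U * Matrix.diagonal (fun i => ((a i : ℝ) : ℂ)) * Uᴴ

variable {N : ℕ}

theorem cj_herm (U : Mat N) (a : Fin N → ℝ) : (cj U a).IsHermitian := by
  unfold cj Matrix.IsHermitian
  rw [Matrix.conjTranspose_mul, Matrix.conjTranspose_mul, Matrix.conjTranspose_conjTranspose,
    Matrix.diagonal_conjTranspose, Matrix.mul_assoc]
  congr 3
  ext i
  simp

theorem cj_posSemidef (U : Mat N) (a : Fin N → ℝ) (ha : ∀ i, 0 ≤ a i) :
    (cj U a).PosSemidef := by
  unfold cj
  refine PosSemidef.mul_mul_conjTranspose_same ?_ U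
  rw [Matrix.posSemidef_diagonal_iff]
  intro i
  exact_mod_cast ha i

theorem cj_mul (U : Mat N) (hU : Uᴴ * U = 1) (a b : Fin N → ℝ) :
    cj U a * cj U b = cj U (fun i => a i * b i) := by
  unfold cj
  calc U * Matrix.diagonal (fun i => ((a i : ℝ) : ℂ)) * Uᴴ *
        (U * Matrix.diagonal (fun i => ((b i : ℝ) : ℂ)) * Uᴴ)
      = U * Matrix.diagonal (fun i => ((a i : ℝ) : ℂ)) * (Uᴴ * U) *
        Matrix.diagonal (fun i => ((b i : ℝ) : ℂ)) * Uᴴ := by
        simp only [Matrix.mul_assoc]
    _ = _ := by
        rw [hU, Matrix.mul_one, Matrix.mul_assoc U, Matrix.diagonal_mul_diagonal]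
        congr 3
        ext i
        push_cast
        rfl

theorem cj_add (U : Mat N) (a b : Fin N → ℝ) :
    cj U a + cj U b = cj U (fun i => a i + b i) := by
  unfold cj
  rw [← Matrix.add_mul, ← Matrix.mul_add, Matrix.diagonal_add]
  congr 3
  ext i
  push_cast
  rfl

theorem cj_one (U : Mat N) (hU : U * Uᴴ = 1) : cj U (fun _ => 1) = 1 := by
  unfold cj
  simp [hU]

theorem cj_const (U : Mat N) (hU : U * Uᴴ = 1) (c : ℝ) :
    cj U (fun _ => c) = (c : ℂ) • (1 : Mat N) := by
  unfold cj
  have : Matrix.diagonal (fun _ : Fin N => ((c : ℝ) : ℂ)) = (c : ℂ) • (1 : Mat N) := by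
    rw [← Matrix.diagonal_one, ← Matrix.diagonal_smul]
    congr 1
    ext i
    simp
  rw [this, Matrix.mul_smul, Matrix.mul_one, Matrix.smul_mul, hU]

theorem unit1 {A : Mat N} (hA : A.IsHermitian) :
    (hA.eigenvectorUnitary : Mat N)ᴴ * (hA.eigenvectorUnitary : Mat N) = 1 :=
  Unitary.coe_star_mul_self hA.eigenvectorUnitary

theorem unit2 {A : Mat N} (hA : A.IsHermitian) :
    (hA.eigenvectorUnitary : Mat N) * (hA.eigenvectorUnitary : Mat N)ᴴ = 1 :=
  Unitary.coe_mul_star_self hA.eigenvectorUnitary

theorem spec {A : Mat N} (hA : A.IsHermitian) :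
    A = cj (hA.eigenvectorUnitary : Mat N) hA.eigenvalues := by
  have := hA.spectral_theorem
  rw [Unitary.conjStarAlgAut_apply] at this
  exact this

/-- the eigenvalues of `U diag(a) U*` are the `a i` -/
theorem sum_eig (U : Mat N) (hU : Uᴴ * U = 1) (a : Fin N → ℝ) (A : Mat N) (hA : A = cj U a)
    (h : A.IsHermitian) (g : ℝ → ℝ) : ∑ i, g (h.eigenvalues i) = ∑ i, g (a i) := by
  have h1 : A.charpoly = ∏ i, (Polynomial.X - Polynomial.C ((a i : ℝ) : ℂ)) := by
    rw [hA, cj, Matrix.charpoly_mul_comm, ← Matrix.mul_assoc, hU, Matrix.one_mul,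
      Matrix.charpoly_diagonal]
  have h2 : A.charpoly.roots = Multiset.map (fun i => ((a i : ℝ) : ℂ)) Finset.univ.val := by
    rw [h1, Polynomial.roots_prod]
    · simp
    · exact Finset.prod_ne_zero_iff.2 fun i _ => Polynomial.X_sub_C_ne_zero _
  have h3 := h.roots_charpoly_eq_eigenvalues
  rw [h2] at h3
  have h4 := congrArg (Multiset.map Complex.re) h3
  rw [Multiset.map_map, Multiset.map_map] at h4
  have h5 : Multiset.map a Finset.univ.val = Multiset.map h.eigenvalues Finset.univ.val := by
    convert h4 using 2 <;> simp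
  have h6 := congrArg (fun m : Multiset ℝ => (Multiset.map g m).sum) h5
  simp only [Multiset.map_map] at h6
  exact h6.symm

theorem trace_mul_nonneg {A B : Mat N} (hA : A.PosSemidef) (hB : B.PosSemidef) :
    0 ≤ (Matrix.trace (A * B)).re := by
  set U : Mat N := (hA.isHermitian.eigenvectorUnitary : Mat N) with hU
  set C : Mat N := cj U (fun i => √(hA.isHermitian.eigenvalues i)) with hC
  have h1 : A = C * C := by
    rw [hC, cj_mul U (unit1 _)]
    conv_lhs => rw [spec hA.isHermitian]
    congr 1
    ext i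
    exact (Real.mul_self_sqrt (hA.eigenvalues_nonneg i)).symm
  have hCh : Cᴴ = C := cj_herm _ _
  have h2 : Matrix.trace (A * B) = Matrix.trace (C * B * Cᴴ) := by
    rw [hCh, h1, Matrix.mul_assoc, Matrix.trace_mul_comm]
  rw [h2]
  have h3 := (hB.mul_mul_conjTranspose_same C).trace_nonneg
  exact (Complex.le_def.1 h3).1

theorem ca1 (R : Mat N → Mat N) (hR1 : ContinuousOn R {κ | κ.IsHermitian}) :
    ContinuousOn (fun p : Mat N × Mat N => R p.1)
      {p | p.1.IsHermitian ∧ p.2.IsHermitian} := by
  have h : Set.MapsTo (fun p : Mat N × Mat N => p.1)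
      {p : Mat N × Mat N | p.1.IsHermitian ∧ p.2.IsHermitian} {κ : Mat N | κ.IsHermitian} := by
    intro p hp
    exact hp.1
  exact ContinuousOn.comp (g := R) (f := fun p : Mat N × Mat N => p.1) (t := {κ | κ.IsHermitian})
    hR1 continuous_fst.continuousOn h

theorem ca3 : Continuous fun q : Mat N × Mat N => q.1 * q.2 :=
  Continuous.matrix_mul continuous_fst continuous_snd

theorem ca2 : Continuous fun q : Mat N × Mat N => q.1 * q.2 * q.1 := by
  have h1 : Continuous fun q : Mat N × Mat N => q.1 * q.2 := ca3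
  have h2 : Continuous fun q : Mat N × Mat N => q.1 := continuous_fst
  exact Continuous.matrix_mul (A := fun q : Mat N × Mat N => q.1 * q.2)
    (B := fun q : Mat N × Mat N => q.1) h1 h2

theorem ca4 (R : Mat N → Mat N) (hR1 : ContinuousOn R {κ | κ.IsHermitian}) :
    ContinuousOn (fun p : Mat N × Mat N => R p.1 * p.2 * R p.1)
      {p | p.1.IsHermitian ∧ p.2.IsHermitian} := by
  have h2 : ContinuousOn (fun p : Mat N × Mat N => (R p.1, p.2))
      {p | p.1.IsHermitian ∧ p.2.IsHermitian} :=
    ContinuousOn.prodMk (ca1 R hR1) continuous_snd.continuousOn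
  exact Continuous.comp_continuousOn (g := fun q : Mat N × Mat N => q.1 * q.2 * q.1)
    (f := fun p : Mat N × Mat N => (R p.1, p.2)) ca2 h2

theorem cont_aux (R Ng : Mat N → Mat N) (hR1 : ContinuousOn R {κ | κ.IsHermitian})
    (hN1 : ContinuousOn Ng {κ | κ.IsHermitian})
    (hKh : ∀ P M : Mat N, P.IsHermitian → M.IsHermitian → (R P * M * R P).IsHermitian) :
    ContinuousOn (fun p : Mat N × Mat N => Ng (R p.1 * p.2 * R p.1))
      {p | p.1.IsHermitian ∧ p.2.IsHermitian} := by
  have h : Set.MapsTo (fun p : Mat N × Mat N => R p.1 * p.2 * R p.1)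
      {p : Mat N × Mat N | p.1.IsHermitian ∧ p.2.IsHermitian} {κ : Mat N | κ.IsHermitian} := by
    intro p hp
    exact hKh _ _ hp.1 hp.2
  exact ContinuousOn.comp (g := Ng) (f := fun p : Mat N × Mat N => R p.1 * p.2 * R p.1)
    (t := {κ | κ.IsHermitian}) hN1 (ca4 R hR1) h

end FibAux

open FibAux

theorem fib (hf : FunStmt) : FibStmt := by
  intro N η hη
  have hpos : ∀ t : ℝ, 0 < max t 0 + η := fun t => by
    have := le_max_right t 0
    linarith
  set r : ℝ → ℝ := fun t => (√(max t 0 + η))⁻¹ with hr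
  have hrc : Continuous r := by
    refine Continuous.inv₀ ?_ fun t => (Real.sqrt_pos.2 (hpos t)).ne'
    exact Real.continuous_sqrt.comp ((continuous_id.max continuous_const).add continuous_const)
  have hrr : ∀ t, r t * (max t 0 + η) * r t = 1 := fun t => by
    have h1 := Real.sqrt_pos.2 (hpos t)
    have h2 := Real.mul_self_sqrt (hpos t).le
    simp only [hr]
    nth_rewrite 2 [← h2]
    field_simp
  obtain ⟨R, hR1, hR2⟩ := hf N r hrc
  obtain ⟨Ng, hN1, hN2⟩ := hf N (fun t => max (-t) 0)
    ((continuous_id.neg).max continuous_const)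
  have hRe : ∀ (P : Mat N) (hP : P.IsHermitian),
      R P = cj (hP.eigenvectorUnitary : Mat N) (fun i => r (hP.eigenvalues i)) := fun P hP =>
    hR2 P hP
  have hNe : ∀ (K : Mat N) (hK : K.IsHermitian),
      Ng K = cj (hK.eigenvectorUnitary : Mat N) (fun i => max (-hK.eigenvalues i) 0) :=
    fun K hK => hN2 K hK
  have hRh : ∀ P : Mat N, P.IsHermitian → (R P)ᴴ = R P := fun P hP => by
    rw [hRe P hP]
    exact cj_herm _ _
  have hKh : ∀ P M : Mat N, P.IsHermitian → M.IsHermitian → (R P * M * R P).IsHermitian := by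
    intro P M hP hM
    unfold Matrix.IsHermitian
    rw [Matrix.conjTranspose_mul, Matrix.conjTranspose_mul, hRh P hP, hM.eq, Matrix.mul_assoc]
  refine ⟨fun P M => Ng (R P * M * R P), ?_, ?_, ?_, ?_⟩
  · -- continuity
    exact cont_aux R Ng hR1 hN1 hKh
  · -- positivity
    intro P M hP hM
    show (Ng (R P * M * R P)).PosSemidef
    rw [hNe _ (hKh P M hP hM)]
    exact cj_posSemidef _ _ fun i => le_max_right _ _
  · -- trace inequality
    intro P M hP hM
    show -(Matrix.trace M).re ≤ (Matrix.trace (Ng (R P * M * R P) * P)).re +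
      η * (Matrix.trace (Ng (R P * M * R P))).re
    have hPh := hP.isHermitian
    have hK := hKh P M hPh hM
    set K : Mat N := R P * M * R P with hKdef
    set U : Mat N := (hPh.eigenvectorUnitary : Mat N) with hU
    have hQ : P + (η : ℂ) • (1 : Mat N) = cj U (fun i => hPh.eigenvalues i + η) := by
      rw [← cj_add, ← spec hPh, cj_const U (unit2 hPh)]
    have h1 : R P * (P + (η : ℂ) • (1 : Mat N)) * R P = 1 := by
      rw [hQ, hRe P hPh, cj_mul U (unit1 hPh), cj_mul U (unit1 hPh)]
      rw [← cj_one U (unit2 hPh)]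
      congr 1
      ext i
      have h2 := hrr (hPh.eigenvalues i)
      rwa [max_eq_left (hP.eigenvalues_nonneg i)] at h2
    have hQp : (P + (η : ℂ) • (1 : Mat N)).PosSemidef := by
      rw [hQ]
      exact cj_posSemidef _ _ fun i => by
        have := hP.eigenvalues_nonneg i
        linarith
    have hsum : (Ng K + K).PosSemidef := by
      have e : Ng K + K = cj (hK.eigenvectorUnitary : Mat N)
          (fun i => max (-hK.eigenvalues i) 0 + hK.eigenvalues i) := by
        rw [← cj_add, ← hNe K hK, ← spec hK]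
      rw [e]
      refine cj_posSemidef _ _ fun i => ?_
      have := le_max_left (-hK.eigenvalues i) 0
      linarith
    have h2 := trace_mul_nonneg hsum hQp
    have h3 : Matrix.trace (K * (P + (η : ℂ) • (1 : Mat N))) = Matrix.trace M := by
      rw [hKdef]
      calc Matrix.trace (R P * M * R P * (P + (η : ℂ) • (1 : Mat N)))
          = Matrix.trace (R P * (M * (R P * (P + (η : ℂ) • (1 : Mat N))))) := by
            simp only [Matrix.mul_assoc]
        _ = Matrix.trace (M * (R P * (P + (η : ℂ) • (1 : Mat N))) * R P) :=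
            Matrix.trace_mul_comm _ _
        _ = Matrix.trace (M * (R P * (P + (η : ℂ) • (1 : Mat N)) * R P)) := by
            simp only [Matrix.mul_assoc]
        _ = Matrix.trace M := by rw [h1, Matrix.mul_one]
    rw [Matrix.add_mul, Matrix.trace_add, h3, Matrix.mul_add, Matrix.trace_add,
      Matrix.mul_smul, Matrix.mul_one, Matrix.trace_smul] at h2
    simp only [Complex.add_re, smul_eq_mul, Complex.re_ofReal_mul] at h2
    linarith
  · -- the spectral inequality
    intro d s L f W hs hES hft hW h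
    have hPh : (gramF f).IsHermitian := by
      rw [LT.AL.gramF_eq]
      exact LT.AL.wM_herm _ _
    have hM : (QM W f).IsHermitian := LT.AL.QM_herm W f
    have hK := hKh _ _ hPh hM
    set P : Mat N := gramF f with hPdef
    set M : Mat N := QM W f with hMdef
    set K : Mat N := R P * M * R P with hKdef
    set U : Mat N := (hPh.eigenvectorUnitary : Mat N) with hU
    set V : Mat N := (hK.eigenvectorUnitary : Mat N) with hV
    have hVV : Vᴴ * V = 1 := unit1 hK
    have hVV' : V * Vᴴ = 1 := unit2 hK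
    set g : Fin N → (Fin d → ℝ) → ℂ := act (Vᴴ * R P) f with hg
    have hgt : ∀ j, TestFn d (g j) := fun j => LT.AL.test_act _ hft j
    have hct : (Vᴴ * R P)ᴴ = R P * V := by
      rw [Matrix.conjTranspose_mul, Matrix.conjTranspose_conjTranspose, hRh P hPh]
    have hG : (1 - gramF g).PosSemidef := by
      have h1 : gramF g = Vᴴ * (R P * P * R P) * V := by
        rw [hg, LT.AL.gramF_act _ hft, hct]
        simp only [Matrix.mul_assoc]
        rfl
      have h2 : (1 - R P * P * R P).PosSemidef := by
        have h3 : R P * P * R P = cj U (fun i => r (hPh.eigenvalues i) * hPh.eigenvalues i *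
            r (hPh.eigenvalues i)) := by
          rw [hRe P hPh]
          conv_lhs => enter [1, 2]; rw [spec hPh]
          rw [cj_mul U (unit1 hPh), cj_mul U (unit1 hPh)]
        have h4 : 1 - R P * P * R P = cj U (fun i => 1 - r (hPh.eigenvalues i) *
            hPh.eigenvalues i * r (hPh.eigenvalues i)) := by
          rw [sub_eq_iff_eq_add, h3, cj_add, ← cj_one U (unit2 hPh)]
          congr 1
          ext i
          ring
        rw [h4]
        refine cj_posSemidef _ _ fun i => ?_
        have h5 := hrr (hPh.eigenvalues i)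
        have h6 : 0 ≤ r (hPh.eigenvalues i) := by
          simp only [hr]
          positivity
        have h7 := le_max_left (hPh.eigenvalues i) 0
        nlinarith [mul_nonneg h6 h6]
      have h3 : 1 - gramF g = Vᴴ * (1 - R P * P * R P) * V := by
        rw [Matrix.mul_sub, Matrix.sub_mul, Matrix.mul_one, hVV, h1]
      rw [h3]
      have := h2.mul_mul_conjTranspose_same Vᴴ
      rwa [Matrix.conjTranspose_conjTranspose] at this
    have hQ : QM W g = Matrix.diagonal (fun i => ((hK.eigenvalues i : ℝ) : ℂ)) := by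
      rw [hg, LT.AL.QM_act W hW.1 _ hft, hct]
      have h1 : Vᴴ * R P * M * (R P * V) = Vᴴ * K * V := by
        rw [hKdef]
        simp only [Matrix.mul_assoc]
      rw [← hMdef, h1]
      conv_lhs => rw [spec hK]
      unfold cj
      rw [← hV, ← Matrix.mul_assoc, ← Matrix.mul_assoc, hVV, Matrix.one_mul, Matrix.mul_assoc, hVV,
        Matrix.mul_one]
    have h1 := hES N g W hgt hW hG
    have h2 : ∀ j, form1 W (g j) = hK.eigenvalues j := fun j => by
      rw [LT.SJ.QM_diag W g j, hQ, Matrix.diagonal_apply_eq, Complex.ofReal_re]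
    simp only [h2] at h1
    have h3 := sum_eig V hVV (fun i => max (-hK.eigenvalues i) 0) (Ng K) (hNe K hK) h
      (fun t => t ^ s)
    calc ∑ i, h.eigenvalues i ^ s = ∑ i, max (-hK.eigenvalues i) 0 ^ s := h3
      _ ≤ _ := h1

end Pool.Agent.LTS
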