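import Pool.Agent.LT.Base
import Pool.Agent.LTS.DefsL

/-!
# Dimension zero, exponents `s ≥ 1`
(MP_4c716f_mp; helper15)
-/

set_option autoImplicit false

namespace Pool.Agent.LTS

open MeasureTheory Matrix Finset
open scoped ComplexConjugate ComplexOrder ContDiff
open Pool.Agent.LT (TestFn PotFn gramF kinE formE form1 ES ES' Lcl base_int base_gramF base_Lcl)

theorem base0 (s : ℝ) (hs : 1 ≤ s) : ES' 0 s 1 := by
  intro N f V _ hV hG
  have hv : 0 ≤ V default := hV.2.2 _
  set n : ℝ := ∑ j, ‖f j default‖ ^ 2 with hn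
  have hn0 : 0 ≤ n := Finset.sum_nonneg fun j _ => by positivity
  have hc : ∑ j, conj (f j default) * f j default = (n : ℂ) := by
    rw [hn]
    push_cast
    exact Finset.sum_congr rfl fun j _ => Complex.conj_mul' _
  have hn1 : n ≤ 1 := by
    have h := hG.dotProduct_mulVec_nonneg (fun j => f j default)
    have h1 : star (fun j => f j default) ⬝ᵥ ((1 - gramF f) *ᵥ fun j => f j default) =
        ((n - n ^ 2 : ℝ) : ℂ) := by
      rw [Matrix.sub_mulVec, Matrix.one_mulVec, dotProduct_sub]
      have h2 : star (fun j => f j default) ⬝ᵥ (fun j => f j default) = (n : ℂ) := by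
        rw [← hc]
        rfl
      have h3 : (gramF f *ᵥ fun j => f j default) = fun i => f i default * (n : ℂ) := by
        funext i
        rw [Matrix.mulVec, ← hc, Finset.mul_sum]
        refine Finset.sum_congr rfl fun j _ => ?_
        change gramF f i j * f j default = _
        rw [base_gramF, mul_assoc]
      rw [h2, h3]
      have h4 : star (fun j => f j default) ⬝ᵥ (fun i => f i default * (n : ℂ)) =
          (n : ℂ) * (n : ℂ) := by
        conv_rhs => rw [← hc]
        rw [Finset.sum_mul]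
        refine Finset.sum_congr rfl fun j _ => ?_
        rw [hc]
        simp only [Pi.star_apply, RCLike.star_def]
        ring
      rw [h4]
      push_cast
      ring
    rw [h1] at h
    have h5 : (0 : ℝ) ≤ n - n ^ 2 := by exact_mod_cast h
    nlinarith
  have hform : ∀ j, form1 V (f j) = -(V default * ‖f j default‖ ^ 2) := by
    intro j
    unfold form1 kinE
    rw [base_int]
    simp
  have ha : ∀ j, ‖f j default‖ ^ 2 ≤ 1 := fun j =>
    (Finset.single_le_sum (f := fun j => ‖f j default‖ ^ 2) (fun i _ => by positivity)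
      (Finset.mem_univ j)).trans hn1
  have key : ∀ j, max (-form1 V (f j)) 0 ^ s ≤ V default ^ s * ‖f j default‖ ^ 2 := by
    intro j
    have h0 : 0 ≤ ‖f j default‖ ^ 2 := by positivity
    rw [hform, neg_neg, max_eq_left (mul_nonneg hv h0), Real.mul_rpow hv h0]
    refine mul_le_mul_of_nonneg_left ?_ (Real.rpow_nonneg hv s)
    rcases h0.eq_or_lt with h | h
    · rw [← h, Real.zero_rpow (by linarith)]
    · calc (‖f j default‖ ^ 2) ^ s ≤ (‖f j default‖ ^ 2) ^ (1 : ℝ) :=
          Real.rpow_le_rpow_of_exponent_ge h (ha j) hs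
        _ = ‖f j default‖ ^ 2 := Real.rpow_one _
  refine (Finset.sum_le_sum fun j _ => key j).trans ?_
  rw [← Finset.mul_sum, base_int, one_mul]
  have e : s + ((0 : ℕ) : ℝ) / 2 = s := by simp
  rw [e]
  exact mul_le_of_le_one_right (Real.rpow_nonneg hv s) hn1

/-- `R_γ ≥ 1` for `1/2 ≤ γ ≤ 3/2` -/
theorem one_le_Rg (γ : ℝ) (h1 : 1 / 2 ≤ γ) (h2 : γ ≤ 3 / 2) : 1 ≤ Rg γ := by
  unfold Rg
  rcases h1.eq_or_lt with h | h
  · rw [← h]
    norm_num
  · have hs : 0 < γ - 1 / 2 := by linarith
    have hp : 0 < γ + 1 / 2 := by linarith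
    have hb := rpow_one_add_le_one_add_mul_self (s := 1 / (γ - 1 / 2)) (p := γ - 1 / 2)
      (by have : 0 < 1 / (γ - 1 / 2) := by positivity
          linarith) hs.le (by linarith)
    have e1 : (γ - 1 / 2) * (1 / (γ - 1 / 2)) = 1 := mul_one_div_cancel hs.ne'
    have e2 : 1 + 1 / (γ - 1 / 2) = (γ + 1 / 2) / (γ - 1 / 2) := by
      rw [eq_div_iff hs.ne', add_mul, one_div_mul_cancel hs.ne']
      ring
    rw [e1, e2] at hb
    have e3 : ((γ - 1 / 2) / (γ + 1 / 2)) ^ (γ - 1 / 2) * ((γ + 1 / 2) / (γ - 1 / 2)) ^ (γ - 1 / 2) =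
        1 := by
      rw [← Real.mul_rpow (by positivity) (by positivity), div_mul_div_comm, mul_comm,
        div_self (by positivity), Real.one_rpow]
    have h4 : 0 < ((γ - 1 / 2) / (γ + 1 / 2)) ^ (γ - 1 / 2) := by positivity
    nlinarith

end Pool.Agent.LTS
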