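import Pool.Agent.LT.All3
import Pool.Agent.LTS.DefsL
import Pool.Agent.LTS.Base0

/-!
# All dimensions: assembly
(MP_4c716f_mp; helper15)
-/

set_option autoImplicit false

namespace Pool.Agent.LTS

open MeasureTheory Matrix Finset
open Pool.Agent.LT (ES ES' Lcl LTBoundD base_Lcl)

theorem esF_ge_one (hu : UnfLStmt) (hesp : EspStmt) (hc : ConstLStmt) (k : ℕ) (γ : ℝ)
    (h1 : 1 ≤ γ) (h2 : γ < 3 / 2) : ESF (k + 1) γ (Rg γ * Lcl γ (k + 1)) := by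
  obtain ⟨-, -, -, h3⟩ := hc γ k (by linarith)
  obtain ⟨-, -, h4, -⟩ := hc (γ + 1 / 2) k (by linarith)
  have h5 : ES k (γ + 1 / 2) (Lcl (γ + 1 / 2) k) :=
    LT.als k (γ + 1 / 2) (LT.D3_all LT.kin2All k) (by linarith)
  have h6 := hu k γ _ (by linarith) h2 h4.le (hesp.1 k _ _ (by linarith) h4.le h5)
  rwa [h3] at h6

/-- exponent `γ < 1`, dimension one -/
theorem esF_one (hu : UnfLStmt) (hc : ConstLStmt) (γ : ℝ) (h1 : 1 / 2 ≤ γ) (h2 : γ < 3 / 2) :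
    ESF 1 γ (Rg γ * Lcl γ 1) := by
  obtain ⟨-, -, -, h3⟩ := hc γ 0 h1
  have h6 := hu 0 γ 1 h1 h2 zero_le_one (base0 (γ + 1 / 2) (by linarith))
  rw [base_Lcl _ (by linarith)] at h3
  rwa [h3] at h6

theorem ltBoundD_mono {d : ℕ} {γ L L' : ℝ} (h : LTBoundD d γ L) (hL : L ≤ L') :
    LTBoundD d γ L' := by
  intro V hV N ψ E h1 h2 h3
  refine (h V hV N ψ E h1 h2 h3).trans (mul_le_mul_of_nonneg_right hL ?_)
  exact integral_nonneg fun y => Real.rpow_nonneg (le_max_right _ _) _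

/-- the factor in all dimensions -/
noncomputable def factorL (γ : ℝ) : ℝ := if γ < 1 then Rg γ * Rg (γ + 1 / 2) else Rg γ

theorem allDimL (hu : UnfLStmt) (hesp : EspStmt) (hsp : SpecLStmt) (hc : ConstLStmt) (d : ℕ)
    (hd : 0 < d) (γ : ℝ) (h1 : 1 / 2 ≤ γ) (h2 : γ < 3 / 2) :
    LTBoundD d γ (factorL γ * Lcl γ d) := by
  unfold factorL
  split_ifs with h
  · obtain ⟨k, rfl⟩ : ∃ k, d = k + 1 := ⟨d - 1, by omega⟩
    obtain ⟨a1, -, -, -⟩ := hc (γ + 1 / 2) 0 (by linarith)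
    obtain ⟨b1, -, b3, -⟩ := hc γ (k + 1) (by linarith)
    rcases Nat.eq_zero_or_pos k with hk | hk
    · subst hk
      have h6 := hsp 1 γ _ one_pos h1 (mul_pos b1 b3).le (esF_one hu hc γ h1 h2)
      refine ltBoundD_mono h6 ?_
      have h7 := one_le_Rg (γ + 1 / 2) (by linarith) (by linarith)
      have h8 : Rg γ * Lcl γ 1 * 1 ≤ Rg γ * Lcl γ 1 * Rg (γ + 1 / 2) :=
        mul_le_mul_of_nonneg_left h7 (mul_pos b1 b3).le
      calc Rg γ * Lcl γ 1 = Rg γ * Lcl γ 1 * 1 := (mul_one _).symm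
        _ ≤ Rg γ * Lcl γ 1 * Rg (γ + 1 / 2) := h8
        _ = Rg γ * Rg (γ + 1 / 2) * Lcl γ 1 := by ring
    · obtain ⟨k, rfl⟩ : ∃ m, k = m + 1 := ⟨k - 1, by omega⟩
      obtain ⟨-, -, a3, -⟩ := hc (γ + 1 / 2) (k + 1) (by linarith)
      obtain ⟨-, -, -, c4⟩ := hc γ (k + 1) (by linarith)
      have h5 := esF_ge_one hu hesp hc k (γ + 1 / 2) (by linarith) (by linarith)
      have h6 := hu (k + 1) γ _ h1 (by linarith) (mul_pos a1 a3).le
        (hesp.2 (k + 1) _ _ (by linarith) (mul_pos a1 a3).le h5)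
      have e : Lone γ * (Rg (γ + 1 / 2) * Lcl (γ + 1 / 2) (k + 1)) =
          Rg γ * Rg (γ + 1 / 2) * Lcl γ (k + 1 + 1) := by
        linear_combination Rg (γ + 1 / 2) * c4
      rw [e] at h6
      exact hsp (k + 1 + 1) γ _ (by omega) h1 (mul_pos (mul_pos b1 a1) b3).le h6
  · obtain ⟨k, rfl⟩ : ∃ k, d = k + 1 := ⟨d - 1, by omega⟩
    obtain ⟨h3, -, h4, -⟩ := hc γ (k + 1) (by linarith)
    exact hsp (k + 1) γ _ hd (by linarith) (mul_pos h3 h4).le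
      (esF_ge_one hu hesp hc k γ (not_lt.1 h) h2)

end Pool.Agent.LTS
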