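import Pool.Agent.LTS.DefsL
import Pool.Agent.LT.Lift1

/-!
# Slices of a family of test functions: the `H¹` functions, Fubini
(MP_4c716f_mp, module LTL_FUB; architect: helper15; Lean: helper27)
-/

set_option autoImplicit false

namespace Pool.Agent.LTS

open MeasureTheory Matrix Finset
open scoped ComplexConjugate ComplexOrder ContDiff
open Pool.Agent.LT (TestFn PotFn gramF kinE formE form1 ES ES' Lcl IsH1v gram IsH1d LTBoundD)
open Pool.Agent.LT.AL (act QM test_act QM_act gramF_act formE_eq)
open Pool.Agent.LT.Lift1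

namespace Fub

/-- Fubini for the traces of the Gram matrices of the slices. -/
lemma trace_gram {d N : ℕ} (f : Fin N → (Fin (d + 1) → ℝ) → ℂ) (hf : ∀ j, TestFn (d + 1) (f j))
    (B : Mat N) :
    Integrable (fun x => (Matrix.trace (B * gramF (slF f x))).re) volume ∧
      ∫ x, (Matrix.trace (B * gramF (slF f x))).re = (Matrix.trace (B * gramF f)).re := by
  have hI : ∀ i j, Integrable (fun x : ℝ => ∫ y : Fin d → ℝ,
      f i (Fin.cons x y) * conj (f j (Fin.cons x y))) volume := fun i j =>
    integrable_slice (g := fun z => f i z * conj (f j z)) (integrable_mul (hf i) (hf j))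
  have hT : ∀ x, Matrix.trace (B * gramF (slF f x)) =
      ∑ i, ∑ j, B i j * ∫ y : Fin d → ℝ, f j (Fin.cons x y) * conj (f i (Fin.cons x y)) := by
    intro x
    simp only [Matrix.trace, Matrix.diag, Matrix.mul_apply, gramF, slF, Matrix.of_apply]
  have hint : Integrable (fun x => Matrix.trace (B * gramF (slF f x))) volume := by
    simp only [hT]
    exact integrable_finsetSum _ fun i _ => integrable_finsetSum _ fun j _ =>
      (hI j i).const_mul _
  refine ⟨hint.re, ?_⟩
  have h1 := integral_re (𝕜 := ℂ) hint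
  simp only [RCLike.re_to_complex] at h1
  rw [h1]
  congr 1
  simp only [hT]
  rw [integral_finsetSum _ fun i _ => integrable_finsetSum _ fun j _ => (hI j i).const_mul _]
  simp only [Matrix.trace, Matrix.diag, Matrix.mul_apply, gramF, Matrix.of_apply]
  refine Finset.sum_congr rfl fun i _ => ?_
  rw [integral_finsetSum _ fun j _ => (hI j i).const_mul _]
  refine Finset.sum_congr rfl fun j _ => ?_
  rw [integral_const_mul, integral_cons (integrable_mul (hf j) (hf i))]

end Fub

open Fub in
/-- (FUB) -/
theorem fub (hs : LT.SliceStmt) : FubStmt := by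
  intro d N f V hf hV T
  have hTf : ∀ j, TestFn (d + 1) (act T f j) := fun j => test_act T hf j
  choose v w hvw hv hw htest hkin using fun j => hs d _ (hTf j)
  have hsl : ∀ x j, TestFn d (slF f x j) := fun x j => by
    obtain ⟨_, _, _, _, _, h, _⟩ := hs d _ (hf j)
    exact h x
  have hact : ∀ x, (fun j (y : Fin d → ℝ) => act T f j (Fin.cons x y)) = act T (slF f x) :=
    fun x => rfl
  refine ⟨v, w, hvw, ?_, ?_, trace_gram f hf⟩
  · intro x
    rw [gram_Lp _ _ fun j => hv j x, hact, gramF_act T (hsl x)]
  · have e1 : ∀ x, (Matrix.trace (T * QM (slV V x) (slF f x) * Tᴴ)).re =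
        ∑ j, kinE (fun y : Fin d → ℝ => act T f j (Fin.cons x y)) -
          ∫ y : Fin d → ℝ, V (Fin.cons x y) * ∑ j, ‖act T f j (Fin.cons x y)‖ ^ 2 := by
      intro x
      rw [← QM_act (slV V x) (potFn_slice hV x).1 T (hsl x),
        ← formE_eq (slV V x) (potFn_slice hV x).1 (test_act T (hsl x))]
      rfl
    have hq : Integrable (fun z => V z * ∑ j, ‖act T f j z‖ ^ 2) volume := by
      refine Continuous.integrable_of_hasCompactSupport ?_ hV.2.1.mul_right
      exact hV.1.mul (continuous_finsetSum _ fun j _ => (hTf j).1.continuous.norm.pow 2)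
    have hkI : ∀ j, Integrable (fun x : ℝ => kinE fun y : Fin d → ℝ =>
        act T f j (Fin.cons x y)) volume := fun j => integrable_kinE_slice (hTf j)
    have e2 : ∫ x, (Matrix.trace (T * QM (slV V x) (slF f x) * Tᴴ)).re =
        (∑ j, ∫ x, kinE (fun y : Fin d → ℝ => act T f j (Fin.cons x y))) -
          ∫ z, V z * ∑ j, ‖act T f j z‖ ^ 2 := by
      simp only [e1]
      rw [integral_sub (integrable_finsetSum univ fun j _ => hkI j) (integrable_slice hq),
        integral_finsetSum _ fun j _ => hkI j, ← integral_cons hq]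
    rw [e2, ← QM_act V hV.1 T hf, ← formE_eq V hV.1 hTf]
    unfold formE
    have h2 : ∑ j, kinE (act T f j) = (∑ j, ∫ x, ‖w j x‖ ^ 2) +
        ∑ j, ∫ x : ℝ, kinE fun y : Fin d → ℝ => act T f j (Fin.cons x y) := by
      rw [← Finset.sum_add_distrib]
      exact Finset.sum_congr rfl fun j _ => hkin j
    rw [h2]
    ring

end Pool.Agent.LTS
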