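import Pool.Agent.LTS.DefsL
import Pool.Agent.LTS.Spc

/-!
# KLEIN: trace inequalities by doubly stochastic sums
-/

set_option autoImplicit false

namespace Pool.Agent.LTS

open Matrix Finset
open scoped ComplexConjugate ComplexOrder

namespace Klein

/-- tangent line of `x^γ`, `γ ≥ 1` -/
lemma tangent_convex {γ x b : ℝ} (hγ : 1 ≤ γ) (hx : 0 ≤ x) (hb : 0 < b) :
    b ^ γ + γ * b ^ (γ - 1) * (x - b) ≤ x ^ γ := by
  have h1 : (-1 : ℝ) ≤ x / b - 1 := by
    have : 0 ≤ x / b := by positivity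
    linarith
  have h2 := one_add_mul_self_le_rpow_one_add h1 hγ
  have h3 : 1 + (x / b - 1) = x / b := by ring
  rw [h3, Real.div_rpow hx hb.le] at h2
  have hbp : 0 < b ^ γ := Real.rpow_pos_of_pos hb γ
  have h4 : b ^ (γ - 1) = b ^ γ / b := by
    rw [Real.rpow_sub hb, Real.rpow_one]
  rw [le_div_iff₀ hbp] at h2
  calc b ^ γ + γ * b ^ (γ - 1) * (x - b) = (1 + γ * (x / b - 1)) * b ^ γ := by
        rw [h4]
        field_simp
    _ ≤ x ^ γ := h2

/-- tangent line of `x^γ`, `γ ≤ 1` -/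
lemma tangent_concave {γ y c : ℝ} (hγ0 : 0 ≤ γ) (hγ : γ ≤ 1) (hy : 0 < y) (hc : 0 ≤ c) :
    c ^ γ ≤ y ^ γ + γ * y ^ (γ - 1) * (c - y) := by
  have h1 : (-1 : ℝ) ≤ c / y - 1 := by
    have : 0 ≤ c / y := by positivity
    linarith
  have h2 := rpow_one_add_le_one_add_mul_self h1 hγ0 hγ
  have h3 : 1 + (c / y - 1) = c / y := by ring
  rw [h3, Real.div_rpow hc hy.le] at h2
  have hyp : 0 < y ^ γ := Real.rpow_pos_of_pos hy γ
  have h4 : y ^ (γ - 1) = y ^ γ / y := by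
    rw [Real.rpow_sub hy, Real.rpow_one]
  rw [div_le_iff₀ hyp] at h2
  calc c ^ γ ≤ (1 + γ * (c / y - 1)) * y ^ γ := h2
    _ = y ^ γ + γ * y ^ (γ - 1) * (c - y) := by
        rw [h4]
        field_simp

lemma trace_diag_mul {N : ℕ} (A : Mat N) (b : Fin N → ℝ) :
    (Matrix.trace (A * Matrix.diagonal (fun j => (b j : ℂ)))).re = ∑ j, b j * (A j j).re := by
  rw [Matrix.trace, Complex.re_sum]
  refine Finset.sum_congr rfl fun j _ => ?_
  rw [Matrix.diag_apply, Matrix.mul_diagonal]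
  simp [Complex.mul_re, mul_comm]

end Klein

open Klein

theorem klein : KleinStmt := by
  refine ⟨?_, ?_⟩
  · intro N γ κ hκ b hγ hpsd hb
    have hk : ∀ i, 0 ≤ hκ.eigenvalues i := hpsd.eigenvalues_nonneg
    have hkk : κ * κ = fm hκ (fun t => t * t) := by
      have h := fm_mul hκ (fun t => t) (fun t => t)
      rwa [fm_id] at h
    have hU := eU_right hκ
    have hU' := eU_left hκ
    have htr : (Matrix.trace (Matrix.diagonal (fun j => ((b j ^ ((γ - 1) / 2) : ℝ) : ℂ)) *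
        (κ * κ) * Matrix.diagonal (fun j => ((b j ^ ((γ - 1) / 2) : ℝ) : ℂ)))).re
        = ∑ j, ∑ i, ‖(hκ.eigenvectorUnitary : Mat N) j i‖ ^ 2 *
          (b j ^ (γ - 1) * hκ.eigenvalues i ^ 2) := by
      rw [Matrix.trace_mul_comm, ← Matrix.mul_assoc, Matrix.diagonal_mul_diagonal,
        Matrix.trace_mul_comm]
      have e1 : (fun j => ((b j ^ ((γ - 1) / 2) : ℝ) : ℂ) * ((b j ^ ((γ - 1) / 2) : ℝ) : ℂ))
          = fun j => ((b j ^ (γ - 1) : ℝ) : ℂ) := by
        funext j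
        rw [← Complex.ofReal_mul, ← Real.rpow_add (hb j)]
        congr 2
        ring
      rw [e1, trace_diag_mul (κ * κ) (fun j => b j ^ (γ - 1))]
      refine Finset.sum_congr rfl fun j _ => ?_
      have e2 := diag_conj_entry (hκ.eigenvectorUnitary : Mat N)
        (fun i => hκ.eigenvalues i * hκ.eigenvalues i) j
      have e3 : (κ * κ) j j = ((∑ i, ‖(hκ.eigenvectorUnitary : Mat N) j i‖ ^ 2 *
          (hκ.eigenvalues i * hκ.eigenvalues i) : ℝ) : ℂ) := by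
        rw [hkk]
        exact e2
      rw [e3, Complex.ofReal_re, Finset.mul_sum]
      refine Finset.sum_congr rfl fun i _ => ?_
      ring
    rw [htr]
    have hL : ∑ j, b j ^ γ = ∑ j, ∑ i, ‖(hκ.eigenvectorUnitary : Mat N) j i‖ ^ 2 * b j ^ γ := by
      refine Finset.sum_congr rfl fun j _ => ?_
      rw [← Finset.sum_mul, row_sum hU j, one_mul]
    have hR : ∑ i, hκ.eigenvalues i ^ (2 * γ) =
        ∑ j, ∑ i, ‖(hκ.eigenvectorUnitary : Mat N) j i‖ ^ 2 * hκ.eigenvalues i ^ (2 * γ) := by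
      rw [Finset.sum_comm]
      refine Finset.sum_congr rfl fun i _ => ?_
      rw [← Finset.sum_mul, col_sum hU' i, one_mul]
    rw [hR, hL, ← Finset.sum_sub_distrib, Finset.mul_sum, ← Finset.sum_add_distrib]
    refine Finset.sum_le_sum fun j _ => ?_
    rw [← Finset.sum_sub_distrib, Finset.mul_sum, ← Finset.sum_add_distrib]
    refine Finset.sum_le_sum fun i _ => ?_
    have ht := tangent_convex (γ := γ) (x := hκ.eigenvalues i ^ 2) (b := b j) hγ (sq_nonneg _)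
      (hb j)
    have e4 : (hκ.eigenvalues i ^ 2) ^ γ = hκ.eigenvalues i ^ (2 * γ) := by
      rw [Real.rpow_mul (hk i)]
      norm_cast
    have e5 : b j ^ γ = b j ^ (γ - 1) * b j := by
      rw [← Real.rpow_add_one (hb j).ne']
      congr 1
      ring
    rw [e4] at ht
    have hp : 0 ≤ ‖(hκ.eigenvectorUnitary : Mat N) j i‖ ^ 2 := by positivity
    calc ‖(hκ.eigenvectorUnitary : Mat N) j i‖ ^ 2 * b j ^ γ +
          γ * (‖(hκ.eigenvectorUnitary : Mat N) j i‖ ^ 2 *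
            (b j ^ (γ - 1) * hκ.eigenvalues i ^ 2) -
            ‖(hκ.eigenvectorUnitary : Mat N) j i‖ ^ 2 * b j ^ γ)
        = ‖(hκ.eigenvectorUnitary : Mat N) j i‖ ^ 2 *
          (b j ^ γ + γ * b j ^ (γ - 1) * (hκ.eigenvalues i ^ 2 - b j)) := by
          rw [e5]
          ring
      _ ≤ ‖(hκ.eigenvectorUnitary : Mat N) j i‖ ^ 2 * hκ.eigenvalues i ^ (2 * γ) :=
          mul_le_mul_of_nonneg_left ht hp
  · intro N γ δ κ hκ T b hγ0 hγ hδ hpsd hb hT
    have hk : ∀ i, 0 ≤ hκ.eigenvalues i := hpsd.eigenvalues_nonneg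
    have hkk : κ * κ = fm hκ (fun t => t * t) := by
      have h := fm_mul hκ (fun t => t) (fun t => t)
      rwa [fm_id] at h
    have hU := eU_right hκ
    have hU' := eU_left hκ
    have hTf : T = fm hκ (fun t => (t ^ 2 + δ) ^ ((γ - 1) / 2)) := hT
    have hpos : ∀ i, 0 < hκ.eigenvalues i ^ 2 + δ := fun i => by positivity
    have hsq : ∀ i, (hκ.eigenvalues i ^ 2 + δ) ^ ((γ - 1) / 2) *
        (hκ.eigenvalues i ^ 2 + δ) ^ ((γ - 1) / 2) = (hκ.eigenvalues i ^ 2 + δ) ^ (γ - 1) := by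
      intro i
      rw [← Real.rpow_add (hpos i)]
      congr 1
      ring
    have ht1 : (Matrix.trace (T * Matrix.diagonal (fun j => (b j : ℂ)) * T)).re
        = ∑ j, ∑ i, ‖(hκ.eigenvectorUnitary : Mat N) j i‖ ^ 2 *
          ((hκ.eigenvalues i ^ 2 + δ) ^ (γ - 1) * b j) := by
      rw [Matrix.trace_mul_cycle, hTf, fm_mul, trace_diag_mul]
      refine Finset.sum_congr rfl fun j _ => ?_
      have e2 := diag_conj_entry (hκ.eigenvectorUnitary : Mat N)
        (fun i => (hκ.eigenvalues i ^ 2 + δ) ^ ((γ - 1) / 2) *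
          (hκ.eigenvalues i ^ 2 + δ) ^ ((γ - 1) / 2)) j
      have e3 : (fm hκ fun t => (t ^ 2 + δ) ^ ((γ - 1) / 2) * (t ^ 2 + δ) ^ ((γ - 1) / 2)) j j
          = ((∑ i, ‖(hκ.eigenvectorUnitary : Mat N) j i‖ ^ 2 *
          ((hκ.eigenvalues i ^ 2 + δ) ^ ((γ - 1) / 2) *
          (hκ.eigenvalues i ^ 2 + δ) ^ ((γ - 1) / 2)) : ℝ) : ℂ) := e2
      rw [e3, Complex.ofReal_re, Finset.mul_sum]
      refine Finset.sum_congr rfl fun i _ => ?_
      rw [hsq i]
      ring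
    have ht2 : (Matrix.trace (T * (κ * κ) * T)).re
        = ∑ j, ∑ i, ‖(hκ.eigenvectorUnitary : Mat N) j i‖ ^ 2 *
          ((hκ.eigenvalues i ^ 2 + δ) ^ (γ - 1) * hκ.eigenvalues i ^ 2) := by
      rw [hkk, hTf, fm_mul, fm_mul, trace_fm_re, Finset.sum_comm]
      refine Finset.sum_congr rfl fun i _ => ?_
      rw [← Finset.sum_mul, col_sum hU' i, one_mul, ← hsq i]
      ring
    have hL : ∑ j, ((b j + δ) ^ γ - δ ^ γ) = ∑ j, ∑ i,
        ‖(hκ.eigenvectorUnitary : Mat N) j i‖ ^ 2 * ((b j + δ) ^ γ - δ ^ γ) := by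
      refine Finset.sum_congr rfl fun j _ => ?_
      rw [← Finset.sum_mul, row_sum hU j, one_mul]
    have hR : ∑ i, hκ.eigenvalues i ^ (2 * γ) =
        ∑ j, ∑ i, ‖(hκ.eigenvectorUnitary : Mat N) j i‖ ^ 2 * hκ.eigenvalues i ^ (2 * γ) := by
      rw [Finset.sum_comm]
      refine Finset.sum_congr rfl fun i _ => ?_
      rw [← Finset.sum_mul, col_sum hU' i, one_mul]
    rw [ht1, ht2, hR, hL, ← Finset.sum_sub_distrib, Finset.mul_sum, ← Finset.sum_add_distrib]
    refine Finset.sum_le_sum fun j _ => ?_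
    rw [← Finset.sum_sub_distrib, Finset.mul_sum, ← Finset.sum_add_distrib]
    refine Finset.sum_le_sum fun i _ => ?_
    have ht := tangent_concave (γ := γ) (y := hκ.eigenvalues i ^ 2 + δ) (c := b j + δ) hγ0.le hγ
      (hpos i) (by have := hb j; positivity)
    have e4 : (hκ.eigenvalues i ^ 2) ^ γ = hκ.eigenvalues i ^ (2 * γ) := by
      rw [Real.rpow_mul (hk i)]
      norm_cast
    have e6 : (hκ.eigenvalues i ^ 2 + δ) ^ γ ≤ (hκ.eigenvalues i ^ 2) ^ γ + δ ^ γ := by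
      have h := NNReal.rpow_add_le_add_rpow (Real.toNNReal (hκ.eigenvalues i ^ 2))
        (Real.toNNReal δ) hγ0.le hγ
      have h' : ((((Real.toNNReal (hκ.eigenvalues i ^ 2)) + Real.toNNReal δ) ^ γ : NNReal) : ℝ) ≤
          (((Real.toNNReal (hκ.eigenvalues i ^ 2)) ^ γ + (Real.toNNReal δ) ^ γ : NNReal) : ℝ) :=
        NNReal.coe_le_coe.2 h
      push_cast at h'
      rw [Real.coe_toNNReal _ (sq_nonneg _), Real.coe_toNNReal _ hδ.le] at h'
      exact h'
    rw [e4] at e6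
    have hp : 0 ≤ ‖(hκ.eigenvectorUnitary : Mat N) j i‖ ^ 2 := by positivity
    calc ‖(hκ.eigenvectorUnitary : Mat N) j i‖ ^ 2 * ((b j + δ) ^ γ - δ ^ γ)
        ≤ ‖(hκ.eigenvectorUnitary : Mat N) j i‖ ^ 2 * (hκ.eigenvalues i ^ (2 * γ) +
          γ * (hκ.eigenvalues i ^ 2 + δ) ^ (γ - 1) * (b j - hκ.eigenvalues i ^ 2)) := by
          apply mul_le_mul_of_nonneg_left _ hp
          have : b j + δ - (hκ.eigenvalues i ^ 2 + δ) = b j - hκ.eigenvalues i ^ 2 := by ring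
          rw [this] at ht
          linarith
      _ = _ := by ring

end Pool.Agent.LTS
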