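import Pool.Agent.LTS.DefsL

/-!
# (POTA) approximation of a potential by continuous potentials with compact support
-/

set_option autoImplicit false

namespace Pool.Agent.LTS

open MeasureTheory Matrix Finset
open scoped ComplexConjugate ComplexOrder
open Pool.Agent.LT (PotFn)

namespace PotA

variable {d N : ℕ}

/-- truncation -/
noncomputable def tru (k : ℝ) (U : (Fin d → ℝ) → ℝ) (y : Fin d → ℝ) : ℝ :=
  (Metric.closedBall (0 : Fin d → ℝ) k).indicator (fun y => min (U y) k) y

/-- density -/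
noncomputable def den (ψ : Fin N → (Fin d → ℝ) → ℂ) (y : Fin d → ℝ) : ℝ := ∑ j, ‖ψ j y‖ ^ 2

theorem den_nonneg (ψ : Fin N → (Fin d → ℝ) → ℂ) (y : Fin d → ℝ) : 0 ≤ den ψ y :=
  Finset.sum_nonneg fun _ _ => by positivity

theorem norm_mul_le (ψ : Fin N → (Fin d → ℝ) → ℂ) (i j : Fin N) (y : Fin d → ℝ) :
    ‖ψ i y * conj (ψ j y)‖ ≤ den ψ y := by
  rw [norm_mul, RCLike.norm_conj]
  have hi : ‖ψ i y‖ ^ 2 ≤ den ψ y :=
    Finset.single_le_sum (f := fun j => ‖ψ j y‖ ^ 2) (fun _ _ => by positivity)
      (Finset.mem_univ i)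
  have hj : ‖ψ j y‖ ^ 2 ≤ den ψ y :=
    Finset.single_le_sum (f := fun j => ‖ψ j y‖ ^ 2) (fun _ _ => by positivity)
      (Finset.mem_univ j)
  nlinarith [sq_nonneg (‖ψ i y‖ - ‖ψ j y‖)]

theorem integrable_den {ψ : Fin N → (Fin d → ℝ) → ℂ} (hψ : ∀ j, MemLp (ψ j) 2 volume) :
    Integrable (den ψ) volume := by
  unfold den
  refine integrable_finsetSum _ fun j _ => ?_
  exact (hψ j).integrable_norm_pow (by norm_num)

theorem tru_nonneg {k : ℝ} (hk : 0 ≤ k) {U : (Fin d → ℝ) → ℝ} (h0 : ∀ y, 0 ≤ U y)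
    (y : Fin d → ℝ) : 0 ≤ tru k U y :=
  Set.indicator_nonneg (fun y _ => le_min (h0 y) hk) y

theorem tru_le {k : ℝ} {U : (Fin d → ℝ) → ℝ} (h0 : ∀ y, 0 ≤ U y)
    (y : Fin d → ℝ) : tru k U y ≤ U y := by
  unfold tru
  by_cases h : y ∈ Metric.closedBall (0 : Fin d → ℝ) k
  · rw [Set.indicator_of_mem h]; exact min_le_left _ _
  · rw [Set.indicator_of_notMem h]; exact h0 y

theorem tru_le' {k : ℝ} (hk : 0 ≤ k) {U : (Fin d → ℝ) → ℝ} (y : Fin d → ℝ) :
    tru k U y ≤ k := by
  unfold tru
  by_cases h : y ∈ Metric.closedBall (0 : Fin d → ℝ) k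
  · rw [Set.indicator_of_mem h]; exact min_le_right _ _
  · rw [Set.indicator_of_notMem h]; exact hk

theorem tru_aesm {k : ℝ} {U : (Fin d → ℝ) → ℝ} {μ : Measure (Fin d → ℝ)}
    (hU : AEStronglyMeasurable U μ) : AEStronglyMeasurable (tru k U) μ := by
  unfold tru
  exact ((hU.inf aestronglyMeasurable_const).indicator Metric.isClosed_closedBall.measurableSet)

theorem tru_eventually {U : (Fin d → ℝ) → ℝ} (y : Fin d → ℝ) :
    ∀ᶠ n : ℕ in Filter.atTop, tru (n : ℝ) U y = U y := by
  obtain ⟨n₀, hn₀⟩ := exists_nat_ge (max ‖y‖ (U y))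
  filter_upwards [Filter.eventually_ge_atTop n₀] with n hn
  have h1 : (n₀ : ℝ) ≤ n := by exact_mod_cast hn
  have h2 : ‖y‖ ≤ n := ((le_max_left _ _).trans hn₀).trans h1
  have h3 : U y ≤ n := ((le_max_right _ _).trans hn₀).trans h1
  unfold tru
  rw [Set.indicator_of_mem (by simpa using h2)]
  exact min_eq_left h3

theorem step1 (ψ : Fin N → (Fin d → ℝ) → ℂ) (U : (Fin d → ℝ) → ℝ)
    (hψ : ∀ j, MemLp (ψ j) 2 volume) (hU : AEStronglyMeasurable U volume)
    (h0 : ∀ y, 0 ≤ U y) (hi : ∀ j, Integrable (fun y => U y * ‖ψ j y‖ ^ 2) volume) (ε : ℝ)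
    (hε : 0 < ε) :
    ∃ k : ℕ, ∀ i j, ‖(∫ y, (tru (k : ℝ) U y : ℂ) * (ψ i y * conj (ψ j y))) -
      ∫ y, (U y : ℂ) * (ψ i y * conj (ψ j y))‖ ≤ ε := by
  have hlim : ∀ i j, Filter.Tendsto
      (fun n : ℕ => ∫ y, (tru (n : ℝ) U y : ℂ) * (ψ i y * conj (ψ j y))) Filter.atTop
      (nhds (∫ y, (U y : ℂ) * (ψ i y * conj (ψ j y)))) := by
    intro i j
    refine tendsto_integral_of_dominated_convergence
      (fun y => U y * den ψ y) (fun n => ?_) ?_ (fun n => ?_) ?_
    · refine AEStronglyMeasurable.mul ?_ ?_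
      · exact Complex.continuous_ofReal.comp_aestronglyMeasurable (tru_aesm hU)
      · exact (hψ i).1.mul (Complex.continuous_conj.comp_aestronglyMeasurable (hψ j).1)
    · have : (fun y => U y * den ψ y) = fun y => ∑ j, U y * ‖ψ j y‖ ^ 2 := by
        funext y; unfold den; rw [Finset.mul_sum]
      rw [this]
      exact integrable_finsetSum _ fun j _ => hi j
    · refine Filter.Eventually.of_forall fun y => ?_
      rw [norm_mul, Complex.norm_real, Real.norm_of_nonneg (tru_nonneg (by positivity) h0 y)]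
      exact mul_le_mul (tru_le h0 y) (norm_mul_le ψ i j y) (norm_nonneg _) (h0 y)
    · refine Filter.Eventually.of_forall fun y => ?_
      refine tendsto_const_nhds.congr' ?_
      filter_upwards [tru_eventually (U := U) y] with n hn
      rw [hn]
  have hev : ∀ᶠ n : ℕ in Filter.atTop, ∀ i j,
      ‖(∫ y, (tru (n : ℝ) U y : ℂ) * (ψ i y * conj (ψ j y))) -
        ∫ y, (U y : ℂ) * (ψ i y * conj (ψ j y))‖ ≤ ε := by
    rw [Filter.eventually_all]; intro i
    rw [Filter.eventually_all]; intro j
    have := (Metric.tendsto_nhds.1 (hlim i j)) ε hε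
    filter_upwards [this] with n hn
    rw [← dist_eq_norm]; exact hn.le
  exact hev.exists

theorem rpow_lip {p k a b : ℝ} (hp : 1 ≤ p) (ha : 0 ≤ a) (hb : 0 ≤ b) (hak : a ≤ k) :
    a ^ p ≤ b ^ p + p * k ^ (p - 1) * |a - b| := by
  rcases le_total a b with hab | hab
  · have h1 : a ^ p ≤ b ^ p := Real.rpow_le_rpow ha hab (by linarith)
    have h2 : 0 ≤ p * k ^ (p - 1) * |a - b| := by
      have := Real.rpow_nonneg (ha.trans hak) (p - 1)
      positivity
    linarith
  · rcases ha.eq_or_lt with h | hpos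
    · have hb0 : b = 0 := le_antisymm (by rw [h]; exact hab) hb
      have h2 : 0 ≤ p * k ^ (p - 1) * |a - b| := by
        have := Real.rpow_nonneg (ha.trans hak) (p - 1)
        positivity
      rw [← h, hb0] at *
      simpa using h2
    · have h1 := one_add_mul_self_le_rpow_one_add (s := b / a - 1) (p := p)
        (by have : 0 ≤ b / a := div_nonneg hb ha
            linarith) hp
      have h2 : (1 + (b / a - 1)) ^ p = b ^ p / a ^ p := by
        rw [add_sub_cancel, Real.div_rpow hb ha]
      rw [h2] at h1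
      have hap : 0 < a ^ p := Real.rpow_pos_of_pos hpos p
      have h3 : (1 + p * (b / a - 1)) * a ^ p ≤ b ^ p := by
        rw [le_div_iff₀ hap] at h1; exact h1
      have h4 : a ^ p = a ^ (p - 1) * a := by
        rw [← Real.rpow_add_one hpos.ne', sub_add_cancel]
      have h5 : (1 + p * (b / a - 1)) * a ^ p = a ^ p - p * a ^ (p - 1) * (a - b) := by
        rw [h4]; field_simp; ring
      have h6 : a ^ (p - 1) ≤ k ^ (p - 1) := Real.rpow_le_rpow ha hak (by linarith)
      have h7 : p * a ^ (p - 1) * (a - b) ≤ p * k ^ (p - 1) * (a - b) := by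
        have : 0 ≤ a - b := by linarith
        gcongr
      rw [abs_of_nonneg (by linarith : 0 ≤ a - b)]
      linarith

theorem step2 (p : ℝ) (hp : 1 ≤ p) (ψ : Fin N → (Fin d → ℝ) → ℂ) (U : (Fin d → ℝ) → ℝ)
    (hψ : ∀ j, MemLp (ψ j) 2 volume) (hU : AEStronglyMeasurable U volume)
    (h0 : ∀ y, 0 ≤ U y) (k : ℝ) (hk : 0 ≤ k) (ε : ℝ) (hε : 0 < ε) :
    ∃ W : (Fin d → ℝ) → ℝ, PotFn d W ∧ ∫ y, W y ^ p ≤ (∫ y, tru k U y ^ p) + ε ∧
      ∀ i j, ‖(∫ y, (W y : ℂ) * (ψ i y * conj (ψ j y))) -
        ∫ y, (tru k U y : ℂ) * (ψ i y * conj (ψ j y))‖ ≤ ε := by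
  classical
  set D : (Fin d → ℝ) → ENNReal := fun y => ENNReal.ofReal (den ψ y) with hD
  have hDi := integrable_den hψ
  have hDm : AEMeasurable D volume := hDi.aestronglyMeasurable.aemeasurable.ennreal_ofReal
  set ν₂ : Measure (Fin d → ℝ) := volume.withDensity D with hν₂
  haveI : IsFiniteMeasure ν₂ := isFiniteMeasure_withDensity_ofReal hDi.2
  have hac : ν₂ ≪ volume := withDensity_absolutelyContinuous _ _
  haveI : IsLocallyFiniteMeasure (volume + ν₂) := by
    refine ⟨fun x => ⟨Metric.closedBall x 1, Metric.closedBall_mem_nhds x one_pos, ?_⟩⟩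
    rw [Measure.add_apply]
    exact ENNReal.add_lt_top.2 ⟨measure_closedBall_lt_top, measure_lt_top _ _⟩
  have hT1 : Integrable (tru k U) volume := by
    unfold tru
    rw [integrable_indicator_iff Metric.isClosed_closedBall.measurableSet]
    refine Measure.integrableOn_of_bounded (M := k) measure_closedBall_lt_top.ne
      (hU.inf aestronglyMeasurable_const) ?_
    refine Filter.Eventually.of_forall fun y => ?_
    rw [Real.norm_of_nonneg (le_min (h0 y) hk)]
    exact min_le_right _ _
  have hT2 : Integrable (tru k U) ν₂ := by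
    refine Integrable.of_bound (tru_aesm (hU.mono_ac hac)) k ?_
    refine Filter.Eventually.of_forall fun y => ?_
    rw [Real.norm_of_nonneg (tru_nonneg hk h0 y)]
    exact tru_le' hk y
  have hT : Integrable (tru k U) (volume + ν₂) := integrable_add_measure.2 ⟨hT1, hT2⟩
  set C : ℝ := p * k ^ (p - 1) with hC
  have hC0 : 0 ≤ C := by
    have := Real.rpow_nonneg hk (p - 1)
    positivity
  set δ : ℝ := ε / (C + 1) with hδ
  have hδ0 : 0 < δ := by positivity
  have hδε : δ ≤ ε := by
    rw [hδ]; exact div_le_self hε.le (by linarith)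
  have hCδ : C * δ ≤ ε := by
    rw [hδ, ← mul_div_assoc, div_le_iff₀ (by linarith)]
    nlinarith
  obtain ⟨g, hgs, hgi, hgc, hgI⟩ := hT.exists_hasCompactSupport_integral_sub_le hδ0
  set W : (Fin d → ℝ) → ℝ := fun y => min (max (g y) 0) k with hW
  have hWc : Continuous W := by rw [hW]; fun_prop
  have hW0 : ∀ y, 0 ≤ W y := fun y => le_min (le_max_right _ _) hk
  have hWk : ∀ y, W y ≤ k := fun y => min_le_right _ _
  have hWs : HasCompactSupport W := by
    refine hgs.mono ?_
    intro y hy
    rw [Function.mem_support] at hy ⊢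
    intro h
    apply hy
    simp [hW, h, hk]
  have hlip : ∀ y, |W y - tru k U y| ≤ ‖tru k U y - g y‖ := by
    intro y
    have h1 : tru k U y = min (max (tru k U y) 0) k := by
      rw [max_eq_left (tru_nonneg hk h0 y), min_eq_left (tru_le' hk y)]
    have h2 : |W y - tru k U y| = |min (max (g y) 0) k - min (max (tru k U y) 0) k| := by
      rw [← h1]
    rw [h2, Real.norm_eq_abs, abs_sub_comm (tru k U y)]
    refine (abs_min_sub_min_le_max _ _ _ _).trans ?_
    rw [sub_self, abs_zero, max_eq_left (abs_nonneg _)]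
    refine (abs_max_sub_max_le_abs _ _ _).trans ?_
    exact le_rfl
  have hWi1 : Integrable W volume := hWc.integrable_of_hasCompactSupport hWs
  have hWi2 : Integrable W ν₂ := hWc.integrable_of_hasCompactSupport hWs
  have hd1 : Integrable (fun y => |W y - tru k U y|) volume := (hWi1.sub hT1).abs
  have hd2 : Integrable (fun y => |W y - tru k U y|) ν₂ := (hWi2.sub hT2).abs
  have hsum : (∫ y, |W y - tru k U y|) + ∫ y, |W y - tru k U y| ∂ν₂ ≤ δ := by
    rw [← integral_add_measure hd1 hd2]
    refine le_trans ?_ hgi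
    exact integral_mono (integrable_add_measure.2 ⟨hd1, hd2⟩) (hT.sub hgI).norm hlip
  have hn1 : 0 ≤ ∫ y, |W y - tru k U y| := integral_nonneg fun _ => abs_nonneg _
  have hn2 : 0 ≤ ∫ y, |W y - tru k U y| ∂ν₂ := integral_nonneg fun _ => abs_nonneg _
  refine ⟨W, ⟨hWc, hWs, hW0⟩, ?_, ?_⟩
  · have hTp : Integrable (fun y => tru k U y ^ p) volume := by
      refine Integrable.mono' (g := fun y => k ^ (p - 1) * tru k U y) (hT1.const_mul _) ?_ ?_
      · exact (hT1.aestronglyMeasurable.aemeasurable.pow_const p).aestronglyMeasurable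
      · refine Filter.Eventually.of_forall fun y => ?_
        have ht := tru_nonneg hk h0 y
        rw [Real.norm_of_nonneg (Real.rpow_nonneg ht _)]
        rcases ht.eq_or_lt with h | h
        · rw [← h, Real.zero_rpow (by linarith)]; simp
        · have : tru k U y ^ p = tru k U y ^ (p - 1) * tru k U y := by
            rw [← Real.rpow_add_one h.ne', sub_add_cancel]
          rw [this]
          exact mul_le_mul_of_nonneg_right
            (Real.rpow_le_rpow ht (tru_le' hk y) (by linarith)) ht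
    have hWp : Integrable (fun y => W y ^ p) volume := by
      refine Continuous.integrable_of_hasCompactSupport
        (hWc.rpow_const fun y => Or.inr (by linarith)) ?_
      refine hWs.mono ?_
      intro y hy
      rw [Function.mem_support] at hy ⊢
      intro h
      apply hy
      rw [h, Real.zero_rpow (by linarith)]
    have h1 : ∫ y, W y ^ p ≤ ∫ y, (tru k U y ^ p + C * |W y - tru k U y|) := by
      refine integral_mono hWp (hTp.add (hd1.const_mul C)) fun y => ?_
      exact rpow_lip hp (hW0 y) (tru_nonneg hk h0 y) (hWk y)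
    rw [integral_add hTp (hd1.const_mul C), integral_const_mul] at h1
    have h2 : C * ∫ y, |W y - tru k U y| ≤ C * δ :=
      mul_le_mul_of_nonneg_left (by linarith) hC0
    linarith
  · intro i j
    have hpm : AEStronglyMeasurable (fun y => ψ i y * conj (ψ j y)) volume :=
      (hψ i).1.mul (Complex.continuous_conj.comp_aestronglyMeasurable (hψ j).1)
    have hbd : ∀ f : (Fin d → ℝ) → ℝ, AEStronglyMeasurable f volume → (∀ y, 0 ≤ f y) →
        (∀ y, f y ≤ k) → Integrable (fun y => (f y : ℂ) * (ψ i y * conj (ψ j y))) volume := by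
      intro f hf hf0 hfk
      refine Integrable.mono' (hDi.const_mul k) ?_ ?_
      · exact (Complex.continuous_ofReal.comp_aestronglyMeasurable hf).mul hpm
      · refine Filter.Eventually.of_forall fun y => ?_
        rw [norm_mul, Complex.norm_real, Real.norm_of_nonneg (hf0 y)]
        exact mul_le_mul (hfk y) (norm_mul_le ψ i j y) (norm_nonneg _) hk
    rw [← integral_sub (hbd W hWc.aestronglyMeasurable hW0 hWk)
      (hbd (tru k U) hT1.aestronglyMeasurable (tru_nonneg hk h0) (tru_le' hk))]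
    have h3 : ∫ y, |W y - tru k U y| ∂ν₂ = ∫ y, den ψ y * |W y - tru k U y| := by
      rw [hν₂, integral_withDensity_eq_integral_toReal_smul₀ hDm
        (Filter.Eventually.of_forall fun y => ENNReal.ofReal_lt_top)]
      refine integral_congr_ae (Filter.Eventually.of_forall fun y => ?_)
      simp only [hD, smul_eq_mul]
      rw [ENNReal.toReal_ofReal (den_nonneg ψ y)]
    have hdi : Integrable (fun y => den ψ y * |W y - tru k U y|) volume := by
      refine Integrable.mono' (hDi.const_mul k) (hDi.aestronglyMeasurable.mul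
        hd1.aestronglyMeasurable) ?_
      refine Filter.Eventually.of_forall fun y => ?_
      have ha : |W y - tru k U y| ≤ k := by
        rw [abs_le]
        constructor
        · linarith [hW0 y, tru_le' hk (U := U) y]
        · linarith [hWk y, tru_nonneg hk h0 y]
      rw [Real.norm_of_nonneg (mul_nonneg (den_nonneg ψ y) (abs_nonneg _)), mul_comm]
      exact mul_le_mul_of_nonneg_right ha (den_nonneg ψ y)
    refine (norm_integral_le_of_norm_le hdi (Filter.Eventually.of_forall fun y => ?_)).trans ?_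
    · rw [← sub_mul, norm_mul, ← Complex.ofReal_sub, Complex.norm_real, Real.norm_eq_abs,
        mul_comm]
      exact mul_le_mul_of_nonneg_right (norm_mul_le ψ i j y) (abs_nonneg _)
    · rw [← h3]; linarith

end PotA

/-- (POTA) -/
theorem potA : PotAStmt := by
  intro d N p ψ U hp hψ hU h0 hi ε hε
  obtain ⟨k, hk⟩ := PotA.step1 ψ U hψ hU.1 h0 hi (ε / 2) (by positivity)
  obtain ⟨W, hW, hWp, hWe⟩ := PotA.step2 p hp ψ U hψ hU.1 h0 (k : ℝ) (by positivity) (ε / 2)
    (by positivity)
  refine ⟨W, hW, ?_, fun i j => ?_⟩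
  · have h1 : ∫ y, PotA.tru (k : ℝ) U y ^ p ≤ ∫ y, U y ^ p := by
      refine integral_mono_of_nonneg (Filter.Eventually.of_forall fun y =>
        Real.rpow_nonneg (PotA.tru_nonneg (by positivity) h0 y) _) ?_
        (Filter.Eventually.of_forall fun y => ?_)
      · have := hU.integrable_norm_rpow (by
          rw [Ne, ENNReal.ofReal_eq_zero]; linarith) ENNReal.ofReal_ne_top
        rw [ENNReal.toReal_ofReal (by linarith)] at this
        refine this.congr (Filter.Eventually.of_forall fun y => ?_)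
        simp only
        rw [Real.norm_of_nonneg (h0 y)]
      · exact Real.rpow_le_rpow (PotA.tru_nonneg (by positivity) h0 y) (PotA.tru_le h0 y)
          (by linarith)
    linarith
  · have := norm_sub_le_norm_sub_add_norm_sub
      (∫ y, (W y : ℂ) * (ψ i y * conj (ψ j y)))
      (∫ y, (PotA.tru (k : ℝ) U y : ℂ) * (ψ i y * conj (ψ j y)))
      (∫ y, (U y : ℂ) * (ψ i y * conj (ψ j y)))
    linarith [hk i j, hWe i j]

end Pool.Agent.LTS
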