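import Pool.Agent.LTS.DefsL
import Pool.Agent.LT.Lift1
import Pool.Agent.LT.Slice

/-!
# (LTL_SLC) continuity of the slice matrices, Fubini for the potential   (helper72)
-/

set_option autoImplicit false

namespace Pool.Agent.LTS

open MeasureTheory Matrix Finset
open scoped ComplexConjugate ComplexOrder ContDiff
open Pool.Agent.LT (TestFn PotFn gramF kinE formE form1 ES ES' Lcl IsH1v gram IsH1d LTBoundD)
open Pool.Agent.LT.AL (act QM)
open Pool.Agent.LT.Slice (Sup exists_Sup)

namespace Slc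

variable {d : ℕ}

/-- continuity of the parameter integral. -/
lemma par_cont {E : Type} [NormedAddCommGroup E] [NormedSpace ℝ E] {R : ℝ}
    {g : (Fin (d + 1) → ℝ) → E} (h : Sup R g) :
    Continuous fun x : ℝ => ∫ y : Fin d → ℝ, g (Fin.cons x y) := by
  have h1 : ∀ x : ℝ, ∫ y : Fin d → ℝ, g (Fin.cons x y) =
      ∫ y in Metric.closedBall (0 : Fin d → ℝ) R, g (Fin.cons x y) := by
    intro x
    symm
    apply setIntegral_eq_integral_of_forall_compl_eq_zero
    intro y hy
    rw [mem_closedBall_zero_iff] at hy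
    exact h.slice_zero x y (not_le.1 hy)
  simp_rw [h1]
  exact continuous_parametric_integral_of_continuous (μ := volume)
    (f := fun (x : ℝ) (y : Fin d → ℝ) => g (Fin.cons x y))
    (h.cont.comp LT.Slice.continuous_cons) (isCompact_closedBall _ _)

lemma par_zero {E : Type} [NormedAddCommGroup E] [NormedSpace ℝ E] {R : ℝ}
    {g : (Fin (d + 1) → ℝ) → E} (h : Sup R g) {x : ℝ} (hx : R < |x|) :
    ∫ y : Fin d → ℝ, g (Fin.cons x y) = 0 := by
  have : ∀ y : Fin d → ℝ, g (Fin.cons x y) = 0 := fun y => h.slice_zero' x y hx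
  simp [this]

lemma sup_mul {R : ℝ} {f g : (Fin (d + 1) → ℝ) → ℂ} (hf : Sup R f) (hg : Sup R g)
    {W : (Fin (d + 1) → ℝ) → ℂ} (hW : Continuous W) :
    Sup R fun z => W z * (f z * conj (g z)) :=
  ⟨hW.mul (hf.cont.mul (Complex.continuous_conj.comp hg.cont)),
    fun z hz => by rw [hf.zero z hz]; simp⟩

lemma sup_mono {E : Type} [NormedAddCommGroup E] {R R' : ℝ} (hR : R ≤ R')
    {g : (Fin (d + 1) → ℝ) → E} (h : Sup R g) : Sup R' g :=
  ⟨h.cont, fun z hz => h.zero z (lt_of_le_of_lt hR hz)⟩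

/-- a common radius -/
lemma common {N : ℕ} {f : Fin N → (Fin (d + 1) → ℝ) → ℂ} (hf : ∀ j, TestFn (d + 1) (f j)) :
    ∃ R : ℝ, 0 ≤ R ∧ ∀ j, Sup R (f j) := by
  choose R hR using fun j => exists_Sup (hf j).1.continuous (hf j).2
  refine ⟨∑ j, |R j|, Finset.sum_nonneg fun _ _ => abs_nonneg _, fun j => sup_mono ?_ (hR j)⟩
  exact (le_abs_self _).trans
    (Finset.single_le_sum (f := fun j => |R j|) (fun _ _ => abs_nonneg _) (mem_univ j))

/-- the entries of the Gram matrix of the slices. -/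
lemma gramF_entry {N : ℕ} (f : Fin N → (Fin (d + 1) → ℝ) → ℂ) (x : ℝ) (i j : Fin N) :
    gramF (slF f x) i j =
      ∫ y : Fin d → ℝ, (fun z => (1 : ℂ) * (f i z * conj (f j z))) (Fin.cons x y) := by
  simp [gramF, slF]

lemma QM_entry {N : ℕ} {f : Fin N → (Fin (d + 1) → ℝ) → ℂ} (hf : ∀ j, TestFn (d + 1) (f j))
    (V : (Fin (d + 1) → ℝ) → ℝ) (x : ℝ) (a b : Fin N) :
    QM (slV V x) (slF f x) a b =
      (∑ i : Fin d, ∫ y : Fin d → ℝ, (fun z => (1 : ℂ) * (fderiv ℝ (f a) z (Pi.single i.succ 1) *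
        conj (fderiv ℝ (f b) z (Pi.single i.succ 1)))) (Fin.cons x y)) -
      ∫ y : Fin d → ℝ, (fun z => (V z : ℂ) * (f a z * conj (f b z))) (Fin.cons x y) := by
  have h : ∀ (c : Fin N) (i : Fin d) (y : Fin d → ℝ), LT.AL.pd i (slF f x c) y =
      fderiv ℝ (f c) (Fin.cons x y) (Pi.single i.succ 1) := by
    intro c i y
    exact LT.Lift1.fderiv_slice (hf c) x y i
  unfold QM LT.AL.wM
  simp only [Matrix.sub_apply, Matrix.sum_apply, Matrix.of_apply, h, Pi.one_apply,
    Complex.ofReal_one]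
  rfl

end Slc

open Slc in
theorem slc : SlcStmt := by
  intro d N f V hf hV
  obtain ⟨R, hR0, hR⟩ := common hf
  have hd : ∀ (j : Fin N) (v : Fin (d + 1) → ℝ), Sup R fun z => fderiv ℝ (f j) z v :=
    fun j v => LT.Slice.fderiv_Sup (hf j).1 (hR j) v
  have hVc : Continuous fun z => (V z : ℂ) := Complex.continuous_ofReal.comp hV.1
  refine ⟨?_, ?_, ?_, ?_, ?_, ?_⟩
  · refine continuous_matrix fun i j => ?_
    simp only [gramF_entry]
    exact par_cont (sup_mul (hR i) (hR j) continuous_const)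
  · refine continuous_matrix fun a b => ?_
    simp only [QM_entry hf V]
    refine Continuous.sub (continuous_finsetSum _ fun i _ => ?_) ?_
    · exact par_cont (sup_mul (hd a _) (hd b _) continuous_const)
    · exact par_cont (sup_mul (hR a) (hR b) hVc)
  · intro x j
    exact ⟨LT.Slice.contDiff_slice (hf j).1 x, (hR j).slice_hcs x⟩
  · exact fun x => LT.Lift1.potFn_slice hV x
  · intro p hp
    have hc : Continuous fun z => V z ^ p := hV.1.rpow_const fun _ => Or.inr hp.le
    have hs : HasCompactSupport fun z => V z ^ p :=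
      hV.2.1.comp_left (g := fun t : ℝ => t ^ p) (Real.zero_rpow hp.ne')
    have hi : Integrable (fun z => V z ^ p) volume := hc.integrable_of_hasCompactSupport hs
    obtain ⟨R', hR'⟩ := exists_Sup hc hs
    exact ⟨par_cont hR', LT.Lift1.integrable_slice hi, (LT.Lift1.integral_cons hi).symm⟩
  · refine ⟨R + 1, by positivity, fun x hx => ?_⟩
    have hx' : R < |x| := by linarith
    constructor
    · ext i j
      rw [gramF_entry, par_zero (sup_mul (hR i) (hR j) continuous_const) hx', Matrix.zero_apply]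
    · ext a b
      rw [QM_entry hf V, par_zero (sup_mul (hR a) (hR b) hVc) hx', Matrix.zero_apply, sub_zero]
      exact Finset.sum_eq_zero fun i _ =>
        par_zero (sup_mul (hd a _) (hd b _) continuous_const) hx'

end Pool.Agent.LTS
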