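import Pool.Agent.LTS.DefsL
import Pool.Agent.LT.KinH1
import Pool.Agent.LT.Spec

/-!
# (SPECL) from test functions to eigenfunctions, exponents `γ ≥ 1/2`
(MP_4c716f_mp, module LTL_SPECL)
-/

set_option autoImplicit false

namespace Pool.Agent.LTS.SpecL

open MeasureTheory Matrix Finset Filter Topology
open scoped ComplexConjugate ComplexOrder ContDiff
open Pool.Agent.LT (TestFn PotFn gramF kinE IsH1d IsEigenfunctionD LTBoundD DensStmt)
open Pool.Agent.LT.AL (act QM wM pd)

variable {d : ℕ}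

/-- weighted Gram matrices are positive semidefinite -/
lemma psd {N : ℕ} {v : (Fin d → ℝ) → ℝ} (hv : ∀ x, 0 ≤ v x) {ψ : Fin N → (Fin d → ℝ) → ℂ}
    (hi : ∀ i j, Integrable (fun x => (v x : ℂ) * (ψ i x * conj (ψ j x))) volume) :
    (Matrix.of fun i j => ∫ x, (v x : ℂ) * (ψ i x * conj (ψ j x)) : Mat N).PosSemidef := by
  refine PosSemidef.of_dotProduct_mulVec_nonneg ?_ fun c => ?_
  · ext i j
    simp only [conjTranspose_apply, of_apply]
    show conj (∫ x, (v x : ℂ) * (ψ j x * conj (ψ i x))) = _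
    rw [← integral_conj]
    congr 1
    funext x
    simp only [map_mul, Complex.conj_ofReal, Complex.conj_conj]
    ring
  · have h : star c ⬝ᵥ ((Matrix.of fun i j => ∫ x, (v x : ℂ) * (ψ i x * conj (ψ j x)) : Mat N) *ᵥ c)
        = ((∫ x, v x * ‖∑ i, conj (c i) * ψ i x‖ ^ 2 : ℝ) : ℂ) := by
      rw [← integral_complex_ofReal]
      have e1 : ∀ x, ((v x * ‖∑ i, conj (c i) * ψ i x‖ ^ 2 : ℝ) : ℂ) =
          ∑ i, ∑ j, conj (c i) * c j * ((v x : ℂ) * (ψ i x * conj (ψ j x))) := by
        intro x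
        push_cast
        rw [← Complex.mul_conj', map_sum, Finset.sum_mul_sum, Finset.mul_sum]
        refine Finset.sum_congr rfl fun i _ => ?_
        rw [Finset.mul_sum]
        refine Finset.sum_congr rfl fun j _ => ?_
        simp only [map_mul, Complex.conj_conj]
        ring
      simp_rw [e1]
      rw [integral_finsetSum _ fun i _ => integrable_finsetSum _ fun j _ => (hi i j).const_mul _]
      simp only [dotProduct, mulVec, Pi.star_apply, Finset.mul_sum, of_apply]
      refine Finset.sum_congr rfl fun i _ => ?_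
      rw [integral_finsetSum _ fun j _ => (hi i j).const_mul _]
      refine Finset.sum_congr rfl fun j _ => ?_
      rw [integral_const_mul]
      simp only [RCLike.star_def]
      ring
    rw [h]
    have : 0 ≤ ∫ x, v x * ‖∑ i, conj (c i) * ψ i x‖ ^ 2 :=
      integral_nonneg fun x => mul_nonneg (hv x) (by positivity)
    exact_mod_cast this

/-- products with a weight are integrable -/
lemma intg {w : (Fin d → ℝ) → ℝ} (hw : AEStronglyMeasurable w volume) {f g : (Fin d → ℝ) → ℂ}
    (hf : AEStronglyMeasurable f volume) (hg : AEStronglyMeasurable g volume)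
    (h1 : Integrable (fun x => w x * ‖f x‖ ^ 2) volume)
    (h2 : Integrable (fun x => w x * ‖g x‖ ^ 2) volume) :
    Integrable (fun x => (w x : ℂ) * (f x * conj (g x))) volume := by
  refine (h1.norm.add h2.norm).mono' ?_ (ae_of_all _ fun x => ?_)
  · exact (Complex.continuous_ofReal.comp_aestronglyMeasurable hw).mul
      (hf.mul (Complex.continuous_conj.comp_aestronglyMeasurable hg))
  · rw [norm_mul, norm_mul, RCLike.norm_conj, Complex.norm_real]
    simp only [Pi.add_apply, norm_mul, norm_pow, norm_norm]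
    nlinarith [mul_nonneg (norm_nonneg (w x)) (sq_nonneg (‖f x‖ - ‖g x‖)),
      mul_nonneg (norm_nonneg (w x)) (sq_nonneg (‖f x‖)),
      mul_nonneg (norm_nonneg (w x)) (sq_nonneg (‖g x‖))]

/-- minus the form matrix of an `H¹` family -/
noncomputable def formM {N : ℕ} (W : (Fin d → ℝ) → ℝ) (ψ : Fin N → (Fin d → ℝ) → ℂ)
    (g : Fin N → Fin d → (Fin d → ℝ) → ℂ) : Mat N :=
  Matrix.of fun i j => (∫ y, (W y : ℂ) * (ψ i y * conj (ψ j y))) -
    ∑ k, ∫ y, g i k y * conj (g j k y)

lemma QM_smul {N : ℕ} {V : (Fin d → ℝ) → ℝ} (hV : Continuous V) {f : Fin N → (Fin d → ℝ) → ℂ}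
    (hf : ∀ j, TestFn d (f j)) (s : ℝ) :
    QM V (fun j y => (s : ℂ) * f j y) = ((s ^ 2 : ℝ) : ℂ) • QM V f := by
  have h1 : (fun j y => (s : ℂ) * f j y) = act ((s : ℂ) • (1 : Mat N)) f := by
    ext j y
    simp [act, Matrix.one_apply]
  rw [h1, LT.AL.QM_act V hV _ hf]
  simp only [Matrix.conjTranspose_smul, Matrix.conjTranspose_one, Matrix.smul_mul, Matrix.one_mul,
    Matrix.mul_smul, Matrix.mul_one, smul_smul, RCLike.star_def, Complex.conj_ofReal]
  congr 1
  push_cast
  ring

/-- the inequality for `H¹` families and continuous potentials with compact support -/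
lemma pot (hd : DensStmt) {γ L : ℝ} (hγ : 0 < γ) (hES : ESF d γ L) {N : ℕ}
    {ψ : Fin N → (Fin d → ℝ) → ℂ} {g : Fin N → Fin d → (Fin d → ℝ) → ℂ}
    (hψ : ∀ j, IsH1d (ψ j) (g j))
    (ho : ∀ i j, ∫ y, conj (ψ i y) * ψ j y = if i = j then 1 else 0)
    {V : (Fin d → ℝ) → ℝ} (hV : PotFn d V) {b : Fin N → ℝ} (hb : ∀ j, 0 < b j)
    (hA : (formM V ψ g - Matrix.diagonal (fun j => (b j : ℂ))).PosSemidef) :
    ∑ j, b j ^ γ ≤ L * ∫ y, V y ^ (γ + (d : ℝ) / 2) := by
  obtain ⟨M, hM0, hM⟩ := LT.kinH1_pot_bdd hV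
  set ε : ℕ → ℝ := fun n => 1 / ((n : ℝ) + 1) with hεdef
  have hε0 : ∀ n, 0 < ε n := fun n => by simp only [hεdef]; positivity
  have hε : Tendsto ε atTop (𝓝 0) := tendsto_one_div_add_atTop_nhds_zero_nat
  choose f hft hf1 hf2 using fun (j : Fin N) (n : ℕ) => hd d (ψ j) (g j) (hψ j) (ε n) (hε0 n)
  have hψm : ∀ j, MemLp (ψ j) 2 volume := fun j => (hψ j).1
  have hgm : ∀ j i, MemLp (g j i) 2 volume := fun j => (hψ j).2.1
  have hfm : ∀ j n, MemLp (f j n) 2 volume := fun j n => LT.kinH1_testFn_memLp (hft j n)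
  have hG : ∀ i j, Tendsto (fun n => gramF (fun k => f k n) i j) atTop
      (𝓝 ((1 : Mat N) i j)) := by
    intro i j
    have := LT.kinH1_inner (hψm i) (hψm j) (hfm i) (hfm j) (hf1 i) (hf1 j) hε
    have h2 : ∫ y, ψ i y * conj (ψ j y) = (1 : Mat N) i j := by
      have h3 := ho j i
      rw [Matrix.one_apply]
      rw [show (∫ y, ψ i y * conj (ψ j y)) = ∫ y, conj (ψ j y) * ψ i y from by
        simp only [mul_comm], h3]
      simp [eq_comm]
    rw [h2] at this
    exact this
  set δ : ℕ → ℝ := fun n => ∑ i, ∑ j, ‖(gramF (fun k => f k n) - 1 : Mat N) i j‖ with hδdef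
  have hδ0 : ∀ n, 0 ≤ δ n := fun n => sum_nonneg fun i _ => sum_nonneg fun j _ => norm_nonneg _
  have hδ : Tendsto δ atTop (𝓝 0) := by
    have : Tendsto δ atTop (𝓝 (∑ i : Fin N, ∑ j : Fin N, (0 : ℝ))) := by
      refine tendsto_finsetSum _ fun i _ => tendsto_finsetSum _ fun j _ => ?_
      have h3 := ((hG i j).sub_const ((1 : Mat N) i j)).norm
      simpa using h3
    simpa using this
  -- the form matrices converge
  have hQ : ∀ i j, Tendsto (fun n => QM V (fun k => f k n) i j) atTop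
      (𝓝 (-(formM V ψ g i j))) := by
    intro i j
    have h1 : ∀ k, Tendsto (fun n => ∫ y, pd k (f i n) y * conj (pd k (f j n) y)) atTop
        (𝓝 (∫ y, g i k y * conj (g j k y))) := fun k =>
      LT.kinH1_inner (hgm i k) (hgm j k) (fun n => LT.kinH1_testFn_deriv_memLp (hft i n) k)
        (fun n => LT.kinH1_testFn_deriv_memLp (hft j n) k) (fun n => hf2 i n k)
        (fun n => hf2 j n k) hε
    have h2 : Tendsto (fun n => ∫ y, (V y : ℂ) * (f i n y * conj (f j n y))) atTop
        (𝓝 (∫ y, (V y : ℂ) * (ψ i y * conj (ψ j y)))) := by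
      have hb : ∀ l n, ∫ y, ‖(√(V y) : ℂ) * ψ l y - (√(V y) : ℂ) * f l n y‖ ^ 2 ≤ M * ε n := by
        intro l n
        have h4 : ∀ y, ‖(√(V y) : ℂ) * ψ l y - (√(V y) : ℂ) * f l n y‖ ^ 2 =
            V y * ‖ψ l y - f l n y‖ ^ 2 := by
          intro y
          rw [← mul_sub]
          exact LT.kinH1_sqrtV_sq hV (fun y => ψ l y - f l n y) y
        simp only [h4]
        have hm : MemLp (fun y => ψ l y - f l n y) 2 volume := (hψm l).sub (hfm l n)
        calc ∫ y, V y * ‖ψ l y - f l n y‖ ^ 2 ≤ ∫ y, M * ‖ψ l y - f l n y‖ ^ 2 := by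
              refine integral_mono (LT.kinH1_pot_int hV hm) ?_ fun y => ?_
              · exact (hm.integrable_norm_pow (by norm_num)).const_mul M
              · exact mul_le_mul_of_nonneg_right (hM y) (by positivity)
          _ = M * ∫ y, ‖ψ l y - f l n y‖ ^ 2 := integral_const_mul _ _
          _ ≤ M * ε n := mul_le_mul_of_nonneg_left (hf1 l n) hM0
      have h3 := LT.kinH1_inner (μ := volume) (u := fun y => (√(V y) : ℂ) * ψ i y)
        (u' := fun y => (√(V y) : ℂ) * ψ j y)
        (v := fun n y => (√(V y) : ℂ) * f i n y) (v' := fun n y => (√(V y) : ℂ) * f j n y)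
        (ε := fun n => M * ε n)
        (LT.kinH1_sqrtV_memLp hV (hψm i)) (LT.kinH1_sqrtV_memLp hV (hψm j))
        (fun n => LT.kinH1_sqrtV_memLp hV (hfm i n)) (fun n => LT.kinH1_sqrtV_memLp hV (hfm j n))
        (hb i) (hb j) (by simpa using hε.const_mul M)
      have h5 : ∀ (a c : (Fin d → ℝ) → ℂ) (y : Fin d → ℝ),
          (√(V y) : ℂ) * a y * conj ((√(V y) : ℂ) * c y) = (V y : ℂ) * (a y * conj (c y)) := by
        intro a c y
        rw [map_mul, Complex.conj_ofReal]
        have h6 : ((√(V y) : ℂ)) * (√(V y) : ℂ) = (V y : ℂ) := by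
          rw [← Complex.ofReal_mul, Real.mul_self_sqrt (hV.2.2 y)]
        calc (√(V y) : ℂ) * a y * ((√(V y) : ℂ) * conj (c y)) =
            ((√(V y) : ℂ) * (√(V y) : ℂ)) * (a y * conj (c y)) := by ring
          _ = _ := by rw [h6]
      simp only [h5] at h3
      exact h3
    have h7 := (tendsto_finsetSum (univ : Finset (Fin d)) fun k _ => h1 k).sub h2
    have h8 : -(formM V ψ g i j) = ∑ k, (∫ y, g i k y * conj (g j k y)) -
        ∫ y, (V y : ℂ) * (ψ i y * conj (ψ j y)) := by
      simp only [formM, of_apply]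
      ring
    rw [h8]
    refine h7.congr fun n => ?_
    simp only [QM, Matrix.sub_apply, Matrix.sum_apply, wM, of_apply, Pi.one_apply,
      Complex.ofReal_one, one_mul]
  set η : ℕ → ℝ := fun n => ∑ i, ∑ j, ‖(formM V ψ g + QM V (fun k => f k n) : Mat N) i j‖
    with hηdef
  have hη0 : ∀ n, 0 ≤ η n := fun n => sum_nonneg fun i _ => sum_nonneg fun j _ => norm_nonneg _
  have hη : Tendsto η atTop (𝓝 0) := by
    have : Tendsto η atTop (𝓝 (∑ i : Fin N, ∑ j : Fin N, (0 : ℝ))) := by
      refine tendsto_finsetSum _ fun i _ => tendsto_finsetSum _ fun j _ => ?_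
      have h3 := ((hQ i j).const_add (formM V ψ g i j)).norm
      simpa using h3
    simpa using this
  have hDh : ∀ c : Fin N → ℝ, (Matrix.diagonal (fun j => (c j : ℂ)) : Mat N).IsHermitian := by
    intro c
    refine Matrix.isHermitian_diagonal_of_self_adjoint _ ?_
    ext j
    simp
  have hFh : (formM V ψ g).IsHermitian := by
    have := hA.1.add (hDh b)
    rwa [sub_add_cancel] at this
  have hs : ∀ n, (∀ j, 0 < (1 + δ n)⁻¹ * (b j - η n)) →
      ∑ j, ((1 + δ n)⁻¹ * (b j - η n)) ^ γ ≤ L * ∫ y, V y ^ (γ + (d : ℝ) / 2) := by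
    intro n hpn
    have hpos : 0 < 1 + δ n := by linarith [hδ0 n]
    set s : ℝ := √((1 + δ n)⁻¹) with hsdef
    have hs2 : s ^ 2 = (1 + δ n)⁻¹ := Real.sq_sqrt (by positivity)
    refine hES N (fun j y => (s : ℂ) * f j n y) V (fun j => (1 + δ n)⁻¹ * (b j - η n))
      (fun j => LT.kinH1_testFn_smul (hft j n) s) hV ?_ hpn ?_
    · rw [LT.kinH1_gramF_smul, hs2]
      have h4 := LT.kinH1_psd (gramF (fun k => f k n) - 1)
        ((LT.kinH1_gramF_herm _).sub isHermitian_one) (δ n) le_rfl
      have h5 : (1 - (((1 + δ n)⁻¹ : ℝ) : ℂ) • gramF (fun k => f k n) : Mat N) =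
          (((1 + δ n)⁻¹ : ℝ) : ℂ) • ((δ n : ℂ) • (1 : Mat N) - (gramF (fun k => f k n) - 1)) := by
        have h6 : ((δ n : ℂ) • (1 : Mat N) - (gramF (fun k => f k n) - 1)) =
            (((1 + δ n : ℝ)) : ℂ) • (1 : Mat N) - gramF (fun k => f k n) := by
          push_cast
          rw [add_smul, one_smul]
          abel
        rw [h6, smul_sub, smul_smul, ← Complex.ofReal_mul, inv_mul_cancel₀ hpos.ne',
          Complex.ofReal_one, one_smul]
      rw [h5]
      refine h4.smul ?_
      rw [Complex.zero_le_real]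
      positivity
    · rw [QM_smul hV.1 (fun j => hft j n), hs2]
      have h4 := LT.kinH1_psd (formM V ψ g + QM V (fun k => f k n))
        (hFh.add (LT.AL.QM_herm _ _)) (η n) le_rfl
      have h5 : (-((((1 + δ n)⁻¹ : ℝ) : ℂ) • QM V (fun k => f k n)) -
          Matrix.diagonal (fun j => (((1 + δ n)⁻¹ * (b j - η n) : ℝ) : ℂ)) : Mat N) =
          (((1 + δ n)⁻¹ : ℝ) : ℂ) • ((formM V ψ g - Matrix.diagonal (fun j => (b j : ℂ))) +
            ((η n : ℂ) • (1 : Mat N) - (formM V ψ g + QM V (fun k => f k n)))) := by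
        ext i j
        simp only [Matrix.sub_apply, Matrix.neg_apply, Matrix.smul_apply, Matrix.add_apply,
          smul_eq_mul]
        by_cases hij : i = j
        · subst hij
          simp only [Matrix.diagonal_apply_eq, Matrix.one_apply_eq]
          push_cast
          ring
        · rw [Matrix.diagonal_apply_ne _ hij, Matrix.diagonal_apply_ne _ hij,
            Matrix.one_apply_ne hij]
          ring
      rw [h5]
      refine (hA.add h4).smul ?_
      rw [Complex.zero_le_real]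
      positivity
  have hlimj : ∀ j, Tendsto (fun n => (1 + δ n)⁻¹ * (b j - η n)) atTop (𝓝 (b j)) := by
    intro j
    have := ((hδ.const_add 1).inv₀ (by norm_num)).mul (hη.const_sub (b j))
    simpa using this
  have hlim : Tendsto (fun n => ∑ j, ((1 + δ n)⁻¹ * (b j - η n)) ^ γ) atTop
      (𝓝 (∑ j, b j ^ γ)) :=
    tendsto_finsetSum _ fun j _ => (hlimj j).rpow_const (Or.inr hγ.le)
  refine le_of_tendsto hlim ?_
  have hev : ∀ᶠ n in atTop, ∀ j, 0 < (1 + δ n)⁻¹ * (b j - η n) :=
    eventually_all.2 fun j => (hlimj j).eventually (lt_mem_nhds (hb j))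
  filter_upwards [hev] with n hn
  exact hs n hn

end Pool.Agent.LTS.SpecL

namespace Pool.Agent.LTS

open MeasureTheory Matrix Finset Filter Topology
open scoped ComplexConjugate ComplexOrder ContDiff
open Pool.Agent.LT (TestFn PotFn gramF kinE IsH1d IsEigenfunctionD LTBoundD DensStmt)

/-- (SPECL) from test functions to eigenfunctions -/
theorem specL (hd : LT.DensStmt) (hp : PotAStmt) : SpecLStmt := by
  intro d γ L hd0 hγ hL hES V hV N ψ E hE hneg ho
  choose g hg hweak using hE
  have hen : ∀ j, Integrable (fun y => V y * ‖ψ j y‖ ^ 2) volume := fun j =>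
    (LT.spec_energy (hweak j (ψ j) (g j) (hg j)) (by rw [ho j j, if_pos rfl]) (hneg j)).1
  set p : ℝ := γ + (d : ℝ) / 2 with hpdef
  have hd1 : (1 : ℝ) ≤ d := by exact_mod_cast hd0
  have hp1 : 1 ≤ p := by rw [hpdef]; linarith
  have hp0 : 0 < p := by linarith
  set U : (Fin d → ℝ) → ℝ := fun y => max (-V y) 0 with hUdef
  have hU0 : ∀ y, 0 ≤ U y := fun y => le_max_right _ _
  have hU : MemLp U (ENNReal.ofReal p) volume := hV.neg.pos_part
  have hUV : ∀ y, 0 ≤ U y + V y := by
    intro y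
    have := le_max_left (-V y) 0
    show 0 ≤ max (-V y) 0 + V y
    linarith
  have hψm : ∀ j, MemLp (ψ j) 2 volume := fun j => (hg j).1
  have hUi : ∀ j, Integrable (fun y => U y * ‖ψ j y‖ ^ 2) volume := by
    intro j
    have h2 := (hen j).neg_part
    refine h2.congr (Eventually.of_forall fun y => ?_)
    simp only [hUdef]
    have h3 : 0 ≤ ‖ψ j y‖ ^ 2 := by positivity
    rw [max_mul_of_nonneg _ _ h3, zero_mul, neg_mul]
  have hVij : ∀ i j, Integrable (fun y => (V y : ℂ) * (ψ i y * conj (ψ j y))) volume := fun i j =>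
    SpecL.intg hV.1 (hψm i).1 (hψm j).1 (hen i) (hen j)
  have hUij : ∀ i j, Integrable (fun y => (U y : ℂ) * (ψ i y * conj (ψ j y))) volume := fun i j =>
    SpecL.intg hU.1 (hψm i).1 (hψm j).1 (hUi i) (hUi j)
  set P : Mat N := Matrix.of fun i j => ∫ x, ((U x + V x : ℝ) : ℂ) * (ψ i x * conj (ψ j x)) with hP
  have hPp : P.PosSemidef := by
    rw [hP]
    refine SpecL.psd (v := fun x => U x + V x) hUV fun i j => ?_
    refine ((hUij i j).add (hVij i j)).congr (ae_of_all _ fun x => ?_)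
    simp only [Pi.add_apply]
    push_cast
    ring
  -- the estimate with an error
  have hkey : ∀ ε : ℝ, 0 < ε → (∀ j, 0 < -E j - (N : ℝ) ^ 2 * ε) →
      ∑ j, (-E j - (N : ℝ) ^ 2 * ε) ^ γ ≤ L * ((∫ y, U y ^ p) + ε) := by
    intro ε hε hpos
    obtain ⟨W, hW, hWp, hWU⟩ := hp d N p ψ U hp1 hψm hU hU0 hUi ε hε
    have hWi : ∀ j, Integrable (fun y => W y * ‖ψ j y‖ ^ 2) volume := fun j =>
      LT.kinH1_pot_int hW (hψm j)
    set B : Mat N := Matrix.of fun i j => (∫ y, (U y : ℂ) * (ψ i y * conj (ψ j y))) -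
      ∫ y, (W y : ℂ) * (ψ i y * conj (ψ j y)) with hB
    have hconj : ∀ (w : (Fin d → ℝ) → ℝ) (i j : Fin N),
        conj (∫ y, (w y : ℂ) * (ψ j y * conj (ψ i y))) =
          ∫ y, (w y : ℂ) * (ψ i y * conj (ψ j y)) := by
      intro w i j
      rw [← integral_conj]
      congr 1
      funext x
      simp only [map_mul, Complex.conj_ofReal, Complex.conj_conj]
      ring
    have hBh : B.IsHermitian := by
      ext i j
      simp only [conjTranspose_apply, hB, of_apply]
      rw [RCLike.star_def, map_sub, hconj, hconj]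
    have hBs : ∑ i, ∑ j, ‖B i j‖ ≤ (N : ℝ) ^ 2 * ε := by
      calc ∑ i, ∑ j, ‖B i j‖ ≤ ∑ _i : Fin N, ∑ _j : Fin N, ε := by
            refine Finset.sum_le_sum fun i _ => Finset.sum_le_sum fun j _ => ?_
            rw [hB, of_apply, norm_sub_rev]
            exact hWU i j
        _ = (N : ℝ) ^ 2 * ε := by
            simp only [Finset.sum_const, Finset.card_univ, Fintype.card_fin, nsmul_eq_mul]
            ring
    have hmat : SpecL.formM W ψ g -
        Matrix.diagonal (fun j => (((-E j - (N : ℝ) ^ 2 * ε : ℝ)) : ℂ)) =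
        ((((N : ℝ) ^ 2 * ε : ℝ) : ℂ) • (1 : Mat N) - B) + P := by
      ext i j
      have hw := hweak i (ψ j) (g j) (hg j)
      rw [ho j i] at hw
      have e1 : ∑ k, ∫ x, conj (g j k x) * g i k x = ∑ k, ∫ x, g i k x * conj (g j k x) := by
        refine Finset.sum_congr rfl fun k _ => ?_
        simp_rw [mul_comm (g i k _)]
      have e2 : ∫ x, (V x : ℂ) * (conj (ψ j x) * ψ i x) =
          ∫ x, (V x : ℂ) * (ψ i x * conj (ψ j x)) := by
        simp_rw [mul_comm (ψ i _)]
      rw [e1, e2] at hw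
      have e4 : P i j = (∫ x, (U x : ℂ) * (ψ i x * conj (ψ j x))) +
          ∫ x, (V x : ℂ) * (ψ i x * conj (ψ j x)) := by
        rw [hP, of_apply, ← integral_add (hUij i j) (hVij i j)]
        congr 1
        funext x
        push_cast
        ring
      simp only [SpecL.formM, Matrix.sub_apply, Matrix.add_apply, of_apply, Matrix.smul_apply,
        smul_eq_mul]
      rw [e4, hB, of_apply]
      by_cases hij : i = j
      · subst hij
        simp only [Matrix.diagonal_apply_eq, Matrix.one_apply_eq, if_true] at hw ⊢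
        push_cast
        linear_combination -hw
      · rw [if_neg (Ne.symm hij)] at hw
        rw [Matrix.diagonal_apply_ne _ hij, Matrix.one_apply_ne hij]
        linear_combination -hw
    have hfin := SpecL.pot hd (by linarith : 0 < γ) hES hg ho hW
      (b := fun j => -E j - (N : ℝ) ^ 2 * ε) hpos (by
        rw [hmat]
        exact (LT.kinH1_psd B hBh _ hBs).add hPp)
    exact hfin.trans (mul_le_mul_of_nonneg_left hWp hL)
  have hlimj : ∀ j, Tendsto (fun ε : ℝ => -E j - (N : ℝ) ^ 2 * ε) (𝓝[>] 0) (𝓝 (-E j)) := by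
    intro j
    have hc : Continuous fun ε : ℝ => -E j - (N : ℝ) ^ 2 * ε := by fun_prop
    have := hc.tendsto 0
    simp only [mul_zero, sub_zero] at this
    exact this.mono_left nhdsWithin_le_nhds
  have hlim : Tendsto (fun ε : ℝ => ∑ j, (-E j - (N : ℝ) ^ 2 * ε) ^ γ) (𝓝[>] 0)
      (𝓝 (∑ j, (-E j) ^ γ)) :=
    tendsto_finsetSum _ fun j _ => (hlimj j).rpow_const (Or.inr (by linarith))
  have hR : Tendsto (fun ε : ℝ => L * ((∫ y, U y ^ p) + ε)) (𝓝[>] 0) (𝓝 (L * ∫ y, U y ^ p)) := by
    have hc : Continuous fun ε : ℝ => L * ((∫ y, U y ^ p) + ε) := by fun_prop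
    have := hc.tendsto 0
    simp only [add_zero] at this
    exact this.mono_left nhdsWithin_le_nhds
  have hfin : ∑ j, (-E j) ^ γ ≤ L * ∫ y, U y ^ p := by
    refine le_of_tendsto_of_tendsto hlim hR ?_
    have hev : ∀ᶠ ε : ℝ in 𝓝[>] 0, ∀ j, 0 < -E j - (N : ℝ) ^ 2 * ε :=
      eventually_all.2 fun j => (hlimj j).eventually (lt_mem_nhds (by linarith [hneg j]))
    filter_upwards [hev, self_mem_nhdsWithin] with ε h1 h2
    exact hkey ε h2 h1
  refine le_trans (le_of_eq ?_) hfin
  refine Finset.sum_congr rfl fun j _ => ?_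
  rw [abs_of_neg (hneg j)]

end Pool.Agent.LTS
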