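import Pool.Agent.LTS.DefsL

/-!
# Module LTL_TRE: the trace inequality for `1/2 ≤ γ < 3/2` (MP_4c716f_mp)   (helper64)
-/

set_option autoImplicit false

namespace Pool.Agent.LTS

open MeasureTheory Matrix Finset Set Filter
open scoped ComplexConjugate ComplexOrder MatrixOrder

namespace TrEAux

lemma trace_re {N : ℕ} {A : Mat N} (hA : A.IsHermitian) :
    (Matrix.trace A).re = ∑ i, hA.eigenvalues i := by
  rw [hA.trace_eq_sum_eigenvalues, Complex.re_sum]
  rfl

lemma continuousOn_trace_re {N : ℕ} {f : ℝ → Mat N} {S : Set ℝ}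
    (hf : ContinuousOn f S) : ContinuousOn (fun x => (Matrix.trace (f x)).re) S := by
  have h : Continuous fun A : Mat N => (Matrix.trace A).re :=
    Complex.continuous_re.comp (Continuous.matrix_trace continuous_id)
  exact h.comp_continuousOn hf

/-- the trace of a product of two positive semidefinite matrices is nonnegative -/
lemma trace_mul_re_nonneg {N : ℕ} {P Q : Mat N} (hP : P.PosSemidef) (hQ : Q.PosSemidef) :
    0 ≤ (Matrix.trace (P * Q)).re := by
  obtain ⟨B, rfl⟩ := CStarAlgebra.nonneg_iff_eq_star_mul_self.mp hQ.nonneg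
  rw [← Matrix.mul_assoc, Matrix.trace_mul_comm, ← Matrix.mul_assoc]
  exact (Complex.nonneg_iff.1 (hP.mul_mul_conjTranspose_same B).trace_nonneg).1

lemma lone_half : Lone (1 / 2) = 1 / 2 := by
  unfold Lone
  rw [show (1 / 2 : ℝ) - 1 / 2 = 0 by norm_num, show (1 / 2 : ℝ) + 1 / 2 = 1 by norm_num,
    Real.rpow_zero, Real.one_rpow, Real.Gamma_one, mul_one, div_one, one_mul,
    Real.Gamma_add_one (by norm_num), Real.Gamma_one_half_eq]
  have : √Real.pi ≠ 0 := (Real.sqrt_pos.2 Real.pi_pos).ne'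
  field_simp

end TrEAux

open TrEAux

/-- the endpoint `γ = 1/2` -/
theorem traceHalf (N : ℕ) (X : ℝ) (κ : Mat N) (hκ : κ.IsHermitian) (F V : ℝ → Mat N) (h : ℝ → ℝ)
    (hX : 0 < X) (hric : IsRic X κ F V) (hVc : ContinuousOn V (Icc (-X) X))
    (hVp : ∀ x ∈ Icc (-X) X, (V x).PosSemidef) (hhc : ContinuousOn h (Icc (-X) X))
    (hh : ∀ x ∈ Icc (-X) X, ∀ hx : (V x).IsHermitian, ∑ i, hx.eigenvalues i ≤ h x) :
    ∑ i, hκ.eigenvalues i ≤ 1 / 2 * ∫ x in (-X)..X, h x := by
  obtain ⟨hκp, hFl, hFr, hFc, hFd, hFb⟩ := hric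
  have hXX : -X ≤ X := by linarith
  let D : ℝ → Mat N := fun x => κ * κ - F x * F x - V x
  have hDc : ContinuousOn D (Icc (-X) X) := (continuousOn_const.sub (hFc.mul hFc)).sub hVc
  have hDi : IntervalIntegrable (fun x => (Matrix.trace (D x)).re) volume (-X) X := by
    apply ContinuousOn.intervalIntegrable
    rw [Set.uIcc_of_le hXX]
    exact continuousOn_trace_re hDc
  have hhi : IntervalIntegrable h volume (-X) X := by
    apply ContinuousOn.intervalIntegrable
    rwa [Set.uIcc_of_le hXX]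
  have hftc : ∫ x in (-X)..X, (Matrix.trace (D x)).re = -(2 * ∑ i, hκ.eigenvalues i) := by
    have h1 : ∀ x ∈ Ioo (-X) X, HasDerivAt (fun y => (Matrix.trace (F y)).re)
        (Matrix.trace (D x)).re x := by
      intro x hx'
      have h2 : HasDerivAt (fun y => Matrix.trace (F y)) (Matrix.trace (D x)) x := by
        unfold Matrix.trace
        apply HasDerivAt.fun_sum
        intro i _
        exact hFd x hx' i i
      exact Complex.reCLM.hasFDerivAt.comp_hasDerivAt x h2
    rw [intervalIntegral.integral_eq_sub_of_hasDerivAt_of_le hXX (continuousOn_trace_re hFc) h1 hDi,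
      hFl, hFr, Matrix.trace_neg, Complex.neg_re, trace_re hκ]
    ring
  have hpt : ∀ x ∈ Icc (-X) X, -h x ≤ (Matrix.trace (D x)).re := by
    intro x hx
    have hVH : (V x).IsHermitian := (hVp x hx).1
    have h1 := hh x hx hVH
    rw [← trace_re hVH] at h1
    have h2 := trace_mul_re_nonneg (hFb x hx).1 (hFb x hx).2
    have h3 : Matrix.trace ((κ - F x) * (κ + F x)) = Matrix.trace (κ * κ - F x * F x) := by
      rw [Matrix.sub_mul, Matrix.mul_add, Matrix.mul_add, Matrix.trace_sub, Matrix.trace_add,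
        Matrix.trace_add, Matrix.trace_sub, Matrix.trace_mul_comm κ (F x)]
      ring
    rw [h3] at h2
    show -h x ≤ (Matrix.trace (κ * κ - F x * F x - V x)).re
    rw [Matrix.trace_sub, Complex.sub_re]
    linarith
  have hint := intervalIntegral.integral_mono_on hXX hhi.neg hDi hpt
  have hneg : ∫ x in (-X)..X, -h x = -∫ x in (-X)..X, h x := intervalIntegral.integral_neg
  rw [hftc] at hint
  have hint' : -∫ x in (-X)..X, h x ≤ -(2 * ∑ i, hκ.eigenvalues i) := by
    rw [← hneg]; exact hint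
  linarith

/-- **the trace inequality**, `1/2 ≤ γ < 3/2` -/
theorem traceE (ht : TraceStmt) (hc : ConstSStmt) : TraceEStmt := by
  intro N X γ κ hκ F V h hX hγ0 hγ1 hric hVc hVp hhc hh
  rcases hγ0.eq_or_lt with rfl | hγ
  · rw [lone_half]
    have h1 := traceHalf N X κ hκ F V h hX hric hVc hVp hhc (fun x hx hx' => by
      have h2 := hh x hx hx'
      rw [show (1 / 2 : ℝ) + 1 / 2 = 1 by norm_num] at h2
      simpa only [Real.rpow_one] using h2)
    rw [show (2 : ℝ) * (1 / 2) = 1 by norm_num]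
    simpa only [Real.rpow_one] using h1
  · obtain ⟨hc1, -, hc3⟩ := hc γ hγ hγ1
    have h1 := ht N X (γ - 1 / 2) κ hκ F V h hX (by linarith) (by linarith) hric hVc hVp hhc
      (fun x hx hx' => by
        have h2 := hh x hx hx'
        rwa [show 1 + (γ - 1 / 2) = γ + 1 / 2 by ring])
    rw [show 2 * (γ - 1 / 2) + 1 = 2 * γ by ring] at h1
    rw [← hc3, div_mul_eq_mul_div, le_div_iff₀ hc1, mul_comm]
    exact h1

end Pool.Agent.LTS
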