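import Pool.Agent.LTS.DefsL

/-!
# Operator valued unfolding (module UNFL, MP_4c716f_mp)
-/

set_option autoImplicit false

namespace Pool.Agent.LTS.UnfL

open MeasureTheory Matrix Finset Filter Topology
open scoped ComplexConjugate ComplexOrder
open Pool.Agent.LT (TestFn PotFn gramF kinE formE form1 ES ES' Lcl)
open Pool.Agent.LT.AL (act QM)

/-- `tr (T b T) ≤ - tr (T QM T)`. -/
lemma trace_le {N : ℕ} {Q B T : Mat N} (hQ : (-Q - B).PosSemidef) (hT : Tᴴ = T) :
    (Matrix.trace (T * B * T)).re ≤ -(Matrix.trace (T * Q * T)).re := by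
  have h := (hQ.mul_mul_conjTranspose_same T).trace_nonneg
  rw [hT] at h
  have h1 : T * (-Q - B) * T = -(T * Q * T) - T * B * T := by
    rw [Matrix.mul_sub, Matrix.sub_mul, Matrix.mul_neg, Matrix.neg_mul]
  rw [h1, Matrix.trace_sub, Matrix.trace_neg] at h
  have h2 := (Complex.le_def.1 h).1
  simp only [Complex.zero_re, Complex.sub_re, Complex.neg_re] at h2
  linarith

end Pool.Agent.LTS.UnfL

namespace Pool.Agent.LTS

open MeasureTheory Matrix Finset Filter Topology
open scoped ComplexConjugate ComplexOrder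
open Pool.Agent.LT (TestFn PotFn gramF kinE formE form1 ES ES' Lcl)
open Pool.Agent.LT.AL (act QM)

theorem unfL (hcore : CoreStmt) (hk : KleinStmt) (hf : FunStmt) : UnfLStmt := by
  intro d γ L h1 h2 hL hES N g V b hg hV hG hb hQ
  set R := Lone γ * L * ∫ y, V y ^ (γ + ((d + 1 : ℕ) : ℝ) / 2) with hR
  have hcore' := hcore d γ L h1 h2 hL hES N g V hg hV hG
  by_cases h3 : 1 ≤ γ
  · -- `γ ≥ 1`
    set T : Mat N := Matrix.diagonal (fun j => ((b j ^ ((γ - 1) / 2) : ℝ) : ℂ)) with hTd
    have hT : Tᴴ = T := by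
      rw [hTd, Matrix.diagonal_conjTranspose]
      congr 1
      funext j
      simp
    have htr : (Matrix.trace (T * Matrix.diagonal (fun j => (b j : ℂ)) * T)).re =
        ∑ j, b j ^ γ := by
      rw [hTd, Matrix.diagonal_mul_diagonal, Matrix.diagonal_mul_diagonal, Matrix.trace_diagonal,
        Complex.re_sum]
      refine Finset.sum_congr rfl fun j _ => ?_
      rw [← Complex.ofReal_mul, ← Complex.ofReal_mul, Complex.ofReal_re]
      have hbj := hb j
      calc b j ^ ((γ - 1) / 2) * b j * b j ^ ((γ - 1) / 2) =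
          b j ^ ((γ - 1) / 2) * b j ^ (1 : ℝ) * b j ^ ((γ - 1) / 2) := by rw [Real.rpow_one]
        _ = _ := by
          rw [← Real.rpow_add hbj, ← Real.rpow_add hbj]
          congr 1
          ring
    have hstep : ∀ ε : ℝ, 0 < ε → ∑ j, b j ^ γ ≤ R + γ * ε := by
      intro ε hε
      obtain ⟨κ, hκ, hκp, hA, hB⟩ := hcore' (fun _ => T) continuousOn_const (fun _ _ => hT) ε hε
      have hkl := hk.1 N γ κ hκ b h3 hκp hb
      have h4 := UnfL.trace_le hQ hT
      rw [htr] at h4
      rw [← hTd] at hkl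
      have h5 : -ε ≤ (Matrix.trace (T * (κ * κ) * T)).re - ∑ j, b j ^ γ := by linarith
      have h6 := mul_le_mul_of_nonneg_left h5 (by linarith : (0 : ℝ) ≤ γ)
      linarith
    have hlim : Tendsto (fun t : ℝ => R + γ * t) (𝓝[>] 0) (𝓝 (R + γ * 0)) := by
      have hc : Continuous (fun t : ℝ => R + γ * t) := by fun_prop
      exact (hc.tendsto 0).mono_left nhdsWithin_le_nhds
    rw [mul_zero, add_zero] at hlim
    refine ge_of_tendsto hlim ?_
    filter_upwards [self_mem_nhdsWithin] with t ht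
    exact hstep t ht
  · -- `γ < 1`
    rw [not_le] at h3
    have hg0 : 0 < γ := by linarith
    have hstep : ∀ δ ε : ℝ, 0 < δ → 0 < ε → ∑ j, b j ^ γ ≤ R + N * δ ^ γ + γ * ε := by
      intro δ ε hδ hε
      have hfc : Continuous (fun t : ℝ => (t ^ 2 + δ) ^ ((γ - 1) / 2)) := by
        refine Continuous.rpow_const (by fun_prop) fun t => Or.inl ?_
        positivity
      obtain ⟨Ψ, hΨc, hΨ⟩ := hf N _ hfc
      have hΨh : ∀ κ : Mat N, κ.IsHermitian → (Ψ κ).IsHermitian := by
        intro κ hκ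
        rw [hΨ κ hκ]
        refine Matrix.isHermitian_mul_mul_conjTranspose _ ?_
        rw [Matrix.IsHermitian, Matrix.diagonal_conjTranspose]
        congr 1
        funext j
        simp
      obtain ⟨κ, hκ, hκp, hA, hB⟩ := hcore' Ψ hΨc hΨh ε hε
      have hkl := hk.2 N γ δ κ hκ (Ψ κ) b hg0 h3.le hδ hκp hb (hΨ κ hκ)
      have h4 := UnfL.trace_le hQ (hΨh κ hκ)
      have h5 : (Matrix.trace (Ψ κ * Matrix.diagonal (fun j => (b j : ℂ)) * Ψ κ)).re -
          (Matrix.trace (Ψ κ * (κ * κ) * Ψ κ)).re ≤ ε := by linarith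
      have h6 := mul_le_mul_of_nonneg_left h5 hg0.le
      have h7 : ∑ j, (b j ^ γ - δ ^ γ) ≤ ∑ j, ((b j + δ) ^ γ - δ ^ γ) := by
        refine Finset.sum_le_sum fun j _ => ?_
        have := Real.rpow_le_rpow (hb j).le (by linarith : b j ≤ b j + δ) hg0.le
        linarith
      have h8 : ∑ j, (b j ^ γ - δ ^ γ) = ∑ j, b j ^ γ - N * δ ^ γ := by
        rw [Finset.sum_sub_distrib]
        simp
      linarith
    have hlim : Tendsto (fun t : ℝ => R + N * t ^ γ + γ * t) (𝓝[>] 0)
        (𝓝 (R + N * 0 ^ γ + γ * 0)) := by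
      have hc : Continuous (fun t : ℝ => R + N * t ^ γ + γ * t) := by
        have : Continuous (fun t : ℝ => t ^ γ) :=
          continuous_id.rpow_const fun x => Or.inr hg0.le
        fun_prop
      exact (hc.tendsto 0).mono_left nhdsWithin_le_nhds
    rw [Real.zero_rpow hg0.ne'] at hlim
    simp only [mul_zero, add_zero] at hlim
    refine ge_of_tendsto hlim ?_
    filter_upwards [self_mem_nhdsWithin] with t ht
    exact hstep t t ht ht

end Pool.Agent.LTS
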