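import Pool.Agent.LTS.All
import Pool.Agent.LTS.FinalL
import Pool.Agent.LTS.TrE
import Pool.Agent.LTS.Fib
import Pool.Agent.LTS.Slc
import Pool.Agent.LTS.Fub
import Pool.Agent.LTS.Core
import Pool.Agent.LTS.Klein
import Pool.Agent.LTS.UnfL
import Pool.Agent.LTS.Esp
import Pool.Agent.LTS.PotA
import Pool.Agent.LTS.SpecL
import Pool.Agent.LTS.ConstL
import Pool.Agent.LTS.Vertex

/-!
# All dimensions, `1/2 ≤ γ < 3/2`: all modules together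
(MP_4c716f_mp; helper15)
-/

set_option autoImplicit false

namespace Pool.Agent.LTS

theorem unfLAll (hv : VertexStmt) : UnfLStmt :=
  unfL (core hv (traceE traceAll constS) test (fib funCalc) slc (fub LT.slice)) klein funCalc

theorem allDimLAll (hv : VertexStmt) (d : ℕ) (hd : 0 < d) (γ : ℝ) (h1 : 1 / 2 ≤ γ)
    (h2 : γ < 3 / 2) : LT.LTBoundD d γ (factorL γ * LT.Lcl γ d) :=
  allDimL (unfLAll hv) esp (specL LT.dens potA) constL d hd γ h1 h2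

theorem allDimLFinal (d : ℕ) (hd : 0 < d) (γ : ℝ) (h1 : 1 / 2 ≤ γ) (h2 : γ < 3 / 2) :
    LT.LTBoundD d γ (factorL γ * LT.Lcl γ d) :=
  allDimLAll vertex d hd γ h1 h2

/-- `L_{γ,d} ≤ R_γ L^cl_{γ,d}`, `1 ≤ γ < 3/2` -/
theorem geOne (d : ℕ) (hd : 0 < d) (γ : ℝ) (h1 : 1 ≤ γ) (h2 : γ < 3 / 2) :
    LT.LTBoundD d γ (Rg γ * LT.Lcl γ d) := by
  have h := allDimLFinal d hd γ (by linarith) h2
  rwa [factorL, if_neg (not_lt.2 h1)] at h

/-- `L_{γ,d} ≤ R_γ R_{γ+1/2} L^cl_{γ,d}`, `1/2 ≤ γ < 1` -/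
theorem ltOne (d : ℕ) (hd : 0 < d) (γ : ℝ) (h1 : 1 / 2 ≤ γ) (h2 : γ < 1) :
    LT.LTBoundD d γ (Rg γ * Rg (γ + 1 / 2) * LT.Lcl γ d) := by
  have h := allDimLFinal d hd γ h1 (by linarith)
  rwa [factorL, if_pos h2] at h

end Pool.Agent.LTS
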