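import Pool.Agent.LTS.Defs
import Pool.Agent.LT.KinAux
import Pool.Agent.LT.Bil

/-!
# (APPR) from continuous potentials with compact support to real potentials in `L^(γ+1/2)`
(MP_4c716f_mp)
-/

set_option autoImplicit false

namespace Pool.Agent.LTS.Appr

open MeasureTheory Matrix Finset Filter Topology
open scoped ComplexConjugate ComplexOrder
open Pool.Agent.LT (IsH1v ACv LTBound IsEigenfunction)

/-- functions in `H¹(ℝ)` are bounded -/
lemma bdd {f f' : ℝ → ℂ} (h : IsH1v f f') : ∃ C : ℝ, 0 ≤ C ∧ ∀ x, ‖f x‖ ≤ C := by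
  have hac := LT.KinAux.acv_of_h1 h
  have h1 := LT.KinAux.acv_inner LT.bil hac hac
  have h2 : Integrable (fun x => inner ℂ (f x) (f' x) + inner ℂ (f' x) (f x)) volume :=
    (LT.KinAux.integrable_inner h.1 h.2.1).add (LT.KinAux.integrable_inner h.2.1 h.1)
  obtain ⟨C, hC⟩ := LT.KinAux.bounded h1 h2
  refine ⟨√C, Real.sqrt_nonneg _, fun x => ?_⟩
  apply Real.le_sqrt_of_sq_le
  have := hC x
  rw [inner_self_eq_norm_sq_to_K] at this
  simpa using this

lemma young {p ε w : ℝ} (hε : 0 < ε) (hp : 1 < p) (hw : 0 ≤ w) :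
    w ≤ ε + ε ^ (1 - p) * w ^ p := by
  rcases le_or_gt w ε with h | h
  · have : 0 ≤ ε ^ (1 - p) * w ^ p := by positivity
    linarith
  · have hw' : 0 < w := hε.trans h
    have h1 : w = w ^ (1 - p) * w ^ p := by
      rw [← Real.rpow_add hw']; simp
    have h2 : w ^ (1 - p) ≤ ε ^ (1 - p) := Real.rpow_le_rpow_of_nonpos hε h.le (by linarith)
    have h3 : w ^ (1 - p) * w ^ p ≤ ε ^ (1 - p) * w ^ p :=
      mul_le_mul_of_nonneg_right h2 (by positivity)
    linarith

lemma conv {p θ a b : ℝ} (hp : 1 < p) (hθ : 0 < θ) (hθ1 : θ < 1) (ha : 0 ≤ a) (hb : 0 ≤ b) :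
    (a + b) ^ p ≤ θ ^ (1 - p) * a ^ p + (1 - θ) ^ (1 - p) * b ^ p := by
  have hθ2 : 0 < 1 - θ := by linarith
  have h := (convexOn_rpow hp.le).2 (x := a / θ) (y := b / (1 - θ))
    (Set.mem_Ici.2 (by positivity)) (Set.mem_Ici.2 (by positivity)) hθ.le hθ2.le (by ring)
  simp only [smul_eq_mul] at h
  rw [mul_div_cancel₀ _ hθ.ne', mul_div_cancel₀ _ hθ2.ne', Real.div_rpow ha hθ.le,
    Real.div_rpow hb hθ2.le] at h
  have e : ∀ t c : ℝ, 0 < t → t * (c / t ^ p) = t ^ (1 - p) * c := by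
    intro t c ht
    rw [Real.rpow_sub ht, Real.rpow_one]
    ring
  rwa [e _ _ hθ, e _ _ hθ2] at h

section

variable {p : ℝ} {w : ℝ → ℝ} {f g : ℝ → ℂ} {C : ℝ}

lemma int_rpow (hp : 1 < p) (hw : MemLp w (ENNReal.ofReal p) volume) :
    Integrable (fun x => |w x| ^ p) volume := by
  have h := hw.integrable_norm_rpow (by simp; linarith) ENNReal.ofReal_ne_top
  rw [ENNReal.toReal_ofReal (by linarith)] at h
  simpa only [Real.norm_eq_abs] using h

lemma intg (hp : 1 < p) (hw : MemLp w (ENNReal.ofReal p) volume) (hf : MemLp f 2 volume)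
    (hg : MemLp g 2 volume) (hfC : ∀ x, ‖f x‖ ≤ C) (hgC : ∀ x, ‖g x‖ ≤ C) {ε : ℝ} (hε : 0 < ε) :
    Integrable (fun x => (w x : ℂ) * (f x * conj (g x))) volume ∧
    ‖∫ x, (w x : ℂ) * (f x * conj (g x))‖ ≤
      ε * (∫ x, ‖f x‖ * ‖g x‖) + ε ^ (1 - p) * C ^ 2 * ∫ x, |w x| ^ p := by
  have hC : 0 ≤ C := (norm_nonneg _).trans (hfC 0)
  have h1 : Integrable (fun x => ‖f x‖ * ‖g x‖) volume := hf.norm.integrable_mul hg.norm
  have h2 := int_rpow hp hw
  have h3 : Integrable (fun x => ε * (‖f x‖ * ‖g x‖) + ε ^ (1 - p) * C ^ 2 * |w x| ^ p) volume :=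
    (h1.const_mul _).add (h2.const_mul _)
  have hm : AEStronglyMeasurable (fun x => (w x : ℂ) * (f x * conj (g x))) volume := by
    refine (Complex.continuous_ofReal.comp_aestronglyMeasurable hw.1).mul (hf.1.mul ?_)
    exact Complex.continuous_conj.comp_aestronglyMeasurable hg.1
  have hb : ∀ x, ‖(w x : ℂ) * (f x * conj (g x))‖ ≤
      ε * (‖f x‖ * ‖g x‖) + ε ^ (1 - p) * C ^ 2 * |w x| ^ p := by
    intro x
    rw [norm_mul, norm_mul, RCLike.norm_conj, Complex.norm_real, Real.norm_eq_abs]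
    have e1 := young hε hp (abs_nonneg (w x))
    have e2 : ‖f x‖ * ‖g x‖ ≤ C ^ 2 := by
      rw [pow_two]
      exact mul_le_mul (hfC x) (hgC x) (norm_nonneg _) hC
    have e3 : 0 ≤ ‖f x‖ * ‖g x‖ := by positivity
    calc |w x| * (‖f x‖ * ‖g x‖) ≤ (ε + ε ^ (1 - p) * |w x| ^ p) * (‖f x‖ * ‖g x‖) :=
          mul_le_mul_of_nonneg_right e1 e3
      _ = ε * (‖f x‖ * ‖g x‖) + ε ^ (1 - p) * |w x| ^ p * (‖f x‖ * ‖g x‖) := by ring
      _ ≤ ε * (‖f x‖ * ‖g x‖) + ε ^ (1 - p) * |w x| ^ p * C ^ 2 := by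
          have : 0 ≤ ε ^ (1 - p) * |w x| ^ p := by positivity
          have := mul_le_mul_of_nonneg_left e2 this
          linarith
      _ = _ := by ring
  have hi : Integrable (fun x => (w x : ℂ) * (f x * conj (g x))) volume :=
    h3.mono' hm (ae_of_all _ hb)
  refine ⟨hi, ?_⟩
  calc ‖∫ x, (w x : ℂ) * (f x * conj (g x))‖
      ≤ ∫ x, (ε * (‖f x‖ * ‖g x‖) + ε ^ (1 - p) * C ^ 2 * |w x| ^ p) :=
        norm_integral_le_of_norm_le h3 (ae_of_all _ hb)
    _ = _ := by rw [integral_add (h1.const_mul _) (h2.const_mul _), integral_const_mul,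
        integral_const_mul]

end

/-- weighted Gram matrices are positive semidefinite -/
lemma psd {N : ℕ} {v : ℝ → ℝ} (hv : ∀ x, 0 ≤ v x) {ψ : Fin N → ℝ → ℂ}
    (hi : ∀ i j, Integrable (fun x => (v x : ℂ) * (ψ i x * conj (ψ j x))) volume) :
    (Matrix.of fun i j => ∫ x, (v x : ℂ) * (ψ i x * conj (ψ j x)) : Mat N).PosSemidef := by
  refine PosSemidef.of_dotProduct_mulVec_nonneg ?_ fun c => ?_
  · ext i j
    simp only [conjTranspose_apply, of_apply]
    show conj (∫ x, (v x : ℂ) * (ψ j x * conj (ψ i x))) = _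
    rw [← integral_conj]
    congr 1
    funext x
    simp only [map_mul, Complex.conj_ofReal, Complex.conj_conj]
    ring
  · have h : star c ⬝ᵥ ((Matrix.of fun i j => ∫ x, (v x : ℂ) * (ψ i x * conj (ψ j x)) : Mat N) *ᵥ c)
        = ((∫ x, v x * ‖∑ i, conj (c i) * ψ i x‖ ^ 2 : ℝ) : ℂ) := by
      rw [← integral_complex_ofReal]
      have e1 : ∀ x, ((v x * ‖∑ i, conj (c i) * ψ i x‖ ^ 2 : ℝ) : ℂ) =
          ∑ i, ∑ j, conj (c i) * c j * ((v x : ℂ) * (ψ i x * conj (ψ j x))) := by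
        intro x
        push_cast
        rw [← Complex.mul_conj', map_sum, Finset.sum_mul_sum, Finset.mul_sum]
        refine Finset.sum_congr rfl fun i _ => ?_
        rw [Finset.mul_sum]
        refine Finset.sum_congr rfl fun j _ => ?_
        simp only [map_mul, Complex.conj_conj]
        ring
      simp_rw [e1]
      rw [integral_finsetSum _ fun i _ => integrable_finsetSum _ fun j _ => (hi i j).const_mul _]
      simp only [dotProduct, mulVec, Pi.star_apply, Finset.mul_sum, of_apply]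
      refine Finset.sum_congr rfl fun i _ => ?_
      rw [integral_finsetSum _ fun j _ => (hi i j).const_mul _]
      refine Finset.sum_congr rfl fun j _ => ?_
      rw [integral_const_mul]
      simp only [RCLike.star_def]
      ring
    rw [h]
    have : 0 ≤ ∫ x, v x * ‖∑ i, conj (c i) * ψ i x‖ ^ 2 :=
      integral_nonneg fun x => mul_nonneg (hv x) (by positivity)
    exact_mod_cast this

/-- a small Hermitian perturbation of `δ` is positive semidefinite -/
lemma psd_sub {N : ℕ} (B : Mat N) (hB : B.IsHermitian) (δ : ℝ)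
    (h : ∑ i, ∑ j, ‖B i j‖ ≤ δ) : ((δ : ℂ) • (1 : Mat N) - B).PosSemidef := by
  have hH : ((δ : ℂ) • (1 : Mat N) - B).IsHermitian := by
    refine IsHermitian.sub ?_ hB
    ext i j
    simp [Matrix.conjTranspose_apply, Matrix.one_apply, eq_comm]
    split_ifs <;> simp
  refine PosSemidef.of_dotProduct_mulVec_nonneg hH fun x => ?_
  have him := hH.im_star_dotProduct_mulVec_self x
  rw [Complex.nonneg_iff]
  refine ⟨?_, him.symm⟩
  have hx : ∀ i j : Fin N, ‖x i‖ * ‖x j‖ ≤ ∑ k, ‖x k‖ ^ 2 := by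
    intro i j
    have hi : ‖x i‖ ^ 2 ≤ ∑ k, ‖x k‖ ^ 2 :=
      Finset.single_le_sum (f := fun k => ‖x k‖ ^ 2) (fun k _ => by positivity) (mem_univ i)
    have hj : ‖x j‖ ^ 2 ≤ ∑ k, ‖x k‖ ^ 2 :=
      Finset.single_le_sum (f := fun k => ‖x k‖ ^ 2) (fun k _ => by positivity) (mem_univ j)
    nlinarith [sq_nonneg (‖x i‖ - ‖x j‖)]
  have h1 : star x ⬝ᵥ (((δ : ℂ) • (1 : Mat N) - B) *ᵥ x) =
      ((δ * ∑ k, ‖x k‖ ^ 2 : ℝ) : ℂ) - ∑ i, ∑ j, conj (x i) * (B i j * x j) := by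
    rw [Matrix.sub_mulVec, dotProduct_sub, Matrix.smul_mulVec, Matrix.one_mulVec,
      dotProduct_smul]
    congr 1
    · simp only [dotProduct, Pi.star_apply, smul_eq_mul]
      push_cast
      congr 1
      refine sum_congr rfl fun i _ => ?_
      rw [mul_comm]
      exact RCLike.mul_conj (x i)
    · simp only [dotProduct, mulVec, Pi.star_apply, mul_sum]
      rfl
  rw [h1, Complex.sub_re, Complex.ofReal_re]
  have h2 : (∑ i, ∑ j, conj (x i) * (B i j * x j)).re ≤ δ * ∑ k, ‖x k‖ ^ 2 := by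
    calc (∑ i, ∑ j, conj (x i) * (B i j * x j)).re
        ≤ ‖∑ i, ∑ j, conj (x i) * (B i j * x j)‖ := Complex.re_le_norm _
      _ ≤ ∑ i, ∑ j, ‖B i j‖ * ∑ k, ‖x k‖ ^ 2 := by
          refine (norm_sum_le _ _).trans (sum_le_sum fun i _ => (norm_sum_le _ _).trans
            (sum_le_sum fun j _ => ?_))
          rw [norm_mul, norm_mul, RCLike.norm_conj]
          calc ‖x i‖ * (‖B i j‖ * ‖x j‖) = ‖B i j‖ * (‖x i‖ * ‖x j‖) := by ring
            _ ≤ ‖B i j‖ * ∑ k, ‖x k‖ ^ 2 := mul_le_mul_of_nonneg_left (hx i j) (norm_nonneg _)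
      _ = (∑ i, ∑ j, ‖B i j‖) * ∑ k, ‖x k‖ ^ 2 := by
          simp only [sum_mul]
      _ ≤ δ * ∑ k, ‖x k‖ ^ 2 := mul_le_mul_of_nonneg_right h
          (sum_nonneg fun k _ => by positivity)
  linarith

/-- the estimate with errors -/
lemma key {γ L : ℝ} (hγ : 1 / 2 < γ) (hL : 0 ≤ L) (hES : ESfin γ L) {V : ℝ → ℝ}
    (hV : MemLp V (ENNReal.ofReal (γ + 1 / 2)) volume) {N : ℕ} {ψ ψ' : Fin N → ℝ → ℂ}
    {E : Fin N → ℝ} (hψ : ∀ j, IsH1v (ψ j) (ψ' j)) {C : ℝ} (hC : ∀ j x, ‖ψ j x‖ ≤ C)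
    (hE : ∀ j, ∀ φ φ' : ℝ → ℂ, IsH1v φ φ' →
      (∫ x, conj (φ' x) * ψ' j x) + (∫ x, (V x : ℂ) * (conj (φ x) * ψ j x)) =
      E j * ∫ x, conj (φ x) * ψ j x)
    (horth : ∀ i j, ∫ x, conj (ψ i x) * ψ j x = if i = j then 1 else 0)
    {ε η θ : ℝ} (hε : 0 < ε) (hη : 0 < η) (hθ : 0 < θ) (hθ1 : θ < 1)
    (hneg : ∀ j, (N : ℝ) ^ 2 * (ε + ε ^ (1 / 2 - γ) * C ^ 2 * η) < -E j) :
    ∑ j, (-E j - (N : ℝ) ^ 2 * (ε + ε ^ (1 / 2 - γ) * C ^ 2 * η)) ^ γ ≤
      L * (θ ^ (1 / 2 - γ) * (∫ x, max (-V x) 0 ^ (γ + 1 / 2)) + (1 - θ) ^ (1 / 2 - γ) * η) := by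
  set p : ℝ := γ + 1 / 2 with hp
  have hp1 : 1 < p := by rw [hp]; linarith
  have hp0 : 0 < p := by linarith
  have hpe : 1 / 2 - γ = 1 - p := by rw [hp]; ring
  rw [hpe] at hneg ⊢
  set W : ℝ → ℝ := fun x => max (-V x) 0 with hW
  have hW0 : ∀ x, 0 ≤ W x := fun x => le_max_right _ _
  have hWm : MemLp W (ENNReal.ofReal p) volume := by
    have := hV.neg.pos_part
    exact this
  obtain ⟨g, hgs, hgη, hgc, hgm⟩ := hWm.exists_hasCompactSupport_integral_rpow_sub_le hp0 hη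
  set u : ℝ → ℝ := fun x => max (g x) 0 with hu
  have hum : MemLp u (ENNReal.ofReal p) volume := hgm.pos_part
  have huc : Continuous u := hgc.max continuous_const
  have hu0 : ∀ x, 0 ≤ u x := fun x => le_max_right _ _
  obtain ⟨X, hX, hXu⟩ : ∃ X : ℝ, 0 < X ∧ ∀ x, X ≤ |x| → u x = 0 := by
    obtain ⟨R, hR⟩ := hgs.isCompact.isBounded.subset_closedBall 0
    refine ⟨|R| + 1, by positivity, fun x hx => ?_⟩
    have hgx : g x = 0 := by
      by_contra hne
      have h1 : x ∈ tsupport g := subset_tsupport _ hne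
      have h2 := hR h1
      rw [Metric.mem_closedBall, dist_zero_right, Real.norm_eq_abs] at h2
      have := le_abs_self R
      linarith
    rw [hu]
    simp [hgx]
  -- `|W - u| ≤ |W - g|`
  have hWu : ∀ x, |W x - u x| ≤ ‖W x - g x‖ := by
    intro x
    rw [Real.norm_eq_abs, hu]
    simp only
    rcases le_total (g x) 0 with h | h
    · rw [max_eq_right h, sub_zero, abs_of_nonneg (hW0 x), abs_of_nonneg (by linarith [hW0 x])]
      linarith
    · rw [max_eq_left h]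
  have hdm : MemLp (fun x => W x - u x) (ENNReal.ofReal p) volume := hWm.sub hum
  have hgi : Integrable (fun x => ‖W x - g x‖ ^ p) volume := by
    have := int_rpow hp1 (hWm.sub hgm)
    exact this
  have hdη : ∫ x, |W x - u x| ^ p ≤ η := by
    refine le_trans (integral_mono (int_rpow hp1 hdm) hgi fun x => ?_) hgη
    exact Real.rpow_le_rpow (abs_nonneg _) (hWu x) hp0.le
  -- the matrices
  have horth' : ∀ i j, ∫ x, ψ i x * conj (ψ j x) = if i = j then 1 else 0 := by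
    intro i j
    have h := horth j i
    simp_rw [mul_comm (ψ i _)]
    rw [h]
    simp [eq_comm]
  have hsq : ∀ j, ∫ x, ‖ψ j x‖ ^ 2 = 1 := by
    intro j
    have h := horth' j j
    rw [if_pos rfl] at h
    have e1 : (fun x => ψ j x * conj (ψ j x)) = fun x => ((‖ψ j x‖ ^ 2 : ℝ) : ℂ) := by
      funext x
      rw [Complex.mul_conj']
      push_cast
      rfl
    rw [e1] at h
    have h2 : ((∫ x, ‖ψ j x‖ ^ 2 : ℝ) : ℂ) = 1 := by
      rw [← integral_complex_ofReal]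
      exact h
    exact_mod_cast h2
  have hint : ∀ j, Integrable (fun x => ‖ψ j x‖ ^ 2) volume := fun j =>
    (hψ j).1.integrable_norm_pow (p := 2) (by norm_num)
  have hprod : ∀ i j, ∫ x, ‖ψ i x‖ * ‖ψ j x‖ ≤ 1 := by
    intro i j
    have h1 : ∫ x, ‖ψ i x‖ * ‖ψ j x‖ ≤ ∫ x, (1 / 2 * ‖ψ i x‖ ^ 2 + 1 / 2 * ‖ψ j x‖ ^ 2) := by
      refine integral_mono ((hψ i).1.norm.integrable_mul (hψ j).1.norm)
        (((hint i).const_mul _).add ((hint j).const_mul _)) fun x => ?_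
      show ‖ψ i x‖ * ‖ψ j x‖ ≤ 1 / 2 * ‖ψ i x‖ ^ 2 + 1 / 2 * ‖ψ j x‖ ^ 2
      nlinarith [sq_nonneg (‖ψ i x‖ - ‖ψ j x‖)]
    rw [integral_add ((hint i).const_mul _) ((hint j).const_mul _), integral_const_mul,
      integral_const_mul, hsq, hsq] at h1
    linarith
  have hVi : ∀ i j, Integrable (fun x => (V x : ℂ) * (ψ i x * conj (ψ j x))) volume := fun i j =>
    (intg hp1 hV (hψ i).1 (hψ j).1 (hC i) (hC j) hε).1
  have hWi : ∀ i j, Integrable (fun x => (W x : ℂ) * (ψ i x * conj (ψ j x))) volume := fun i j =>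
    (intg hp1 hWm (hψ i).1 (hψ j).1 (hC i) (hC j) hε).1
  have hui : ∀ i j, Integrable (fun x => (u x : ℂ) * (ψ i x * conj (ψ j x))) volume := fun i j =>
    (intg hp1 hum (hψ i).1 (hψ j).1 (hC i) (hC j) hε).1
  have hdi : ∀ i j, Integrable (fun x => ((W x - u x : ℝ) : ℂ) * (ψ i x * conj (ψ j x))) volume :=
    fun i j => (intg hp1 hdm (hψ i).1 (hψ j).1 (hC i) (hC j) hε).1
  set B : Mat N := Matrix.of fun i j => ∫ x, ((W x - u x : ℝ) : ℂ) * (ψ i x * conj (ψ j x)) with hB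
  set P : Mat N := Matrix.of fun i j => ∫ x, ((W x + V x : ℝ) : ℂ) * (ψ i x * conj (ψ j x)) with hP
  set δ : ℝ := (N : ℝ) ^ 2 * (ε + ε ^ (1 - p) * C ^ 2 * η) with hδ
  have hPp : P.PosSemidef := by
    rw [hP]
    refine psd (v := fun x => W x + V x) (fun x => ?_) fun i j => ?_
    · have := le_max_left (-V x) 0
      show 0 ≤ max (-V x) 0 + V x
      linarith
    · have := (hWi i j).add (hVi i j)
      refine this.congr (ae_of_all _ fun x => ?_)
      simp only [Pi.add_apply]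
      push_cast
      ring
  have hBh : B.IsHermitian := by
    ext i j
    simp only [conjTranspose_apply, hB, of_apply]
    show conj (∫ x, ((W x - u x : ℝ) : ℂ) * (ψ j x * conj (ψ i x))) = _
    rw [← integral_conj]
    congr 1
    funext x
    simp only [map_mul, Complex.conj_ofReal, Complex.conj_conj]
    ring
  have hBs : ∑ i, ∑ j, ‖B i j‖ ≤ δ := by
    have h1 : ∀ i j, ‖B i j‖ ≤ ε + ε ^ (1 - p) * C ^ 2 * η := by
      intro i j
      have h := (intg hp1 hdm (hψ i).1 (hψ j).1 (hC i) (hC j) hε).2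
      have h2 : ε * (∫ x, ‖ψ i x‖ * ‖ψ j x‖) ≤ ε * 1 := mul_le_mul_of_nonneg_left (hprod i j) hε.le
      have h3 : ε ^ (1 - p) * C ^ 2 * (∫ x, |W x - u x| ^ p) ≤ ε ^ (1 - p) * C ^ 2 * η :=
        mul_le_mul_of_nonneg_left hdη (by positivity)
      refine (h.trans (add_le_add h2 h3)).trans_eq (by ring)
    calc ∑ i, ∑ j, ‖B i j‖ ≤ ∑ _i : Fin N, ∑ _j : Fin N, (ε + ε ^ (1 - p) * C ^ 2 * η) :=
          Finset.sum_le_sum fun i _ => Finset.sum_le_sum fun j _ => h1 i j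
      _ = δ := by
          simp only [Finset.sum_const, Finset.card_univ, Fintype.card_fin, nsmul_eq_mul]
          rw [hδ]; ring
  have hmat : ((Matrix.of fun i j => (∫ x, (u x : ℂ) * (ψ i x * conj (ψ j x))) -
      ∫ x, ψ' i x * conj (ψ' j x)) - Matrix.diagonal (fun j => (((-E j - δ : ℝ)) : ℂ)) : Mat N) =
      ((δ : ℂ) • (1 : Mat N) - B) + P := by
    ext i j
    have hw := hE i (ψ j) (ψ' j) (hψ j)
    rw [horth j i] at hw
    have e1 : ∫ x, conj (ψ' j x) * ψ' i x = ∫ x, ψ' i x * conj (ψ' j x) := by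
      simp_rw [mul_comm (ψ' i _)]
    have e2 : ∫ x, (V x : ℂ) * (conj (ψ j x) * ψ i x) = ∫ x, (V x : ℂ) * (ψ i x * conj (ψ j x)) := by
      simp_rw [mul_comm (ψ i _)]
    rw [e1, e2] at hw
    have e3 : B i j = (∫ x, (W x : ℂ) * (ψ i x * conj (ψ j x))) -
        ∫ x, (u x : ℂ) * (ψ i x * conj (ψ j x)) := by
      rw [hB, of_apply, ← integral_sub (hWi i j) (hui i j)]
      congr 1
      funext x
      push_cast
      ring
    have e4 : P i j = (∫ x, (W x : ℂ) * (ψ i x * conj (ψ j x))) +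
        ∫ x, (V x : ℂ) * (ψ i x * conj (ψ j x)) := by
      rw [hP, of_apply, ← integral_add (hWi i j) (hVi i j)]
      congr 1
      funext x
      push_cast
      ring
    simp only [Matrix.sub_apply, Matrix.add_apply, of_apply, Matrix.smul_apply, smul_eq_mul]
    rw [e3, e4]
    by_cases hij : i = j
    · subst hij
      simp only [Matrix.diagonal_apply_eq, Matrix.one_apply_eq, if_true] at hw ⊢
      push_cast
      linear_combination -hw
    · rw [if_neg (Ne.symm hij)] at hw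
      rw [Matrix.diagonal_apply_ne _ hij, Matrix.one_apply_ne hij]
      linear_combination -hw
  have hfin := hES X u N ψ ψ' (fun j => -E j - δ) hX huc hu0 hXu hψ horth'
    (fun j => by have := hneg j; linarith) (by
      rw [hmat]
      exact (psd_sub B hBh δ hBs).add hPp)
  refine hfin.trans (mul_le_mul_of_nonneg_left ?_ hL)
  have hWp : Integrable (fun x => W x ^ p) volume := by
    have := int_rpow hp1 hWm
    refine this.congr (ae_of_all _ fun x => ?_)
    simp only [abs_of_nonneg (hW0 x)]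
  have hup : Integrable (fun x => u x ^ p) volume := by
    have := int_rpow hp1 hum
    refine this.congr (ae_of_all _ fun x => ?_)
    simp only [abs_of_nonneg (hu0 x)]
  calc ∫ x, u x ^ p ≤ ∫ x, (θ ^ (1 - p) * W x ^ p + (1 - θ) ^ (1 - p) * |W x - u x| ^ p) := by
        refine integral_mono hup ((hWp.const_mul _).add ((int_rpow hp1 hdm).const_mul _))
          fun x => ?_
        refine le_trans ?_ (conv hp1 hθ hθ1 (hW0 x) (abs_nonneg (W x - u x)))
        refine Real.rpow_le_rpow (hu0 x) ?_ hp0.le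
        have := neg_abs_le (W x - u x)
        linarith
    _ = θ ^ (1 - p) * (∫ x, W x ^ p) + (1 - θ) ^ (1 - p) * ∫ x, |W x - u x| ^ p := by
        rw [integral_add (hWp.const_mul _) ((int_rpow hp1 hdm).const_mul _), integral_const_mul,
          integral_const_mul]
    _ ≤ _ := by
        have : 0 ≤ (1 - θ) ^ (1 - p) := Real.rpow_nonneg (by linarith) _
        have := mul_le_mul_of_nonneg_left hdη this
        linarith

end Pool.Agent.LTS.Appr

namespace Pool.Agent.LTS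

open MeasureTheory Matrix Finset Filter Topology
open scoped ComplexConjugate ComplexOrder
open Pool.Agent.LT (IsH1v ACv LTBound IsEigenfunction)

/-- (APPR) -/
theorem appr : ApprStmt := by
  intro γ L hγ hL hES V hV N ψ E hE hneg horth
  choose ψ' hψ hweak using hE
  choose C hC0 hC using fun j => Appr.bdd (hψ j)
  have hCC : ∀ j x, ‖ψ j x‖ ≤ ∑ k, C k := fun j x => (hC j x).trans
    (Finset.single_le_sum (f := C) (fun k _ => hC0 k) (Finset.mem_univ j))
  set I : ℝ := ∫ x, max (-V x) 0 ^ (γ + 1 / 2) with hI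
  -- first limit
  have hpow : Continuous fun x : ℝ => x ^ γ := Real.continuous_rpow_const (by linarith)
  have h1 : ∀ ε θ : ℝ, 0 < ε → 0 < θ → θ < 1 → (∀ j, (N : ℝ) ^ 2 * ε < -E j) →
      ∑ j, (-E j - (N : ℝ) ^ 2 * ε) ^ γ ≤ L * (θ ^ (1 / 2 - γ) * I) := by
    intro ε θ hε hθ hθ1 hlt
    have hd : Tendsto (fun η : ℝ => (N : ℝ) ^ 2 * (ε + ε ^ (1 / 2 - γ) * (∑ k, C k) ^ 2 * η))
        (𝓝[>] 0) (𝓝 ((N : ℝ) ^ 2 * ε)) := by
      have hc : Continuous fun η : ℝ =>
          (N : ℝ) ^ 2 * (ε + ε ^ (1 / 2 - γ) * (∑ k, C k) ^ 2 * η) := by fun_prop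
      have := hc.tendsto 0
      simp only [mul_zero, add_zero] at this
      exact this.mono_left nhdsWithin_le_nhds
    have hl : Tendsto (fun η : ℝ =>
        ∑ j, (-E j - (N : ℝ) ^ 2 * (ε + ε ^ (1 / 2 - γ) * (∑ k, C k) ^ 2 * η)) ^ γ)
        (𝓝[>] 0) (𝓝 (∑ j, (-E j - (N : ℝ) ^ 2 * ε) ^ γ)) := by
      refine tendsto_finsetSum _ fun j _ => ?_
      exact (hpow.tendsto _).comp (tendsto_const_nhds.sub hd)
    have hr : Tendsto (fun η : ℝ => L * (θ ^ (1 / 2 - γ) * I + (1 - θ) ^ (1 / 2 - γ) * η))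
        (𝓝[>] 0) (𝓝 (L * (θ ^ (1 / 2 - γ) * I))) := by
      have hc : Continuous fun η : ℝ =>
          L * (θ ^ (1 / 2 - γ) * I + (1 - θ) ^ (1 / 2 - γ) * η) := by fun_prop
      have := hc.tendsto 0
      simp only [mul_zero, add_zero] at this
      exact this.mono_left nhdsWithin_le_nhds
    refine le_of_tendsto_of_tendsto hl hr ?_
    have he : ∀ᶠ η : ℝ in 𝓝[>] 0, ∀ j,
        (N : ℝ) ^ 2 * (ε + ε ^ (1 / 2 - γ) * (∑ k, C k) ^ 2 * η) < -E j := by
      rw [Filter.eventually_all]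
      exact fun j => hd.eventually_lt_const (hlt j)
    filter_upwards [he, self_mem_nhdsWithin] with η h2 h3
    exact Appr.key hγ hL hES hV hψ hCC hweak horth hε h3 hθ hθ1 h2
  -- second limit
  have h2 : ∀ θ : ℝ, 0 < θ → θ < 1 → ∑ j, (-E j) ^ γ ≤ L * (θ ^ (1 / 2 - γ) * I) := by
    intro θ hθ hθ1
    have hd : Tendsto (fun ε : ℝ => (N : ℝ) ^ 2 * ε) (𝓝[>] 0) (𝓝 0) := by
      have hc : Continuous fun ε : ℝ => (N : ℝ) ^ 2 * ε := by fun_prop
      have := hc.tendsto 0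
      simp only [mul_zero] at this
      exact this.mono_left nhdsWithin_le_nhds
    have hl : Tendsto (fun ε : ℝ => ∑ j, (-E j - (N : ℝ) ^ 2 * ε) ^ γ)
        (𝓝[>] 0) (𝓝 (∑ j, (-E j) ^ γ)) := by
      refine tendsto_finsetSum _ fun j _ => ?_
      have := (hpow.tendsto _).comp (tendsto_const_nhds (x := -E j) |>.sub hd)
      rw [sub_zero] at this
      exact this
    refine le_of_tendsto hl ?_
    have he : ∀ᶠ ε : ℝ in 𝓝[>] 0, ∀ j, (N : ℝ) ^ 2 * ε < -E j := by
      rw [Filter.eventually_all]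
      exact fun j => hd.eventually_lt_const (by have := hneg j; linarith)
    filter_upwards [he, self_mem_nhdsWithin] with ε h3 h4
    exact h1 ε θ h4 hθ hθ1 h3
  -- third limit
  have h3 : ∑ j, (-E j) ^ γ ≤ L * I := by
    have hr : Tendsto (fun θ : ℝ => L * (θ ^ (1 / 2 - γ) * I)) (𝓝[<] 1) (𝓝 (L * I)) := by
      have hc : ContinuousAt (fun θ : ℝ => L * (θ ^ (1 / 2 - γ) * I)) 1 := by
        refine ContinuousAt.mul continuousAt_const (ContinuousAt.mul ?_ continuousAt_const)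
        exact Real.continuousAt_rpow_const _ _ (Or.inl one_ne_zero)
      have := hc.tendsto
      simp only [Real.one_rpow, one_mul] at this
      exact this.mono_left nhdsWithin_le_nhds
    refine ge_of_tendsto hr ?_
    have he : ∀ᶠ θ : ℝ in 𝓝[<] 1, 0 < θ :=
      nhdsWithin_le_nhds (lt_mem_nhds one_pos)
    filter_upwards [he, self_mem_nhdsWithin] with θ h3 h4
    exact h2 θ h3 h4
  refine le_trans (le_of_eq ?_) h3
  exact Finset.sum_congr rfl fun j _ => by rw [abs_of_neg (hneg j)]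

end Pool.Agent.LTS
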