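import Pool.Agent.LTS.Defs
import Pool.Agent.LT.Defs3

/-!
# Operator valued version and lifting to all dimensions: statements
(MP_4c716f_mp; architect: helper5)
-/

set_option autoImplicit false

namespace Pool.Agent.LTS

open MeasureTheory Matrix Finset
open scoped ComplexConjugate ComplexOrder
open Pool.Agent.LT

/-- The inequality for functions `v j : ℝ → H` in `H¹` with `∫ ⟨v j, v i⟩ ≤ 1`, for a continuous
Hermitian matrix function `a` on `[-X, X]` (potential minus transversal kinetic energy) such that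
`∑ ((B a(x) B*)_ii)_+^(γ+1/2) ≤ h(x)` for all `B` with `B P(x) B* ≤ 1`, `P = gram v`, and for lower
bounds `b` of the form matrix. -/
def ESop (γ L : ℝ) : Prop :=
  ∀ (H : Type) [NormedAddCommGroup H] [InnerProductSpace ℂ H] [CompleteSpace H],
  ∀ (X : ℝ) (N : ℕ) (v w : Fin N → ℝ → H) (a : ℝ → Mat N) (h : ℝ → ℝ) (b : Fin N → ℝ), 0 < X →
    (∀ j, IsH1v (v j) (w j)) → ContinuousOn a (Set.Icc (-X) X) →
    (∀ x ∈ Set.Icc (-X) X, (a x).IsHermitian) → ContinuousOn h (Set.Icc (-X) X) →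
    (∀ x ∈ Set.Icc (-X) X, ∀ B : Mat N, (1 - B * gram (fun j => v j x) * Bᴴ).PosSemidef →
      ∑ i, max ((B * a x * Bᴴ) i i).re 0 ^ (γ + 1 / 2) ≤ h x) →
    (∀ j, 0 < b j) →
    (1 - Matrix.of fun i j => ∫ x, inner ℂ (v j x) (v i x) : Mat N).PosSemidef →
    ((Matrix.of fun i j => (∫ x in (-X)..X, a x i j) - ∫ x, inner ℂ (w j x) (w i x)) -
      Matrix.diagonal (fun j => (b j : ℂ)) : Mat N).PosSemidef →
    ∑ j, b j ^ γ ≤ L * ∫ x in (-X)..X, h x

/-- (UNFG) the general unfolding theorem. -/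
def UnfGStmt : Prop :=
  VertexStmt → TraceStmt → TestStmt → ConstSStmt → FunStmt →
    ∀ γ : ℝ, 1 / 2 < γ → γ < 3 / 2 → ESop γ (Lone γ)

/-- (OPFIN) scalar case. -/
def OpFinStmt : Prop := ∀ γ L : ℝ, 1 / 2 < γ → ESop γ L → ESfin γ L

/-- the matrix version of the inequality for test functions on `ℝ^d` with Gram matrix `≤ 1` -/
def ESm (d : ℕ) (γ L : ℝ) : Prop :=
  ∀ (N : ℕ) (g : Fin N → (Fin d → ℝ) → ℂ) (V : (Fin d → ℝ) → ℝ) (b : Fin N → ℝ),
    (∀ j, TestFn d (g j)) → PotFn d V → (∀ j, 0 < b j) → (1 - gramF g).PosSemidef →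
    ((Matrix.of fun i j => (∫ y, (V y : ℂ) * (g i y * conj (g j y))) -
      ∑ k : Fin d, ∫ y, fderiv ℝ (g i) y (Pi.single k 1) * conj (fderiv ℝ (g j) y (Pi.single k 1)))
        - Matrix.diagonal (fun j => (b j : ℂ)) : Mat N).PosSemidef →
    ∑ j, b j ^ γ ≤ L * ∫ y, V y ^ (γ + d / 2)

/-- (LIFTOP) lifting: exponent `γ + 1/2` in dimension `d` (diagonal version, Gram matrix `≤ 1`) gives
exponent `γ` in dimension `d + 1`. -/
def LiftOpStmt : Prop :=
  ∀ (d : ℕ) (γ L L' : ℝ), 1 / 2 < γ → 0 ≤ L → 0 ≤ L' → ESop γ L → ES' d (γ + 1 / 2) L' →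
    ESm (d + 1) γ (L * L')

/-- (ESDIAG) for `γ ≥ 1` the matrix version implies the diagonal version. -/
def ESDiagStmt : Prop := ∀ (d : ℕ) (γ L : ℝ), 1 ≤ γ → 0 ≤ L → ESm d γ L → ES' d γ L

/-- (ESGRAM) from orthonormal families to Gram matrices `≤ 1`, `s ≥ 1`. -/
def ESGramStmt : Prop := ∀ (d : ℕ) (s L : ℝ), 1 ≤ s → 0 ≤ L → ES d s L → ES' d s L

/-- (SPECM) from test functions to eigenfunctions, all exponents. -/
def SpecMStmt : Prop :=
  ∀ (d : ℕ) (γ L : ℝ), 0 < d → 0 < γ → 1 < γ + d / 2 → 0 ≤ L → ESm d γ L → LTBoundD d γ L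

end Pool.Agent.LTS
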