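import Pool.Agent.LTS.Defs

/-!
# Stable matrices: Sylvester and Lyapunov equations (module STAB, helper18)
-/

set_option autoImplicit false

namespace Pool.Agent.LTS

open Matrix Finset
open scoped ComplexConjugate ComplexOrder MatrixOrder

/-- factorisation of a positive definite matrix -/
theorem exists_factor {N : ℕ} {P : Mat N} (hP : P.PosDef) :
    ∃ B : Mat N, IsUnit B ∧ P = Bᴴ * B := by
  obtain ⟨B, hB⟩ := CStarAlgebra.nonneg_iff_eq_star_mul_self.mp hP.posSemidef.nonneg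
  refine ⟨B, ?_, hB⟩
  have h1 := hP.isUnit
  rw [hB, Matrix.isUnit_iff_isUnit_det, Matrix.det_mul] at h1
  rw [Matrix.isUnit_iff_isUnit_det]
  exact isUnit_of_mul_isUnit_right h1

theorem trace_mul_nonneg {N : ℕ} {P G : Mat N} (hP : P.PosSemidef) (hG : G.PosSemidef) :
    0 ≤ (P * G).trace := by
  obtain ⟨B, rfl⟩ := CStarAlgebra.nonneg_iff_eq_star_mul_self.mp hG.nonneg
  rw [← Matrix.mul_assoc, Matrix.trace_mul_comm, ← Matrix.mul_assoc]
  exact (hP.mul_mul_conjTranspose_same B).trace_nonneg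

theorem eq_zero_of_trace_mul {N : ℕ} {P G : Mat N} (hP : P.PosSemidef) (hG : G.PosDef)
    (h : (P * G).trace = 0) : P = 0 := by
  obtain ⟨B, hB, rfl⟩ := exists_factor hG
  rw [← Matrix.mul_assoc, Matrix.trace_mul_comm, ← Matrix.mul_assoc] at h
  have h1 := (hP.mul_mul_conjTranspose_same B).trace_eq_zero_iff.mp h
  have h2 : B⁻¹ * (B * P * Bᴴ) * (Bᴴ)⁻¹ = P := by
    have h3 : IsUnit B.det := (Matrix.isUnit_iff_isUnit_det B).mp hB
    have h4 : IsUnit (Bᴴ).det := by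
      rw [Matrix.det_conjTranspose]; exact h3.star
    rw [Matrix.mul_assoc B⁻¹, Matrix.mul_assoc (B * P), Matrix.mul_nonsing_inv _ h4,
      Matrix.mul_one, Matrix.nonsing_inv_mul_cancel_left _ _ h3]
  rw [← h2, h1]; simp

theorem eq_zero_of_mul_mul {N : ℕ} {Y P : Mat N} (hP : P.PosDef) (h : Y * P * Yᴴ = 0) : Y = 0 := by
  obtain ⟨B, hB, rfl⟩ := exists_factor hP
  have h3 : IsUnit B.det := (Matrix.isUnit_iff_isUnit_det B).mp hB
  have h4 : IsUnit (Bᴴ).det := by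
    rw [Matrix.det_conjTranspose]; exact h3.star
  have h1 : (Y * Bᴴ) * (Y * Bᴴ)ᴴ = 0 := by
    rw [Matrix.conjTranspose_mul, Matrix.conjTranspose_conjTranspose]
    rw [← h]; simp only [Matrix.mul_assoc]
  have h2 : Y * Bᴴ = 0 := Matrix.self_mul_conjTranspose_eq_zero.mp h1
  calc Y = Y * Bᴴ * (Bᴴ)⁻¹ := by rw [Matrix.mul_nonsing_inv_cancel_right _ _ h4]
    _ = 0 := by rw [h2]; simp

/-- (1) uniqueness for the Sylvester equation -/
theorem sylv1 {N : ℕ} {W₁ W₂ Y : Mat N} (h₁ : Stab W₁) (h₂ : Stab W₂)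
    (h : Y * W₁ + W₂ᴴ * Y = 0) : Y = 0 := by
  obtain ⟨G₁, hG₁, hN₁⟩ := h₁
  obtain ⟨G₂, hG₂, hN₂⟩ := h₂
  have e1 : Y * W₁ = -(W₂ᴴ * Y) := eq_neg_of_add_eq_zero_left h
  have e2 : W₁ᴴ * Yᴴ = -(Yᴴ * W₂) := by
    have := congrArg Matrix.conjTranspose e1
    simpa [Matrix.conjTranspose_mul] using this
  have key : (Y * (W₁ * G₁ + G₁ * W₁ᴴ) * Yᴴ * G₂).trace
      + (Y * G₁ * Yᴴ * (W₂ * G₂ + G₂ * W₂ᴴ)).trace = 0 := by
    have a1 : Y * (W₁ * G₁ + G₁ * W₁ᴴ) * Yᴴ * G₂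
        = (Y * W₁) * G₁ * Yᴴ * G₂ + Y * G₁ * (W₁ᴴ * Yᴴ) * G₂ := by
      simp only [Matrix.mul_add, Matrix.add_mul, Matrix.mul_assoc]
    have a2 : Y * G₁ * Yᴴ * (W₂ * G₂ + G₂ * W₂ᴴ)
        = Y * G₁ * Yᴴ * W₂ * G₂ + Y * G₁ * Yᴴ * G₂ * W₂ᴴ := by
      simp only [Matrix.mul_add, Matrix.mul_assoc]
    rw [a1, a2, e1, e2, Matrix.trace_add, Matrix.trace_add]
    have a3 : (-(W₂ᴴ * Y) * G₁ * Yᴴ * G₂).trace = -(Y * G₁ * Yᴴ * G₂ * W₂ᴴ).trace := by
      rw [Matrix.trace_mul_comm (Y * G₁ * Yᴴ * G₂) W₂ᴴ]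
      simp only [Matrix.neg_mul, Matrix.trace_neg, Matrix.mul_assoc]
    have a4 : (Y * G₁ * -(Yᴴ * W₂) * G₂).trace = -(Y * G₁ * Yᴴ * W₂ * G₂).trace := by
      simp only [Matrix.neg_mul, Matrix.mul_neg, Matrix.trace_neg, Matrix.mul_assoc]
    rw [a3, a4]; ring
  have p1 : 0 ≤ (Y * (W₁ * G₁ + G₁ * W₁ᴴ) * Yᴴ * G₂).trace :=
    trace_mul_nonneg (hN₁.posSemidef.mul_mul_conjTranspose_same Y) hG₂.posSemidef
  have p2 : 0 ≤ (Y * G₁ * Yᴴ * (W₂ * G₂ + G₂ * W₂ᴴ)).trace :=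
    trace_mul_nonneg (hG₁.posSemidef.mul_mul_conjTranspose_same Y) hN₂.posSemidef
  have p3 : (Y * (W₁ * G₁ + G₁ * W₁ᴴ) * Yᴴ * G₂).trace = 0 :=
    ((add_eq_zero_iff_of_nonneg p1 p2).mp key).1
  exact eq_zero_of_mul_mul hN₁
    (eq_zero_of_trace_mul (hN₁.posSemidef.mul_mul_conjTranspose_same Y) hG₂ p3)

theorem Stab.conjTranspose {N : ℕ} {W : Mat N} (h : Stab W) : Stab Wᴴ := by
  obtain ⟨G, hG, hN⟩ := h
  refine ⟨G⁻¹, hG.inv, ?_⟩
  have hd : IsUnit G.det := (Matrix.isUnit_iff_isUnit_det G).mp hG.isUnit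
  have h1 := hN.mul_mul_conjTranspose_same (B := G⁻¹)
    (Matrix.vecMul_injective_of_isUnit ((Matrix.isUnit_iff_isUnit_det _).mpr
      (Matrix.isUnit_nonsing_inv_det _ hd)))
  have h2 : (G⁻¹)ᴴ = G⁻¹ := hG.inv.1
  rw [h2] at h1
  have h3 : G⁻¹ * (W * G + G * Wᴴ) * G⁻¹ = Wᴴ * G⁻¹ + G⁻¹ * Wᴴᴴ := by
    rw [Matrix.conjTranspose_conjTranspose, Matrix.mul_add, Matrix.add_mul, add_comm]
    congr 1
    · rw [Matrix.nonsing_inv_mul_cancel_left _ _ hd]
    · rw [Matrix.mul_assoc, Matrix.mul_assoc, Matrix.mul_nonsing_inv _ hd, Matrix.mul_one]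
  rwa [h3] at h1

/-- (2) -/
theorem sylv2 {N : ℕ} {W₁ W₂ Z : Mat N} (h₁ : Stab W₁) (h₂ : Stab W₂)
    (h : W₁ * Z + Z * W₂ᴴ = 0) : Z = 0 := by
  refine sylv1 h₂.conjTranspose h₁.conjTranspose ?_
  rw [Matrix.conjTranspose_conjTranspose, add_comm]; exact h

/-- (3) -/
theorem Stab.isUnit_det {N : ℕ} {W : Mat N} (h : Stab W) : IsUnit W.det := by
  rw [isUnit_iff_ne_zero]
  intro h0
  have h1 : (Wᴴ).det = 0 := by rw [Matrix.det_conjTranspose, h0, star_zero]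
  obtain ⟨v, hv, hv0⟩ := Matrix.exists_mulVec_eq_zero_iff.mpr h1
  obtain ⟨G, hG, hN⟩ := h
  have h2 := hN.dotProduct_mulVec_pos hv
  have h3 : star v ⬝ᵥ ((W * G + G * Wᴴ) *ᵥ v) = 0 := by
    rw [Matrix.add_mulVec, ← Matrix.mulVec_mulVec, ← Matrix.mulVec_mulVec, hv0,
      Matrix.mulVec_zero, add_zero, Matrix.dotProduct_mulVec]
    have : star v ᵥ* W = star (Wᴴ *ᵥ v) := by
      rw [Matrix.star_mulVec, Matrix.conjTranspose_conjTranspose]
    rw [this, hv0]; simp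
  rw [h3] at h2
  exact lt_irrefl _ h2

/-- the quadratic form of `W M + M Wᴴ` -/
theorem lyap_form {N : ℕ} (W M : Mat N) (hM : Mᴴ = M) (v : Fin N → ℂ) :
    star v ⬝ᵥ ((W * M + M * Wᴴ) *ᵥ v)
      = star v ⬝ᵥ (W *ᵥ (M *ᵥ v)) + star (W *ᵥ (M *ᵥ v)) ⬝ᵥ v := by
  rw [Matrix.add_mulVec, dotProduct_add, ← Matrix.mulVec_mulVec]
  congr 1
  rw [Matrix.mulVec_mulVec v W M, Matrix.star_mulVec, Matrix.conjTranspose_mul, hM,
    Matrix.dotProduct_mulVec]

/-- (4) the Lyapunov equation -/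
theorem Stab.exists_isG {N : ℕ} {W : Mat N} (h : Stab W) : ∃ G : Mat N, IsG W G := by
  let L : Mat N →ₗ[ℂ] Mat N :=
    { toFun := fun Z => W * Z + Z * Wᴴ
      map_add' := fun X Y => by
        rw [Matrix.mul_add, Matrix.add_mul]; abel
      map_smul' := fun c X => by
        simp [smul_add] }
  have hL : ∀ Z, L Z = W * Z + Z * Wᴴ := fun _ => rfl
  have hinj : Function.Injective L := by
    rw [← LinearMap.ker_eq_bot, LinearMap.ker_eq_bot']
    intro Z hZ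
    exact sylv2 h h (by rw [← hL]; exact hZ)
  have hsurj : Function.Surjective L := LinearMap.injective_iff_surjective.mp hinj
  obtain ⟨Z, hZ⟩ := hsurj ((2 : ℂ) • (1 : Mat N))
  rw [hL] at hZ
  have hZh : Zᴴ = Z := by
    have h1 : W * Zᴴ + Zᴴ * Wᴴ = (2 : ℂ) • (1 : Mat N) := by
      have := congrArg Matrix.conjTranspose hZ
      rw [Matrix.conjTranspose_add, Matrix.conjTranspose_mul, Matrix.conjTranspose_mul,
        Matrix.conjTranspose_conjTranspose, Matrix.conjTranspose_smul,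
        Matrix.conjTranspose_one] at this
      rw [add_comm, this]; simp
    have h2 : W * (Zᴴ - Z) + (Zᴴ - Z) * Wᴴ = 0 := by
      rw [Matrix.mul_sub, Matrix.sub_mul]
      calc W * Zᴴ - W * Z + (Zᴴ * Wᴴ - Z * Wᴴ)
          = (W * Zᴴ + Zᴴ * Wᴴ) - (W * Z + Z * Wᴴ) := by abel
        _ = 0 := by rw [h1, hZ, sub_self]
    exact sub_eq_zero.mp (sylv2 h h h2)
  obtain ⟨G, hG, hN⟩ := h
  obtain ⟨B, hB, hGB⟩ := exists_factor hG
  have hBd : IsUnit B.det := (Matrix.isUnit_iff_isUnit_det B).mp hB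
  have hBd' : IsUnit (Bᴴ).det := by
    rw [Matrix.det_conjTranspose]; exact hBd.star
  -- `Z' = B⁻ᴴ Z B⁻¹`
  set Z' : Mat N := (B⁻¹)ᴴ * Z * B⁻¹ with hZ'
  have hZ'h : Z'.IsHermitian := by
    rw [Matrix.IsHermitian, hZ', Matrix.conjTranspose_mul, Matrix.conjTranspose_mul,
      Matrix.conjTranspose_conjTranspose, hZh, Matrix.mul_assoc]
  have hBZ : Bᴴ * Z' * B = Z := by
    rw [hZ', Matrix.conjTranspose_nonsing_inv, Matrix.mul_assoc, Matrix.mul_assoc, Matrix.mul_assoc,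
      Matrix.nonsing_inv_mul _ hBd, Matrix.mul_one, Matrix.mul_nonsing_inv_cancel_left _ _ hBd']
  have hpos : Z'.PosDef := by
    rw [hZ'h.posDef_iff_eigenvalues_pos]
    intro i
    set lam : ℝ := hZ'h.eigenvalues i with hlam
    set w : Fin N → ℂ := ⇑(hZ'h.eigenvectorBasis i) with hw
    have hw1 : Z' *ᵥ w = (lam : ℂ) • w := by
      rw [hw, hlam]; exact hZ'h.mulVec_eigenvectorBasis i
    have hw0 : w ≠ 0 := by
      intro h0
      apply (hZ'h.eigenvectorBasis.orthonormal.ne_zero i)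
      ext j
      exact congrFun h0 j
    set v : Fin N → ℂ := B⁻¹ *ᵥ w with hv
    have hBv : B *ᵥ v = w := by
      rw [hv, Matrix.mulVec_mulVec, Matrix.mul_nonsing_inv _ hBd, Matrix.one_mulVec]
    have hv0 : v ≠ 0 := by
      intro h0; rw [h0, Matrix.mulVec_zero] at hBv; exact hw0 hBv.symm
    have hZv : Z *ᵥ v = (lam : ℂ) • (G *ᵥ v) := by
      rw [← hBZ, hGB, ← Matrix.mulVec_mulVec, hBv, ← Matrix.mulVec_mulVec, hw1,
        Matrix.mulVec_smul, ← Matrix.mulVec_mulVec, hBv]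
    have e1 : star v ⬝ᵥ ((W * Z + Z * Wᴴ) *ᵥ v)
        = (lam : ℂ) * (star v ⬝ᵥ ((W * G + G * Wᴴ) *ᵥ v)) := by
      have a1 : ∀ M : Mat N, Mᴴ = M → star v ⬝ᵥ ((W * M + M * Wᴴ) *ᵥ v)
          = star v ⬝ᵥ (W *ᵥ (M *ᵥ v)) + star (W *ᵥ (M *ᵥ v)) ⬝ᵥ v :=
        fun M hM => lyap_form W M hM v
      rw [a1 Z hZh, a1 G hG.1, hZv, Matrix.mulVec_smul, dotProduct_smul, star_smul,
        smul_dotProduct]
      simp [mul_add]
    rw [hZ] at e1
    have e2 : 0 < star v ⬝ᵥ (((2 : ℂ) • (1 : Mat N)) *ᵥ v) := by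
      have : ((2 : ℂ) • (1 : Mat N)).PosDef := Matrix.PosDef.one.smul (by norm_num)
      exact this.dotProduct_mulVec_pos hv0
    have e3 := hN.dotProduct_mulVec_pos hv0
    rw [e1] at e2
    have e4 : ((lam : ℂ)) = 0 ∨ 0 < lam ∨ lam < 0 := by
      rcases lt_trichotomy lam 0 with h | h | h
      · exact Or.inr (Or.inr h)
      · left; rw [h]; simp
      · exact Or.inr (Or.inl h)
    rcases e4 with h | h | h
    · rw [h] at e2; simp at e2
    · exact h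
    · exfalso
      have : (lam : ℂ) * (star v ⬝ᵥ ((W * G + G * Wᴴ) *ᵥ v)) < 0 :=
        mul_neg_of_neg_of_pos (by exact_mod_cast h) e3
      exact lt_asymm this e2
  refine ⟨Z, ?_, hZ⟩
  rw [← hBZ]
  exact hpos.conjTranspose_mul_mul_same (Matrix.mulVec_injective_of_isUnit hB)

/-- (5) stability is an open condition -/
theorem isOpen_stab (N : ℕ) : IsOpen {W : Mat N | Stab W} := by
  rw [isOpen_iff_mem_nhds]
  rintro W₀ ⟨G, hG, hN⟩
  let f : Mat N × (Fin N → ℂ) → ℝ := fun p =>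
    (star p.2 ⬝ᵥ ((p.1 * G + G * p.1ᴴ) *ᵥ p.2)).re
  have hf : Continuous f := by
    apply Complex.continuous_re.comp
    apply Continuous.dotProduct
    · exact continuous_snd.star
    · apply Continuous.matrix_mulVec
      · exact (continuous_fst.matrix_mul continuous_const).add
          (continuous_const.matrix_mul continuous_fst.matrix_conjTranspose)
      · exact continuous_snd
  have hK : IsCompact (Metric.sphere (0 : Fin N → ℂ) 1) := isCompact_sphere 0 1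
  have h1 : ∀ᶠ W in nhds W₀, ∀ v ∈ Metric.sphere (0 : Fin N → ℂ) 1, 0 < f (W, v) := by
    refine hK.eventually_forall_of_forall_eventually ?_
    intro v hv
    have hv0 : v ≠ 0 := by
      rintro rfl; simp at hv
    have : 0 < f (W₀, v) := hN.re_dotProduct_pos hv0
    exact hf.continuousAt.eventually (lt_mem_nhds this)
  refine Filter.mem_of_superset h1 ?_
  intro W hW
  refine ⟨G, hG, Matrix.PosDef.of_dotProduct_mulVec_pos ?_ ?_⟩
  · rw [Matrix.IsHermitian, Matrix.conjTranspose_add, Matrix.conjTranspose_mul,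
      Matrix.conjTranspose_mul, Matrix.conjTranspose_conjTranspose, hG.1, add_comm]
  · intro v hv0
    have hherm : (W * G + G * Wᴴ).IsHermitian := by
      rw [Matrix.IsHermitian, Matrix.conjTranspose_add, Matrix.conjTranspose_mul,
        Matrix.conjTranspose_mul, Matrix.conjTranspose_conjTranspose, hG.1, add_comm]
    have hn : 0 < ‖v‖ := norm_pos_iff.mpr hv0
    set c : ℂ := ((‖v‖⁻¹ : ℝ) : ℂ) with hc
    have hcv : c • v ∈ Metric.sphere (0 : Fin N → ℂ) 1 := by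
      simp only [mem_sphere_iff_norm, sub_zero, norm_smul, hc, Complex.norm_real, norm_inv,
        norm_norm]
      exact inv_mul_cancel₀ hn.ne'
    have h2 := hW _ hcv
    have h3 : f (W, c • v) = (‖v‖⁻¹) ^ 2 * (star v ⬝ᵥ ((W * G + G * Wᴴ) *ᵥ v)).re := by
      simp only [f]
      rw [Matrix.mulVec_smul, dotProduct_smul, star_smul, smul_dotProduct, smul_eq_mul,
        smul_eq_mul, ← mul_assoc]
      have : c * star c = (((‖v‖⁻¹) ^ 2 : ℝ) : ℂ) := by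
        rw [hc]; simp [sq]
      rw [this, Complex.re_ofReal_mul]
    rw [h3] at h2
    have h4 : 0 < (star v ⬝ᵥ ((W * G + G * Wᴴ) *ᵥ v)).re := by
      by_contra hneg
      rw [not_lt] at hneg
      have := mul_nonpos_of_nonneg_of_nonpos (sq_nonneg (‖v‖⁻¹)) hneg
      linarith
    have h5 : (star v ⬝ᵥ ((W * G + G * Wᴴ) *ᵥ v)).im = 0 := by
      exact hherm.im_star_dotProduct_mulVec_self v
    rw [Complex.lt_def]
    exact ⟨by simpa using h4, by simpa using h5.symm⟩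

/-- (6) uniqueness of the stable factor -/
theorem isW_unique {N : ℕ} {A F W₁ W₂ : Mat N} (h₁ : IsW A F W₁) (h₂ : IsW A F W₂) :
    W₁ = W₂ := by
  obtain ⟨a1, b1, s1⟩ := h₁
  obtain ⟨a2, b2, s2⟩ := h₂
  have hY : (W₁ - W₂)ᴴ = W₁ - W₂ := by
    rw [Matrix.conjTranspose_sub]
    have : W₁ - W₁ᴴ = W₂ - W₂ᴴ := by rw [b1, b2]
    have h3 : W₁ - W₂ = W₁ᴴ - W₂ᴴ := by
      rw [sub_eq_sub_iff_add_eq_add] at this ⊢
      rw [add_comm W₁ᴴ, ← this]
    exact h3.symm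
  have h : (W₁ - W₂) * W₁ + W₂ᴴ * (W₁ - W₂) = 0 := by
    calc (W₁ - W₂) * W₁ + W₂ᴴ * (W₁ - W₂) = (W₁ - W₂)ᴴ * W₁ + W₂ᴴ * (W₁ - W₂) := by rw [hY]
      _ = W₁ᴴ * W₁ - W₂ᴴ * W₂ := by
        rw [Matrix.conjTranspose_sub, Matrix.sub_mul, Matrix.mul_sub]; abel
      _ = 0 := by rw [a1, a2, sub_self]
  exact sub_eq_zero.mp (sylv1 s1 s2 h)

theorem stab : StabStmt := fun N =>
  ⟨fun _ _ _ h1 h2 h => sylv1 h1 h2 h, fun _ _ _ h1 h2 h => sylv2 h1 h2 h,
    fun _ h => h.isUnit_det, fun _ h => h.exists_isG, isOpen_stab N,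
    fun _ _ _ _ h1 h2 => isW_unique h1 h2⟩

end Pool.Agent.LTS
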