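import Pool.Agent.LTS.VPos

/-!
# From the fixed point of the truncated Riccati equation to `IsRic`
-/

set_option autoImplicit false

namespace Pool.Agent.LTS

open MeasureTheory Matrix Set Filter Topology
open scoped ComplexConjugate ComplexOrder

namespace VF

variable {N : ℕ}

lemma tr_hasDerivAt {G : ℝ → Mat N} {G' : Mat N} {x : ℝ}
    (h : ∀ i j, HasDerivAt (fun y => G y i j) (G' i j) x) :
    HasDerivAt (fun y => (Matrix.trace (G y)).re) ((Matrix.trace G').re) x := by
  have h1 : (fun y => (Matrix.trace (G y)).re) = fun y => ∑ i, (G y i i).re := by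
    funext y
    simp [Matrix.trace]
  have h2 : (Matrix.trace G').re = ∑ i, (G' i i).re := by simp [Matrix.trace]
  rw [h1, h2]
  refine HasDerivAt.fun_sum fun i _ => ?_
  exact (Complex.reCLM.hasFDerivAt.comp_hasDerivAt x (h i i))

lemma tr_cont {f : ℝ → Mat N} {s : Set ℝ} (hf : ContinuousOn f s) :
    ContinuousOn (fun x => (Matrix.trace (f x)).re) s := by
  have h1 : Continuous (fun M : Mat N => (Matrix.trace M).re) :=
    Complex.continuous_re.comp (continuous_id.matrix_trace)
  exact h1.comp_continuousOn hf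

lemma sum_entry_le {A : Mat N} {c : ℝ} (h : ∀ i j, ‖A i j‖ ≤ c) :
    ∑ i, ∑ j, ‖A i j‖ ≤ (N : ℝ) ^ 2 * c := by
  calc ∑ i, ∑ j, ‖A i j‖ ≤ ∑ _i : Fin N, ∑ _j : Fin N, c :=
        Finset.sum_le_sum fun i _ => Finset.sum_le_sum fun j _ => h i j
    _ = (N : ℝ) ^ 2 * c := by
        simp only [Finset.sum_const, Finset.card_univ, Fintype.card_fin, nsmul_eq_mul]
        ring

end VF

open VF in
theorem vfin (N : ℕ) (X v₀ : ℝ) (θ : ℝ → ℝ) (R : Mat N) (G V : ℝ → Mat N) (hX : 0 < X)
    (hG : ∀ x ∈ Set.Icc (-X) X, (G x).IsHermitian) (hc : ContinuousOn G (Set.Icc (-X) X))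
    (h0 : G (-X) = 0) (h1 : G X = (2 : ℂ) • R)
    (hθ : ∀ x ∈ Set.Ioo (-X) X, 0 ≤ θ x ∧ θ x ≤ 1)
    (hθc : ContinuousOn θ (Set.Icc (-X) X))
    (hV : ∀ x ∈ Set.Icc (-X) X, (V x).PosSemidef)
    (hVc : ContinuousOn V (Set.Icc (-X) X))
    (hv : ∫ x in (-X)..X, (Matrix.trace (V x)).re ≤ v₀)
    (hd : ∀ x ∈ Set.Ioo (-X) X, ∀ i j, HasDerivAt (fun y => G y i j)
      (((θ x : ℂ) • (G x * G x - R * G x - G x * R + V x)) i j) x)
    (hθ1 : ∀ x ∈ Set.Ioo (-X) X,
      ∑ i, ∑ j, ‖R i j‖ + ∑ i, ∑ j, ‖G x i j‖ ≤ 2 * (N : ℝ) ^ 2 * v₀ → θ x = 1) :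
    IsRic X R (fun x => R - G x) V := by
  have hXX : -X ≤ X := by linarith
  have hR2 : R = (1 / 2 : ℂ) • G X := by
    rw [h1, smul_smul]; norm_num
  have hXm : X ∈ Set.Icc (-X) X := ⟨hXX, le_refl X⟩
  have hRh : R.IsHermitian := by
    have : Rᴴ = R := by
      rw [hR2, conjTranspose_smul, (hG X hXm).eq]
      congr 1
      simp
    exact this
  have hIoo : Set.Ioo (-X) X ⊆ Set.Icc (-X) X := Set.Ioo_subset_Icc_self
  -- positivity
  have hpos : ∀ x ∈ Set.Icc (-X) X, (G x).PosSemidef :=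
    vpos N X θ R G V hX hRh hG hc h0 hθ (fun x hx => hV x (hIoo hx)) hd
  have hRpsd : R.PosSemidef := by
    rw [hR2]
    have h2 : (0 : ℂ) ≤ (1 / 2 : ℂ) := by
      rw [Complex.le_def]; norm_num
    exact (hpos X hXm).smul h2
  -- the reflected path
  have hneg : ∀ x, x ∈ Set.Icc (-X) X → -x ∈ Set.Icc (-X) X := fun x hx =>
    ⟨by linarith [hx.2], by linarith [hx.1]⟩
  have hnego : ∀ x, x ∈ Set.Ioo (-X) X → -x ∈ Set.Ioo (-X) X := fun x hx =>
    ⟨by linarith [hx.2], by linarith [hx.1]⟩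
  have h2R : ((2 : ℂ) • R).IsHermitian := by rw [← h1]; exact hG X hXm
  have hpos2 : ∀ x ∈ Set.Icc (-X) X, ((2 : ℂ) • R - G (-x)).PosSemidef := by
    refine vpos N X (fun x => θ (-x)) R (fun x => (2 : ℂ) • R - G (-x)) (fun x => V (-x)) hX hRh
      (fun x hx => h2R.sub (hG _ (hneg x hx))) ?_ ?_ (fun x hx => hθ _ (hnego x hx))
      (fun x hx => hV _ (hIoo (hnego x hx))) ?_
    · refine continuousOn_const.sub ?_
      exact hc.comp continuous_neg.continuousOn (fun x hx => hneg x hx)
    · show (2 : ℂ) • R - G (- -X) = 0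
      rw [neg_neg, h1, sub_self]
    · intro x hx i j
      have h3 := (hd (-x) (hnego x hx) i j)
      have h4 : HasDerivAt (fun y : ℝ => G (-y) i j)
          (-(((θ (-x) : ℂ) • (G (-x) * G (-x) - R * G (-x) - G (-x) * R + V (-x))) i j)) x := by
        have h4' := h3.scomp x (hasDerivAt_neg x)
        exact h4'.congr_deriv (neg_one_smul ℝ _)
      have h5 := (hasDerivAt_const x (((2 : ℂ) • R) i j)).sub h4
      have h6 : (fun y : ℝ => ((2 : ℂ) • R - G (-y)) i j) =
          (fun _ : ℝ => ((2 : ℂ) • R) i j) - fun y : ℝ => G (-y) i j := by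
        funext y; simp [Matrix.sub_apply]
      rw [h6]
      refine h5.congr_deriv ?_
      rw [zero_sub, neg_neg]
      have h7 : ((2 : ℂ) • R - G (-x)) * ((2 : ℂ) • R - G (-x)) - R * ((2 : ℂ) • R - G (-x)) -
          ((2 : ℂ) • R - G (-x)) * R + V (-x) =
          G (-x) * G (-x) - R * G (-x) - G (-x) * R + V (-x) := by
        have h8 : (2 : ℂ) • R = R + R := two_smul ℂ R
        rw [h8]
        noncomm_ring
      rw [h7]
  have hpos3 : ∀ x ∈ Set.Icc (-X) X, ((2 : ℂ) • R - G x).PosSemidef := by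
    intro x hx
    have := hpos2 (-x) (hneg x hx)
    rwa [neg_neg] at this
  -- the trace bound
  have hVt0 : ∀ x ∈ Set.Icc (-X) X, 0 ≤ (Matrix.trace (V x)).re := fun x hx =>
    (Complex.le_def.mp (hV x hx).trace_nonneg).1
  have htrG : ∀ x ∈ Set.Icc (-X) X, (Matrix.trace (G x)).re ≤ v₀ := by
    intro x hx
    have hsub : Set.Icc (-X) x ⊆ Set.Icc (-X) X := Set.Icc_subset_Icc_right hx.2
    set D : ℝ → Mat N := fun y => (θ y : ℂ) • (G y * G y - R * G y - G y * R + V y) with hD
    have hDc : ContinuousOn D (Set.Icc (-X) X) := by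
      refine ContinuousOn.smul (Complex.continuous_ofReal.comp_continuousOn hθc) ?_
      exact (((hc.mul hc).sub (continuousOn_const.mul hc)).sub
        (hc.mul continuousOn_const)).add hVc
    have hint : IntervalIntegrable (fun y => (Matrix.trace (D y)).re) volume (-X) x :=
      ((tr_cont hDc).mono hsub).intervalIntegrable_of_Icc hx.1
    have hFTC : ∫ y in (-X)..x, (Matrix.trace (D y)).re =
        (Matrix.trace (G x)).re - (Matrix.trace (G (-X))).re := by
      refine intervalIntegral.integral_eq_sub_of_hasDerivAt_of_le hx.1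
        (tr_cont (hc.mono hsub)) ?_ hint
      intro y hy
      exact tr_hasDerivAt (hd y ⟨hy.1, lt_of_lt_of_le hy.2 hx.2⟩)
    have hVint : ∀ a b, a ∈ Set.Icc (-X) X → b ∈ Set.Icc (-X) X →
        IntervalIntegrable (fun y => (Matrix.trace (V y)).re) volume a b := by
      intro a b ha hb
      refine ((tr_cont hVc).mono ?_).intervalIntegrable
      exact Set.uIcc_subset_Icc ha hb
    have hmx : -X ∈ Set.Icc (-X) X := ⟨le_refl _, hXX⟩
    have hle : ∫ y in (-X)..x, (Matrix.trace (D y)).re ≤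
        ∫ y in (-X)..x, (Matrix.trace (V y)).re := by
      refine intervalIntegral.integral_mono_on_of_le_Ioo hx.1 hint (hVint _ _ hmx hx) ?_
      intro y hy
      have hyo : y ∈ Set.Ioo (-X) X := ⟨hy.1, lt_of_lt_of_le hy.2 hx.2⟩
      have hyc := hIoo hyo
      obtain ⟨t0, t1⟩ := hθ y hyo
      have e1 : (Matrix.trace (D y)).re =
          θ y * (-(Matrix.trace (G y * ((2 : ℂ) • R - G y))).re + (Matrix.trace (V y)).re) := by
        have e2 : Matrix.trace (D y) = (θ y : ℂ) * (-(Matrix.trace (G y * ((2 : ℂ) • R - G y))) +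
            Matrix.trace (V y)) := by
          simp only [hD, Matrix.trace_smul, Matrix.trace_add, Matrix.trace_sub, Matrix.mul_sub,
            Matrix.mul_smul, smul_eq_mul]
          rw [Matrix.trace_mul_comm R (G y)]
          ring
        rw [e2, Complex.re_ofReal_mul, Complex.add_re, Complex.neg_re]
      have e3 := vtr (hpos y hyc) (hpos3 y hyc)
      have e4 := hVt0 y hyc
      rw [e1]
      nlinarith
    have hVmono : ∫ y in (-X)..x, (Matrix.trace (V y)).re ≤
        ∫ y in (-X)..X, (Matrix.trace (V y)).re := by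
      rw [← intervalIntegral.integral_add_adjacent_intervals (hVint _ _ hmx hx)
        (hVint _ _ hx hXm)]
      have : 0 ≤ ∫ y in x..X, (Matrix.trace (V y)).re :=
        intervalIntegral.integral_nonneg hx.2 fun y hy => hVt0 y ⟨hx.1.trans hy.1, hy.2⟩
      linarith
    rw [hFTC, h0] at hle
    simp only [Matrix.trace_zero, Complex.zero_re, sub_zero] at hle
    linarith
  have htrR : (Matrix.trace R).re ≤ v₀ := by
    have e1 := htrG X hXm
    rw [h1, Matrix.trace_smul, smul_eq_mul] at e1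
    have e2 : ((2 : ℂ) * Matrix.trace R).re = 2 * (Matrix.trace R).re := by simp
    rw [e2] at e1
    have e3 : 0 ≤ (Matrix.trace R).re := (Complex.le_def.mp hRpsd.trace_nonneg).1
    linarith
  have hth : ∀ x ∈ Set.Ioo (-X) X, θ x = 1 := by
    intro x hx
    refine hθ1 x hx ?_
    have e1 := sum_entry_le (A := R) (c := v₀) fun i j => (ventry hRpsd i j).trans htrR
    have e2 := sum_entry_le (A := G x) (c := v₀) fun i j =>
      (ventry (hpos x (hIoo hx)) i j).trans (htrG x (hIoo hx))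
    linarith
  refine ⟨hRpsd, ?_, ?_, continuousOn_const.sub hc, ?_, ?_⟩
  · show R - G (-X) = R
    rw [h0, sub_zero]
  · show R - G X = -R
    rw [h1, two_smul]; abel
  · intro x hx i j
    have h3 := hd x hx i j
    rw [hth x hx] at h3
    have h5 := (hasDerivAt_const x (R i j)).sub h3
    have h6 : (fun y : ℝ => (R - G y) i j) = (fun _ : ℝ => R i j) - fun y : ℝ => G y i j := by
      funext y; simp [Matrix.sub_apply]
    show HasDerivAt (fun y : ℝ => (R - G y) i j) _ x
    rw [h6]
    refine h5.congr_deriv ?_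
    have h7 : R * R - (R - G x) * (R - G x) - V x =
        - (((1 : ℝ) : ℂ) • (G x * G x - R * G x - G x * R + V x)) := by
      rw [Complex.ofReal_one, one_smul]
      simp only [Matrix.sub_mul, Matrix.mul_sub]
      abel
    rw [h7]
    simp
  · intro x hx
    refine ⟨?_, ?_⟩
    · have : R - (R - G x) = G x := by abel
      rw [this]; exact hpos x hx
    · have : R + (R - G x) = (2 : ℂ) • R - G x := by rw [two_smul]; abel
      rw [this]; exact hpos3 x hx

end Pool.Agent.LTS
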