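import Pool.Agent.LTS.Defs

/-!
# Comparison lemma for the truncated Riccati equation

`G' = θ (G² - R G - G R + V)`, `G(-X) = 0`, `V ≥ 0`, `0 ≤ θ ≤ 1` imply `G ≥ 0`.
-/

set_option autoImplicit false

namespace Pool.Agent.LTS

open MeasureTheory Matrix Set Filter Topology
open scoped ComplexConjugate ComplexOrder

namespace VP

variable {N : ℕ}

/-- the real quadratic form -/
noncomputable def qf (v : Fin N → ℂ) (M : Mat N) : ℝ := (star v ⬝ᵥ (M *ᵥ v)).re

lemma qf_add (v : Fin N → ℂ) (A B : Mat N) : qf v (A + B) = qf v A + qf v B := by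
  simp [qf, Matrix.add_mulVec, dotProduct_add]

lemma qf_sub (v : Fin N → ℂ) (A B : Mat N) : qf v (A - B) = qf v A - qf v B := by
  simp [qf, Matrix.sub_mulVec, dotProduct_sub]

lemma qf_smul (v : Fin N → ℂ) (c : ℝ) (A : Mat N) : qf v ((c : ℂ) • A) = c * qf v A := by
  simp [qf, Matrix.smul_mulVec, dotProduct_smul]

lemma qf_vsmul (v : Fin N → ℂ) (c : ℝ) (A : Mat N) :
    qf ((c : ℂ) • v) A = c ^ 2 * qf v A := by
  have h : star ((c : ℂ) • v) = (c : ℂ) • star v := by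
    ext i; simp
  unfold qf
  rw [h, Matrix.mulVec_smul, smul_dotProduct, dotProduct_smul, smul_smul]
  rw [smul_eq_mul]
  have : (c : ℂ) * (c : ℂ) = ((c ^ 2 : ℝ) : ℂ) := by push_cast; ring
  rw [this, Complex.re_ofReal_mul]

lemma qf_one (v : Fin N → ℂ) : qf v (1 : Mat N) = ∑ i, ‖v i‖ ^ 2 := by
  unfold qf
  rw [Matrix.one_mulVec, dotProduct, Complex.re_sum]
  refine Finset.sum_congr rfl fun i _ => ?_
  rw [Pi.star_apply, Complex.star_def, ← Complex.normSq_eq_conj_mul_self, Complex.ofReal_re,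
    Complex.normSq_eq_norm_sq]

lemma qf_one_pos {v : Fin N → ℂ} (hv : v ≠ 0) : 0 < qf v (1 : Mat N) := by
  rw [qf_one]
  obtain ⟨i, hi⟩ := Function.ne_iff.mp hv
  exact Finset.sum_pos' (fun _ _ => sq_nonneg _) ⟨i, Finset.mem_univ i, by
    have : 0 < ‖v i‖ := norm_pos_iff.mpr hi
    positivity⟩

lemma qf_one_nonneg (v : Fin N → ℂ) : 0 ≤ qf v (1 : Mat N) := by
  rw [qf_one]; positivity

lemma qf_expand (v : Fin N → ℂ) (M : Mat N) :
    qf v M = ∑ i, ∑ j, (conj (v i) * (M i j * v j)).re := by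
  unfold qf
  rw [dotProduct, Complex.re_sum]
  refine Finset.sum_congr rfl fun i _ => ?_
  rw [Matrix.mulVec, dotProduct, Finset.mul_sum, Complex.re_sum]
  rfl

/-- `|v* R v| ≤ (∑ |R_ij|) |v|²` -/
lemma qf_bound (R : Mat N) (v : Fin N → ℂ) :
    |qf v R| ≤ (∑ i, ∑ j, ‖R i j‖) * qf v (1 : Mat N) := by
  rw [qf_expand, Finset.sum_mul]
  refine (Finset.abs_sum_le_sum_abs _ _).trans (Finset.sum_le_sum fun i _ => ?_)
  rw [Finset.sum_mul]
  refine (Finset.abs_sum_le_sum_abs _ _).trans (Finset.sum_le_sum fun j _ => ?_)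
  refine (Complex.abs_re_le_norm _).trans ?_
  rw [norm_mul, norm_mul, RCLike.norm_conj]
  have h1 : ‖v i‖ * ‖v j‖ ≤ qf v (1 : Mat N) := by
    rw [qf_one]
    by_cases hij : i = j
    · subst hij
      rw [← sq]
      exact Finset.single_le_sum (f := fun k => ‖v k‖ ^ 2) (fun _ _ => sq_nonneg _)
        (Finset.mem_univ i)
    · have h2 : ‖v i‖ ^ 2 + ‖v j‖ ^ 2 ≤ ∑ k, ‖v k‖ ^ 2 := by
        have := Finset.sum_le_sum_of_subset_of_nonneg (f := fun k => ‖v k‖ ^ 2)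
          (Finset.subset_univ ({i, j} : Finset (Fin N))) (fun _ _ _ => sq_nonneg _)
        rwa [Finset.sum_pair hij] at this
      nlinarith [sq_nonneg (‖v i‖ - ‖v j‖), sq_nonneg ‖v i‖, sq_nonneg ‖v j‖]
  nlinarith [norm_nonneg (R i j), mul_le_mul_of_nonneg_left h1 (norm_nonneg (R i j))]

lemma qf_continuous : Continuous (fun p : (Fin N → ℂ) × Mat N => qf p.1 p.2) := by
  unfold qf
  refine Complex.continuous_re.comp ?_
  exact Continuous.dotProduct (continuous_star.comp continuous_fst)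
    (Continuous.matrix_mulVec continuous_snd continuous_fst)

lemma qf_hasDerivAt {G : ℝ → Mat N} {G' : Mat N} {x : ℝ} (v : Fin N → ℂ)
    (h : ∀ i j, HasDerivAt (fun y => G y i j) (G' i j) x) :
    HasDerivAt (fun y => qf v (G y)) (qf v G') x := by
  have h1 : (fun y => qf v (G y)) =
      fun y => ∑ i, ∑ j, (conj (v i) * (G y i j * v j)).re := by
    funext y; exact qf_expand v (G y)
  rw [h1, qf_expand]
  refine HasDerivAt.fun_sum fun i _ => HasDerivAt.fun_sum fun j _ => ?_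
  have h2 : HasDerivAt (fun y => conj (v i) * (G y i j * v j)) (conj (v i) * (G' i j * v j)) x :=
    ((h i j).mul_const (v j)).const_mul (conj (v i))
  exact (Complex.reCLM.hasFDerivAt.comp_hasDerivAt x h2)

/-- identity used at the first crossing -/
lemma qf_crossing {G R : Mat N} (hG : G.IsHermitian) {v : Fin N → ℂ} {t : ℝ}
    (h : G *ᵥ v = (-(t : ℂ)) • v) :
    qf v (G * G) = t ^ 2 * qf v (1 : Mat N) ∧ qf v (R * G) = -t * qf v R ∧
      qf v (G * R) = -t * qf v R := by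
  have e0 : ∀ w : Fin N → ℂ, star v ⬝ᵥ (G *ᵥ w) = (-(t : ℂ)) * (star v ⬝ᵥ w) := by
    intro w
    have h1 : star v ⬝ᵥ (G *ᵥ w) = (star (G *ᵥ v)) ⬝ᵥ w := by
      rw [Matrix.star_mulVec, hG.eq, Matrix.dotProduct_mulVec]
    rw [h1, h]
    have h2 : star ((-(t : ℂ)) • v) = (-(t : ℂ)) • star v := by
      ext i; simp
    rw [h2, smul_dotProduct, smul_eq_mul]
  have er : ∀ z : ℂ, (-(t : ℂ) * z).re = -t * z.re := by
    intro z
    simp
  refine ⟨?_, ?_, ?_⟩
  · unfold qf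
    rw [← Matrix.mulVec_mulVec, e0, h, er, dotProduct_smul, smul_eq_mul, er, Matrix.one_mulVec]
    ring
  · unfold qf
    rw [← Matrix.mulVec_mulVec, h, Matrix.mulVec_smul, dotProduct_smul, smul_eq_mul, er]
  · unfold qf
    rw [← Matrix.mulVec_mulVec, e0, er]

/-- the strict inequality up to `b < X` -/
theorem strict (X : ℝ) (θ : ℝ → ℝ) (R : Mat N) (G V : ℝ → Mat N) (_hX : 0 < X)
    (hG : ∀ x ∈ Set.Icc (-X) X, (G x).IsHermitian)
    (hc : ContinuousOn G (Set.Icc (-X) X)) (h0 : G (-X) = 0)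
    (hθ : ∀ x ∈ Set.Ioo (-X) X, 0 ≤ θ x ∧ θ x ≤ 1)
    (hV : ∀ x ∈ Set.Ioo (-X) X, (V x).PosSemidef)
    (hd : ∀ x ∈ Set.Ioo (-X) X, ∀ i j, HasDerivAt (fun y => G y i j)
      (((θ x : ℂ) • (G x * G x - R * G x - G x * R + V x)) i j) x)
    (b : ℝ) (hb : b ∈ Set.Ioo (-X) X) (ε : ℝ) (hε : 0 < ε) :
    ∀ x ∈ Set.Icc (-X) b, ∀ v : Fin N → ℂ, v ≠ 0 →
      0 < qf v (G x) + ε * Real.exp ((2 * (∑ i, ∑ j, ‖R i j‖) + 1) * (x + X)) *
        qf v (1 : Mat N) := by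
  set K : ℝ := ∑ i, ∑ j, ‖R i j‖ with hK
  have hK0 : 0 ≤ K := Finset.sum_nonneg fun _ _ => Finset.sum_nonneg fun _ _ => norm_nonneg _
  set e : ℝ → ℝ := fun x => ε * Real.exp ((2 * K + 1) * (x + X)) with he
  have hepos : ∀ x, 0 < e x := fun x => mul_pos hε (Real.exp_pos _)
  have hecont : Continuous e := by fun_prop
  set Fn : ℝ × (Fin N → ℂ) → ℝ := fun p => qf p.2 (G p.1) + e p.1 * qf p.2 (1 : Mat N) with hFn
  -- reduction to the sphere
  suffices hs : ∀ x ∈ Set.Icc (-X) b, ∀ v ∈ Metric.sphere (0 : Fin N → ℂ) 1, 0 < Fn (x, v) by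
    intro x hx v hv
    have hn : 0 < ‖v‖ := norm_pos_iff.mpr hv
    set w : Fin N → ℂ := (((‖v‖⁻¹ : ℝ)) : ℂ) • v with hw
    have hw1 : w ∈ Metric.sphere (0 : Fin N → ℂ) 1 := by
      rw [mem_sphere_zero_iff_norm, hw, norm_smul, Complex.norm_real, Real.norm_eq_abs,
        abs_of_pos (by positivity)]
      field_simp
    have h1 := hs x hx w hw1
    simp only [hFn] at h1
    rw [hw, qf_vsmul, qf_vsmul] at h1
    have h2 : 0 < (‖v‖⁻¹) ^ 2 * (qf v (G x) + e x * qf v (1 : Mat N)) := by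
      have : (‖v‖⁻¹) ^ 2 * (qf v (G x) + e x * qf v (1 : Mat N)) =
        ‖v‖⁻¹ ^ 2 * qf v (G x) + e x * (‖v‖⁻¹ ^ 2 * qf v 1) := by ring
      rw [this]; exact h1
    exact (pos_iff_pos_of_mul_pos h2).mp (by positivity)
  by_contra hcon
  push Not at hcon
  have hsub : Set.Icc (-X) b ⊆ Set.Icc (-X) X := Set.Icc_subset_Icc_right hb.2.le
  have hFc : ContinuousOn Fn (Set.Icc (-X) b ×ˢ Metric.sphere (0 : Fin N → ℂ) 1) := by
    refine ContinuousOn.add ?_ ?_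
    · have h1 : ContinuousOn (fun p : ℝ × (Fin N → ℂ) => (p.2, G p.1))
          (Set.Icc (-X) b ×ˢ Metric.sphere (0 : Fin N → ℂ) 1) := by
        refine ContinuousOn.prodMk continuousOn_snd ?_
        exact (hc.mono hsub).comp continuousOn_fst (fun p hp => hp.1)
      exact qf_continuous.comp_continuousOn h1
    · refine ContinuousOn.mul (hecont.comp_continuousOn continuousOn_fst) ?_
      have h1 : Continuous (fun p : ℝ × (Fin N → ℂ) => (p.2, (1 : Mat N))) := by fun_prop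
      exact (qf_continuous.comp h1).continuousOn
  have hcomp : IsCompact (Set.Icc (-X) b ×ˢ Metric.sphere (0 : Fin N → ℂ) 1) :=
    isCompact_Icc.prod (isCompact_sphere _ _)
  set S := (Set.Icc (-X) b ×ˢ Metric.sphere (0 : Fin N → ℂ) 1) ∩ Fn ⁻¹' (Set.Iic 0) with hS
  have hScl : IsClosed S := hFc.preimage_isClosed_of_isClosed hcomp.isClosed isClosed_Iic
  have hSc : IsCompact S := hcomp.of_isClosed_subset hScl Set.inter_subset_left
  have hSne : S.Nonempty := by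
    obtain ⟨x, hx, v, hv, hle⟩ := hcon
    exact ⟨(x, v), ⟨hx, hv⟩, hle⟩
  obtain ⟨p, hpS, hpmin⟩ := hSc.exists_isMinOn hSne continuous_fst.continuousOn
  obtain ⟨x₁, v₁⟩ := p
  have hx₁ : x₁ ∈ Set.Icc (-X) b := hpS.1.1
  have hv₁ : v₁ ∈ Metric.sphere (0 : Fin N → ℂ) 1 := hpS.1.2
  have hle : Fn (x₁, v₁) ≤ 0 := hpS.2
  have hne0 : ∀ v ∈ Metric.sphere (0 : Fin N → ℂ) 1, v ≠ 0 := by
    intro v hv h
    rw [h, mem_sphere_zero_iff_norm, norm_zero] at hv
    exact zero_ne_one hv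
  have hbefore : ∀ x ∈ Set.Icc (-X) b, x < x₁ → ∀ v ∈ Metric.sphere (0 : Fin N → ℂ) 1,
      0 < Fn (x, v) := by
    intro x hx hlt v hv
    by_contra hnot
    have : (x, v) ∈ S := ⟨⟨hx, hv⟩, not_lt.mp hnot⟩
    have := hpmin this
    have h5 : x₁ ≤ x := this
    linarith
  have hx₁ne : x₁ ≠ -X := by
    intro h
    rw [h] at hle
    simp only [hFn, h0] at hle
    have h1 : qf v₁ (0 : Mat N) = 0 := by simp [qf]
    rw [h1, zero_add] at hle
    have := mul_pos (hepos (-X)) (qf_one_pos (hne0 v₁ hv₁))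
    linarith
  have hx₁o : -X < x₁ := lt_of_le_of_ne hx₁.1 (Ne.symm hx₁ne)
  have hx₁oo : x₁ ∈ Set.Ioo (-X) X := ⟨hx₁o, lt_of_le_of_lt hx₁.2 hb.2⟩
  -- nonnegative at x₁
  have hder : ∀ v : Fin N → ℂ, HasDerivAt (fun x => Fn (x, v))
      (qf v ((θ x₁ : ℂ) • (G x₁ * G x₁ - R * G x₁ - G x₁ * R + V x₁)) +
        (2 * K + 1) * e x₁ * qf v (1 : Mat N)) x₁ := by
    intro v
    have h1 : HasDerivAt e ((2 * K + 1) * e x₁) x₁ := by
      have h2 : HasDerivAt (fun x : ℝ => (2 * K + 1) * (x + X)) ((2 * K + 1) * 1) x₁ :=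
        ((hasDerivAt_id x₁).add_const X).const_mul _
      have h3 := (h2.exp).const_mul ε
      refine h3.congr_deriv ?_
      show ε * (Real.exp ((2 * K + 1) * (x₁ + X)) * ((2 * K + 1) * 1)) =
        (2 * K + 1) * (ε * Real.exp ((2 * K + 1) * (x₁ + X)))
      ring
    exact (qf_hasDerivAt v (hd x₁ hx₁oo)).add (h1.mul_const (qf v (1 : Mat N)))
  have hleft : ∀ᶠ x in 𝓝[<] x₁, x ∈ Set.Icc (-X) b ∧ x < x₁ := by
    have h1 : Set.Ioo (-X) x₁ ∈ 𝓝[<] x₁ := Ioo_mem_nhdsLT hx₁o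
    filter_upwards [h1] with x hx
    exact ⟨⟨hx.1.le, hx.2.le.trans hx₁.2⟩, hx.2⟩
  have hge : ∀ v ∈ Metric.sphere (0 : Fin N → ℂ) 1, 0 ≤ Fn (x₁, v) := by
    intro v hv
    have h1 : Tendsto (fun x => Fn (x, v)) (𝓝[<] x₁) (𝓝 (Fn (x₁, v))) :=
      (hder v).continuousAt.tendsto.mono_left nhdsWithin_le_nhds
    refine ge_of_tendsto h1 ?_
    filter_upwards [hleft] with x hx
    exact (hbefore x hx.1 hx.2 v hv).le
  have heq : Fn (x₁, v₁) = 0 := le_antisymm hle (hge v₁ hv₁)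
  -- the matrix H
  set H : Mat N := G x₁ + ((e x₁ : ℝ) : ℂ) • (1 : Mat N) with hH
  have hGh : (G x₁).IsHermitian := hG x₁ (hsub hx₁)
  have hHherm : H.IsHermitian := by
    refine hGh.add ?_
    have : ((((e x₁ : ℝ) : ℂ)) • (1 : Mat N))ᴴ = (((e x₁ : ℝ) : ℂ)) • (1 : Mat N) := by
      rw [conjTranspose_smul, conjTranspose_one, Complex.star_def, Complex.conj_ofReal]
    exact this
  have hFH : ∀ v : Fin N → ℂ, Fn (x₁, v) = qf v H := by
    intro v
    simp only [hFn, hH, qf_add, qf_smul]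
  have him : ∀ v : Fin N → ℂ, (star v ⬝ᵥ (H *ᵥ v)).im = 0 := by
    intro v
    have := hHherm.im_star_dotProduct_mulVec_self v
    simpa using this
  have hHpsd : H.PosSemidef := by
    refine PosSemidef.of_dotProduct_mulVec_nonneg hHherm fun v => ?_
    rw [Complex.le_def]
    refine ⟨?_, by rw [him v]; rfl⟩
    show 0 ≤ qf v H
    by_cases hv : v = 0
    · rw [hv]; simp [qf]
    · have hn : 0 < ‖v‖ := norm_pos_iff.mpr hv
      set w : Fin N → ℂ := (((‖v‖⁻¹ : ℝ)) : ℂ) • v with hw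
      have hw1 : w ∈ Metric.sphere (0 : Fin N → ℂ) 1 := by
        rw [mem_sphere_zero_iff_norm, hw, norm_smul, Complex.norm_real, Real.norm_eq_abs,
          abs_of_pos (by positivity)]
        field_simp
      have h1 := hge w hw1
      rw [hFH, hw, qf_vsmul] at h1
      exact nonneg_of_mul_nonneg_right h1 (by positivity)
  have hnull : H *ᵥ v₁ = 0 := by
    rw [← hHpsd.dotProduct_mulVec_zero_iff]
    apply Complex.ext
    · have : (star v₁ ⬝ᵥ (H *ᵥ v₁)).re = qf v₁ H := rfl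
      rw [this, ← hFH, heq]; rfl
    · rw [him v₁]; rfl
  have hGv : G x₁ *ᵥ v₁ = (-((e x₁ : ℝ) : ℂ)) • v₁ := by
    rw [hH, Matrix.add_mulVec, Matrix.smul_mulVec, Matrix.one_mulVec] at hnull
    rw [neg_smul]
    exact eq_neg_of_add_eq_zero_left hnull
  obtain ⟨c1, c2, c3⟩ := qf_crossing (R := R) hGh hGv
  -- the derivative is nonpositive
  have hD := hder v₁
  have hDle : qf v₁ ((θ x₁ : ℂ) • (G x₁ * G x₁ - R * G x₁ - G x₁ * R + V x₁)) +
        (2 * K + 1) * e x₁ * qf v₁ (1 : Mat N) ≤ 0 := by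
    have h1 := hD.tendsto_slope
    have h2 : Tendsto (slope (fun x => Fn (x, v₁)) x₁) (𝓝[<] x₁)
        (𝓝 (qf v₁ ((θ x₁ : ℂ) • (G x₁ * G x₁ - R * G x₁ - G x₁ * R + V x₁)) +
        (2 * K + 1) * e x₁ * qf v₁ (1 : Mat N))) :=
      h1.mono_left (nhdsWithin_mono _ fun x hx => ne_of_lt hx)
    refine le_of_tendsto h2 ?_
    filter_upwards [hleft] with x hx
    rw [slope_def_field]
    refine div_nonpos_of_nonneg_of_nonpos ?_ (by linarith [hx.2])
    simp only [heq, sub_zero]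
    exact (hbefore x hx.1 hx.2 v₁ hv₁).le
  rw [qf_smul, qf_add, qf_sub, qf_sub, c1, c2, c3] at hDle
  have hVn : 0 ≤ qf v₁ (V x₁) := by
    have := (hV x₁ hx₁oo).dotProduct_mulVec_nonneg v₁
    exact (Complex.le_def.mp this).1
  have hRb := qf_bound R v₁
  rw [← hK] at hRb
  have hp := qf_one_pos (hne0 v₁ hv₁)
  obtain ⟨ht0, ht1⟩ := hθ x₁ hx₁oo
  have he1 := hepos x₁
  have hR2 : -(K * qf v₁ 1) ≤ qf v₁ R := (abs_le.mp hRb).1
  have key : 0 < θ x₁ * (e x₁ ^ 2 * qf v₁ 1 - -e x₁ * qf v₁ R - -e x₁ * qf v₁ R + qf v₁ (V x₁)) +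
      (2 * K + 1) * e x₁ * qf v₁ (1 : Mat N) := by
    have k1 : θ x₁ * (e x₁ ^ 2 * qf v₁ 1 - -e x₁ * qf v₁ R - -e x₁ * qf v₁ R + qf v₁ (V x₁)) ≥
        - (2 * K * e x₁ * qf v₁ 1) := by
      have k2 : e x₁ ^ 2 * qf v₁ 1 - -e x₁ * qf v₁ R - -e x₁ * qf v₁ R + qf v₁ (V x₁) ≥
          - (2 * K * e x₁ * qf v₁ 1) := by
        have k3 : e x₁ * qf v₁ R ≥ e x₁ * (-(K * qf v₁ 1)) :=
          mul_le_mul_of_nonneg_left hR2 he1.le
        nlinarith [mul_nonneg (sq_nonneg (e x₁)) hp.le]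
      have k4 : 0 ≤ 2 * K * e x₁ * qf v₁ 1 := by positivity
      nlinarith
    nlinarith [mul_pos he1 hp]
  linarith

end VP

open VP in
/-- comparison lemma -/
theorem vpos (N : ℕ) (X : ℝ) (θ : ℝ → ℝ) (R : Mat N) (G V : ℝ → Mat N) (hX : 0 < X)
    (_hR : R.IsHermitian)
    (hG : ∀ x ∈ Set.Icc (-X) X, (G x).IsHermitian) (hc : ContinuousOn G (Set.Icc (-X) X))
    (h0 : G (-X) = 0) (hθ : ∀ x ∈ Set.Ioo (-X) X, 0 ≤ θ x ∧ θ x ≤ 1)
    (hV : ∀ x ∈ Set.Ioo (-X) X, (V x).PosSemidef)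
    (hd : ∀ x ∈ Set.Ioo (-X) X, ∀ i j, HasDerivAt (fun y => G y i j)
      (((θ x : ℂ) • (G x * G x - R * G x - G x * R + V x)) i j) x) :
    ∀ x ∈ Set.Icc (-X) X, (G x).PosSemidef := by
  -- quadratic form is nonnegative on the half-open interval
  have h1 : ∀ x ∈ Set.Ico (-X) X, ∀ v : Fin N → ℂ, 0 ≤ qf v (G x) := by
    intro x hx v
    by_cases hv : v = 0
    · rw [hv]; simp [qf]
    by_cases hxX : x = -X
    · rw [hxX, h0]; simp [qf]
    have hxo : x ∈ Set.Ioo (-X) X := ⟨lt_of_le_of_ne hx.1 (Ne.symm hxX), hx.2⟩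
    by_contra hneg
    push Not at hneg
    set c := Real.exp ((2 * (∑ i, ∑ j, ‖R i j‖) + 1) * (x + X)) * qf v (1 : Mat N) with hcdef
    have hc0 : 0 < c := mul_pos (Real.exp_pos _) (qf_one_pos hv)
    have h2 := strict X θ R G V hX hG hc h0 hθ hV hd x hxo (-(qf v (G x)) / c)
      (div_pos (by linarith) hc0) x ⟨hx.1, le_refl x⟩ v hv
    rw [mul_assoc, ← hcdef, div_mul_cancel₀ _ hc0.ne'] at h2
    linarith
  intro x hx
  refine PosSemidef.of_dotProduct_mulVec_nonneg (hG x hx) fun v => ?_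
  rw [Complex.le_def]
  refine ⟨?_, ?_⟩
  · show 0 ≤ qf v (G x)
    by_cases hxX : x = X
    · subst hxX
      have hcx : ContinuousWithinAt G (Set.Icc (-x) x) x := hc x hx
      have h2 : Tendsto G (𝓝[<] x) (𝓝 (G x)) := by
        refine hcx.tendsto.mono_left ?_
        rw [nhdsWithin_le_iff]
        filter_upwards [Ioo_mem_nhdsLT (show -x < x by linarith)] with y hy
        exact ⟨hy.1.le, hy.2.le⟩
      have h3 : Tendsto (fun y => qf v (G y)) (𝓝[<] x) (𝓝 (qf v (G x))) := by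
        have h4 : Continuous (fun M : Mat N => qf v M) :=
          qf_continuous.comp (by fun_prop : Continuous fun M : Mat N => (v, M))
        exact (h4.tendsto (G x)).comp h2
      refine ge_of_tendsto h3 ?_
      filter_upwards [Ioo_mem_nhdsLT (show -x < x by linarith)] with y hy
      exact h1 y ⟨hy.1.le, hy.2⟩ v
    · exact h1 x ⟨hx.1, lt_of_le_of_ne hx.2 hxX⟩ v
  · have := (hG x hx).im_star_dotProduct_mulVec_self v
    have h5 : (star v ⬝ᵥ (G x *ᵥ v)).im = 0 := by simpa using this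
    rw [h5]; rfl

open scoped MatrixOrder in
open scoped Matrix.Norms.L2Operator in
theorem VP.exists_sq {N : ℕ} {P : Mat N} (hP : P.PosSemidef) : ∃ B : Mat N, P = Bᴴ * B := by
  obtain ⟨B, hB⟩ := CStarAlgebra.nonneg_iff_eq_star_mul_self.mp hP.nonneg
  exact ⟨B, hB⟩

/-- the trace of a product of positive semidefinite matrices is nonnegative -/
theorem vtr {N : ℕ} {A B : Mat N} (hA : A.PosSemidef) (hB : B.PosSemidef) :
    0 ≤ (Matrix.trace (A * B)).re := by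
  obtain ⟨C, hC⟩ := VP.exists_sq hB
  have h1 : Matrix.trace (A * B) = Matrix.trace (C * A * Cᴴ) := by
    rw [hC, ← Matrix.mul_assoc, Matrix.trace_mul_comm, ← Matrix.mul_assoc]
  have h2 := (hA.mul_mul_conjTranspose_same C).trace_nonneg
  rw [h1]
  exact (Complex.le_def.mp h2).1

/-- entries of a positive semidefinite matrix are bounded by the trace -/
theorem ventry {N : ℕ} {A : Mat N} (hA : A.PosSemidef) (i j : Fin N) :
    ‖A i j‖ ≤ (Matrix.trace A).re := by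
  obtain ⟨B, hB⟩ := VP.exists_sq hA
  have htr : (Matrix.trace A).re = ∑ l, ∑ k, ‖B k l‖ ^ 2 := by
    rw [hB, Matrix.trace, Complex.re_sum]
    refine Finset.sum_congr rfl fun l _ => ?_
    rw [Matrix.diag_apply, Matrix.mul_apply, Complex.re_sum]
    refine Finset.sum_congr rfl fun k _ => ?_
    rw [conjTranspose_apply, Complex.star_def, ← Complex.normSq_eq_conj_mul_self,
      Complex.ofReal_re, Complex.normSq_eq_norm_sq]
  have hcol : ∀ l, ∑ k, ‖B k l‖ ^ 2 ≤ (Matrix.trace A).re := fun l => by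
    rw [htr]
    exact Finset.single_le_sum (f := fun l => ∑ k, ‖B k l‖ ^ 2)
      (fun _ _ => Finset.sum_nonneg fun _ _ => sq_nonneg _) (Finset.mem_univ l)
  have e : A i j = ∑ k, star (B k i) * B k j := by
    rw [hB, Matrix.mul_apply]; rfl
  calc ‖A i j‖ = ‖∑ k, star (B k i) * B k j‖ := by rw [e]
    _ ≤ ∑ k, ‖star (B k i) * B k j‖ := norm_sum_le _ _
    _ ≤ ∑ k, (‖B k i‖ ^ 2 + ‖B k j‖ ^ 2) / 2 := by
        refine Finset.sum_le_sum fun k _ => ?_
        rw [norm_mul, norm_star]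
        nlinarith [sq_nonneg (‖B k i‖ - ‖B k j‖)]
    _ = ((∑ k, ‖B k i‖ ^ 2) + ∑ k, ‖B k j‖ ^ 2) / 2 := by
        rw [← Finset.sum_div, Finset.sum_add_distrib]
    _ ≤ (Matrix.trace A).re := by linarith [hcol i, hcol j]

end Pool.Agent.LTS
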